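import Pool.Agent.H659.Tools

set_option autoImplicit false

open MeasureTheory Set Filter Topology

namespace Pool.Agent.H659

open Pool.Agent.W783.PC (pm DepOn Inc)

noncomputable section

variable {V : Type}

/-- truncation to a finite set of edges -/
def Tr (A : Set (Sym2 V) → Prop) (F : Finset (Sym2 V)) (K : Set (Sym2 V)) : Prop :=
  A (K ∩ F)

theorem tr_dep (A : Set (Sym2 V) → Prop) (F : Finset (Sym2 V)) :
    DepOn (Ev (Tr A F)) (F : Set (Sym2 V)) := by
  apply lo_dep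
  intro K K' h
  unfold Tr
  rw [h]

theorem tr_inc {A : Set (Sym2 V) → Prop} (hA : Fm A) (F : Finset (Sym2 V)) :
    Inc (Ev (Tr A F)) := by
  intro ω ω' h hω
  exact hA.1 _ _ (inter_subset_inter_left _ fun e he => h e he) hω

theorem tr_mono {A : Set (Sym2 V) → Prop} (hA : Fm A) : Monotone fun F => Ev (Tr A F) := by
  intro F F' h ω hω
  exact hA.1 _ _ (inter_subset_inter_right _ (by exact_mod_cast h)) hω

theorem tr_le {A : Set (Sym2 V) → Prop} (hA : Fm A) (F : Finset (Sym2 V)) (K : Set (Sym2 V))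
    (h : Tr A F K) : A K := hA.1 _ _ inter_subset_left h

theorem tr_union {A : Set (Sym2 V) → Prop} (hA : Fm A) : ⋃ F, Ev (Tr A F) = Ev A := by
  ext ω
  simp only [mem_iUnion]
  constructor
  · rintro ⟨F, h⟩; exact tr_le hA F _ h
  · intro h
    obtain ⟨K', h1, h2, h3⟩ := hA.2 _ h
    refine ⟨h2.toFinset, ?_⟩
    show A (opn ω ∩ _)
    refine hA.1 _ _ ?_ h3
    intro e he
    exact ⟨h1 he, by simpa using he⟩

theorem tr_tendsto [Countable V] (p : unitInterval) {A : Set (Sym2 V) → Prop} (hA : Fm A) :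
    Tendsto (fun F : Finset (Sym2 V) => Pb p (Tr A F)) atTop (𝓝 (Pb p A)) := by
  have h := tendsto_measure_iUnion_atTop (μ := pm (fun _ : Sym2 V => p)) (tr_mono hA)
  rw [tr_union hA] at h
  exact (ENNReal.tendsto_toReal (measure_ne_top _ _)).comp h

theorem harris2 [Countable V] (p : unitInterval) {A B : Set (Sym2 V) → Prop} (hA : Fm A)
    (hB : Fm B) : Pb p A * Pb p B ≤ Pb p (fun K => A K ∧ B K) := by
  refine le_of_tendsto ((tr_tendsto p hA).mul (tr_tendsto p hB)) (Eventually.of_forall fun F => ?_)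
  have := Pool.Agent.W333.PC.s_harris (Sym2 V) (fun _ => p) F (Ev (Tr A F)) (Ev (Tr B F))
    (tr_dep A F) (tr_dep B F) (tr_inc hA F) (tr_inc hB F)
  refine this.trans ?_
  refine measureReal_mono ?_
  rintro ω ⟨h1, h2⟩
  exact ⟨tr_le hA F _ h1, tr_le hB F _ h2⟩

theorem Pb_or_eq [Countable V] (p : unitInterval) {A B : Set (Sym2 V) → Prop}
    (mB : MeasurableSet (Ev B)) :
    Pb p (fun K => A K ∨ B K) = Pb p A + Pb p B - Pb p (fun K => A K ∧ B K) := by
  have h := measureReal_union_add_inter (μ := pm (fun _ : Sym2 V => p)) (s := Ev A) (t := Ev B) mB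
  unfold Pb
  have e1 : Ev (fun K => A K ∨ B K) = Ev A ∪ Ev B := rfl
  have e2 : Ev (fun K => A K ∧ B K) = Ev A ∩ Ev B := rfl
  rw [e1, e2]
  linarith

theorem fm_or {A B : Set (Sym2 V) → Prop} (hA : Fm A) (hB : Fm B) :
    Fm (fun K => A K ∨ B K) := by
  refine ⟨fun K K' h => Or.imp (hA.1 _ _ h) (hB.1 _ _ h), ?_⟩
  rintro K (h | h)
  · obtain ⟨L, a1, a2, a3⟩ := hA.2 _ h
    exact ⟨L, a1, a2, Or.inl a3⟩
  · obtain ⟨L, a1, a2, a3⟩ := hB.2 _ h
    exact ⟨L, a1, a2, Or.inr a3⟩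

theorem fm_exF {α : Type*} (F : Finset α) (B : α → Set (Sym2 V) → Prop)
    (h : ∀ v ∈ F, Fm (B v)) : Fm (fun K => ∃ v ∈ F, B v K) := by
  refine ⟨fun K K' hK ⟨v, hv, hB⟩ => ⟨v, hv, (h v hv).1 _ _ hK hB⟩, ?_⟩
  rintro K ⟨v, hv, hB⟩
  obtain ⟨L, a1, a2, a3⟩ := (h v hv).2 _ hB
  exact ⟨L, a1, a2, v, hv, a3⟩

theorem t_har : S_har := by
  classical
  intro V _ p F B
  induction F using Finset.induction_on with
  | empty =>
    intro _
    rw [Pb_false p (by simp)]
    simp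
  | insert a F ha ih =>
    intro h
    have h1 : Fm (B a) := h a (Finset.mem_insert_self _ _)
    have h2 : ∀ v ∈ F, Fm (B v) := fun v hv => h v (Finset.mem_insert_of_mem hv)
    have ih' := ih h2
    have hF := fm_exF F B h2
    have e : Pb p (fun K => ∃ v ∈ insert a F, B v K) =
        Pb p (fun K => (∃ v ∈ F, B v K) ∨ B a K) := by
      refine Pb_congr fun K => ?_
      rw [Finset.exists_mem_insert]
      exact or_comm
    rw [e, Pb_or_eq p (t_meas V _ h1), Finset.prod_insert ha]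
    have h3 := harris2 p hF h1
    have h4 : 0 ≤ 1 - Pb p (B a) := by linarith [Pb_le_one p (B a)]
    have h5 : (1 - Pb p (B a)) * Pb p (fun K => ∃ v ∈ F, B v K) ≤
      (1 - Pb p (B a)) * (1 - ∏ v ∈ F, (1 - Pb p (B v))) := mul_le_mul_of_nonneg_left ih' h4
    nlinarith

end

end Pool.Agent.H659
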