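import Pool.Agent.H659.Stmts

/-!
# The inequality of Bonferroni
-/

set_option autoImplicit false

open MeasureTheory Set Filter Topology

namespace Pool.Agent.H659

open Pool.Agent.W783.PC (pm DepOn Inc)

namespace Bon

open Classical in
theorem bonferroni {Ω ι : Type} [MeasurableSpace Ω] (μ : Measure Ω) [IsProbabilityMeasure μ]
    (A : ι → Set Ω) (hA : ∀ i, MeasurableSet (A i)) (s : Finset ι) :
    ∑ v ∈ s, μ.real (A v) - (∑ q ∈ s.offDiag, μ.real (A q.1 ∩ A q.2)) / 2 ≤
      μ.real (⋃ v ∈ s, A v) := by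
  induction s using Finset.induction_on with
  | empty => simp
  | insert a s ha ih =>
    have h1 : (⋃ v ∈ insert a s, A v) = (⋃ v ∈ s, A v) ∪ A a := by
      rw [Finset.set_biUnion_insert, union_comm]
    have h2 := measureReal_union_add_inter (μ := μ) (s := ⋃ v ∈ s, A v) (hA a)
      (measure_ne_top _ _) (measure_ne_top _ _)
    have h3 : μ.real ((⋃ v ∈ s, A v) ∩ A a) ≤ ∑ v ∈ s, μ.real (A a ∩ A v) := by
      rw [inter_comm, inter_iUnion₂]
      exact measureReal_biUnion_finset_le s fun v => A a ∩ A v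
    have h4 : ∑ q ∈ (insert a s).offDiag, μ.real (A q.1 ∩ A q.2) =
        ∑ q ∈ s.offDiag, μ.real (A q.1 ∩ A q.2) + 2 * ∑ v ∈ s, μ.real (A a ∩ A v) := by
      rw [Finset.offDiag_insert ha, Finset.sum_union, Finset.sum_union]
      · rw [Finset.sum_product, Finset.sum_product]
        simp only [Finset.sum_singleton]
        have h5 : ∑ x ∈ s, μ.real (A x ∩ A a) = ∑ x ∈ s, μ.real (A a ∩ A x) :=
          Finset.sum_congr rfl fun x _ => by rw [inter_comm]
        rw [h5]
        ring
      · rw [Finset.disjoint_left]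
        rintro ⟨x, y⟩ hx hy
        rw [Finset.mem_offDiag] at hx
        rw [Finset.mem_product, Finset.mem_singleton] at hy
        simp only at hx hy
        exact ha (hy.1 ▸ hx.1)
      · rw [Finset.disjoint_left]
        rintro ⟨x, y⟩ hx hy
        rw [Finset.mem_union, Finset.mem_offDiag, Finset.mem_product, Finset.mem_singleton] at hx
        rw [Finset.mem_product, Finset.mem_singleton] at hy
        simp only at hx hy
        rcases hx with hx | hx
        · exact ha (hy.2 ▸ hx.2.1)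
        · exact ha (hx.1 ▸ hy.1)
    rw [h1, Finset.sum_insert ha, h4]
    linarith

end Bon

theorem t_bon (h1 : S_meas) (h2 : S_fmrt) (h3 : S_rtiff) : S_bon := by
  classical
  intro V _ G N D p hN C T y hyC hyT
  have hmeas : ∀ v, MeasurableSet (Ev (Br G C T y v)) := by
    intro v
    apply h1
    obtain ⟨hm, hf⟩ := h2 V G (insert y C) T v
    refine ⟨fun K K' hKK hK => ⟨hKK hK.1, hm K K' hKK hK.2⟩, fun K hK => ?_⟩
    obtain ⟨K', hK'1, hK'2, hK'3⟩ := hf K hK.2
    refine ⟨insert s(y, v) K', Set.insert_subset hK.1 hK'1, hK'2.insert _,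
      Set.mem_insert _ _, hm K' _ (Set.subset_insert _ _) hK'3⟩
  have hEv : Ev (RT G C T y) = ⋃ v ∈ N y, Ev (Br G C T y v) := by
    ext ω
    simp only [Ev, Set.mem_ofPred_eq, Set.mem_iUnion, exists_prop]
    rw [h3 V G C T y (opn ω) hyC hyT]
    constructor
    · rintro ⟨v, hv, hb⟩
      exact ⟨v, (hN.1 y v).2 hv, hb⟩
    · rintro ⟨v, hv, hb⟩
      exact ⟨v, (hN.1 y v).1 hv, hb⟩
  have h := Bon.bonferroni (pm (fun _ : Sym2 V => p)) (fun v => Ev (Br G C T y v)) hmeas (N y)
  rw [← hEv] at h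
  have hE2 : E2 G N p C T y = ∑ q ∈ (N y).offDiag,
      (pm (fun _ : Sym2 V => p)).real (Ev (Br G C T y q.1) ∩ Ev (Br G C T y q.2)) := by
    unfold E2
    refine Finset.sum_congr (by congr!) fun q _ => ?_
    rfl
  rw [hE2]
  exact h

end Pool.Agent.H659
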