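import Mathlib
import Pool.Agent.W783.Perc.Defs

set_option autoImplicit false

open MeasureTheory Set

/-!
Bond percolation on a countable graph: definitions.
A configuration is a map `Sym2 V → Bool`; the open edges form a set `K : Set (Sym2 V)`.
-/

namespace Pool.Agent.H659

open Pool.Agent.W783.PC (pm DepOn Inc)

noncomputable section

variable {V : Type}

/-- The open edges of a configuration. -/
def opn (ω : Sym2 V → Bool) : Set (Sym2 V) := {e | ω e = true}

/-- The event that the set of open edges has the property `A`. -/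
def Ev (A : Set (Sym2 V) → Prop) : Set (Sym2 V → Bool) := {ω | A (opn ω)}

/-- The probability that the set of open edges has the property `A`. -/
def Pb (p : unitInterval) (A : Set (Sym2 V) → Prop) : ℝ :=
  (pm (fun _ : Sym2 V => p)).real (Ev A)

/-- Increasing properties with finite witnesses. -/
def Fm (A : Set (Sym2 V) → Prop) : Prop :=
  (∀ K K' : Set (Sym2 V), K ⊆ K' → A K → A K') ∧
    ∀ K : Set (Sym2 V), A K → ∃ K' : Set (Sym2 V), K' ⊆ K ∧ K'.Finite ∧ A K'

/-- `A` looks only at the edges in `S`. -/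
def Lo (A : Set (Sym2 V) → Prop) (S : Set (Sym2 V)) : Prop :=
  ∀ K K' : Set (Sym2 V), K ∩ S = K' ∩ S → (A K ↔ A K')

/-- Disjoint occurrence. -/
def Dj (A B : Set (Sym2 V) → Prop) (K : Set (Sym2 V)) : Prop :=
  ∃ K₁ K₂ : Set (Sym2 V), K₁ ⊆ K ∧ K₂ ⊆ K ∧ Disjoint K₁ K₂ ∧ A K₁ ∧ B K₂

/-- The graph of the edges of `G` in `K` with both ends outside `C`. -/
def Gr (G : SimpleGraph V) (K : Set (Sym2 V)) (C : Set V) : SimpleGraph V where
  Adj a b := G.Adj a b ∧ s(a, b) ∈ K ∧ a ∉ C ∧ b ∉ C
  symm := ⟨fun a b ⟨h1, h2, h3, h4⟩ => ⟨h1.symm, by rwa [Sym2.eq_swap], h4, h3⟩⟩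
  loopless := ⟨fun a h => h.1.ne rfl⟩

/-- `u` is joined to `T` off `C`. -/
def RT (G : SimpleGraph V) (C T : Set V) (u : V) (K : Set (Sym2 V)) : Prop :=
  u ∉ C ∧ ∃ t ∈ T, (Gr G K C).Reachable u t

/-- The branch at `y` through its neighbour `v`. -/
def Br (G : SimpleGraph V) (C T : Set V) (y v : V) (K : Set (Sym2 V)) : Prop :=
  s(y, v) ∈ K ∧ RT G (insert y C) T v K

/-- There is a self-avoiding path of length `n` from `u` off `C`. -/
def LP (G : SimpleGraph V) : ℕ → Set V → V → Set (Sym2 V) → Prop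
  | 0, _, _ => fun _ => True
  | n + 1, C, u => fun K => ∃ v, G.Adj u v ∧ v ∉ C ∧
      Dj (fun K' => s(u, v) ∈ K') (LP G n (insert u C) v) K

/-- There is a self-avoiding path of length `n` from `u` to `z` off `C`. -/
def SC (G : SimpleGraph V) (z : V) : ℕ → Set V → V → Set (Sym2 V) → Prop
  | 0, _, u => fun _ => u = z
  | n + 1, C, u => fun K => ∃ v, G.Adj u v ∧ v ∉ C ∧
      Dj (fun K' => s(u, v) ∈ K') (SC G z n (insert u C) v) K

/-- There is a self-avoiding path of length `n` from `u` to some `z` off `C`, and disjointly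
`D z` and a connection from `z` to `T` off `C` and off the path. -/
def XX (G : SimpleGraph V) (T : Set V) (D : V → Set (Sym2 V) → Prop) :
    ℕ → Set V → V → Set (Sym2 V) → Prop
  | 0, C, u => Dj (D u) (RT G C T u)
  | n + 1, C, u => fun K => ∃ v, G.Adj u v ∧ v ∉ C ∧
      Dj (fun K' => s(u, v) ∈ K') (XX G T D n (insert u C) v) K

/-- `y` is joined to `z` through its neighbour `v`. -/
def DD (G : SimpleGraph V) (y v z : V) (K : Set (Sym2 V)) : Prop :=
  s(y, v) ∈ K ∧ (Gr G K {y}).Reachable v z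

/-- The cluster of `u` off `C` is infinite. -/
def Nf (G : SimpleGraph V) (C : Set V) (u : V) (K : Set (Sym2 V)) : Prop :=
  u ∉ C ∧ {v | (Gr G K C).Reachable u v}.Infinite

/-- The cluster of `u` off `C` is infinite, and remains so after the removal of any edge. -/
def X2 (G : SimpleGraph V) (C : Set V) (u : V) (K : Set (Sym2 V)) : Prop :=
  Nf G C u K ∧ ∀ e, Nf G C u (K \ {e})

/-- The cluster of `o` without the edge `e`. -/
def Cl (G : SimpleGraph V) (o : V) (e : Sym2 V) (K : Set (Sym2 V)) : Set V :=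
  {z | (Gr G (K \ {e}) ∅).Reachable o z}

/-- The edge from `x` to `y` is pivotal for the cluster of `o` to be infinite, `x` being on the
side of `o`. -/
def Pv (G : SimpleGraph V) (o x y : V) (K : Set (Sym2 V)) : Prop :=
  (Cl G o s(x, y) K).Finite ∧ x ∈ Cl G o s(x, y) K ∧ y ∉ Cl G o s(x, y) K ∧
    Nf G (Cl G o s(x, y) K) y K

/-- The neighbourhoods of `G` are the finite sets `N u`, with at most `D` elements. -/
def Nb (G : SimpleGraph V) (N : V → Finset V) (D : ℕ) : Prop :=
  (∀ u v, v ∈ N u ↔ G.Adj u v) ∧ ∀ u, (N u).card ≤ D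

/-- The nearest-neighbour graph of `ℤ^d`. -/
def Zd (d : ℕ) : SimpleGraph (Fin d → ℤ) where
  Adj x y := (∃ i, y = x + Pi.single i 1) ∨ ∃ i, x = y + Pi.single i 1
  symm := ⟨fun _ _ h => h.symm⟩
  loopless := ⟨fun x h => by
    rcases h with ⟨i, h⟩ | ⟨i, h⟩ <;>
    · have := congrFun h i
      simp at this⟩

end

end Pool.Agent.H659
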