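import Pool.Agent.H659.Stmts

set_option autoImplicit false

open MeasureTheory Set Filter Topology

namespace Pool.Agent.H659

noncomputable section

open scoped Classical in
/-- the neighbours in the lattice -/
def NZ (d : ℕ) (x : Fin d → ℤ) : Finset (Fin d → ℤ) :=
  (Finset.univ.image fun i : Fin d => x + Pi.single i 1) ∪
    (Finset.univ.image fun i : Fin d => x - Pi.single i 1)

theorem mem_NZ (d : ℕ) (x y : Fin d → ℤ) : y ∈ NZ d x ↔ (Zd d).Adj x y := by
  classical
  unfold NZ Zd
  simp only [Finset.mem_union, Finset.mem_image, Finset.mem_univ, true_and]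
  constructor
  · rintro (⟨i, rfl⟩ | ⟨i, rfl⟩)
    · exact Or.inl ⟨i, rfl⟩
    · exact Or.inr ⟨i, by simp⟩
  · rintro (⟨i, rfl⟩ | ⟨i, h⟩)
    · exact Or.inl ⟨i, rfl⟩
    · exact Or.inr ⟨i, by rw [h]; simp⟩

theorem nb_NZ (d : ℕ) : Nb (Zd d) (NZ d) (2 * d) := by
  classical
  refine ⟨fun u v => mem_NZ d u v, fun u => ?_⟩
  unfold NZ
  refine (Finset.card_union_le _ _).trans ?_
  have h1 := Finset.card_image_le (s := (Finset.univ : Finset (Fin d)))
    (f := fun i : Fin d => u + Pi.single i (1 : ℤ))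
  have h2 := Finset.card_image_le (s := (Finset.univ : Finset (Fin d)))
    (f := fun i : Fin d => u - Pi.single i (1 : ℤ))
  rw [Finset.card_univ, Fintype.card_fin] at h1 h2
  omega

theorem t_nb : S_nb := fun d => ⟨NZ d, nb_NZ d⟩

end

end Pool.Agent.H659
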