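import Pool.Agent.H659.Graph
import Pool.Agent.H659.Nbr

set_option autoImplicit false

open MeasureTheory Set Filter Topology

namespace Pool.Agent.H659

open Pool.Agent.W783.PC (pm DepOn Inc)

noncomputable section

/-- the percolation function in terms of uniform variables -/
def thU (d : ℕ) (p : ℝ) : ℝ :=
  ((Measure.infinitePi (fun _ : (Fin d → ℤ) × Fin d => (volume : Measure unitInterval)))
    {ω : (Fin d → ℤ) × Fin d → unitInterval | Set.Infinite {x : Fin d → ℤ |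
      (SimpleGraph.fromRel (fun a b : Fin d → ℤ =>
        ∃ i : Fin d, b = a + (Pi.single i (1 : ℤ) : Fin d → ℤ) ∧
          ((ω (a, i) : ℝ) ≤ p))).Reachable 0 x}}).toReal

theorem thU_mono (d : ℕ) : Monotone (thU d) := by
  intro p q hpq
  unfold thU
  refine ENNReal.toReal_mono (measure_ne_top _ _) (measure_mono ?_)
  intro ω hω
  refine Set.Infinite.mono ?_ hω
  intro x hx
  refine SimpleGraph.Reachable.mono ?_ hx
  intro a b h
  rw [SimpleGraph.fromRel_adj] at h ⊢
  refine ⟨h.1, h.2.imp ?_ ?_⟩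
  · rintro ⟨i, h1, h2⟩; exact ⟨i, h1, h2.trans hpq⟩
  · rintro ⟨i, h1, h2⟩; exact ⟨i, h1, h2.trans hpq⟩

theorem thU_neg (d : ℕ) {p : ℝ} (hp : p < 0) : thU d p = 0 := by
  unfold thU
  have : {ω : (Fin d → ℤ) × Fin d → unitInterval | Set.Infinite {x : Fin d → ℤ |
      (SimpleGraph.fromRel (fun a b : Fin d → ℤ =>
        ∃ i : Fin d, b = a + (Pi.single i (1 : ℤ) : Fin d → ℤ) ∧
          ((ω (a, i) : ℝ) ≤ p))).Reachable 0 x}} = ∅ := by
    ext ω
    simp only [mem_ofPred_eq, mem_empty_iff_false, iff_false]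
    intro h
    apply h
    refine (finite_singleton (0 : Fin d → ℤ)).subset ?_
    rintro x ⟨q⟩
    cases q with
    | nil => rfl
    | cons h' q =>
      rw [SimpleGraph.fromRel_adj] at h'
      rcases h'.2 with ⟨i, _, h2⟩ | ⟨i, _, h2⟩
      · have := (ω (0, i)).2.1
        linarith
      · exact absurd (h2.trans_lt hp) (not_lt.2 (ω _).2.1)
  rw [this]
  simp

/-- numerical part: the lower bound for the number of pivotal edges -/
theorem num_slope {ε ε' a t : ℝ} (hε : 0 < ε) (hε1 : ε ≤ 1) (he : ε' = ε / 40)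
    (ha0 : 0 ≤ a) (ha : a ≤ 1 + ε') (ht0 : 0 < t) (ht : t ≤ ε') :
    a / 2 * ((1 / 2 + ε') * t) * (4 - ε) < (1 - (1 / 2 + ε') * t) * t := by
  subst he
  have h1 : (1 / 2 + ε / 40) * t ≤ (1 / 2 + ε / 40) * (ε / 40) :=
    mul_le_mul_of_nonneg_left ht (by linarith)
  have h2 : (1 / 2 + ε / 40) * (ε / 40) ≤ ε / 40 := by nlinarith
  have h3 : a / 2 * (1 / 2 + ε / 40) * (4 - ε) ≤ (1 + ε / 40) / 2 * (1 / 2 + ε / 40) * (4 - ε) := by
    have : 0 ≤ (1 / 2 + ε / 40) * (4 - ε) := by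
      apply mul_nonneg <;> linarith
    nlinarith
  have h4 : (1 + ε / 40) / 2 * (1 / 2 + ε / 40) * (4 - ε) < 1 - ε / 40 := by
    nlinarith [mul_pos hε hε, mul_pos (mul_pos hε hε) hε]
  have h5 : a / 2 * (1 / 2 + ε / 40) * (4 - ε) < 1 - (1 / 2 + ε / 40) * t := by linarith
  have h6 := mul_lt_mul_of_pos_right h5 ht0
  calc a / 2 * ((1 / 2 + ε / 40) * t) * (4 - ε) = a / 2 * (1 / 2 + ε / 40) * (4 - ε) * t := by ring
    _ < _ := h6

theorem final (hinf : S_inf) (hlast : S_last) (hder : S_der) (hint : S_int) (hpc : S_pc)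
    (hshift : S_shift) (htrf : S_trf) :
    ∀ ε : ℝ, 0 < ε → ∃ η : ℝ, 0 < η ∧ ∃ d₀ : ℕ, ∀ d : ℕ, d₀ ≤ d →
      ∀ p₁ p₂ : ℝ, sSup {p : ℝ | thU d p = 0} ≤ p₁ → p₁ ≤ p₂ →
        p₂ ≤ sSup {p : ℝ | thU d p = 0} + η / d →
        (4 - ε) * d * (p₂ - p₁) ≤ thU d p₂ - thU d p₁ := by
  -- it suffices to treat `ε ≤ 1`
  have main : ∀ ε : ℝ, 0 < ε → ε ≤ 1 → ∃ η : ℝ, 0 < η ∧ ∃ d₀ : ℕ, ∀ d : ℕ, d₀ ≤ d →
      ∀ p₁ p₂ : ℝ, sSup {p : ℝ | thU d p = 0} ≤ p₁ → p₁ ≤ p₂ →
        p₂ ≤ sSup {p : ℝ | thU d p = 0} + η / d →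
        (4 - ε) * d * (p₂ - p₁) ≤ thU d p₂ - thU d p₁ := by
    intro ε hε hε1
    obtain ⟨η', hη', D₀, h1⟩ := hinf (ε / 40) (by linarith)
    obtain ⟨η₁, hη₁, hle1, hle2, hle3⟩ : ∃ η₁ : ℝ, 0 < η₁ ∧ η₁ ≤ η' ∧ η₁ ≤ ε / 40 ∧ η₁ ≤ 1 :=
      ⟨min η' (min (ε / 40) 1), by positivity, min_le_left _ _,
        (min_le_right _ _).trans (min_le_left _ _), (min_le_right _ _).trans (min_le_right _ _)⟩
    obtain ⟨d₁, h2⟩ := hpc (η₁ / 2) (by linarith)
    refine ⟨η₁ / 4, by linarith, max (max d₁ D₀) 2, fun d hd => ?_⟩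
    have hd1 : d₁ ≤ d := le_trans (le_trans (le_max_left _ _) (le_max_left _ _)) hd
    have hd2 : D₀ ≤ 2 * d := by
      have : D₀ ≤ d := le_trans (le_trans (le_max_right _ _) (le_max_left _ _)) hd
      omega
    have hd3 : 2 ≤ d := le_trans (le_max_right _ _) hd
    have hdR : (2 : ℝ) ≤ d := by exact_mod_cast hd3
    have hdpos : (0 : ℝ) < d := by linarith
    set pc := sSup {p : ℝ | thU d p = 0} with hpcdef
    -- the critical point is at most (1 + η₁/2)/(2d)
    have hq0 : 0 ≤ (1 + η₁ / 2) / (2 * d) := by positivity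
    have hq1 : (1 + η₁ / 2) / (2 * d) ≤ 1 := by
      rw [div_le_one (by positivity)]; linarith
    have hthq : 0 < thU d ((1 + η₁ / 2) / (2 * d)) := by
      have := h2 d hd1 ⟨_, hq0, hq1⟩ le_rfl
      rw [← htrf d ⟨_, hq0, hq1⟩] at this
      exact this
    have hbdd : BddAbove {p : ℝ | thU d p = 0} := by
      refine ⟨(1 + η₁ / 2) / (2 * d), fun p hp => ?_⟩
      by_contra hlt
      push Not at hlt
      have := thU_mono d hlt.le
      rw [mem_ofPred_eq] at hp
      linarith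
    have hpcle : pc ≤ (1 + η₁ / 2) / (2 * d) := by
      refine csSup_le ⟨-1, thU_neg d (by norm_num)⟩ fun p hp => ?_
      by_contra hlt
      push Not at hlt
      have := thU_mono d hlt.le
      rw [mem_ofPred_eq] at hp
      linarith
    have hpc0 : 0 ≤ pc := by
      refine le_of_forall_pos_le_add fun x hx => ?_
      have : -x ≤ pc := le_csSup hbdd (thU_neg d (by linarith))
      linarith
    have hend : pc + η₁ / 4 / d ≤ (1 + η₁) / (2 * d) := by
      have : (1 + η₁) / (2 * d) = (1 + η₁ / 2) / (2 * d) + η₁ / 4 / d := by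
        field_simp; ring
      rw [this]; linarith
    have hend1 : (1 + η₁) / (2 * d) < 1 := by
      rw [div_lt_one (by positivity)]; linarith
    obtain ⟨N, hN⟩ := t_nb d
    -- the slope at a point
    have key : ∀ x ∈ Ioo pc (pc + η₁ / 4 / d), ∃ η > 0, ∀ y, x < y → y < x + η →
        y ≤ pc + η₁ / 4 / d → (4 - ε) * d * (y - x) ≤ thU d y - thU d x := by
      intro x hx
      have hx0 : 0 ≤ x := hpc0.trans hx.1.le
      have hx1 : x ≤ 1 := by linarith [hx.2]
      set p : unitInterval := ⟨x, hx0, hx1⟩ with hp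
      have hDp : ((2 * d : ℕ) : ℝ) * (p : ℝ) ≤ 1 + η₁ := by
        have : (p : ℝ) ≤ (1 + η₁) / (2 * d) := by
          show x ≤ _
          linarith [hx.2]
        rw [le_div_iff₀ (by positivity)] at this
        push_cast
        linarith
      obtain ⟨h3, h4⟩ := h1 (Fin d → ℤ) (Zd d) N (2 * d) p hN hd2 (hDp.trans (by linarith))
      set t := Pb p (Nf (Zd d) ∅ 0) with ht
      have htx : t = thU d x := by rw [ht]; exact (htrf d p).symm
      have htpos : 0 < t := by
        rw [htx]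
        have h5 : 0 ≤ thU d x := ENNReal.toReal_nonneg
        rcases h5.lt_or_eq with h6 | h6
        · exact h6
        · exfalso
          have : x ≤ pc := le_csSup hbdd h6.symm
          linarith [hx.1]
      have hte : t ≤ ε / 40 := h3 ∅ 0
      have h5 : ∀ (C : Set (Fin d → ℤ)) (y : Fin d → ℤ), C.Finite → y ∉ C →
          Pb p (X2 (Zd d) C y) ≤ (1 / 2 + ε / 40) * t * Pb p (Nf (Zd d) C y) := by
        intro C y _ hy
        exact h4 C y t hy htpos.le (fun w => (hshift d p w).le)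
      have h6 := hlast (Fin d → ℤ) (Zd d) p 0 ((1 / 2 + ε / 40) * t)
        (by positivity) h5 ((4 - ε) * d) (by apply mul_nonneg <;> linarith) (by
          have := num_slope (ε := ε) (ε' := ε / 40) (a := 2 * d * x) (t := t) hε hε1 rfl
            (by positivity) (by
              have : 2 * (d : ℝ) * x ≤ 1 + η₁ := by
                have h7 := hDp
                push_cast at h7
                exact h7
              linarith) htpos hte
          have e : (p : ℝ) * ((1 / 2 + ε / 40) * t) * ((4 - ε) * d) =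
              2 * d * x / 2 * ((1 / 2 + ε / 40) * t) * (4 - ε) := by
            show x * ((1 / 2 + ε / 40) * t) * ((4 - ε) * d) = _
            ring
          rw [e]
          exact this)
      obtain ⟨F, hF, hc⟩ := h6
      obtain ⟨η₂, hη₂, h7⟩ := hder (Fin d → ℤ) (Zd d) p 0 F _ hF hc
      refine ⟨η₂, hη₂, fun y hxy hy hy' => ?_⟩
      have hy0 : 0 ≤ y := hx0.trans hxy.le
      have hy1 : y ≤ 1 := by linarith
      have h8 := h7 ⟨y, hy0, hy1⟩ hxy hy
      rw [← htrf d ⟨y, hy0, hy1⟩, ← htrf d p] at h8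
      exact h8
    intro p₁ p₂ hp1 hp12 hp2
    exact hint (thU d) pc (pc + η₁ / 4 / d) ((4 - ε) * d) (by
      have : 0 < η₁ / 4 / d := by positivity
      linarith) ((thU_mono d).monotoneOn _) key p₁ p₂ hp1 hp12 hp2
  intro ε hε
  by_cases h : ε ≤ 1
  · exact main ε hε h
  · push Not at h
    obtain ⟨η, hη, d₀, h1⟩ := main 1 one_pos le_rfl
    refine ⟨η, hη, d₀, fun d hd p₁ p₂ a b c => ?_⟩
    have := h1 d hd p₁ p₂ a b c
    have h2 : 0 ≤ (d : ℝ) * (p₂ - p₁) := mul_nonneg (Nat.cast_nonneg _) (by linarith)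
    nlinarith

end

end Pool.Agent.H659
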