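import Pool.Agent.H659.Approx

set_option autoImplicit false

open MeasureTheory Set Filter Topology

namespace Pool.Agent.H659

open Pool.Agent.W783.PC (pm DepOn Inc)

noncomputable section

variable {V : Type}

theorem Gr_mono (G : SimpleGraph V) {K K' : Set (Sym2 V)} {C C' : Set V} (h : K ⊆ K')
    (h' : C' ⊆ C) : Gr G K C ≤ Gr G K' C' := by
  intro a b ⟨h1, h2, h3, h4⟩
  exact ⟨h1, h h2, fun h => h3 (h' h), fun h => h4 (h' h)⟩

/-- a walk uses finitely many edges -/
theorem reach_fin (G : SimpleGraph V) {K : Set (Sym2 V)} {C : Set V} {a b : V}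
    (h : (Gr G K C).Reachable a b) :
    ∃ K' ⊆ K, K'.Finite ∧ (Gr G K' C).Reachable a b := by
  obtain ⟨q⟩ := h
  induction q with
  | nil => exact ⟨∅, empty_subset _, finite_empty, SimpleGraph.Reachable.refl _⟩
  | @cons u v w h q ih =>
    obtain ⟨K', h1, h2, h3⟩ := ih
    refine ⟨insert s(u, v) K', ?_, h2.insert _, ?_⟩
    · intro e he
      rcases he with rfl | he
      · exact h.2.1
      · exact h1 he
    · refine SimpleGraph.Reachable.trans (SimpleGraph.Adj.reachable ?_)
        (h3.mono (Gr_mono G (subset_insert _ _) subset_rfl))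
      exact ⟨h.1, mem_insert _ _, h.2.2.1, h.2.2.2⟩

theorem fm_reach (G : SimpleGraph V) (C : Set V) (a b : V) :
    Fm (fun K => (Gr G K C).Reachable a b) := by
  refine ⟨fun K K' h h1 => h1.mono (Gr_mono G h subset_rfl), fun K h => ?_⟩
  obtain ⟨K', h1, h2, h3⟩ := reach_fin G h
  exact ⟨K', h1, h2, h3⟩

theorem t_fmrt : S_fmrt := by
  intro V G C T u
  refine fm_and (fm_const _) ?_
  have : Fm (fun K : Set (Sym2 V) => ∃ t : T, (Gr G K C).Reachable u t) :=
    fm_ex fun t => fm_reach G C u t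
  refine fm_congr (fun K => ?_) this
  constructor
  · rintro ⟨⟨t, ht⟩, h⟩; exact ⟨t, ht, h⟩
  · rintro ⟨t, ht, h⟩; exact ⟨⟨t, ht⟩, h⟩

theorem fm_br (G : SimpleGraph V) (C T : Set V) (y v : V) : Fm (Br G C T y v) :=
  fm_and (fm_edge _) (t_fmrt V G _ T v)

/-- the vertices reached from `u ∉ C` are off `C` -/
theorem reach_off (G : SimpleGraph V) {K : Set (Sym2 V)} {C : Set V} {a b : V}
    (h : (Gr G K C).Reachable a b) : a = b ∨ (a ∉ C ∧ b ∉ C) := by
  obtain ⟨q⟩ := h
  induction q with
  | nil => exact Or.inl rfl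
  | @cons u v w h q ih =>
    right
    refine ⟨h.2.2.1, ?_⟩
    rcases ih with rfl | ih
    · exact h.2.2.2
    · exact ih.2

/-- a path which avoids `y` -/
theorem walk_avoid (G : SimpleGraph V) {K : Set (Sym2 V)} {C : Set V} {a b y : V}
    (q : (Gr G K C).Walk a b) (hy : y ∉ q.support) :
    (Gr G K (insert y C)).Reachable a b := by
  induction q with
  | nil => exact SimpleGraph.Reachable.refl _
  | @cons u v w h q ih =>
    rw [SimpleGraph.Walk.support_cons, List.mem_cons, not_or] at hy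
    refine SimpleGraph.Reachable.trans (SimpleGraph.Adj.reachable ?_) (ih hy.2)
    refine ⟨h.1, h.2.1, ?_, ?_⟩
    · rintro (h' | h')
      · exact hy.1 h'.symm
      · exact h.2.2.1 h'
    · rintro (h' | h')
      · exact hy.2 (h' ▸ q.start_mem_support)
      · exact h.2.2.2 h'

theorem t_rtiff : S_rtiff := by
  classical
  intro V G C T y K hy hT
  constructor
  · rintro ⟨_, t, ht, hr⟩
    obtain ⟨q, hq⟩ := hr.exists_isPath
    cases q with
    | nil => exact absurd ht hT
    | @cons _ v _ h q =>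
      rw [SimpleGraph.Walk.cons_isPath_iff] at hq
      refine ⟨v, h.1, h.2.1, ?_, t, ht, walk_avoid G q hq.2⟩
      rintro (h' | h')
      · exact h.1.ne h'.symm
      · exact h.2.2.2 h'
  · rintro ⟨v, hv, h1, h2, t, ht, hr⟩
    refine ⟨hy, t, ht, SimpleGraph.Reachable.trans (SimpleGraph.Adj.reachable ?_)
      (hr.mono (Gr_mono G subset_rfl (subset_insert _ _)))⟩
    exact ⟨hv, h1, hy, fun h => h2 (Or.inr h)⟩

/-- reachability off `C` looks at the edges with no end in `C` -/
theorem reach_lo (G : SimpleGraph V) (C : Set V) (a b : V) :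
    Lo (fun K => (Gr G K C).Reachable a b) {e | ∀ x ∈ e, x ∉ C} := by
  have key : ∀ K K' : Set (Sym2 V), K ∩ {e | ∀ x ∈ e, x ∉ C} = K' ∩ {e | ∀ x ∈ e, x ∉ C} →
      Gr G K C ≤ Gr G K' C := by
    intro K K' h u v ⟨h1, h2, h3, h4⟩
    refine ⟨h1, ?_, h3, h4⟩
    have : s(u, v) ∈ K ∩ {e | ∀ x ∈ e, x ∉ C} := by
      refine ⟨h2, ?_⟩
      intro x hx
      rcases Sym2.mem_iff.1 hx with rfl | rfl
      · exact h3
      · exact h4
    rw [h] at this
    exact this.1
  intro K K' h
  exact ⟨fun h1 => h1.mono (key K K' h), fun h1 => h1.mono (key K' K h.symm)⟩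

theorem lo_and {A B : Set (Sym2 V) → Prop} {S : Set (Sym2 V)} (hA : Lo A S) (hB : Lo B S) :
    Lo (fun K => A K ∧ B K) S := fun K K' h => and_congr (hA K K' h) (hB K K' h)

theorem lo_mono {A : Set (Sym2 V) → Prop} {S S' : Set (Sym2 V)} (hA : Lo A S) (h : S ⊆ S') :
    Lo A S' := by
  intro K K' hK
  refine hA K K' ?_
  ext e
  constructor
  · rintro ⟨h1, h2⟩
    have : e ∈ K ∩ S' := ⟨h1, h h2⟩
    rw [hK] at this
    exact ⟨this.1, h2⟩
  · rintro ⟨h1, h2⟩
    have : e ∈ K' ∩ S' := ⟨h1, h h2⟩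
    rw [← hK] at this
    exact ⟨this.1, h2⟩

theorem lo_edge (e : Sym2 V) : Lo (fun K : Set (Sym2 V) => e ∈ K) {e} := by
  intro K K' h
  constructor
  · intro h1
    have : e ∈ K ∩ {e} := ⟨h1, rfl⟩
    rw [h] at this; exact this.1
  · intro h1
    have : e ∈ K' ∩ {e} := ⟨h1, rfl⟩
    rw [← h] at this; exact this.1

theorem rt_lo (G : SimpleGraph V) (C T : Set V) (u : V) :
    Lo (RT G C T u) {e | ∀ x ∈ e, x ∉ C} := by
  intro K K' h
  unfold RT
  refine and_congr Iff.rfl ?_
  constructor
  · rintro ⟨t, ht, h1⟩; exact ⟨t, ht, (reach_lo G C u t K K' h).1 h1⟩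
  · rintro ⟨t, ht, h1⟩; exact ⟨t, ht, (reach_lo G C u t K K' h).2 h1⟩

/-- the edge is independent of a property which does not look at it -/
theorem Pb_edge_and [Countable V] (p : unitInterval) {A : Set (Sym2 V) → Prop} (e : Sym2 V)
    (hA : Lo A {e}ᶜ) (mA : MeasurableSet (Ev A)) :
    Pb p (fun K => e ∈ K ∧ A K) = p * Pb p A := by
  rw [t_ind V p _ A {e} (lo_edge e) hA (meas_edge e) mA, t_edge]

theorem t_br : S_br := by
  intro V _ G p C T y v w hyv
  refine ⟨?_, ?_⟩
  · refine Pb_edge_and p s(y, v) (lo_mono (rt_lo G _ T v) ?_) (t_meas V _ (t_fmrt V G _ T v))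
    intro e he h
    rw [mem_singleton_iff] at h
    subst h
    exact he y (Sym2.mem_mk_left _ _) (mem_insert _ _)
  · intro hyw hvw
    have h1 : Pb p (fun K => s(y, w) ∈ K ∧ Br G C T y v K) = p * Pb p (Br G C T y v) := by
      refine Pb_edge_and p s(y, w) ?_ (t_meas V _ (fm_br G C T y v))
      refine lo_and (lo_mono (lo_edge _) ?_) (lo_mono (rt_lo G _ T v) ?_)
      · rintro _ rfl
        simp only [mem_compl_iff, mem_singleton_iff]
        intro h
        exact hvw (Sym2.congr_right.1 h)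
      · intro e he h
        rw [mem_singleton_iff] at h
        subst h
        exact he y (Sym2.mem_mk_left _ _) (mem_insert _ _)
    rw [← h1]
    exact Pb_mono fun K ⟨h2, h3⟩ => ⟨h3.1, h2⟩

theorem E2_le [Countable V] (G : SimpleGraph V) (N : V → Finset V) (D : ℕ) (p : unitInterval)
    (hN : Nb G N D) (C T : Set V) (y : V) :
    E2 G N p C T y ≤ D * p * E1 G N p C T y := by
  classical
  unfold E2 E1
  have hp : (0 : ℝ) ≤ p := p.2.1
  have hod : (N y).offDiag = ((N y) ×ˢ (N y)).filter (fun a => a.1 ≠ a.2) := by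
    ext a
    simp [Finset.mem_offDiag, and_assoc]
  rw [hod, Finset.sum_filter, Finset.sum_product]
  have h1 : ∀ v ∈ N y, ∑ w ∈ N y, (if (v, w).1 ≠ (v, w).2 then
      Pb p (fun K => Br G C T y (v, w).1 K ∧ Br G C T y (v, w).2 K) else 0)
      ≤ D * p * Pb p (Br G C T y v) := by
    intro v hv
    have h2 : ∀ w ∈ N y, (if (v, w).1 ≠ (v, w).2 then
      Pb p (fun K => Br G C T y (v, w).1 K ∧ Br G C T y (v, w).2 K) else 0)
      ≤ p * Pb p (Br G C T y v) := by
      intro w hw
      by_cases h : v ≠ w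
      · rw [if_pos h]
        exact (t_br V G p C T y v w ((hN.1 y v).1 hv)).2 ((hN.1 y w).1 hw) h
      · rw [if_neg h]
        exact mul_nonneg hp (Pb_nonneg _ _)
    refine (Finset.sum_le_sum h2).trans ?_
    rw [Finset.sum_const, nsmul_eq_mul]
    have : ((N y).card : ℝ) ≤ D := by exact_mod_cast hN.2 y
    have h0 := mul_nonneg hp (Pb_nonneg p (Br G C T y v))
    nlinarith
  refine (Finset.sum_le_sum h1).trans ?_
  rw [← Finset.mul_sum]

/-- the first moment is at most three times the probability (given Bonferroni) -/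
theorem t_rho (hb : S_bon) : S_rho := by
  intro V _ G N D p hN hD C T y hy
  have hp : (0 : ℝ) ≤ p := p.2.1
  by_cases hT : y ∈ T
  · have h1 : Pb p (RT G C T y) = 1 :=
      Pb_true p fun K => ⟨hy, y, hT, SimpleGraph.Reachable.refl _⟩
    rw [h1]
    unfold E1
    have h2 : ∀ v ∈ N y, Pb p (Br G C T y v) ≤ p := by
      intro v _
      rw [← t_edge V p s(y, v)]
      exact Pb_mono fun K h => h.1
    refine (Finset.sum_le_sum h2).trans ?_
    rw [Finset.sum_const, nsmul_eq_mul]
    have : ((N y).card : ℝ) ≤ D := by exact_mod_cast hN.2 y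
    nlinarith
  · have h1 := hb V G N D p hN C T y hy hT
    have h2 := E2_le G N D p hN C T y
    have h3 : 0 ≤ E1 G N p C T y := Finset.sum_nonneg fun v _ => Pb_nonneg _ _
    nlinarith

theorem t_phi (hr : S_rho) : S_phi := by
  classical
  intro V _ G N D p hN hD n
  have hp : (0 : ℝ) ≤ p := p.2.1
  induction n with
  | zero =>
    intro C T u hu
    unfold Phi
    exact ⟨Pb_nonneg _ _, by simp⟩
  | succ n ih =>
    intro C T u hu
    unfold Phi
    have hv : ∀ v ∈ N u, v ∉ C → v ∉ insert u C := by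
      intro v hv hvC
      rintro (h | h)
      · exact ((hN.1 u v).1 hv).ne h.symm
      · exact hvC h
    constructor
    · refine Finset.sum_nonneg fun v hvN => ?_
      split_ifs with h
      · exact le_rfl
      · exact mul_nonneg hp (ih _ T v (hv v hvN h)).1
    · have h1 : ∀ v ∈ N u, (if v ∈ C then (0 : ℝ) else (p : ℝ) * Phi G N p T n (insert u C) v)
          ≤ 3 ^ n * Pb p (Br G C T u v) := by
        intro v hvN
        split_ifs with h
        · exact mul_nonneg (by positivity) (Pb_nonneg _ _)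
        · rw [(t_br V G p C T u v v ((hN.1 u v).1 hvN)).1]
          have h2 := (ih (insert u C) T v (hv v hvN h)).2
          have h3 := mul_le_mul_of_nonneg_left h2 hp
          linarith
      refine (Finset.sum_le_sum h1).trans ?_
      rw [← Finset.mul_sum]
      have h2 := hr V G N D p hN hD C T u hu
      unfold E1 at h2
      have h3 : (0 : ℝ) ≤ 3 ^ n := by positivity
      have h4 := mul_le_mul_of_nonneg_left h2 h3
      rw [pow_succ]
      linarith

/-! ### measurability -/

theorem meas_inf_set (G : SimpleGraph V) [Countable V] (C : Set V) (u : V) :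
    MeasurableSet {ω : Sym2 V → Bool | {v | (Gr G (opn ω) C).Reachable u v}.Infinite} := by
  have : {ω : Sym2 V → Bool | {v | (Gr G (opn ω) C).Reachable u v}.Infinite} =
      ⋂ k : ℕ, ⋃ T : Finset V, ⋃ (_ : k ≤ T.card), ⋂ y ∈ T,
      Ev (fun K => (Gr G K C).Reachable u y) := by
    ext ω
    simp only [mem_iInter, mem_iUnion]
    constructor
    · intro h k
      obtain ⟨T, hT, hc⟩ := Set.Infinite.exists_subset_card_eq h k
      exact ⟨T, hc.ge, fun y hy => hT hy⟩
    · intro h hfin
      obtain ⟨T, hT, hT'⟩ := h (hfin.toFinset.card + 1)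
      have : T ⊆ hfin.toFinset := fun y hy => hfin.mem_toFinset.2 (hT' y hy)
      have := Finset.card_le_card this
      omega
  rw [this]
  refine MeasurableSet.iInter fun k => MeasurableSet.iUnion fun T => MeasurableSet.iUnion fun _ => ?_
  exact T.measurableSet_biInter fun y _ => t_meas V _ (fm_reach G C u y)

theorem meas_Nf (G : SimpleGraph V) [Countable V] (C : Set V) (u : V) :
    MeasurableSet (Ev (Nf G C u)) := by
  by_cases hu : u ∈ C
  · have : Ev (Nf G C u) = ∅ := by ext ω; simp [Ev, Nf, hu]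
    rw [this]; exact MeasurableSet.empty
  · have : Ev (Nf G C u) = {ω : Sym2 V → Bool | {v | (Gr G (opn ω) C).Reachable u v}.Infinite} := by
      ext ω; simp [Ev, Nf, hu]
    rw [this]; exact meas_inf_set G C u

open scoped Classical in
/-- closing an edge -/
def rmv (e : Sym2 V) (ω : Sym2 V → Bool) : Sym2 V → Bool := fun e' => if e' = e then false else ω e'

theorem opn_rmv (e : Sym2 V) (ω : Sym2 V → Bool) : opn (rmv e ω) = opn ω \ {e} := by
  ext e'
  unfold opn rmv
  by_cases h : e' = e <;> simp [h]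

theorem meas_rmv (e : Sym2 V) : Measurable (rmv e : (Sym2 V → Bool) → Sym2 V → Bool) := by
  rw [measurable_pi_iff]
  intro e'
  unfold rmv
  by_cases h : e' = e
  · simp only [h, if_true]; exact measurable_const
  · simp only [h, if_false]; exact measurable_pi_apply e'

theorem meas_diff {A : Set (Sym2 V) → Prop} (hA : MeasurableSet (Ev A)) (e : Sym2 V) :
    MeasurableSet (Ev (fun K => A (K \ {e}))) := by
  have : Ev (fun K => A (K \ {e})) = rmv e ⁻¹' Ev A := by
    ext ω
    show A (opn ω \ {e}) ↔ A (opn (rmv e ω))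
    rw [opn_rmv]
  rw [this]
  exact meas_rmv e hA

theorem t_measNf : S_measNf := by
  intro V _ G C u
  refine ⟨meas_Nf G C u, ?_⟩
  have : Ev (X2 G C u) = Ev (Nf G C u) ∩ ⋂ e : Sym2 V, Ev (fun K => Nf G C u (K \ {e})) := by
    ext ω
    simp only [mem_inter_iff, mem_iInter]
    rfl
  rw [this]
  exact (meas_Nf G C u).inter (MeasurableSet.iInter fun e => meas_diff (meas_Nf G C u) e)

end

end Pool.Agent.H659
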