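import Pool.Agent.H659.Win

set_option autoImplicit false

open MeasureTheory Set Filter Topology

namespace Pool.Agent.H659

open Pool.Agent.W783.PC (pm DepOn Inc)

namespace Ana538

theorem ps_diff (m : ℕ) (c : ℕ → ℕ → ℕ) : Differentiable ℂ (PS m c) := by
  unfold PS
  fun_prop

/-- the analytic extension -/
noncomputable def ff (D : ℕ) (c : ℕ → ℕ → ℕ → ℕ) (h : ℝ) (z : ℂ) : ℂ :=
  1 - ∑' n : ℕ, PS (D * (n + 1)) (c n) z * ((Real.exp (-h * (n + 1)) : ℝ) : ℂ)

theorem summ_exp {h : ℝ} (hh : 0 < h) : Summable (fun n : ℕ => Real.exp (-(h / 2) * (n + 1))) := by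
  have e : (fun n : ℕ => Real.exp (-(h / 2) * (n + 1))) =
      fun n : ℕ => Real.exp (-(h / 2)) * Real.exp (-(h / 2)) ^ n := by
    funext n
    rw [← Real.exp_nat_mul, ← Real.exp_add]
    congr 1
    ring
  rw [e]
  refine (summable_geometric_of_lt_one (Real.exp_pos _).le ?_).mul_left _
  rw [Real.exp_lt_one_iff]
  linarith

/-- facts at one point -/
theorem point (h0 : S_psbd) (D : ℕ) (A : ℝ → ℕ → ℝ) (c : ℕ → ℕ → ℕ → ℕ) (a : ℝ)
    (ha : 0 < a) (hD : 0 < D) (h1 : ∀ p ∈ Icc a (1 - a), ∀ n, 0 ≤ A p n)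
    (h2 : ∀ p ∈ Icc a (1 - a), ∀ n, ∑ k ∈ Finset.range n, A p k ≤ 1)
    (h3 : ∀ p ∈ Icc a (1 - a), ∀ n, ((A p n : ℝ) : ℂ) = PS (D * (n + 1)) (c n) (p : ℂ))
    {h : ℝ} (hh : 0 < h) {p y : ℝ} (hp : p ∈ Icc a (1 - a)) (hy : |y| < a / √D * √h) :
    (∀ n : ℕ, ((D * (n + 1) : ℕ) : ℝ) * y ^ 2 / (2 * a ^ 2) ≤ ((n : ℝ) + 1) * h / 2) ∧
    (∀ n : ℕ, A p n ≤ 1) ∧
    (∀ n : ℕ, ‖PS (D * (n + 1)) (c n) ((p : ℂ) + (y : ℂ) * Complex.I)‖ ≤
      A p n * Real.exp (((n : ℝ) + 1) * h / 2)) ∧
    (∀ n : ℕ, ‖PS (D * (n + 1)) (c n) ((p : ℂ) + (y : ℂ) * Complex.I) *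
      ((Real.exp (-h * (n + 1)) : ℝ) : ℂ)‖ ≤ A p n * Real.exp (-(h / 2) * (n + 1))) ∧
    (∀ n : ℕ, ‖PS (D * (n + 1)) (c n) ((p : ℂ) + (y : ℂ) * Complex.I) *
      ((Real.exp (-h * (n + 1)) : ℝ) : ℂ)‖ ≤ Real.exp (-(h / 2) * (n + 1))) := by
  have hD' : (0 : ℝ) < D := by exact_mod_cast hD
  have hy2 : y ^ 2 ≤ a ^ 2 / D * h := by
    have hpos : 0 ≤ a / √D * √h := by positivity
    have h5 : y ^ 2 ≤ (a / √D * √h) ^ 2 := by
      rw [← sq_abs y]
      exact pow_le_pow_left₀ (abs_nonneg y) hy.le 2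
    refine h5.trans (le_of_eq ?_)
    rw [mul_pow, div_pow, Real.sq_sqrt hD'.le, Real.sq_sqrt hh.le]
  have e1 : ∀ n : ℕ, ((D * (n + 1) : ℕ) : ℝ) * y ^ 2 / (2 * a ^ 2) ≤ ((n : ℝ) + 1) * h / 2 := by
    intro n
    push_cast
    rw [div_le_div_iff₀ (by positivity) (by norm_num)]
    have h6 : (D : ℝ) * (n + 1) * y ^ 2 ≤ (D : ℝ) * (n + 1) * (a ^ 2 / D * h) :=
      mul_le_mul_of_nonneg_left hy2 (by positivity)
    have h7 : (D : ℝ) * (n + 1) * (a ^ 2 / D * h) = (n + 1) * h * a ^ 2 := by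
      field_simp
    rw [h7] at h6
    linarith
  have e2 : ∀ n : ℕ, A p n ≤ 1 := by
    intro n
    have h6 := h2 p hp (n + 1)
    rw [Finset.sum_range_succ] at h6
    have h7 : 0 ≤ ∑ k ∈ Finset.range n, A p k := Finset.sum_nonneg fun k _ => h1 p hp k
    linarith
  have e3 : ∀ n : ℕ, ‖PS (D * (n + 1)) (c n) ((p : ℂ) + (y : ℂ) * Complex.I)‖ ≤
      A p n * Real.exp (((n : ℝ) + 1) * h / 2) := by
    intro n
    obtain ⟨-, -, h6⟩ := h0 (D * (n + 1)) (c n) a p y ha hp.1 (by linarith [hp.2])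
    rw [← h3 p hp n, Complex.ofReal_re] at h6
    refine h6.trans (mul_le_mul_of_nonneg_left (Real.exp_le_exp.2 ?_) (h1 p hp n))
    exact e1 n
  have e4 : ∀ n : ℕ, ‖PS (D * (n + 1)) (c n) ((p : ℂ) + (y : ℂ) * Complex.I) *
      ((Real.exp (-h * (n + 1)) : ℝ) : ℂ)‖ ≤ A p n * Real.exp (-(h / 2) * (n + 1)) := by
    intro n
    rw [norm_mul, Complex.norm_real, Real.norm_eq_abs, abs_of_pos (Real.exp_pos _)]
    refine (mul_le_mul_of_nonneg_right (e3 n) (Real.exp_pos _).le).trans (le_of_eq ?_)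
    rw [mul_assoc, ← Real.exp_add]
    congr 2
    ring
  refine ⟨e1, e2, e3, e4, fun n => (e4 n).trans ?_⟩
  calc A p n * Real.exp (-(h / 2) * (n + 1)) ≤ 1 * Real.exp (-(h / 2) * (n + 1)) :=
        mul_le_mul_of_nonneg_right (e2 n) (Real.exp_pos _).le
    _ = _ := one_mul _

/-- the identity of the polynomials -/
theorem ident (D : ℕ) (A : ℝ → ℕ → ℝ) (c c' : ℕ → ℕ → ℕ → ℕ) (a : ℝ)
    (h3 : ∀ p ∈ Icc a (1 - a), ∀ n, ((A p n : ℝ) : ℂ) = PS (D * (n + 1)) (c n) (p : ℂ))
    (h4 : ∀ p ∈ Icc a (1 - a), ∀ n, ((1 - ∑ k ∈ Finset.range n, A p k : ℝ) : ℂ) =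
      PS (D * (n + 1)) (c' n) (p : ℂ)) {p : ℝ} (hp : p ∈ Ioo a (1 - a)) (N : ℕ) (z : ℂ) :
    1 - ∑ k ∈ Finset.range N, PS (D * (k + 1)) (c k) z = PS (D * (N + 1)) (c' N) z := by
  have hd1 : Differentiable ℂ (fun z : ℂ => 1 - ∑ k ∈ Finset.range N, PS (D * (k + 1)) (c k) z) := by
    refine (differentiable_const _).sub ?_
    exact Differentiable.fun_sum fun k _ => ps_diff _ _
  have hd2 : Differentiable ℂ (PS (D * (N + 1)) (c' N)) := ps_diff _ _
  have hA1 : AnalyticOnNhd ℂ (fun z : ℂ => 1 - ∑ k ∈ Finset.range N, PS (D * (k + 1)) (c k) z)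
      univ := fun z _ => hd1.analyticAt z
  have hA2 : AnalyticOnNhd ℂ (PS (D * (N + 1)) (c' N)) univ := fun z _ => hd2.analyticAt z
  have hfr : ∃ᶠ w in 𝓝[≠] (p : ℂ), (fun z : ℂ => 1 - ∑ k ∈ Finset.range N,
      PS (D * (k + 1)) (c k) z) w = PS (D * (N + 1)) (c' N) w := by
    have ht : Tendsto (fun t : ℝ => (t : ℂ)) (𝓝[≠] p) (𝓝[≠] (p : ℂ)) := by
      refine tendsto_nhdsWithin_iff.2 ⟨?_, ?_⟩
      · exact (Complex.continuous_ofReal.tendsto p).mono_left nhdsWithin_le_nhds
      · filter_upwards [self_mem_nhdsWithin] with t ht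
        intro h
        exact ht (Complex.ofReal_injective h)
    refine ht.frequently (Eventually.frequently ?_)
    have hn : Ioo a (1 - a) ∈ 𝓝[≠] p := mem_nhdsWithin_of_mem_nhds (Ioo_mem_nhds hp.1 hp.2)
    filter_upwards [hn] with t ht
    have ht' : t ∈ Icc a (1 - a) := ⟨ht.1.le, ht.2.le⟩
    rw [← h4 t ht' N]
    push_cast
    congr 1
    exact Finset.sum_congr rfl fun k _ => (h3 t ht' k).symm
  have := hA1.eq_of_frequently_eq hA2 hfr
  exact congrFun this z

end Ana538

open Ana538 in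
theorem t_ana (h0 : S_psbd) : S_ana := by
  intro D A c c' a ha hD h1 h2 h3 h4
  have hD' : (0 : ℝ) < D := by exact_mod_cast hD
  have hq : 0 < 1 - Real.exp (-1) := by
    have : Real.exp (-1) < 1 := Real.exp_lt_one_iff.2 (by norm_num)
    linarith
  refine ⟨a / √D, (Real.exp (3 / 2) + 1) / (1 - Real.exp (-1)) + Real.exp 1, by positivity,
    by positivity, ?_⟩
  intro h hh hh1
  refine ⟨ff D c h, ?_, ?_⟩
  · -- differentiability
    have ho : IsOpen {z : ℂ | a < z.re ∧ z.re < 1 - a ∧ |z.im| < a / √D * √h} := by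
      refine IsOpen.inter (isOpen_lt continuous_const Complex.continuous_re) (IsOpen.inter ?_ ?_)
      · exact isOpen_lt Complex.continuous_re continuous_const
      · exact isOpen_lt (continuous_abs.comp Complex.continuous_im) continuous_const
    refine DifferentiableOn.sub (differentiableOn_const _) ?_
    refine Complex.differentiableOn_tsum_of_summable_norm (summ_exp hh) (fun n => ?_) ho ?_
    · exact ((ps_diff _ _).mul (differentiable_const _)).differentiableOn
    · intro n w hw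
      obtain ⟨w1, w2, w3⟩ := hw
      have := (point h0 D A c a ha hD h1 h2 h3 hh (p := w.re) (y := w.im) ⟨w1.le, w2.le⟩ w3).2.2.2.2 n
      rwa [Complex.re_add_im] at this
  · intro p y hp1 hp2 hy
    have hp : p ∈ Icc a (1 - a) := ⟨hp1.le, hp2.le⟩
    obtain ⟨e1, e2, e3, e4, e5⟩ := point h0 D A c a ha hD h1 h2 h3 hh hp hy
    constructor
    · rw [ff]
      push_cast
      congr 1
      refine tsum_congr fun n => ?_
      rw [h3 p hp n]
    · have hA0 := h1 p hp
      have hsum : Summable (A p) := summable_of_sum_range_le hA0 (h2 p hp)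
      have hS : ∑' n, A p n ≤ 1 := Real.tsum_le_of_sum_range_le hA0 (h2 p hp)
      -- the number N
      obtain ⟨N, hN1, hN2⟩ : ∃ N : ℕ, 1 / h ≤ N ∧ (N : ℝ) < 1 / h + 1 :=
        ⟨⌈1 / h⌉₊, Nat.le_ceil _, Nat.ceil_lt_add_one (by positivity)⟩
      have hN3 : 1 ≤ N * h := by
        rw [div_le_iff₀ hh] at hN1
        exact hN1
      have hN4 : N * h ≤ 1 + h := by
        have : (N : ℝ) * h ≤ (1 / h + 1) * h := mul_le_mul_of_nonneg_right hN2.le hh.le
        have e : (1 / h + 1) * h = 1 + h := by field_simp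
        linarith
      set z : ℂ := (p : ℂ) + (y : ℂ) * Complex.I with hz
      set P : ℕ → ℂ := fun n => PS (D * (n + 1)) (c n) z with hP
      set ex : ℕ → ℝ := fun n => Real.exp (-h * (n + 1)) with hex
      have hex0 : ∀ n, 0 < ex n := fun n => Real.exp_pos _
      have hex1 : ∀ n, ex n ≤ 1 := fun n => by
        rw [hex]
        simp only
        rw [Real.exp_le_one_iff]
        have : (0:ℝ) ≤ n := Nat.cast_nonneg n
        nlinarith
      have hs1 : Summable (fun n => P n * ((ex n : ℝ) : ℂ)) :=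
        Summable.of_norm_bounded (summ_exp hh) e5
      have hs2 : Summable (fun n => A p n * ex n) := by
        refine Summable.of_nonneg_of_le (fun n => mul_nonneg (hA0 n) (hex0 n).le) (fun n => ?_) hsum
        calc A p n * ex n ≤ A p n * 1 := mul_le_mul_of_nonneg_left (hex1 n) (hA0 n)
          _ = A p n := mul_one _
      set R : ℝ := 1 - ∑ k ∈ Finset.range N, A p k with hR
      have hR0 : 0 ≤ R := by
        have := h2 p hp N
        rw [hR]; linarith
      set M : ℝ := 1 - ∑' n, A p n * ex n with hM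
      -- splitting
      have hf : ff D c h z = PS (D * (N + 1)) (c' N) z +
          ∑ k ∈ Finset.range N, P k * ((1 - ex k : ℝ) : ℂ) -
          ∑' k, P (k + N) * ((ex (k + N) : ℝ) : ℂ) := by
        rw [← ident D A c c' a h3 h4 ⟨hp1, hp2⟩ N z, ff]
        have h6 := hs1.sum_add_tsum_nat_add N
        have h7 : ∑' n : ℕ, PS (D * (n + 1)) (c n) z * ((Real.exp (-h * (n + 1)) : ℝ) : ℂ) =
            ∑' n, P n * ((ex n : ℝ) : ℂ) := rfl
        rw [h7, ← h6]
        have h8 : ∑ k ∈ Finset.range N, P k * ((1 - ex k : ℝ) : ℂ) =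
            ∑ k ∈ Finset.range N, P k - ∑ k ∈ Finset.range N, P k * ((ex k : ℝ) : ℂ) := by
          rw [← Finset.sum_sub_distrib]
          refine Finset.sum_congr rfl fun k _ => ?_
          push_cast
          ring
        rw [h8]
        have h9 : ∑ k ∈ Finset.range N, PS (D * (k + 1)) (c k) z = ∑ k ∈ Finset.range N, P k := rfl
        rw [h9]
        ring
      -- first term
      have b1 : ‖PS (D * (N + 1)) (c' N) z‖ ≤ Real.exp (3 / 2) * R := by
        obtain ⟨-, -, h6⟩ := h0 (D * (N + 1)) (c' N) a p y ha hp.1 (by linarith [hp.2])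
        rw [← h4 p hp N, Complex.ofReal_re] at h6
        refine h6.trans ?_
        rw [mul_comm]
        refine mul_le_mul_of_nonneg_right (Real.exp_le_exp.2 ((e1 N).trans ?_)) hR0
        linarith
      -- second term
      have hM2 : M = (1 - ∑' n, A p n) + ∑' n, A p n * (1 - ex n) := by
        have : ∑' n, A p n * (1 - ex n) = ∑' n, A p n - ∑' n, A p n * ex n := by
          rw [← hsum.tsum_sub hs2]
          exact tsum_congr fun n => by ring
        rw [this, hM]
        ring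
      have hs3 : Summable (fun n => A p n * (1 - ex n)) := by
        have : (fun n => A p n * (1 - ex n)) = fun n => A p n - A p n * ex n := by
          funext n; ring
        rw [this]
        exact hsum.sub hs2
      have hn3 : ∀ n, 0 ≤ A p n * (1 - ex n) := fun n =>
        mul_nonneg (hA0 n) (by linarith [hex1 n])
      have b2' : ∑ k ∈ Finset.range N, A p k * (1 - ex k) ≤ M := by
        have := hs3.sum_le_tsum (Finset.range N) (fun n _ => hn3 n)
        rw [hM2]
        linarith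
      have b2 : ‖∑ k ∈ Finset.range N, P k * ((1 - ex k : ℝ) : ℂ)‖ ≤ Real.exp 1 * M := by
        refine (norm_sum_le _ _).trans (le_trans ?_ (mul_le_mul_of_nonneg_left b2'
          (Real.exp_pos 1).le))
        rw [Finset.mul_sum]
        refine Finset.sum_le_sum fun k hk => ?_
        have hk' : (k : ℝ) + 1 ≤ N := by exact_mod_cast Finset.mem_range.1 hk
        rw [norm_mul, Complex.norm_real, Real.norm_eq_abs, abs_of_nonneg (by linarith [hex1 k])]
        have h6 : Real.exp (((k : ℝ) + 1) * h / 2) ≤ Real.exp 1 := by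
          refine Real.exp_le_exp.2 ?_
          have : ((k : ℝ) + 1) * h ≤ N * h := mul_le_mul_of_nonneg_right hk' hh.le
          linarith
        have h7 : ‖P k‖ ≤ Real.exp 1 * A p k := by
          refine (e3 k).trans ?_
          rw [mul_comm (Real.exp 1)]
          exact mul_le_mul_of_nonneg_left h6 (hA0 k)
        calc ‖P k‖ * (1 - ex k) ≤ (Real.exp 1 * A p k) * (1 - ex k) :=
              mul_le_mul_of_nonneg_right h7 (by linarith [hex1 k])
          _ = Real.exp 1 * (A p k * (1 - ex k)) := by ring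
      -- third term
      have hsh : Summable (fun k => A p (k + N)) := (summable_nat_add_iff N).2 hsum
      have hRt : R = (1 - ∑' n, A p n) + ∑' k, A p (k + N) := by
        have := hsum.sum_add_tsum_nat_add N
        rw [hR]
        linarith
      have b3 : ‖∑' k, P (k + N) * ((ex (k + N) : ℝ) : ℂ)‖ ≤ R := by
        have h6 : ∀ k, ‖P (k + N) * ((ex (k + N) : ℝ) : ℂ)‖ ≤ A p (k + N) := by
          intro k
          refine (e4 (k + N)).trans ?_
          have h7 : Real.exp (-(h / 2) * (((k + N : ℕ) : ℝ) + 1)) ≤ 1 := by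
            rw [Real.exp_le_one_iff]
            have : (0:ℝ) ≤ ((k + N : ℕ) : ℝ) := Nat.cast_nonneg _
            nlinarith
          calc A p (k + N) * Real.exp (-(h / 2) * (((k + N : ℕ) : ℝ) + 1)) ≤ A p (k + N) * 1 :=
                mul_le_mul_of_nonneg_left h7 (hA0 _)
            _ = _ := mul_one _
        have h8 := tsum_of_norm_bounded hsh.hasSum h6
        rw [hRt]
        linarith
      -- comparison of R and M
      have hRM : (1 - Real.exp (-1)) * R ≤ M := by
        have h6 := hs3.sum_add_tsum_nat_add N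
        have h7 : 0 ≤ ∑ k ∈ Finset.range N, A p k * (1 - ex k) :=
          Finset.sum_nonneg fun n _ => hn3 n
        have h8 : (1 - Real.exp (-1)) * ∑' k, A p (k + N) ≤ ∑' k, A p (k + N) * (1 - ex (k + N)) := by
          rw [← tsum_mul_left]
          refine (hsh.mul_left _).tsum_le_tsum (fun k => ?_) ((summable_nat_add_iff N).2 hs3)
          rw [mul_comm]
          refine mul_le_mul_of_nonneg_left ?_ (hA0 _)
          have h9 : ex (k + N) ≤ Real.exp (-1) := by
            refine Real.exp_le_exp.2 ?_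
            push_cast
            have : (0:ℝ) ≤ k := Nat.cast_nonneg k
            nlinarith
          linarith
        have h9 : (1 - Real.exp (-1)) * (1 - ∑' n, A p n) ≤ 1 * (1 - ∑' n, A p n) :=
          mul_le_mul_of_nonneg_right (by linarith [Real.exp_pos (-1)]) (by linarith)
        rw [hM2, hRt, ← h6]
        linarith
      have hRM' : R ≤ M / (1 - Real.exp (-1)) := by
        rw [le_div_iff₀ hq, mul_comm]
        exact hRM
      have hgoal : ‖ff D c h z‖ ≤ ((Real.exp (3 / 2) + 1) / (1 - Real.exp (-1)) + Real.exp 1) * M := by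
        rw [hf]
        refine (norm_sub_le _ _).trans ((add_le_add (norm_add_le _ _) le_rfl).trans ?_)
        have h10 : (Real.exp (3 / 2) + 1) * R ≤ (Real.exp (3 / 2) + 1) * (M / (1 - Real.exp (-1))) :=
          mul_le_mul_of_nonneg_left hRM' (by positivity)
        have h11 : ((Real.exp (3 / 2) + 1) / (1 - Real.exp (-1)) + Real.exp 1) * M =
            (Real.exp (3 / 2) + 1) * (M / (1 - Real.exp (-1))) + Real.exp 1 * M := by ring
        rw [h11]
        linarith
      exact hgoal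

end Pool.Agent.H659
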