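import Pool.Agent.H659.Stmts
import Pool.Agent.W45.PC.PT1
import Pool.Agent.W400.PC.PT
import Pool.Agent.W333.PC.Harris

set_option autoImplicit false

open MeasureTheory Set Filter Topology

namespace Pool.Agent.H659

open Pool.Agent.W783.PC (pm DepOn Inc)

noncomputable section

variable {V : Type}

theorem meas_edge (e : Sym2 V) : MeasurableSet (Ev (fun K : Set (Sym2 V) => e ∈ K)) := by
  have : Ev (fun K : Set (Sym2 V) => e ∈ K) = (fun ω : Sym2 V → Bool => ω e) ⁻¹' {true} := by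
    ext ω; simp [Ev, opn]
  rw [this]
  exact measurable_pi_apply e (MeasurableSet.singleton true)

theorem t_meas : S_meas := by
  intro V _ A hA
  have : Ev A = ⋃ F : Finset (Sym2 V), ⋃ _ : A (F : Set (Sym2 V)), ⋂ e ∈ F,
      Ev (fun K : Set (Sym2 V) => e ∈ K) := by
    ext ω
    simp only [mem_iUnion, mem_iInter]
    constructor
    · intro h
      obtain ⟨K', h1, h2, h3⟩ := hA.2 _ h
      refine ⟨h2.toFinset, by simpa using h3, fun e he => ?_⟩
      exact h1 (by simpa using he)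
    · rintro ⟨F, hF, h⟩
      exact hA.1 _ _ (fun e he => h e he) hF
  rw [this]
  refine MeasurableSet.iUnion fun F => MeasurableSet.iUnion fun _ => ?_
  exact F.measurableSet_biInter fun e _ => meas_edge e

theorem t_fmdj : S_fmdj := by
  intro V A B hA hB
  refine ⟨?_, ?_⟩
  · rintro K K' h ⟨K₁, K₂, h1, h2, h3, h4, h5⟩
    exact ⟨K₁, K₂, h1.trans h, h2.trans h, h3, h4, h5⟩
  · rintro K ⟨K₁, K₂, h1, h2, h3, h4, h5⟩
    obtain ⟨L₁, a1, a2, a3⟩ := hA.2 _ h4
    obtain ⟨L₂, b1, b2, b3⟩ := hB.2 _ h5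
    refine ⟨L₁ ∪ L₂, union_subset (a1.trans h1) (b1.trans h2), a2.union b2, L₁, L₂,
      subset_union_left, subset_union_right, ?_, a3, b3⟩
    exact Set.disjoint_of_subset a1 b1 h3

theorem fm_edge (e : Sym2 V) : Fm (fun K : Set (Sym2 V) => e ∈ K) := by
  refine ⟨fun K K' h he => h he, fun K he => ⟨{e}, by simpa using he, finite_singleton e, rfl⟩⟩

theorem fm_true : Fm (fun _ : Set (Sym2 V) => True) :=
  ⟨fun _ _ _ _ => trivial, fun _ _ => ⟨∅, empty_subset _, finite_empty, trivial⟩⟩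

theorem fm_false : Fm (fun _ : Set (Sym2 V) => False) :=
  ⟨fun _ _ _ h => h, fun _ h => h.elim⟩

theorem fm_const (P : Prop) : Fm (fun _ : Set (Sym2 V) => P) :=
  ⟨fun _ _ _ h => h, fun _ h => ⟨∅, empty_subset _, finite_empty, h⟩⟩

theorem fm_and {A B : Set (Sym2 V) → Prop} (hA : Fm A) (hB : Fm B) :
    Fm (fun K => A K ∧ B K) := by
  refine ⟨fun K K' h ⟨h1, h2⟩ => ⟨hA.1 _ _ h h1, hB.1 _ _ h h2⟩, ?_⟩
  rintro K ⟨h1, h2⟩
  obtain ⟨L₁, a1, a2, a3⟩ := hA.2 _ h1
  obtain ⟨L₂, b1, b2, b3⟩ := hB.2 _ h2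
  exact ⟨L₁ ∪ L₂, union_subset a1 b1, a2.union b2, hA.1 _ _ subset_union_left a3,
    hB.1 _ _ subset_union_right b3⟩

theorem fm_ex {α : Type*} {A : α → Set (Sym2 V) → Prop} (hA : ∀ x, Fm (A x)) :
    Fm (fun K => ∃ x, A x K) := by
  refine ⟨fun K K' h ⟨x, h1⟩ => ⟨x, (hA x).1 _ _ h h1⟩, ?_⟩
  rintro K ⟨x, h1⟩
  obtain ⟨L, a1, a2, a3⟩ := (hA x).2 _ h1
  exact ⟨L, a1, a2, x, a3⟩

theorem fm_congr {A B : Set (Sym2 V) → Prop} (h : ∀ K, A K ↔ B K) (hA : Fm A) : Fm B := by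
  have : A = B := funext fun K => propext (h K)
  rwa [← this]

theorem Pb_nonneg (p : unitInterval) (A : Set (Sym2 V) → Prop) : 0 ≤ Pb p A := measureReal_nonneg

theorem Pb_le_one (p : unitInterval) (A : Set (Sym2 V) → Prop) : Pb p A ≤ 1 := by
  unfold Pb
  exact measureReal_le_one

theorem Pb_mono {p : unitInterval} {A B : Set (Sym2 V) → Prop} (h : ∀ K, A K → B K) :
    Pb p A ≤ Pb p B := by
  unfold Pb
  exact measureReal_mono (fun ω hω => h _ hω)

theorem Pb_congr {p : unitInterval} {A B : Set (Sym2 V) → Prop} (h : ∀ K, A K ↔ B K) :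
    Pb p A = Pb p B := by
  have : A = B := funext fun K => propext (h K)
  rw [this]

theorem Pb_or {p : unitInterval} (A B : Set (Sym2 V) → Prop) :
    Pb p (fun K => A K ∨ B K) ≤ Pb p A + Pb p B := by
  unfold Pb
  exact measureReal_union_le (Ev A) (Ev B)

theorem Pb_ex {α : Type*} {p : unitInterval} (s : Finset α) (A : α → Set (Sym2 V) → Prop) :
    Pb p (fun K => ∃ x ∈ s, A x K) ≤ ∑ x ∈ s, Pb p (A x) := by
  unfold Pb
  have : Ev (fun K => ∃ x ∈ s, A x K) = ⋃ x ∈ s, Ev (A x) := by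
    ext ω; simp [Ev]
  rw [this]
  exact measureReal_biUnion_finset_le s _

theorem Pb_false (p : unitInterval) {A : Set (Sym2 V) → Prop} (h : ∀ K, ¬ A K) : Pb p A = 0 := by
  unfold Pb
  have : Ev A = ∅ := by ext ω; simp [Ev, h]
  rw [this]; simp

theorem Pb_true (p : unitInterval) {A : Set (Sym2 V) → Prop} (h : ∀ K, A K) : Pb p A = 1 := by
  unfold Pb
  have : Ev A = univ := by ext ω; simp [Ev, h]
  rw [this]; simp

theorem t_edge : S_edge := by
  intro V p e
  have := Pool.Agent.W333.PC.pm_coord (fun _ : Sym2 V => p) e true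
  simp only [if_true] at this
  exact this

theorem lo_dep {A : Set (Sym2 V) → Prop} {S : Set (Sym2 V)} (h : Lo A S) : DepOn (Ev A) S := by
  intro ω ω' hω
  refine h _ _ ?_
  ext e
  simp only [opn, mem_inter_iff, mem_setOf_eq]
  constructor
  · rintro ⟨h1, h2⟩; exact ⟨by rw [← hω e h2]; exact h1, h2⟩
  · rintro ⟨h1, h2⟩; exact ⟨by rw [hω e h2]; exact h1, h2⟩

theorem t_ind : S_ind := by
  intro V _ p A B S hA hB mA mB
  have h := Pool.Agent.W45.PC.s_indep (Sym2 V) (fun _ => p) S Sᶜ (Ev A) (Ev B) (lo_dep hA)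
    (lo_dep hB) disjoint_compl_right mA mB
  unfold Pb
  have e : Ev (fun K => A K ∧ B K) = Ev A ∩ Ev B := rfl
  rw [e, measureReal_def, h, ENNReal.toReal_mul]
  rfl

theorem t_mono : S_mono := by
  intro V _ p p' A hA mA hp
  unfold Pb
  refine ENNReal.toReal_mono (measure_ne_top _ _) ?_
  refine Pool.Agent.W400.PC.s_mono (Sym2 V) _ _ _ (fun _ => hp) ?_ mA
  intro ω ω' h hω
  exact hA _ _ (fun e he => h e he) hω

end

end Pool.Agent.H659
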