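import Pool.Agent.H659.Win
import Pool.Agent.H659.Tools
import Pool.Agent.H659.Graph

set_option autoImplicit false

open MeasureTheory Set Filter Topology

namespace Pool.Agent.H659

open Pool.Agent.W783.PC (pm DepOn Inc)

namespace Helper109Anb

variable {V : Type}

theorem meas_mem [Countable V] (G : SimpleGraph V) (o x : V) :
    MeasurableSet {ω : Sym2 V → Bool | x ∈ Cs G o (opn ω)} :=
  t_meas V _ (fm_reach G ∅ o x)

theorem meas_eq [Countable V] (G : SimpleGraph V) (o : V) (C : Finset V) :
    MeasurableSet {ω : Sym2 V → Bool | Cs G o (opn ω) = (C : Set V)} := by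
  classical
  have h : {ω : Sym2 V → Bool | Cs G o (opn ω) = (C : Set V)} =
      ⋂ x : V, (if x ∈ C then {ω : Sym2 V → Bool | x ∈ Cs G o (opn ω)}
        else {ω : Sym2 V → Bool | x ∈ Cs G o (opn ω)}ᶜ) := by
    ext ω
    simp only [mem_iInter]
    constructor
    · intro h x
      have h' : Cs G o (opn ω) = (C : Set V) := h
      split_ifs with hx
      · show x ∈ Cs G o (opn ω)
        rw [h']
        exact hx
      · show ¬ (x ∈ Cs G o (opn ω))
        rw [h']
        exact hx
    · intro h
      show Cs G o (opn ω) = (C : Set V)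
      ext x
      have hx := h x
      split_ifs at hx with hxC
      · exact ⟨fun _ => hxC, fun _ => hx⟩
      · exact ⟨fun h' => absurd h' hx, fun h' => absurd h' hxC⟩
  rw [h]
  refine MeasurableSet.iInter fun x => ?_
  split_ifs
  · exact meas_mem G o x
  · exact (meas_mem G o x).compl

theorem self_mem (G : SimpleGraph V) (o : V) (K : Set (Sym2 V)) : o ∈ Cs G o K :=
  SimpleGraph.Reachable.refl _

theorem ncard_zero (G : SimpleGraph V) (o : V) (K : Set (Sym2 V)) :
    (Cs G o K).ncard = 0 ↔ ¬ ∃ C : Finset V, Cs G o K = (C : Set V) := by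
  constructor
  · rintro h ⟨C, hC⟩
    rw [hC, Set.ncard_coe_finset, Finset.card_eq_zero] at h
    have := self_mem G o K
    rw [hC, h] at this
    simp at this
  · intro h
    apply Set.Infinite.ncard
    intro hf
    exact h ⟨hf.toFinset, by simp⟩

theorem nf_iff (G : SimpleGraph V) (o : V) (K : Set (Sym2 V)) :
    Nf G ∅ o K ↔ (Cs G o K).ncard = 0 := by
  constructor
  · rintro ⟨-, h⟩
    exact Set.Infinite.ncard h
  · intro h
    refine ⟨fun h' => h', ?_⟩
    intro hf
    rw [ncard_zero] at h
    have hf' : (Cs G o K).Finite := hf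
    exact h ⟨hf'.toFinset, by simp⟩

theorem meas_ncard [Countable V] (G : SimpleGraph V) (o : V) (n : ℕ) :
    MeasurableSet (Ev (fun K : Set (Sym2 V) => (Cs G o K).ncard = n)) := by
  rcases Nat.eq_zero_or_pos n with rfl | hn
  · have h : Ev (fun K : Set (Sym2 V) => (Cs G o K).ncard = 0) =
        (⋃ C : Finset V, {ω : Sym2 V → Bool | Cs G o (opn ω) = (C : Set V)})ᶜ := by
      ext ω
      rw [mem_compl_iff, mem_iUnion]
      exact ncard_zero G o (opn ω)
    rw [h]
    exact (MeasurableSet.iUnion fun C => meas_eq G o C).compl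
  · have h : Ev (fun K : Set (Sym2 V) => (Cs G o K).ncard = n) =
        ⋃ C : Finset V, ⋃ _ : C.card = n,
          {ω : Sym2 V → Bool | Cs G o (opn ω) = (C : Set V)} := by
      ext ω
      simp only [mem_iUnion]
      constructor
      · intro h
        have h' : (Cs G o (opn ω)).ncard = n := h
        have hf : (Cs G o (opn ω)).Finite := Set.finite_of_ncard_pos (by omega)
        refine ⟨hf.toFinset, ?_, ?_⟩
        · rw [← h', Set.ncard_eq_toFinset_card _ hf]
        · show Cs G o (opn ω) = _
          simp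
      · rintro ⟨C, hC, h⟩
        have h' : Cs G o (opn ω) = (C : Set V) := h
        show (Cs G o (opn ω)).ncard = n
        rw [h', Set.ncard_coe_finset, hC]
    rw [h]
    exact MeasurableSet.iUnion fun C => MeasurableSet.iUnion fun _ => meas_eq G o C

end Helper109Anb

open Helper109Anb in
theorem t_anb : S_anb := by
  intro V _ G o p
  refine ⟨fun n => meas_ncard G o n, fun n => measureReal_nonneg, ?_⟩
  set μ := pm (fun _ : Sym2 V => p) with hμ
  have hNf : Ev (Nf G ∅ o) = Ev (fun K : Set (Sym2 V) => (Cs G o K).ncard = 0) := by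
    ext ω
    exact nf_iff G o (opn ω)
  have hU : (⋃ n : ℕ, Ev (fun K : Set (Sym2 V) => (Cs G o K).ncard = n + 1)) =
      (Ev (Nf G ∅ o))ᶜ := by
    rw [hNf]
    ext ω
    rw [mem_iUnion, mem_compl_iff]
    constructor
    · rintro ⟨n, hn⟩ h0
      have h1 : (Cs G o (opn ω)).ncard = n + 1 := hn
      have h2 : (Cs G o (opn ω)).ncard = 0 := h0
      omega
    · intro h
      have h2 : ¬ (Cs G o (opn ω)).ncard = 0 := h
      obtain ⟨n, hn⟩ := Nat.exists_eq_succ_of_ne_zero h2
      exact ⟨n, hn⟩
  have hdisj : Pairwise (Function.onFun Disjoint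
      (fun n : ℕ => Ev (fun K : Set (Sym2 V) => (Cs G o K).ncard = n + 1))) := by
    intro m n hmn
    rw [Function.onFun, Set.disjoint_left]
    intro ω h1 h2
    have h1' : (Cs G o (opn ω)).ncard = m + 1 := h1
    have h2' : (Cs G o (opn ω)).ncard = n + 1 := h2
    exact hmn (by omega)
  have hmeas : ∀ n : ℕ, MeasurableSet (Ev (fun K : Set (Sym2 V) => (Cs G o K).ncard = n + 1)) :=
    fun n => meas_ncard G o (n + 1)
  have hsum := measure_iUnion (μ := μ) hdisj hmeas
  have hval : 1 - Pb p (Nf G ∅ o) =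
      (∑' n : ℕ, μ (Ev (fun K : Set (Sym2 V) => (Cs G o K).ncard = n + 1))).toReal := by
    rw [← hsum, hU]
    have hm : MeasurableSet (Ev (Nf G ∅ o)) := by
      rw [hNf]
      exact meas_ncard G o 0
    have := probReal_compl_eq_one_sub (μ := μ) hm
    rw [measureReal_def] at this
    rw [this]
    rfl
  have hne : (∑' n : ℕ, μ (Ev (fun K : Set (Sym2 V) => (Cs G o K).ncard = n + 1))) ≠ ⊤ := by
    rw [← hsum]
    exact measure_ne_top _ _
  rw [hval, ENNReal.tsum_toReal_eq (fun n => ENNReal.ne_top_of_tsum_ne_top hne n)]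
  exact ENNReal.hasSum_toReal hne

end Pool.Agent.H659
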