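import Pool.Agent.H659.Win

set_option autoImplicit false

open MeasureTheory Set Filter Topology

/-!
Comparison along characteristics.
-/

namespace Pool.Agent.H659

open Pool.Agent.W783.PC (pm DepOn Inc)

namespace JChar

theorem summ0 {h : ℝ} (hh : 0 < h) : Summable fun n : ℕ => Real.exp (-h * (n + 1)) := by
  have h1 : Summable fun n : ℕ => Real.exp (-h) ^ n :=
    summable_geometric_of_lt_one (Real.exp_pos _).le (Real.exp_lt_one_iff.2 (by linarith))
  refine (h1.mul_left (Real.exp (-h))).congr fun n => ?_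
  rw [← Real.exp_nat_mul, ← Real.exp_add]
  congr 1
  ring

theorem summ1 {h : ℝ} (hh : 0 < h) :
    Summable fun n : ℕ => ((n : ℝ) + 1) * Real.exp (-h * (n + 1)) := by
  have h1 : Summable fun n : ℕ => ((n : ℝ) ^ 1) * Real.exp (-h) ^ n :=
    summable_pow_mul_geometric_of_norm_lt_one 1 (by
      rw [Real.norm_eq_abs, abs_of_pos (Real.exp_pos _)]
      exact Real.exp_lt_one_iff.2 (by linarith))
  have h2 := (h1.mul_left (Real.exp (-h))).add (summ0 hh)
  refine h2.congr fun n => ?_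
  have e : Real.exp (-h * ((n : ℝ) + 1)) = Real.exp (-h) * Real.exp (-h) ^ n := by
    rw [← Real.exp_nat_mul, ← Real.exp_add]
    congr 1
    ring
  rw [e]
  ring

theorem le_one {a : ℕ → ℝ} (h0 : ∀ n, 0 ≤ a n) (h1 : ∀ n, ∑ k ∈ Finset.range n, a k ≤ 1) (n : ℕ) :
    a n ≤ 1 := by
  have := h1 (n + 1)
  rw [Finset.sum_range_succ] at this
  have h2 : 0 ≤ ∑ k ∈ Finset.range n, a k := Finset.sum_nonneg fun k _ => h0 k
  linarith

theorem exp_le {h h' : ℝ} (hh : h ≤ h') (n : ℕ) :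
    Real.exp (-h' * ((n : ℝ) + 1)) ≤ Real.exp (-h * ((n : ℝ) + 1)) := by
  apply Real.exp_le_exp.2
  have : (0 : ℝ) ≤ (n : ℝ) + 1 := by positivity
  nlinarith

theorem sF {a : ℕ → ℝ} (h0 : ∀ n, 0 ≤ a n) (h1 : ∀ n, ∑ k ∈ Finset.range n, a k ≤ 1) {h : ℝ}
    (hh : 0 < h) : Summable fun n : ℕ => a n * Real.exp (-h * (n + 1)) :=
  Summable.of_nonneg_of_le (fun n => mul_nonneg (h0 n) (Real.exp_pos _).le)
    (fun n => mul_le_of_le_one_left (Real.exp_pos _).le (le_one h0 h1 n)) (summ0 hh)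

theorem sX {a : ℕ → ℝ} (h0 : ∀ n, 0 ≤ a n) (h1 : ∀ n, ∑ k ∈ Finset.range n, a k ≤ 1) {h : ℝ}
    (hh : 0 < h) : Summable fun n : ℕ => ((n : ℝ) + 1) * a n * Real.exp (-h * (n + 1)) := by
  refine Summable.of_nonneg_of_le (fun n => ?_) (fun n => ?_) (summ1 hh)
  · exact mul_nonneg (mul_nonneg (by positivity) (h0 n)) (Real.exp_pos _).le
  · have := le_one h0 h1 n
    have h3 : (0 : ℝ) ≤ (n : ℝ) + 1 := by positivity
    have h4 := Real.exp_pos (-h * ((n : ℝ) + 1))
    calc ((n : ℝ) + 1) * a n * Real.exp (-h * (n + 1)) =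
        a n * (((n : ℝ) + 1) * Real.exp (-h * (n + 1))) := by ring
      _ ≤ ((n : ℝ) + 1) * Real.exp (-h * (n + 1)) :=
        mul_le_of_le_one_left (mul_nonneg h3 h4.le) this

/-- the tangent inequality -/
theorem tangent {a : ℕ → ℝ} (h0 : ∀ n, 0 ≤ a n) (h1 : ∀ n, ∑ k ∈ Finset.range n, a k ≤ 1)
    {x y : ℝ} (hx : 0 < x) (hxy : x ≤ y) :
    (y - x) * (∑' n : ℕ, ((n : ℝ) + 1) * a n * Real.exp (-y * (n + 1))) ≤
      (∑' n, a n * Real.exp (-x * (n + 1))) - ∑' n, a n * Real.exp (-y * (n + 1)) := by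
  have hy : 0 < y := hx.trans_le hxy
  rw [← tsum_mul_left, ← (sF h0 h1 hx).tsum_sub (sF h0 h1 hy)]
  refine ((sX h0 h1 hy).mul_left _).tsum_le_tsum (fun n => ?_) ((sF h0 h1 hx).sub (sF h0 h1 hy))
  have e1 : Real.exp (-x * ((n : ℝ) + 1)) = Real.exp (-y * (n + 1)) * Real.exp ((y - x) * (n + 1)) := by
    rw [← Real.exp_add]
    congr 1
    ring
  have e2 := Real.add_one_le_exp ((y - x) * ((n : ℝ) + 1))
  have e3 := Real.exp_pos (-y * ((n : ℝ) + 1))
  have e4 : Real.exp (-y * ((n : ℝ) + 1)) * ((y - x) * ((n : ℝ) + 1)) ≤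
      Real.exp (-x * ((n : ℝ) + 1)) - Real.exp (-y * (n + 1)) := by
    rw [e1]
    nlinarith [mul_le_mul_of_nonneg_left e2 e3.le]
  calc (y - x) * (((n : ℝ) + 1) * a n * Real.exp (-y * (n + 1))) =
      a n * (Real.exp (-y * ((n : ℝ) + 1)) * ((y - x) * ((n : ℝ) + 1))) := by ring
    _ ≤ a n * (Real.exp (-x * ((n : ℝ) + 1)) - Real.exp (-y * (n + 1))) :=
      mul_le_mul_of_nonneg_left e4 (h0 n)
    _ = a n * Real.exp (-x * (n + 1)) - a n * Real.exp (-y * (n + 1)) := by ring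

/-- continuity of the derivative -/
theorem contX {a : ℕ → ℝ} (h0 : ∀ n, 0 ≤ a n) (h1 : ∀ n, ∑ k ∈ Finset.range n, a k ≤ 1)
    {h : ℝ} (hh : 0 < h) :
    ContinuousOn (fun y : ℝ => ∑' n : ℕ, ((n : ℝ) + 1) * a n * Real.exp (-y * (n + 1))) (Ici h) := by
  refine continuousOn_tsum (u := fun n : ℕ => ((n : ℝ) + 1) * a n * Real.exp (-h * (n + 1)))
    (fun n => by fun_prop) (sX h0 h1 hh) fun n y hy => ?_
  have h3 : 0 ≤ ((n : ℝ) + 1) * a n := mul_nonneg (by positivity) (h0 n)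
  rw [Real.norm_eq_abs, abs_of_nonneg (mul_nonneg h3 (Real.exp_pos _).le)]
  exact mul_le_mul_of_nonneg_left (exp_le hy n) h3

end JChar

open JChar

theorem t_char : S_char := by
  intro A p₀ p₁ K C h₀ hp hK hC hh₀ hA0 hA1 hAc hin hbd q hq h hh hqh
  set F : ℝ → ℝ → ℝ := fun p h => ∑' n, A p n * Real.exp (-h * (n + 1)) with hF
  set X : ℝ → ℝ → ℝ := fun p h => ∑' n : ℕ, ((n : ℝ) + 1) * A p n * Real.exp (-h * (n + 1)) with hX
  have hrhs : 0 ≤ C * √h + C ^ 2 * K * (q - p₀) := by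
    have : 0 ≤ q - p₀ := by linarith [hq.1]
    positivity
  set m : ℝ := 1 - F q h with hm
  rcases le_or_gt m 0 with hm0 | hm0
  · exact hm0.trans hrhs
  have hFnn : ∀ p ∈ Icc p₀ p₁, ∀ y, 0 ≤ F p y := fun p hp y =>
    tsum_nonneg fun n => mul_nonneg (hA0 p hp n) (Real.exp_pos _).le
  have hm1 : m ≤ 1 := by have := hFnn q hq h; linarith
  have hXnn : ∀ p ∈ Icc p₀ p₁, ∀ y, 0 ≤ X p y := fun p hp y =>
    tsum_nonneg fun n => mul_nonneg (mul_nonneg (by positivity) (hA0 p hp n)) (Real.exp_pos _).le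
  set H : ℝ → ℝ := fun p => h + K * m * (q - p) with hH
  have hHh : ∀ p ≤ q, h ≤ H p := fun p hp => by
    have : 0 ≤ K * m * (q - p) := mul_nonneg (mul_pos hK hm0).le (by linarith)
    simp only [hH]; linarith
  have hHc : Continuous H := by simp only [hH]; fun_prop
  set φ : ℝ → ℝ := fun p => 1 - F p (H p) with hφ
  have hsub : Icc p₀ q ⊆ Icc p₀ p₁ := Icc_subset_Icc_right hq.2
  have hφc : ContinuousOn φ (Icc p₀ q) := by
    refine continuousOn_const.sub ?_
    refine continuousOn_tsum (u := fun n : ℕ => Real.exp (-h * (n + 1)))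
      (fun n => ((hAc n).mono hsub).mul (by fun_prop)) (summ0 hh) fun n p hp => ?_
    rw [Real.norm_eq_abs, abs_of_nonneg (mul_nonneg (hA0 p (hsub hp) n) (Real.exp_pos _).le)]
    calc A p n * Real.exp (-H p * (n + 1)) ≤ 1 * Real.exp (-H p * (n + 1)) :=
        mul_le_mul_of_nonneg_right (le_one (hA0 p (hsub hp)) (hA1 p (hsub hp)) n) (Real.exp_pos _).le
      _ = Real.exp (-H p * (n + 1)) := one_mul _
      _ ≤ Real.exp (-h * (n + 1)) := exp_le (hHh p hp.2) n
  have hφq : φ q = m := by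
    simp only [hφ, hH, hm, sub_self, mul_zero, add_zero]
  -- the slope
  have hslope : ∀ x ∈ Ico p₀ q, ∀ r, K * X x (H x) * (φ x - m) < r →
      ∃ᶠ z in 𝓝[>] x, slope φ x z < r := by
    intro x hx r hr
    have hx' : x ∈ Icc p₀ p₁ := hsub ⟨hx.1, hx.2.le⟩
    have hlim : Tendsto (fun z => K * (X x (H z) * φ z - m * X x (H x))) (𝓝[>] x)
        (𝓝 (K * (X x (H x) * φ x - m * X x (H x)))) := by
      have hle : 𝓝[>] x ≤ 𝓝[Icc p₀ q] x := by
        rw [← nhdsWithin_Ioo_eq_nhdsGT hx.2]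
        exact nhdsWithin_mono x fun z hz => ⟨hx.1.trans hz.1.le, hz.2.le⟩
      have t1 : Tendsto φ (𝓝[>] x) (𝓝 (φ x)) :=
        (hφc x ⟨hx.1, hx.2.le⟩).mono_left hle
      have t2 : Tendsto (fun z => X x (H z)) (𝓝[>] x) (𝓝 (X x (H x))) := by
        have c1 := (contX (hA0 x hx') (hA1 x hx') hh) (H x) (hHh x hx.2.le)
        refine Tendsto.comp (y := 𝓝[Ici h] (H x)) c1 ?_
        refine tendsto_nhdsWithin_iff.2 ⟨(hHc.tendsto x).mono_left nhdsWithin_le_nhds, ?_⟩
        have : ∀ᶠ z in 𝓝[>] x, z ∈ Icc p₀ q := by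
          have := hle (self_mem_nhdsWithin : Icc p₀ q ∈ 𝓝[Icc p₀ q] x)
          exact this
        filter_upwards [this] with z hz
        exact hHh z hz.2
      exact ((t2.mul t1).sub tendsto_const_nhds).const_mul K
    have e1 : K * (X x (H x) * φ x - m * X x (H x)) = K * X x (H x) * (φ x - m) := by ring
    rw [e1] at hlim
    have hev : ∀ᶠ z in 𝓝[>] x, K * (X x (H z) * φ z - m * X x (H x)) < r :=
      hlim.eventually (gt_mem_nhds hr)
    have hev2 : ∀ᶠ z in 𝓝[>] x, z ∈ Ioo x q := Ioo_mem_nhdsGT hx.2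
    refine Eventually.frequently ?_
    filter_upwards [hev, hev2] with z hz hz2
    refine lt_of_le_of_lt ?_ hz
    have hzx : 0 < z - x := by linarith [hz2.1]
    have hz' : z ∈ Icc p₀ p₁ := hsub ⟨hx.1.trans hz2.1.le, hz2.2.le⟩
    rw [slope_def_field, div_le_iff₀ hzx]
    have i1 := hin x hx' z hz' hz2.1.le (H z) (hh.trans_le (hHh z hz2.2.le))
    have hHzx : H z ≤ H x := by
      have : K * m * (x - z) ≤ 0 := mul_nonpos_of_nonneg_of_nonpos (mul_pos hK hm0).le (by linarith)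
      simp only [hH]
      nlinarith
    have i2 := tangent (hA0 x hx') (hA1 x hx') (hh.trans_le (hHh z hz2.2.le)) hHzx
    have i3 : H x - H z = K * m * (z - x) := by simp only [hH]; ring
    rw [i3] at i2
    have i1' : F x (H z) - F z (H z) ≤ K * (z - x) * X x (H z) * (1 - F z (H z)) := i1
    have i2' : K * m * (z - x) * X x (H x) ≤ F x (H z) - F x (H x) := i2
    have j1 : φ z - φ x = (F x (H z) - F z (H z)) - (F x (H z) - F x (H x)) := by
      simp only [hφ]; ring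
    rw [j1]
    have j2 : K * (X x (H z) * φ z - m * X x (H x)) * (z - x) =
        K * (z - x) * X x (H z) * (1 - F z (H z)) - K * m * (z - x) * X x (H x) := by
      simp only [hφ]; ring
    rw [j2]
    linarith
  have hmain : m ≤ φ p₀ := by
    by_contra hcon
    push Not at hcon
    set ε : ℝ := (m - φ p₀) / (2 * (q - p₀ + 1)) with hε
    have hqp : 0 ≤ q - p₀ := by linarith [hq.1]
    have hε0 : 0 < ε := div_pos (by linarith) (by linarith)
    have hε1 : ε * (q - p₀) < m - φ p₀ := by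
      have e1 : ε * (2 * (q - p₀ + 1)) = m - φ p₀ := by
        rw [hε]; field_simp
      nlinarith
    have key := image_le_of_liminf_slope_right_lt_deriv_boundary' (f := φ)
      (f' := fun x => K * X x (H x) * (φ x - m)) (a := p₀) (b := q)
      hφc hslope (B := fun x => φ p₀ + ε * (x - p₀)) (B' := fun _ => ε) (by simp)
      (by fun_prop)
      (fun x _ => by
        have : HasDerivAt (fun x => φ p₀ + ε * (x - p₀)) (ε * 1) x :=
          (((hasDerivAt_id x).sub_const p₀).const_mul ε).const_add (φ p₀)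
        rw [mul_one] at this
        exact this.hasDerivWithinAt)
      (fun x hx hxB => by
        have h1 : φ x < m := by
          rw [hxB]
          have : ε * (x - p₀) ≤ ε * (q - p₀) := mul_le_mul_of_nonneg_left (by linarith [hx.2]) hε0.le
          linarith
        have h2 : 0 ≤ K * X x (H x) := mul_nonneg hK.le (hXnn x (hsub ⟨hx.1, hx.2.le⟩) _)
        have h3 : K * X x (H x) * (φ x - m) ≤ 0 :=
          mul_nonpos_of_nonneg_of_nonpos h2 (by linarith)
        exact h3.trans_lt hε0)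
    have := key (x := q) ⟨hq.1, le_rfl⟩
    rw [hφq] at this
    linarith
  -- conclusion
  have hqp : 0 ≤ q - p₀ := by linarith [hq.1]
  have hH0 : H p₀ ≤ h₀ := by
    have : K * m * (q - p₀) ≤ K * (q - p₀) := by
      have : K * m ≤ K := mul_le_of_le_one_right hK.le hm1
      exact mul_le_mul_of_nonneg_right this hqp
    simp only [hH]; linarith
  have hH1 : 0 < H p₀ := hh.trans_le (hHh p₀ hq.1)
  have f1 : m ≤ C * √(H p₀) := hmain.trans (hbd (H p₀) hH1 hH0)
  have f2 : m ^ 2 ≤ C ^ 2 * (h + K * m * (q - p₀)) := by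
    have := pow_le_pow_left₀ hm0.le f1 2
    rwa [mul_pow, Real.sq_sqrt hH1.le] at this
  by_contra hcon
  push Not at hcon
  have g1 : C * √h + C ^ 2 * K * (q - p₀) < m := hcon
  have g2 : 0 ≤ C * √h := by positivity
  have g3 : 0 ≤ C ^ 2 * K * (q - p₀) := by positivity
  have g4 : (C * √h) ^ 2 = C ^ 2 * h := by rw [mul_pow, Real.sq_sqrt hh.le]
  have g5 : m * (C * √h + C ^ 2 * K * (q - p₀)) < m * m := mul_lt_mul_of_pos_left g1 hm0
  have g6 : (C * √h) * (C * √h) ≤ m * (C * √h) :=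
    mul_le_mul_of_nonneg_right (by linarith) g2
  nlinarith

end Pool.Agent.H659
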