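import Mathlib

set_option autoImplicit false

open MeasureTheory Set Filter Topology

namespace Pool.Agent.H659.Window

noncomputable section

/-- The open cluster of the origin of `ℤ^d` at the parameter `p`, `ω (x, i)` being the uniform
variable of the edge from `x` to `x + e_i`. -/
def cl (d : ℕ) (p : ℝ) (ω : (Fin d → ℤ) × Fin d → unitInterval) : Set (Fin d → ℤ) :=
  {x | (SimpleGraph.fromRel (fun a b : Fin d → ℤ =>
    ∃ i : Fin d, b = a + (Pi.single i (1 : ℤ) : Fin d → ℤ) ∧ ((ω (a, i) : ℝ) ≤ p))).Reachable 0 x}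

/-- The probability that the cluster of the origin has exactly `n` points (used for `n ≥ 1`). -/
def prob (d : ℕ) (p : ℝ) (n : ℕ) : ℝ :=
  ((Measure.infinitePi (fun _ : (Fin d → ℤ) × Fin d => (volume : Measure unitInterval)))
    {ω | (cl d p ω).ncard = n}).toReal

/-- The percolation function. -/
def theta (d : ℕ) (p : ℝ) : ℝ :=
  ((Measure.infinitePi (fun _ : (Fin d → ℤ) × Fin d => (volume : Measure unitInterval)))
    {ω | (cl d p ω).Infinite}).toReal

/-- The critical point. -/
def pc (d : ℕ) : ℝ := sSup {p : ℝ | theta d p = 0}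

/-- The sum over `n ≥ 1` of `n ^ k * e ^ (- h n)` times the probability that the cluster of the
origin has `n` points. -/
def mom (d k : ℕ) (p h : ℝ) : ℝ :=
  ∑' n : ℕ, ((n : ℝ) + 1) ^ k * prob d p (n + 1) * Real.exp (-h * (n + 1))

/-- The magnetisation: the expectation of `1 - e ^ (- h |C|)`, with `e ^ (- h ∞) = 0`. -/
def mag (d : ℕ) (p h : ℝ) : ℝ := 1 - mom d 0 p h

end

end Pool.Agent.H659.Window
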