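import Pool.Agent.H659.Win
import Pool.Agent.H659.WinDef
import Pool.Agent.H659.Final

set_option autoImplicit false

open MeasureTheory Set Filter Topology

namespace Pool.Agent.H659

open Pool.Agent.W783.PC (pm DepOn Inc)

namespace WF

/-- the probabilities of the sizes of the cluster -/
noncomputable def AA (d : ℕ) (p : ℝ) (n : ℕ) : ℝ := Window.prob d p (n + 1)

theorem AA_nonneg (d : ℕ) (p : ℝ) (n : ℕ) : 0 ≤ AA d p n := ENNReal.toReal_nonneg

theorem AA_eq (h8 : S_trfn) (d : ℕ) (p : unitInterval) (n : ℕ) :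
    AA d (p : ℝ) n = an (Zd d) 0 p (n + 1) := h8 d p (n + 1)

theorem theta_eq (d : ℕ) (p : ℝ) : Window.theta d p = thU d p := rfl

theorem thU_nonneg (d : ℕ) (p : ℝ) : 0 ≤ thU d p := ENNReal.toReal_nonneg

theorem AA_hasSum (h8 : S_trfn) (h10 : S_anb) (h11 : S_trf) (d : ℕ) {p : ℝ} (hp : p ∈ Icc (0:ℝ) 1) :
    HasSum (AA d p) (1 - thU d p) := by
  have h := (h10 (Fin d → ℤ) (Zd d) 0 ⟨p, hp⟩).2.2
  have h2 : thU d p = Pb (⟨p, hp⟩ : unitInterval) (Nf (Zd d) ∅ 0) := h11 d ⟨p, hp⟩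
  rw [h2]
  have h3 : AA d p = fun n => an (Zd d) 0 (⟨p, hp⟩ : unitInterval) (n + 1) := by
    funext n
    exact AA_eq h8 d ⟨p, hp⟩ n
  rw [h3]
  exact h

theorem AA_partial (h8 : S_trfn) (h10 : S_anb) (h11 : S_trf) (d : ℕ) {p : ℝ} (hp : p ∈ Icc (0:ℝ) 1)
    (n : ℕ) : ∑ k ∈ Finset.range n, AA d p k ≤ 1 := by
  have h := sum_le_hasSum (Finset.range n) (fun i _ => AA_nonneg d p i) (AA_hasSum h8 h10 h11 d hp)
  linarith [thU_nonneg d p]

theorem AA_le_one (h8 : S_trfn) (h10 : S_anb) (h11 : S_trf) (d : ℕ) {p : ℝ} (hp : p ∈ Icc (0:ℝ) 1)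
    (n : ℕ) : AA d p n ≤ 1 := by
  have h := AA_partial h8 h10 h11 d hp (n + 1)
  rw [Finset.sum_range_succ] at h
  have h2 : 0 ≤ ∑ k ∈ Finset.range n, AA d p k := Finset.sum_nonneg fun i _ => AA_nonneg d p i
  linarith

theorem thU_sub (d : ℕ) {p : ℝ} (hp : p < Window.pc d) : thU d p = 0 := by
  obtain ⟨q, hq, hpq⟩ := exists_lt_of_lt_csSup (s := {p : ℝ | Window.theta d p = 0})
    ⟨-1, thU_neg d (by norm_num)⟩ hp
  have h1 : thU d q = 0 := hq
  have h2 := thU_mono d hpq.le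
  linarith [thU_nonneg d p]

theorem d_pos (d : ℕ) (h : 0 < Window.pc d) : 0 < d := by
  rcases Nat.eq_zero_or_pos d with rfl | h0
  · exfalso
    have : {p : ℝ | Window.theta 0 p = 0} = univ := by
      ext p
      simp only [mem_ofPred_eq, mem_univ, iff_true]
      have h2 : {ω | (Window.cl 0 p ω).Infinite} = ∅ := by
        ext ω
        simp only [mem_ofPred_eq, mem_empty_iff_false, iff_false]
        intro h3
        exact h3 (Set.toFinite _)
      unfold Window.theta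
      rw [h2]
      simp
    unfold Window.pc at h
    rw [this, Real.sSup_univ] at h
    exact lt_irrefl _ h
  · exact h0

theorem mag_eq (d : ℕ) (p h : ℝ) :
    Window.mag d p h = 1 - ∑' n : ℕ, AA d p n * Real.exp (-h * (n + 1)) := by
  unfold Window.mag Window.mom AA
  congr 1
  refine tsum_congr fun n => ?_
  rw [pow_zero, one_mul]

theorem exp_summable {h : ℝ} (hh : 0 < h) : Summable fun n : ℕ => Real.exp (-h * (n + 1)) := by
  have h1 : Summable fun n : ℕ => Real.exp (-h) ^ n := by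
    apply summable_geometric_of_lt_one (Real.exp_pos _).le
    rw [Real.exp_lt_one_iff]
    linarith
  have h2 := h1.mul_left (Real.exp (-h))
  refine h2.congr fun n => ?_
  rw [← Real.exp_nat_mul, ← Real.exp_add]
  congr 1
  ring

theorem sm_summable (h8 : S_trfn) (h10 : S_anb) (h11 : S_trf) (d : ℕ) {p : ℝ}
    (hp : p ∈ Icc (0:ℝ) 1) {h : ℝ} (hh : 0 < h) :
    Summable fun n : ℕ => AA d p n * Real.exp (-h * (n + 1)) := by
  refine Summable.of_nonneg_of_le (fun n => mul_nonneg (AA_nonneg _ _ _) (Real.exp_pos _).le)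
    (fun n => ?_) (exp_summable hh)
  have := AA_le_one h8 h10 h11 d hp n
  have h2 := Real.exp_pos (-h * ((n : ℝ) + 1))
  nlinarith

theorem mag_nonneg (h8 : S_trfn) (h10 : S_anb) (h11 : S_trf) (d : ℕ) {p : ℝ}
    (hp : p ∈ Icc (0:ℝ) 1) {h : ℝ} (hh : 0 < h) : thU d p ≤ Window.mag d p h := by
  rw [mag_eq]
  have h1 := AA_hasSum h8 h10 h11 d hp
  have h2 := (sm_summable h8 h10 h11 d hp hh).tsum_le_tsum (f := fun n : ℕ => AA d p n * Real.exp (-h * (n + 1)))
    (g := AA d p) (fun n => by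
      have h3 : Real.exp (-h * ((n : ℝ) + 1)) ≤ 1 := by
        rw [Real.exp_le_one_iff]
        have : 0 < h * ((n : ℝ) + 1) := by positivity
        linarith
      have := AA_nonneg d p n
      nlinarith) h1.summable
  rw [h1.tsum_eq] at h2
  linarith

theorem ps_cont (m : ℕ) (c : ℕ → ℕ → ℕ) : Continuous (PS m c) := by
  unfold PS
  fun_prop

theorem AA_cont (h1 : S_poly) (h8 : S_trfn) (d n : ℕ) : ContinuousOn (fun p => AA d p n) (Icc 0 1) := by
  obtain ⟨N, hN⟩ := t_nb d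
  obtain ⟨c, c', h⟩ := h1 (Fin d → ℤ) (Zd d) N (2 * d) 0 hN (n + 1) (by omega)
  have h2 : ContinuousOn (fun p : ℝ => (PS (2 * d * (n + 1)) c (p : ℂ)).re) (Icc 0 1) := by
    have := ps_cont (2 * d * (n + 1)) c
    fun_prop
  refine h2.congr fun p hp => ?_
  have h3 := (h ⟨p, hp⟩).1
  show AA d p n = (PS (2 * d * (n + 1)) c (p : ℂ)).re
  rw [← h3, Complex.ofReal_re]
  exact AA_eq h8 d ⟨p, hp⟩ n

theorem sm_cont (h1 : S_poly) (h8 : S_trfn) (h10 : S_anb) (h11 : S_trf) (d : ℕ) {h : ℝ}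
    (hh : 0 < h) :
    ContinuousOn (fun p => ∑' n : ℕ, AA d p n * Real.exp (-h * (n + 1))) (Icc 0 1) := by
  refine continuousOn_tsum (fun n => ?_) (exp_summable hh) (fun n p hp => ?_)
  · exact (AA_cont h1 h8 d n).mul continuousOn_const
  · rw [Real.norm_eq_abs, abs_of_nonneg (mul_nonneg (AA_nonneg _ _ _) (Real.exp_pos _).le)]
    have := AA_le_one h8 h10 h11 d hp n
    have h2 := Real.exp_pos (-h * ((n : ℝ) + 1))
    nlinarith

/-- step 1 -/
theorem crit (h1 : S_poly) (h7 : S_sub) (h8 : S_trfn) (h10 : S_anb) (h11 : S_trf)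
    (d : ℕ) (a b : ℝ) (ha : 0 < a) (hb : 0 < b) (hpc : 0 < Window.pc d) (hpc1 : Window.pc d < 1)
    (ht1 : Tendsto (fun p => (Window.pc d - p) * Window.mom d 1 p 0) (𝓝[<] Window.pc d) (𝓝 (1 / a)))
    (ht2 : Tendsto (fun q : ℝ × ℝ => Window.mom d 2 q.1 q.2 / Window.mom d 1 q.1 q.2 ^ 3)
        (𝓝[Iio (Window.pc d) ×ˢ Ioi 0] (Window.pc d, 0)) (𝓝 b)) :
    (∃ C h₀ : ℝ, 0 < C ∧ 0 < h₀ ∧ ∀ p ∈ Ioc (Window.pc d - h₀) (Window.pc d), 0 < p → ∀ h : ℝ, 0 < h →
      h ≤ h₀ → Window.mag d p h ≤ C * √h) ∧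
    ∀ s : ℝ, s < 0 → Tendsto (fun h : ℝ => Window.mag d (Window.pc d + s * √h) h / √h) (𝓝[>] 0)
        (𝓝 ((√(a ^ 2 * s ^ 2 + 2 * b) + a * s) / b)) := by
  have h := h7 (AA d) (Window.pc d) a b (Window.pc d) ha hb hpc (fun p _ n => AA_nonneg d p n)
    (fun p hp => by
      have h2 := AA_hasSum h8 h10 h11 d (p := p) ⟨by linarith [hp.1], by linarith [hp.2]⟩
      rwa [thU_sub d hp.2, sub_zero] at h2)
    (by
      refine ht1.congr fun p => ?_
      congr 1
      unfold Window.mom AA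
      refine tsum_congr fun n => ?_
      rw [pow_one]
      simp)
    (by
      refine ht2.congr fun q => ?_
      unfold Window.mom AA
      congr 2
      refine tsum_congr fun n => ?_
      rw [pow_one])
  obtain ⟨⟨C, h₀, hC, hh₀, hle⟩, hlim⟩ := h
  refine ⟨⟨C, h₀, hC, hh₀, ?_⟩, ?_⟩
  · intro p hp hp0 h hh hh'
    rcases hp.2.lt_or_eq with hlt | heq
    · rw [mag_eq]
      exact hle p ⟨hp.1, hlt⟩ h hh hh'
    · rw [mag_eq, heq]
      have hc := (sm_cont h1 h8 h10 h11 d hh).continuousWithinAt (x := Window.pc d) ⟨hpc.le, hpc1.le⟩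
      have hmem : Ioo (max 0 (Window.pc d - h₀)) (Window.pc d) ∈ 𝓝[<] Window.pc d :=
        Ioo_mem_nhdsLT (max_lt hpc (by linarith))
      have hcw : ContinuousWithinAt (fun p => ∑' n : ℕ, AA d p n * Real.exp (-h * (n + 1)))
          (Iio (Window.pc d)) (Window.pc d) := by
        refine hc.mono_of_mem_nhdsWithin ?_
        filter_upwards [hmem] with q hq
        have h4 : 0 < q := (le_max_left _ _).trans_lt hq.1
        exact ⟨h4.le, by linarith [hq.2]⟩
      have h5 : Tendsto (fun p => 1 - ∑' n : ℕ, AA d p n * Real.exp (-h * (n + 1)))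
          (𝓝[<] Window.pc d) (𝓝 (1 - ∑' n : ℕ, AA d (Window.pc d) n * Real.exp (-h * (n + 1)))) :=
        tendsto_const_nhds.sub hcw
      refine le_of_tendsto h5 ?_
      filter_upwards [hmem] with q hq
      exact hle q ⟨(le_max_right _ _).trans_lt hq.1, hq.2⟩ h hh hh'
  · intro s hs
    refine (hlim s hs).congr fun h => ?_
    rw [mag_eq]

/-- step 2 -/
theorem super (h1 : S_poly) (h3 : S_spr) (h4 : S_char) (h8 : S_trfn) (h9 : S_shn)
    (h10 : S_anb) (h11 : S_trf)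
    (d : ℕ) (hpc : 0 < Window.pc d) (hpc1 : Window.pc d < 1) (C h₀ : ℝ) (hC : 0 < C)
    (hh₀ : 0 < h₀) (hle : ∀ h : ℝ, 0 < h → h ≤ h₀ → Window.mag d (Window.pc d) h ≤ C * √h) :
    ∃ K p₁ : ℝ, 0 < K ∧ Window.pc d < p₁ ∧ p₁ < 1 ∧ ∀ p ∈ Icc (Window.pc d) p₁, ∀ h : ℝ, 0 < h →
      h + K * (p - Window.pc d) ≤ h₀ →
      Window.mag d p h ≤ C * √h + C ^ 2 * K * (p - Window.pc d) := by
  set pc := Window.pc d with hpcdef
  have hd := d_pos d hpc
  have hd' : (0 : ℝ) < d := by exact_mod_cast hd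
  obtain ⟨N, hN⟩ := t_nb d
  set p₁ := (1 + pc) / 2 with hp₁
  set K : ℝ := 2 * d / (1 - p₁) with hK
  have hp1 : p₁ < 1 := by rw [hp₁]; linarith
  have hpp : pc < p₁ := by rw [hp₁]; linarith
  have hK0 : 0 < K := div_pos (by linarith) (by linarith)
  refine ⟨K, p₁, hK0, hpp, hp1, ?_⟩
  have hmem : ∀ p ∈ Icc pc p₁, p ∈ Icc (0:ℝ) 1 := fun p hp =>
    ⟨hpc.le.trans hp.1, hp.2.trans hp1.le⟩
  have h := h4 (AA d) pc p₁ K C h₀ hpp hK0 hC hh₀ (fun p _ n => AA_nonneg d p n)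
    (fun p hp n => AA_partial h8 h10 h11 d (hmem p hp) n)
    (fun n => (AA_cont h1 h8 d n).mono hmem)
    (by
      intro p hp p' hp' hpp' h hh
      have hu := hmem p hp
      have hu' := hmem p' hp'
      have e1 : ∀ (q : ℝ) (hq : q ∈ Icc (0:ℝ) 1) (x : Fin d → ℤ),
          Mg (Zd d) x ⟨q, hq⟩ h = 1 - ∑' n : ℕ, AA d q n * Real.exp (-h * (n + 1)) := by
        intro q hq x
        unfold Mg
        congr 1
        refine tsum_congr fun n => ?_
        rw [h9 d ⟨q, hq⟩ x (n + 1), ← AA_eq h8 d ⟨q, hq⟩ n]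
      have e2 : Xg (Zd d) 0 ⟨p, hu⟩ h =
          ∑' n : ℕ, (n + 1) * AA d p n * Real.exp (-h * (n + 1)) := by
        unfold Xg
        refine tsum_congr fun n => ?_
        rw [← AA_eq h8 d ⟨p, hu⟩ n]
      have h5 := h3 (Fin d → ℤ) (Zd d) N (2 * d) 0 ⟨p, hu⟩ ⟨p', hu'⟩ h
        (1 - ∑' n : ℕ, AA d p' n * Real.exp (-h * (n + 1))) hN hh hpp'
        (show p < 1 by linarith [hp.2]) (fun x => (e1 p' hu' x).le)
      rw [e1 p' hu' 0, e1 p hu 0, e2] at h5
      have hX : 0 ≤ ∑' n : ℕ, ((n : ℝ) + 1) * AA d p n * Real.exp (-h * (n + 1)) := by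
        refine tsum_nonneg fun n => ?_
        have := AA_nonneg d p n
        positivity
      have hM : 0 ≤ 1 - ∑' n : ℕ, AA d p' n * Real.exp (-h * (n + 1)) := by
        have := mag_nonneg h8 h10 h11 d hu' hh
        rw [mag_eq] at this
        linarith [thU_nonneg d p']
      have hcoef : ((2 * d : ℕ) : ℝ) * ((p' - p) / (1 - p)) ≤ K * (p' - p) := by
        rw [hK]
        push_cast
        have : (p' - p) / (1 - p) ≤ (p' - p) / (1 - p₁) :=
          div_le_div_of_nonneg_left (by linarith) (by linarith) (by linarith [hp.2])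
        have h6 : 2 * (d : ℝ) * ((p' - p) / (1 - p)) ≤ 2 * d * ((p' - p) / (1 - p₁)) :=
          mul_le_mul_of_nonneg_left this (by linarith)
        refine h6.trans_eq ?_
        ring
      have h7 := mul_le_mul_of_nonneg_right (mul_le_mul_of_nonneg_right hcoef hX) hM
      have h8' : (∑' n : ℕ, AA d p n * Real.exp (-h * (n + 1))) -
          ∑' n : ℕ, AA d p' n * Real.exp (-h * (n + 1)) =
          (1 - ∑' n : ℕ, AA d p' n * Real.exp (-h * (n + 1))) -
          (1 - ∑' n : ℕ, AA d p n * Real.exp (-h * (n + 1))) := by ring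
      rw [h8']
      exact h5.trans h7)
    (by
      intro h hh hh'
      have := hle h hh hh'
      rwa [mag_eq] at this)
  intro p hp h' hh' hh''
  rw [mag_eq]
  exact h p hp h' hh' hh''

/-- step 3 -/
theorem window_bound (d : ℕ) (hpc : 0 < Window.pc d)
    (C h₀ K p₁ : ℝ) (hC : 0 < C) (hh₀ : 0 < h₀) (hK : 0 < K) (hp₁ : Window.pc d < p₁)
    (hle : ∀ p ∈ Ioc (Window.pc d - h₀) (Window.pc d), 0 < p → ∀ h : ℝ, 0 < h →
      h ≤ h₀ → Window.mag d p h ≤ C * √h)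
    (hsup : ∀ p ∈ Icc (Window.pc d) p₁, ∀ h : ℝ, 0 < h →
      h + K * (p - Window.pc d) ≤ h₀ →
      Window.mag d p h ≤ C * √h + C ^ 2 * K * (p - Window.pc d)) (S : ℝ) (hS : 0 < S) :
    ∀ᶠ h in 𝓝[>] (0 : ℝ), ∀ s : ℝ, |s| < S →
      Window.mag d (Window.pc d + s * √h) h ≤ (C + C ^ 2 * K * S) * √h := by
  have hsq : Tendsto (fun h : ℝ => √h) (𝓝[>] 0) (𝓝 0) := by
    have := (Real.continuous_sqrt.tendsto 0).mono_left (nhdsWithin_le_nhds (s := Ioi (0:ℝ)))
    rwa [Real.sqrt_zero] at this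
  have hid : Tendsto (fun h : ℝ => h) (𝓝[>] 0) (𝓝 0) := tendsto_id.mono_left nhdsWithin_le_nhds
  have t1 : Tendsto (fun h : ℝ => S * √h) (𝓝[>] 0) (𝓝 0) := by
    have := hsq.const_mul S
    rwa [mul_zero] at this
  have t2 : Tendsto (fun h : ℝ => h + K * (S * √h)) (𝓝[>] 0) (𝓝 0) := by
    have := hid.add (t1.const_mul K)
    rwa [mul_zero, add_zero] at this
  filter_upwards [t1.eventually (gt_mem_nhds (show (0:ℝ) < min h₀ (min (Window.pc d) (p₁ - Window.pc d)) by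
      refine lt_min hh₀ (lt_min hpc (by linarith)))), t2.eventually (gt_mem_nhds hh₀),
      self_mem_nhdsWithin] with h hh1 hh2 hh
  have hh : 0 < h := hh
  have hs0 : 0 < √h := Real.sqrt_pos.2 hh
  have k1 : S * √h < h₀ := hh1.trans_le (min_le_left _ _)
  have k2 : S * √h < Window.pc d := hh1.trans_le ((min_le_right _ _).trans (min_le_left _ _))
  have k3 : S * √h < p₁ - Window.pc d := hh1.trans_le ((min_le_right _ _).trans (min_le_right _ _))
  have k4 : 0 < S * √h := mul_pos hS hs0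
  have k5 : h ≤ h₀ := by nlinarith
  intro s hs
  rw [abs_lt] at hs
  have m1 : s * √h < S * √h := mul_lt_mul_of_pos_right hs.2 hs0
  have m2 : -(S * √h) < s * √h := by
    have := mul_lt_mul_of_pos_right hs.1 hs0
    linarith
  have m3 : 0 ≤ C ^ 2 * K * S * √h := by positivity
  rcases le_or_gt s 0 with h0 | h0
  · have m4 : s * √h ≤ 0 := mul_nonpos_of_nonpos_of_nonneg h0 hs0.le
    have := hle (Window.pc d + s * √h) ⟨by linarith, by linarith⟩ (by linarith) h hh k5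
    linarith
  · have m4 : 0 < s * √h := mul_pos h0 hs0
    have := hsup (Window.pc d + s * √h) ⟨by linarith, by linarith⟩ h hh (by
      have : K * (s * √h) ≤ K * (S * √h) := mul_le_mul_of_nonneg_left m1.le hK.le
      rw [add_sub_cancel_left]
      linarith)
    rw [add_sub_cancel_left] at this
    have m5 : C ^ 2 * K * (s * √h) ≤ C ^ 2 * K * (S * √h) :=
      mul_le_mul_of_nonneg_left m1.le (by positivity)
    linarith

/-- the limit function -/
noncomputable def gg (a b : ℝ) (w : ℂ) : ℂ :=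
  (((a : ℂ) ^ 2 * w ^ 2 + 2 * b) ^ ((1 : ℂ) / 2) + a * w) / b

theorem gg_real (a b s : ℝ) (hb : 0 < b) :
    gg a b (s : ℂ) = (((√(a ^ 2 * s ^ 2 + 2 * b) + a * s) / b : ℝ) : ℂ) := by
  unfold gg
  have h1 : ((a : ℂ) ^ 2 * (s : ℂ) ^ 2 + 2 * b) = ((a ^ 2 * s ^ 2 + 2 * b : ℝ) : ℂ) := by
    push_cast; ring
  have h2 : 0 ≤ a ^ 2 * s ^ 2 + 2 * b := by positivity
  rw [h1, Real.sqrt_eq_rpow]
  push_cast
  rw [Complex.ofReal_cpow h2]
  push_cast
  rfl

theorem gg_diff (a b κ S : ℝ) (ha : 0 < a) (hb : 0 < b) (hκ : κ ≤ √b / a) :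
    DifferentiableOn ℂ (gg a b) {z : ℂ | -S < z.re ∧ z.re < S ∧ |z.im| < κ} := by
  intro z hz
  have hz3 : |z.im| < √b / a := hz.2.2.trans_le hκ
  have h1 : a * |z.im| < √b := by
    rw [lt_div_iff₀ ha] at hz3
    linarith
  have h2 : a ^ 2 * z.im ^ 2 < b := by
    have h3 : (a * |z.im|) ^ 2 < √b ^ 2 := by
      have : 0 ≤ a * |z.im| := by positivity
      exact pow_lt_pow_left₀ h1 this (by norm_num)
    rw [Real.sq_sqrt hb.le, mul_pow, sq_abs] at h3
    exact h3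
  have h4 : ((a : ℂ) ^ 2 * z ^ 2 + 2 * b).re = a ^ 2 * (z.re ^ 2 - z.im ^ 2) + 2 * b := by
    simp [pow_two]
  have h5 : ((a : ℂ) ^ 2 * z ^ 2 + 2 * b) ∈ Complex.slitPlane := by
    left
    rw [h4]
    nlinarith [mul_nonneg (sq_nonneg a) (sq_nonneg z.re)]
  refine DifferentiableAt.differentiableWithinAt ?_
  unfold gg
  refine DifferentiableAt.div_const ?_ _
  refine DifferentiableAt.add ?_ (by fun_prop)
  refine DifferentiableAt.cpow (by fun_prop) (by fun_prop) h5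

/-- step 4, 5 -/
theorem window (h1 : S_poly) (h5 : S_ana) (h6 : S_vit) (h8 : S_trfn)
    (h10 : S_anb) (h11 : S_trf)
    (d : ℕ) (a b : ℝ) (ha : 0 < a) (hb : 0 < b) (hpc : 0 < Window.pc d) (hpc1 : Window.pc d < 1)
    (hsub : ∀ s : ℝ, s < 0 → Tendsto (fun h : ℝ => Window.mag d (Window.pc d + s * √h) h / √h) (𝓝[>] 0)
        (𝓝 ((√(a ^ 2 * s ^ 2 + 2 * b) + a * s) / b)))
    (S B₀ : ℝ) (hS : 0 < S)
    (hw : ∀ᶠ h in 𝓝[>] (0 : ℝ), ∀ s : ℝ, |s| < S →
      Window.mag d (Window.pc d + s * √h) h ≤ B₀ * √h) :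
    ∀ s : ℝ, -S < s → s < S →
      Tendsto (fun h : ℝ => Window.mag d (Window.pc d + s * √h) h / √h) (𝓝[>] 0)
        (𝓝 ((√(a ^ 2 * s ^ 2 + 2 * b) + a * s) / b)) := by
  set pc := Window.pc d with hpcdef
  have hd := d_pos d hpc
  obtain ⟨N, hN⟩ := t_nb d
  have hch := fun n : ℕ => h1 (Fin d → ℤ) (Zd d) N (2 * d) 0 hN (n + 1) (by omega)
  choose c c' hcc using hch
  set a' : ℝ := min pc (1 - pc) / 2 with ha'
  have hm0 : 0 < min pc (1 - pc) := lt_min hpc (by linarith)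
  have ha0 : 0 < a' := by rw [ha']; linarith
  have ha1 : a' < pc := by
    have := min_le_left pc (1 - pc)
    rw [ha']; linarith
  have ha2 : pc < 1 - a' := by
    have := min_le_right pc (1 - pc)
    rw [ha']; linarith
  have hmem : ∀ p ∈ Icc a' (1 - a'), p ∈ Icc (0:ℝ) 1 := fun p hp =>
    ⟨ha0.le.trans hp.1, hp.2.trans (by linarith)⟩
  obtain ⟨κ, B, hκ, hB, hf⟩ := h5 (2 * d) (AA d) c c' a' ha0 (by omega)
    (fun p _ n => AA_nonneg d p n)
    (fun p hp n => AA_partial h8 h10 h11 d (hmem p hp) n)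
    (fun p hp n => by
      rw [AA_eq h8 d ⟨p, hmem p hp⟩ n]
      exact (hcc n ⟨p, hmem p hp⟩).1)
    (fun p hp n => by
      have := (hcc n ⟨p, hmem p hp⟩).2
      have e : ∑ k ∈ Finset.range n, AA d p k =
          ∑ k ∈ Finset.Ico 1 (n + 1), an (Zd d) 0 ⟨p, hmem p hp⟩ k := by
        rw [Finset.sum_Ico_eq_sum_range, Nat.add_sub_cancel]
        refine Finset.sum_congr rfl fun k _ => ?_
        rw [Nat.add_comm 1 k]
        exact AA_eq h8 d ⟨p, hmem p hp⟩ k
      rw [e]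
      exact this)
  choose f hf using hf
  classical
  set κ' : ℝ := min κ (√b / a) with hκ'
  have hκ0 : 0 < κ' := lt_min hκ (div_pos (Real.sqrt_pos.2 hb) ha)
  set F : ℝ → ℂ → ℂ := fun h w => if hh : 0 < h ∧ h ≤ 1 then f h hh.1 hh.2 (pc + w * √h) / √h else 0
    with hF
  have hFe : ∀ (h : ℝ) (h0 : 0 < h) (h1 : h ≤ 1) (w : ℂ), F h w = f h h0 h1 (pc + w * √h) / √h := by
    intro h h0 h1 w
    simp only [hF]
    rw [dif_pos ⟨h0, h1⟩]
  -- small h
  have hsq : Tendsto (fun h : ℝ => √h) (𝓝[>] 0) (𝓝 0) := by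
    have := (Real.continuous_sqrt.tendsto 0).mono_left (nhdsWithin_le_nhds (s := Ioi (0:ℝ)))
    rwa [Real.sqrt_zero] at this
  have t1 : Tendsto (fun h : ℝ => S * √h) (𝓝[>] 0) (𝓝 0) := by
    have := hsq.const_mul S
    rwa [mul_zero] at this
  have hid : Tendsto (fun h : ℝ => h) (𝓝[>] 0) (𝓝 0) := tendsto_id.mono_left nhdsWithin_le_nhds
  have hsm : ∀ᶠ h in 𝓝[>] (0 : ℝ), 0 < h ∧ h ≤ 1 ∧ S * √h < pc - a' ∧ S * √h < 1 - a' - pc := by
    filter_upwards [t1.eventually (gt_mem_nhds (show (0:ℝ) < min (pc - a') (1 - a' - pc) from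
      lt_min (by linarith) (by linarith))), hid.eventually (gt_mem_nhds one_pos),
      self_mem_nhdsWithin] with h k1 k2 k3
    exact ⟨k3, le_of_lt k2, k1.trans_le (min_le_left _ _), k1.trans_le (min_le_right _ _)⟩
  have hpt : ∀ (h : ℝ), 0 < h → S * √h < pc - a' → S * √h < 1 - a' - pc → ∀ x : ℝ, -S < x → x < S →
      a' < pc + x * √h ∧ pc + x * √h < 1 - a' := by
    intro h h0 k1 k2 x hx1 hx2
    have hs0 : 0 < √h := Real.sqrt_pos.2 h0
    have m1 : x * √h < S * √h := mul_lt_mul_of_pos_right hx2 hs0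
    have m2 : -S * √h < x * √h := mul_lt_mul_of_pos_right hx1 hs0
    constructor <;> linarith
  have him : ∀ (h : ℝ), 0 < h → ∀ y : ℝ, |y| < κ' → |y * √h| < κ * √h := by
    intro h h0 y hy
    have hs0 : 0 < √h := Real.sqrt_pos.2 h0
    rw [abs_mul, abs_of_pos hs0]
    exact mul_lt_mul_of_pos_right (hy.trans_le (min_le_left _ _)) hs0
  -- the values on the real axis
  have hreal : ∀ s : ℝ, -S < s → s < S → ∀ᶠ h in 𝓝[>] (0 : ℝ),
      F h (s : ℂ) = ((Window.mag d (pc + s * √h) h / √h : ℝ) : ℂ) := by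
    intro s hs1 hs2
    filter_upwards [hsm] with h hh
    obtain ⟨k0, k1, k2, k3⟩ := hh
    obtain ⟨m1, m2⟩ := hpt h k0 k2 k3 s hs1 hs2
    rw [hFe h k0 k1]
    have h7 := ((hf h k0 k1).2 (pc + s * √h) 0 m1 m2 (by
      rw [abs_zero]; exact mul_pos hκ (Real.sqrt_pos.2 k0))).1
    rw [← mag_eq] at h7
    push_cast at h7 ⊢
    rw [h7]
  have hmain := h6 S κ' (B * B₀) (-(S / 2)) (-(S / 4)) F (gg a b) hκ0 (by linarith) (by linarith)
    (by linarith) (by
      filter_upwards [hsm, hw] with h hh hwh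
      obtain ⟨k0, k1, k2, k3⟩ := hh
      have hs0 : 0 < √h := Real.sqrt_pos.2 k0
      constructor
      · have hfun : F h = fun w => f h k0 k1 (pc + w * √h) / √h := by
          funext w
          exact hFe h k0 k1 w
        rw [hfun]
        refine DifferentiableOn.div_const ?_ _
        refine DifferentiableOn.comp (hf h k0 k1).1 (by fun_prop) ?_
        intro w hw'
        obtain ⟨m1, m2⟩ := hpt h k0 k2 k3 w.re hw'.1 hw'.2.1
        have m3 := him h k0 w.im hw'.2.2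
        refine ⟨?_, ?_, ?_⟩
        · simpa using m1
        · simpa using m2
        · simpa using m3
      · intro z hz1 hz2 hz3
        obtain ⟨m1, m2⟩ := hpt h k0 k2 k3 z.re hz1 hz2
        have m3 := him h k0 z.im hz3
        have h7 := ((hf h k0 k1).2 (pc + z.re * √h) (z.im * √h) m1 m2 m3).2
        rw [← mag_eq] at h7
        have e : (((pc + z.re * √h : ℝ) : ℂ) + ((z.im * √h : ℝ) : ℂ) * Complex.I) =
            (pc : ℂ) + z * (√h : ℝ) := by
          conv_rhs => rw [← Complex.re_add_im z]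
          push_cast
          ring
        rw [e] at h7
        rw [hFe h k0 k1, norm_div, Complex.norm_real, Real.norm_eq_abs, abs_of_pos hs0,
          div_le_iff₀ hs0]
        refine h7.trans ?_
        have h9 := hwh z.re (abs_lt.2 ⟨hz1, hz2⟩)
        have := mul_le_mul_of_nonneg_left h9 hB.le
        linarith)
    (gg_diff a b κ' S ha hb (min_le_right _ _))
    (by
      intro s hs1 hs2
      have h7 := hsub s (by linarith)
      rw [gg_real a b s hb]
      have h8 := (Complex.continuous_ofReal.tendsto _).comp h7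
      refine h8.congr' ?_
      filter_upwards [hreal s (by linarith) (by linarith)] with h hh
      exact hh.symm)
  intro s hs1 hs2
  have h7 := hmain s hs1 hs2
  rw [gg_real a b s hb] at h7
  have h8 := (Complex.continuous_re.tendsto _).comp h7
  rw [Complex.ofReal_re] at h8
  refine h8.congr' ?_
  filter_upwards [hreal s hs1 hs2] with h hh
  show (F h (s : ℂ)).re = _
  rw [hh, Complex.ofReal_re]

/-- step 6 -/
theorem upper (h8 : S_trfn) (h10 : S_anb) (h11 : S_trf)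
    (d : ℕ) (a b : ℝ) (ha : 0 < a) (hb : 0 < b) (hpc : 0 < Window.pc d) (hpc1 : Window.pc d < 1)
    (hwin : ∀ s : ℝ, Tendsto (fun h : ℝ => Window.mag d (Window.pc d + s * √h) h / √h) (𝓝[>] 0)
        (𝓝 ((√(a ^ 2 * s ^ 2 + 2 * b) + a * s) / b))) (ε : ℝ) (hε : 0 < ε) :
    ∀ᶠ p in 𝓝[>] Window.pc d, Window.theta d p ≤ (2 * a / b + ε) * (p - Window.pc d) := by
  set pc := Window.pc d with hpcdef
  obtain ⟨s, hs, hsε⟩ : ∃ s : ℝ, 0 < s ∧ 1 / (a * s ^ 2) < ε := by
    refine ⟨√(2 / (a * ε)), Real.sqrt_pos.2 (by positivity), ?_⟩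
    rw [Real.sq_sqrt (by positivity)]
    have : 1 / (a * (2 / (a * ε))) = ε / 2 := by
      field_simp
    rw [this]
    linarith
  have hroot : √(a ^ 2 * s ^ 2 + 2 * b) ≤ a * s + b / (a * s) := by
    rw [Real.sqrt_le_left (by positivity)]
    have : (a * s + b / (a * s)) ^ 2 = a ^ 2 * s ^ 2 + 2 * b + (b / (a * s)) ^ 2 := by
      field_simp
      ring
    rw [this]
    linarith [sq_nonneg (b / (a * s))]
  have hlt : (√(a ^ 2 * s ^ 2 + 2 * b) + a * s) / b < (2 * a / b + ε) * s := by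
    have e1 : (√(a ^ 2 * s ^ 2 + 2 * b) + a * s) / b ≤ (a * s + b / (a * s) + a * s) / b :=
      div_le_div_of_nonneg_right (by linarith) hb.le
    have e2 : (a * s + b / (a * s) + a * s) / b = (2 * a / b + 1 / (a * s ^ 2)) * s := by
      field_simp
      ring
    rw [e2] at e1
    refine e1.trans_lt (mul_lt_mul_of_pos_right (by linarith) hs)
  have hev := (hwin s).eventually (gt_mem_nhds hlt)
  have hmap : Tendsto (fun p : ℝ => ((p - pc) / s) ^ 2) (𝓝[>] pc) (𝓝[>] 0) := by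
    refine tendsto_nhdsWithin_iff.2 ⟨?_, ?_⟩
    · have : Tendsto (fun p : ℝ => ((p - pc) / s) ^ 2) (𝓝 pc) (𝓝 (((pc - pc) / s) ^ 2)) :=
        (Continuous.tendsto (by fun_prop) pc)
      rw [sub_self, zero_div, zero_pow (by norm_num)] at this
      exact this.mono_left nhdsWithin_le_nhds
    · filter_upwards [self_mem_nhdsWithin] with p hp
      have hp : pc < p := hp
      have : 0 < (p - pc) / s := div_pos (by linarith) hs
      exact pow_pos this 2
  filter_upwards [hmap.eventually hev, self_mem_nhdsWithin, Ioo_mem_nhdsGT hpc1] with p hp hp1 hp2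
  have hp1 : pc < p := hp1
  have h0 : 0 < (p - pc) / s := div_pos (by linarith) hs
  have hsq : √(((p - pc) / s) ^ 2) = (p - pc) / s := Real.sqrt_sq h0.le
  rw [hsq] at hp
  have e : pc + s * ((p - pc) / s) = p := by
    field_simp
    ring
  rw [e, div_lt_iff₀ h0] at hp
  have h9 := mag_nonneg h8 h10 h11 d (p := p) ⟨by linarith, hp2.2.le⟩ (h := ((p - pc) / s) ^ 2)
    (pow_pos h0 2)
  rw [theta_eq]
  have e2 : (2 * a / b + ε) * s * ((p - pc) / s) = (2 * a / b + ε) * (p - pc) := by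
    field_simp
  rw [e2] at hp
  linarith

end WF

theorem t_winfin (h1 : S_poly) (h2 : S_psbd) (h3 : S_spr) (h4 : S_char) (h5 : S_ana) (h6 : S_vit)
    (h7 : S_sub) (h8 : S_trfn) (h9 : S_shn) (h10 : S_anb) (h11 : S_trf) :
    ∀ (d : ℕ) (a b : ℝ), 0 < a → 0 < b → 0 < Window.pc d → Window.pc d < 1 →
      Tendsto (fun p => (Window.pc d - p) * Window.mom d 1 p 0) (𝓝[<] Window.pc d) (𝓝 (1 / a)) →
      Tendsto (fun q : ℝ × ℝ => Window.mom d 2 q.1 q.2 / Window.mom d 1 q.1 q.2 ^ 3)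
        (𝓝[Iio (Window.pc d) ×ˢ Ioi 0] (Window.pc d, 0)) (𝓝 b) →
      (∀ s : ℝ, Tendsto (fun h : ℝ => Window.mag d (Window.pc d + s * √h) h / √h) (𝓝[>] 0)
        (𝓝 ((√(a ^ 2 * s ^ 2 + 2 * b) + a * s) / b))) ∧
      ∀ ε : ℝ, 0 < ε → ∀ᶠ p in 𝓝[>] Window.pc d,
        Window.theta d p ≤ (2 * a / b + ε) * (p - Window.pc d) := by
  intro d a b ha hb hpc hpc1 ht1 ht2
  obtain ⟨⟨C, h₀, hC, hh₀, hle⟩, hlim⟩ := WF.crit h1 h7 h8 h10 h11 d a b ha hb hpc hpc1 ht1 ht2
  obtain ⟨K, p₁, hK, hpp, hp1, hsup⟩ := WF.super h1 h3 h4 h8 h9 h10 h11 d hpc hpc1 C h₀ hC hh₀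
    (fun h hh hh' => hle (Window.pc d) ⟨by linarith, le_rfl⟩ hpc h hh hh')
  have hwin : ∀ s : ℝ, Tendsto (fun h : ℝ => Window.mag d (Window.pc d + s * √h) h / √h) (𝓝[>] 0)
        (𝓝 ((√(a ^ 2 * s ^ 2 + 2 * b) + a * s) / b)) := by
    intro s
    have hS : 0 < |s| + 1 := by positivity
    refine WF.window h1 h5 h6 h8 h10 h11 d a b ha hb hpc hpc1 hlim (|s| + 1) _ hS
      (WF.window_bound d hpc C h₀ K p₁ hC hh₀ hK hpp hle hsup (|s| + 1) hS) s ?_ ?_
    · linarith [neg_abs_le s]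
    · linarith [le_abs_self s]
  exact ⟨hwin, fun ε hε => WF.upper h8 h10 h11 d a b ha hb hpc hpc1 hwin ε hε⟩

end Pool.Agent.H659
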