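import Pool.Agent.H659.Win
import Pool.Agent.H659.Tools
import Pool.Agent.H659.Graph

set_option autoImplicit false

open MeasureTheory Set Filter Topology

namespace Pool.Agent.H659

open Pool.Agent.W783.PC (pm DepOn Inc)

namespace PolyAux

variable {V : Type}

/-- the cylinder -/
def cy (O B : Finset (Sym2 V)) (K : Set (Sym2 V)) : Prop := (∀ e ∈ O, e ∈ K) ∧ ∀ e ∈ B, e ∉ K

lemma cy_prob (p : unitInterval) (O B : Finset (Sym2 V)) (hOB : Disjoint O B) :
    Pb p (cy O B) = (p : ℝ) ^ O.card * (1 - (p : ℝ)) ^ B.card := by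
  classical
  have hset : Ev (cy O B) = Set.pi ((O ∪ B : Finset (Sym2 V)) : Set (Sym2 V))
      (fun c => {decide (c ∈ O)}) := by
    ext ω
    show ((∀ e ∈ O, ω e = true) ∧ ∀ e ∈ B, ¬ (ω e = true)) ↔ _
    simp only [Set.mem_pi, Finset.mem_coe, Finset.mem_union, Set.mem_singleton_iff]
    constructor
    · rintro ⟨h1, h2⟩ e he
      by_cases heO : e ∈ O
      · rw [h1 e heO]; symm; rw [decide_eq_true_eq]; exact heO
      · have heB : e ∈ B := by
          rcases he with he | he
          · exact absurd he heO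
          · exact he
        rw [Bool.eq_false_iff.2 (h2 e heB)]; symm; rw [decide_eq_false_iff_not]; exact heO
    · intro h
      refine ⟨fun e he => ?_, fun e he => ?_⟩
      · rw [h e (Or.inl he), decide_eq_true_eq]; exact he
      · rw [h e (Or.inr he), decide_eq_true_eq]
        exact fun h' => (Finset.disjoint_left.1 hOB h' he)
  have hp0 : (0 : ℝ) ≤ p := p.2.1
  have hp1 : (0 : ℝ) ≤ 1 - p := by linarith [p.2.2]
  unfold Pb
  rw [hset, measureReal_def]
  unfold pm
  rw [Measure.infinitePi_pi _ fun _ _ => MeasurableSet.singleton _]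
  have hterm : ∀ e ∈ O ∪ B, Pool.Agent.W783.PC.bern p {decide (e ∈ O)} =
      ENNReal.ofReal (if e ∈ O then (p : ℝ) else 1 - p) := by
    intro e _
    by_cases he : e ∈ O
    · rw [decide_eq_true he, if_pos he]
      exact Pool.Agent.W45.PC.bern_true p
    · rw [decide_eq_false he, if_neg he]
      exact Pool.Agent.W45.PC.bern_false p
  rw [Finset.prod_congr rfl hterm, ← ENNReal.ofReal_prod_of_nonneg, ENNReal.toReal_ofReal]
  · rw [Finset.prod_union hOB]
    congr 1
    · rw [Finset.prod_congr rfl (g := fun _ => (p : ℝ)) (fun e he => by rw [if_pos he]),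
        Finset.prod_const]
    · rw [Finset.prod_congr rfl (g := fun _ => 1 - (p : ℝ))
        (fun e he => by rw [if_neg (fun h' => Finset.disjoint_left.1 hOB h' he)]),
        Finset.prod_const]
  · apply Finset.prod_nonneg
    intro u _; split_ifs <;> assumption
  · intro u _; split_ifs <;> assumption

lemma PS_zero (m : ℕ) (z : ℂ) : PS m (fun _ _ => 0) z = 0 := by
  unfold PS
  simp

lemma PS_add (m : ℕ) (c c' : ℕ → ℕ → ℕ) (z : ℂ) :
    PS m (fun i j => c i j + c' i j) z = PS m c z + PS m c' z := by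
  unfold PS
  rw [← Finset.sum_add_distrib]
  refine Finset.sum_congr rfl fun i _ => ?_
  rw [← Finset.sum_add_distrib]
  refine Finset.sum_congr rfl fun j _ => ?_
  push_cast
  ring

lemma PS_single (m a b : ℕ) (h : a + b ≤ m) (z : ℂ) :
    PS m (fun i j => if i = a ∧ j = b then 1 else 0) z = z ^ a * (1 - z) ^ b := by
  unfold PS
  rw [Finset.sum_eq_single a, Finset.sum_eq_single b]
  · simp
  · intro j _ hj
    simp [hj]
  · intro hb
    exact absurd (Finset.mem_range.2 (by omega)) hb
  · intro i _ hi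
    refine Finset.sum_eq_zero fun j _ => ?_
    simp [hi]
  · intro ha
    exact absurd (Finset.mem_range.2 (by omega)) ha

/-- the probability is a polynomial -/
def De (m : ℕ) (P : Set (Sym2 V) → Prop) : Prop :=
  ∃ c : ℕ → ℕ → ℕ, ∀ p : unitInterval, ((Pb p P : ℝ) : ℂ) = PS m c ((p : ℝ) : ℂ)

lemma De_empty (m : ℕ) (P : Set (Sym2 V) → Prop) (h : ∀ K, ¬ P K) : De m P := by
  refine ⟨fun _ _ => 0, fun p => ?_⟩
  rw [Pb_false p h, PS_zero]; simp

lemma De_cyl (m : ℕ) (P : Set (Sym2 V) → Prop) (O B : Finset (Sym2 V)) (hd : Disjoint O B)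
    (hm : O.card + B.card ≤ m) (h : ∀ K, P K ↔ cy O B K) : De m P := by
  refine ⟨fun i j => if i = O.card ∧ j = B.card then 1 else 0, fun p => ?_⟩
  rw [Pb_congr h, cy_prob p O B hd, PS_single m _ _ hm]
  push_cast
  ring

lemma Pb_split (p : unitInterval) (P : Set (Sym2 V) → Prop) (e : Sym2 V) :
    Pb p P = Pb p (fun K => P K ∧ e ∈ K) + Pb p (fun K => P K ∧ e ∉ K) := by
  unfold Pb
  exact (measureReal_inter_add_sdiff (s := Ev P) (meas_edge e)).symm

lemma De_split (m : ℕ) (P : Set (Sym2 V) → Prop) (e : Sym2 V)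
    (h1 : De m (fun K => P K ∧ e ∈ K)) (h2 : De m (fun K => P K ∧ e ∉ K)) : De m P := by
  obtain ⟨c, hc⟩ := h1
  obtain ⟨c', hc'⟩ := h2
  refine ⟨fun i j => c i j + c' i j, fun p => ?_⟩
  rw [PS_add, ← hc, ← hc', Pb_split p P e]
  push_cast
  ring

lemma De_congr (m : ℕ) {P Q : Set (Sym2 V) → Prop} (h : ∀ K, P K ↔ Q K) (hQ : De m Q) :
    De m P := by
  obtain ⟨c, hc⟩ := hQ
  exact ⟨c, fun p => by rw [Pb_congr h, hc]⟩

/-- the states of the exploration -/
structure St (G : SimpleGraph V) (o : V) (n : ℕ) (A : Finset V) (O B : Finset (Sym2 V)) :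
    Prop where
  ho : o ∈ A
  hc : A.card ≤ n
  hd : Disjoint O B
  hO : ∀ e ∈ O, ∃ x ∈ A, ∃ y, G.Adj x y ∧ e = s(x, y)
  hB : ∀ e ∈ B, ∃ x ∈ A, ∃ y, G.Adj x y ∧ e = s(x, y)
  hA : ∀ x ∈ A, ∀ y, s(x, y) ∈ O → y ∈ A
  hr : ∀ K : Set (Sym2 V), (∀ e ∈ O, e ∈ K) → ∀ a ∈ A, (Gr G K ∅).Reachable o a

lemma St_card {G : SimpleGraph V} {N : V → Finset V} {D : ℕ} (hN : Nb G N D) {o : V} {n : ℕ}
    {A : Finset V} {O B : Finset (Sym2 V)} (h : St G o n A O B) : O.card + B.card ≤ D * n := by
  classical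
  rw [← Finset.card_union_of_disjoint h.hd]
  have hsub : O ∪ B ⊆ A.biUnion (fun x => (N x).image (fun y => s(x, y))) := by
    intro e he
    rw [Finset.mem_biUnion]
    have : ∃ x ∈ A, ∃ y, G.Adj x y ∧ e = s(x, y) := by
      rcases Finset.mem_union.1 he with he | he
      · exact h.hO e he
      · exact h.hB e he
    obtain ⟨x, hx, y, hy, rfl⟩ := this
    exact ⟨x, hx, Finset.mem_image.2 ⟨y, (hN.1 x y).2 hy, rfl⟩⟩
  calc (O ∪ B).card ≤ _ := Finset.card_le_card hsub
    _ ≤ A.card * D := Finset.card_biUnion_le_card_mul _ _ _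
        (fun x _ => Finset.card_image_le.trans (hN.2 x))
    _ ≤ D * n := by rw [mul_comm]; exact Nat.mul_le_mul_left _ h.hc

lemma St_cs_sup {G : SimpleGraph V} {o : V} {n : ℕ} {A : Finset V} {O B : Finset (Sym2 V)}
    (h : St G o n A O B) {K : Set (Sym2 V)} (hK : cy O B K) : (A : Set V) ⊆ Cs G o K :=
  fun a ha => h.hr K hK.1 a ha

lemma St_cs_eq {G : SimpleGraph V} {o : V} {n : ℕ} {A : Finset V} {O B : Finset (Sym2 V)}
    (h : St G o n A O B) (hs : ∀ x ∈ A, ∀ y, y ∉ A → G.Adj x y → s(x, y) ∈ B)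
    {K : Set (Sym2 V)} (hK : cy O B K) : Cs G o K = (A : Set V) := by
  refine Set.Subset.antisymm ?_ (St_cs_sup h hK)
  intro x hx
  obtain ⟨q⟩ : (Gr G K ∅).Reachable o x := hx
  have : ∀ u v : V, (Gr G K ∅).Walk u v → u ∈ A → v ∈ A := by
    intro u v q
    induction q with
    | nil => exact fun h => h
    | @cons u v w hadj q ih =>
      intro hu
      refine ih ?_
      by_contra hv
      exact hK.2 _ (hs u hu v hv hadj.1) hadj.2.1
  exact this o x q h.ho

/-- the goals -/
def Go (G : SimpleGraph V) (o : V) (n : ℕ) : Bool → Set (Sym2 V) → Prop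
  | true, K => (Cs G o K).ncard = n
  | false, K => (Cs G o K).ncard = 0 ∨ n ≤ (Cs G o K).ncard

lemma St_open {G : SimpleGraph V} [DecidableEq V] [DecidableEq (Sym2 V)] {o : V} {n : ℕ}
    {A : Finset V} {O B : Finset (Sym2 V)}
    (h : St G o n A O B) (hc : A.card < n) {x y : V} (hx : x ∈ A) (hy : y ∉ A)
    (hxy : G.Adj x y) (he : s(x, y) ∉ B) : St G o n (insert y A) (insert s(x, y) O) B where
  ho := Finset.mem_insert_of_mem h.ho
  hc := (Finset.card_insert_le _ _).trans hc
  hd := by
    rw [Finset.disjoint_insert_left]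
    exact ⟨he, h.hd⟩
  hO := by
    intro e he
    rcases Finset.mem_insert.1 he with rfl | he
    · exact ⟨x, Finset.mem_insert_of_mem hx, y, hxy, rfl⟩
    · obtain ⟨a, ha, c, hac⟩ := h.hO e he
      exact ⟨a, Finset.mem_insert_of_mem ha, c, hac⟩
  hB := by
    intro e he
    obtain ⟨a, ha, c, hac⟩ := h.hB e he
    exact ⟨a, Finset.mem_insert_of_mem ha, c, hac⟩
  hA := by
    intro x' hx' y' h'
    rcases Finset.mem_insert.1 h' with h'' | h''
    · have : y' ∈ s(x, y) := by rw [← h'']; exact Sym2.mem_mk_right _ _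
      rcases Sym2.mem_iff.1 this with rfl | rfl
      · exact Finset.mem_insert_of_mem hx
      · exact Finset.mem_insert_self _ _
    · rcases Finset.mem_insert.1 hx' with rfl | hx'
      · obtain ⟨a, ha, c, _, hac⟩ := h.hO _ h''
        have : a ∈ s(x', y') := by rw [hac]; exact Sym2.mem_mk_left _ _
        rcases Sym2.mem_iff.1 this with rfl | rfl
        · exact absurd ha hy
        · exact Finset.mem_insert_of_mem ha
      · exact Finset.mem_insert_of_mem (h.hA x' hx' y' h'')
  hr := by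
    intro K hK a ha
    have hK' : ∀ e ∈ O, e ∈ K := fun e he => hK e (Finset.mem_insert_of_mem he)
    rcases Finset.mem_insert.1 ha with rfl | ha
    · refine (h.hr K hK' x hx).trans (SimpleGraph.Adj.reachable ?_)
      exact ⟨hxy, hK _ (Finset.mem_insert_self _ _), fun h => h, fun h => h⟩
    · exact h.hr K hK' a ha

lemma St_closed {G : SimpleGraph V} [DecidableEq (Sym2 V)] {o : V} {n : ℕ}
    {A : Finset V} {O B : Finset (Sym2 V)}
    (h : St G o n A O B) {x y : V} (hx : x ∈ A)
    (hxy : G.Adj x y) (he : s(x, y) ∉ O) : St G o n A O (insert s(x, y) B) where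
  ho := h.ho
  hc := h.hc
  hd := by
    rw [Finset.disjoint_insert_right]
    exact ⟨he, h.hd⟩
  hO := h.hO
  hB := by
    intro e he
    rcases Finset.mem_insert.1 he with rfl | he
    · exact ⟨x, hx, y, hxy, rfl⟩
    · exact h.hB e he
  hA := h.hA
  hr := h.hr

lemma explore (G : SimpleGraph V) (N : V → Finset V) (D : ℕ) (hN : Nb G N D) (o : V) (n : ℕ)
    (hn : 1 ≤ n) (b : Bool) (k : ℕ) :
    ∀ (A : Finset V) (O B : Finset (Sym2 V)), St G o n A O B →
    D * n - (O.card + B.card) = k → De (D * n) (fun K => cy O B K ∧ Go G o n b K) := by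
  classical
  induction k using Nat.strong_induction_on with
  | _ k ih =>
  intro A O B h hk
  have hcard := St_card hN h
  by_cases hs : ∀ x ∈ A, ∀ y, y ∉ A → G.Adj x y → s(x, y) ∈ B
  · -- saturated
    have hcs : ∀ K, cy O B K → (Cs G o K).ncard = A.card := by
      intro K hK
      rw [St_cs_eq h hs hK, Set.ncard_coe_finset]
    by_cases hA : A.card = n
    · refine De_cyl _ _ O B h.hd hcard fun K => ⟨fun h => h.1, fun hK => ⟨hK, ?_⟩⟩
      cases b with
      | true => exact (hcs K hK).trans hA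
      | false => exact Or.inr (by rw [hcs K hK, hA])
    · refine De_empty _ _ ?_
      rintro K ⟨hK, hG⟩
      have hpos : 0 < A.card := Finset.card_pos.2 ⟨o, h.ho⟩
      have hle := h.hc
      cases b with
      | true => exact hA ((hcs K hK).symm.trans hG)
      | false =>
        rcases hG with hG | hG
        · rw [hcs K hK] at hG; omega
        · rw [hcs K hK] at hG; omega
  · push Not at hs
    obtain ⟨x, hx, y, hy, hxy, he⟩ := hs
    have he' : s(x, y) ∉ O := fun h' => hy (h.hA x hx y h')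
    have hcl := St_closed h hx hxy he'
    have hclc := St_card hN hcl
    rw [Finset.card_insert_of_notMem he] at hclc
    have h2 : De (D * n) (fun K => (cy O B K ∧ Go G o n b K) ∧ s(x, y) ∉ K) := by
      refine De_congr _ (fun K => ?_) (ih _ ?_ A O (insert s(x, y) B) hcl rfl)
      · constructor
        · rintro ⟨⟨⟨h1, h2⟩, h3⟩, h4⟩
          refine ⟨⟨h1, fun e he => ?_⟩, h3⟩
          rcases Finset.mem_insert.1 he with rfl | he
          · exact h4
          · exact h2 e he
        · rintro ⟨⟨h1, h2⟩, h3⟩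
          exact ⟨⟨⟨h1, fun e he => h2 e (Finset.mem_insert_of_mem he)⟩, h3⟩,
            h2 _ (Finset.mem_insert_self _ _)⟩
      · rw [Finset.card_insert_of_notMem he]; omega
    rcases lt_or_eq_of_le h.hc with hlt | heq
    · have hop := St_open h hlt hx hy hxy he
      have h1 : De (D * n) (fun K => (cy O B K ∧ Go G o n b K) ∧ s(x, y) ∈ K) := by
        refine De_congr _ (fun K => ?_) (ih _ ?_ (insert y A) (insert s(x, y) O) B hop rfl)
        · constructor
          · rintro ⟨⟨⟨h1, h2⟩, h3⟩, h4⟩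
            refine ⟨⟨fun e he => ?_, h2⟩, h3⟩
            rcases Finset.mem_insert.1 he with rfl | he
            · exact h4
            · exact h1 e he
          · rintro ⟨⟨h1, h2⟩, h3⟩
            exact ⟨⟨⟨fun e he => h1 e (Finset.mem_insert_of_mem he), h2⟩, h3⟩,
              h1 _ (Finset.mem_insert_self _ _)⟩
        · rw [Finset.card_insert_of_notMem he']; omega
      exact De_split _ _ _ h1 h2
    · cases b with
      | false =>
        refine De_cyl _ _ O B h.hd hcard fun K => ⟨fun h => h.1, fun hK => ⟨hK, ?_⟩⟩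
        show _ = 0 ∨ n ≤ _
        by_cases hfin : (Cs G o K).Finite
        · right
          calc n = (A : Set V).ncard := by rw [Set.ncard_coe_finset, heq]
            _ ≤ _ := Set.ncard_le_ncard (St_cs_sup h hK) hfin
        · left
          exact Set.Infinite.ncard hfin
      | true =>
        refine De_split _ _ s(x, y) (De_empty _ _ ?_) h2
        rintro K ⟨⟨hK, hG⟩, hKe⟩
        have hG : (Cs G o K).ncard = n := hG
        have hfin : (Cs G o K).Finite := Set.finite_of_ncard_pos (by omega)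
        have hsub : ((insert y A : Finset V) : Set V) ⊆ Cs G o K := by
          rw [Finset.coe_insert]
          refine Set.insert_subset ?_ (St_cs_sup h hK)
          refine (h.hr K hK.1 x hx).trans (SimpleGraph.Adj.reachable ?_)
          exact ⟨hxy, hKe, fun h => h, fun h => h⟩
        have := Set.ncard_le_ncard hsub hfin
        rw [Set.ncard_coe_finset, Finset.card_insert_of_notMem hy, hG] at this
        omega

lemma St_init (G : SimpleGraph V) (o : V) (n : ℕ) (hn : 1 ≤ n) : St G o n {o} ∅ ∅ where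
  ho := Finset.mem_singleton_self _
  hc := by simpa using hn
  hd := Finset.disjoint_empty_left _
  hO := by simp
  hB := by simp
  hA := by simp
  hr := by
    intro K _ a ha
    rw [Finset.mem_singleton] at ha
    rw [ha]

lemma De_go (G : SimpleGraph V) (N : V → Finset V) (D : ℕ) (hN : Nb G N D) (o : V) (n : ℕ)
    (hn : 1 ≤ n) (b : Bool) : De (D * n) (Go G o n b) := by
  refine De_congr _ (fun K => ?_) (explore G N D hN o n hn b _ {o} ∅ ∅ (St_init G o n hn) rfl)
  simp [cy]

lemma meas_mem [Countable V] (G : SimpleGraph V) (o x : V) :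
    MeasurableSet (Ev (fun K : Set (Sym2 V) => x ∈ Cs G o K)) :=
  t_meas V _ (fm_reach G ∅ o x)

lemma meas_ncard [Countable V] (G : SimpleGraph V) (o : V) (n : ℕ) (hn : 1 ≤ n) :
    MeasurableSet (Ev (fun K : Set (Sym2 V) => (Cs G o K).ncard = n)) := by
  classical
  have : Ev (fun K : Set (Sym2 V) => (Cs G o K).ncard = n) =
      ⋃ F : Finset V, ⋃ _ : F.card = n, ⋂ x : V,
        Ev (fun K : Set (Sym2 V) => (x ∈ Cs G o K ↔ x ∈ F)) := by
    ext ω
    simp only [mem_iUnion, mem_iInter]
    constructor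
    · intro h
      have h : (Cs G o (opn ω)).ncard = n := h
      have hfin : (Cs G o (opn ω)).Finite := Set.finite_of_ncard_pos (by omega)
      refine ⟨hfin.toFinset, ?_, fun x => ?_⟩
      · rw [← h, Set.ncard_eq_toFinset_card _ hfin]
      · show (x ∈ Cs G o (opn ω) ↔ x ∈ hfin.toFinset)
        simp
    · rintro ⟨F, hF, h⟩
      have h : ∀ x, (x ∈ Cs G o (opn ω) ↔ x ∈ F) := h
      show (Cs G o (opn ω)).ncard = n
      have : Cs G o (opn ω) = (F : Set V) := by ext x; rw [h x]; simp
      rw [this, Set.ncard_coe_finset, hF]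
  rw [this]
  refine MeasurableSet.iUnion fun F => MeasurableSet.iUnion fun _ => MeasurableSet.iInter fun x => ?_
  by_cases hx : x ∈ F
  · have : Ev (fun K : Set (Sym2 V) => (x ∈ Cs G o K ↔ x ∈ F)) =
      Ev (fun K : Set (Sym2 V) => x ∈ Cs G o K) := by
      ext ω
      show (x ∈ Cs G o (opn ω) ↔ x ∈ F) ↔ x ∈ Cs G o (opn ω)
      simp [hx]
    rw [this]; exact meas_mem G o x
  · have : Ev (fun K : Set (Sym2 V) => (x ∈ Cs G o K ↔ x ∈ F)) =
      (Ev (fun K : Set (Sym2 V) => x ∈ Cs G o K))ᶜ := by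
      ext ω
      show (x ∈ Cs G o (opn ω) ↔ x ∈ F) ↔ ¬ x ∈ Cs G o (opn ω)
      simp [hx]
    rw [this]; exact (meas_mem G o x).compl

lemma Pb_sum [Countable V] (G : SimpleGraph V) (o : V) (p : unitInterval) (n : ℕ) (hn : 1 ≤ n) :
    Pb p (Go G o n false) = 1 - ∑ k ∈ Finset.Ico 1 n, an G o p k := by
  induction n, hn using Nat.le_induction with
  | base =>
    rw [Finset.Ico_self, Finset.sum_empty, sub_zero]
    refine Pb_true p fun K => ?_
    show _ = 0 ∨ 1 ≤ _
    omega
  | succ n hn ih =>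
    rw [Finset.sum_Ico_succ_top hn, ← sub_sub, ← ih]
    have h : Pb p (Go G o n false) = Pb p (fun K => Go G o n false K ∧ (Cs G o K).ncard = n) +
        Pb p (fun K => Go G o n false K ∧ ¬ (Cs G o K).ncard = n) := by
      unfold Pb
      exact (measureReal_inter_add_sdiff (s := Ev (Go G o n false)) (meas_ncard G o n hn)).symm
    have h1 : Pb p (fun K => Go G o n false K ∧ (Cs G o K).ncard = n) = an G o p n := by
      unfold an
      refine Pb_congr fun K => ⟨fun h => h.2, fun h => ⟨Or.inr h.ge, h⟩⟩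
    have h2 : Pb p (fun K => Go G o n false K ∧ ¬ (Cs G o K).ncard = n) =
        Pb p (Go G o (n + 1) false) := by
      refine Pb_congr fun K => ?_
      show (((Cs G o K).ncard = 0 ∨ n ≤ (Cs G o K).ncard) ∧ ¬ (Cs G o K).ncard = n) ↔
        ((Cs G o K).ncard = 0 ∨ n + 1 ≤ (Cs G o K).ncard)
      omega
    rw [h, h1, h2]
    ring

end PolyAux

theorem t_poly : S_poly := by
  intro V _ G N D o hN n hn
  obtain ⟨c, hc⟩ := PolyAux.De_go G N D hN o n hn true
  obtain ⟨c', hc'⟩ := PolyAux.De_go G N D hN o n hn false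
  refine ⟨c, c', fun p => ⟨?_, ?_⟩⟩
  · rw [← hc p]; rfl
  · rw [← hc' p, PolyAux.Pb_sum G o p n hn]

end Pool.Agent.H659
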