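import Pool.Agent.H659.Win

/-
Owner helper659. Everything under `Pool/Agent/H659/` is on origin/main (git fetch in outputs/live; copy the files you
need, e.g. `H659/Defs.lean`, `H659/Stmts.lean`, `H659/Win.lean`, `H592F/Orient.lean`, `W783/Perc/Defs.lean`, to the same
paths under /workdir/pool/Pool/Agent). The definitions are in Defs.lean and Win.lean; each `S_*` is a Prop.
Pure analysis, no percolation.
Deliver a file with the target theorem proved, statement unchanged, no sorry, in namespace Pool.Agent.H659 (helpers in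
a sub-namespace of your own please, and no H659 file may be edited).

PROOF IDEA
|p+iy| = p sqrt(1+y²/p²) ≤ p exp(y²/(2p²)) ≤ p exp(y²/(2a²)), similarly |1-p-iy| ≤ (1-p) exp(y²/(2a²)), and i+j ≤ m in every
term.
-/

set_option autoImplicit false

open MeasureTheory Set Filter Topology

namespace Pool.Agent.H659

open Pool.Agent.W783.PC (pm DepOn Inc)

namespace PsbdAux

theorem norm_le_aux (a b y : ℝ) (ha : 0 < a) (hab : a ≤ b) :
    ‖(b : ℂ) + (y : ℂ) * Complex.I‖ ≤ b * Real.exp (y ^ 2 / (2 * a ^ 2)) := by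
  have hb : 0 < b := lt_of_lt_of_le ha hab
  have h0 : 0 ≤ b * Real.exp (y ^ 2 / (2 * a ^ 2)) := by positivity
  refine (pow_le_pow_iff_left₀ (norm_nonneg _) h0 two_ne_zero).1 ?_
  have h1 : ‖(b : ℂ) + (y : ℂ) * Complex.I‖ ^ 2 = b ^ 2 + y ^ 2 := by
    rw [Complex.norm_add_mul_I, Real.sq_sqrt (by positivity)]
  have h2 : (b * Real.exp (y ^ 2 / (2 * a ^ 2))) ^ 2 = b ^ 2 * Real.exp (y ^ 2 / a ^ 2) := by
    rw [mul_pow, ← Real.exp_nat_mul]
    congr 2
    field_simp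
    push_cast
    ring
  rw [h1, h2]
  have h3 : y ^ 2 / b ^ 2 ≤ y ^ 2 / a ^ 2 :=
    div_le_div_of_nonneg_left (sq_nonneg y) (by positivity) (pow_le_pow_left₀ ha.le hab 2)
  have h4 : y ^ 2 / a ^ 2 + 1 ≤ Real.exp (y ^ 2 / a ^ 2) := Real.add_one_le_exp _
  have h5 : b ^ 2 * (y ^ 2 / b ^ 2 + 1) = b ^ 2 + y ^ 2 := by field_simp; ring
  calc b ^ 2 + y ^ 2 = b ^ 2 * (y ^ 2 / b ^ 2 + 1) := h5.symm
    _ ≤ b ^ 2 * Real.exp (y ^ 2 / a ^ 2) :=
      mul_le_mul_of_nonneg_left (by linarith) (by positivity)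

/-- the real sum -/
noncomputable def SR (m : ℕ) (c : ℕ → ℕ → ℕ) (p : ℝ) : ℝ :=
  ∑ i ∈ Finset.range (m + 1), ∑ j ∈ Finset.range (m + 1 - i), (c i j : ℝ) * p ^ i * (1 - p) ^ j

theorem PS_real (m : ℕ) (c : ℕ → ℕ → ℕ) (p : ℝ) : PS m c (p : ℂ) = ((SR m c p : ℝ) : ℂ) := by
  unfold PS SR
  push_cast
  rfl

end PsbdAux

open PsbdAux in
theorem t_psbd : S_psbd := by
  intro m c a p y ha hap hap'
  have hp : 0 < p := lt_of_lt_of_le ha hap
  have hp' : 0 < 1 - p := lt_of_lt_of_le ha hap'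
  have hSR : 0 ≤ SR m c p := by
    unfold SR
    refine Finset.sum_nonneg fun i _ => Finset.sum_nonneg fun j _ => ?_
    positivity
  rw [PS_real, Complex.ofReal_re, Complex.ofReal_im]
  refine ⟨hSR, rfl, ?_⟩
  set E : ℝ := Real.exp (y ^ 2 / (2 * a ^ 2)) with hE
  have hE1 : 1 ≤ E := by
    rw [hE]
    exact Real.one_le_exp (by positivity)
  have hEm : Real.exp (m * y ^ 2 / (2 * a ^ 2)) = E ^ m := by
    rw [hE, ← Real.exp_nat_mul, mul_div_assoc]
  have n1 : ‖(p : ℂ) + (y : ℂ) * Complex.I‖ ≤ p * E := norm_le_aux a p y ha hap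
  have n2 : ‖1 - ((p : ℂ) + (y : ℂ) * Complex.I)‖ ≤ (1 - p) * E := by
    have h1 := norm_le_aux a (1 - p) (-y) ha hap'
    rw [neg_sq] at h1
    have h2 : (1 : ℂ) - ((p : ℂ) + (y : ℂ) * Complex.I) =
        ((1 - p : ℝ) : ℂ) + ((-y : ℝ) : ℂ) * Complex.I := by
      push_cast
      ring
    rw [h2]
    exact h1
  rw [hEm]
  unfold PS SR
  rw [Finset.sum_mul]
  refine (norm_sum_le _ _).trans (Finset.sum_le_sum fun i hi => ?_)
  rw [Finset.sum_mul]
  refine (norm_sum_le _ _).trans (Finset.sum_le_sum fun j hj => ?_)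
  rw [Finset.mem_range] at hi hj
  rw [norm_mul, norm_mul, norm_pow, norm_pow, Complex.norm_natCast]
  have k1 : ‖(p : ℂ) + (y : ℂ) * Complex.I‖ ^ i ≤ (p * E) ^ i :=
    pow_le_pow_left₀ (norm_nonneg _) n1 i
  have k2 : ‖1 - ((p : ℂ) + (y : ℂ) * Complex.I)‖ ^ j ≤ ((1 - p) * E) ^ j :=
    pow_le_pow_left₀ (norm_nonneg _) n2 j
  have hE0 : 0 < E := lt_of_lt_of_le one_pos hE1
  calc (c i j : ℝ) * ‖(p : ℂ) + (y : ℂ) * Complex.I‖ ^ i *
        ‖1 - ((p : ℂ) + (y : ℂ) * Complex.I)‖ ^ j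
      ≤ (c i j : ℝ) * (p * E) ^ i * ((1 - p) * E) ^ j := by gcongr
    _ = (c i j : ℝ) * p ^ i * (1 - p) ^ j * E ^ (i + j) := by
        rw [mul_pow, mul_pow, pow_add]; ring
    _ ≤ (c i j : ℝ) * p ^ i * (1 - p) ^ j * E ^ m := by
        refine mul_le_mul_of_nonneg_left (pow_le_pow_right₀ hE1 (by omega)) ?_
        positivity

end Pool.Agent.H659
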