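import Pool.Agent.H659.Stmts
import Pool.Agent.W400.PC.PT

/-!
# Translation invariance of bond percolation (job S_shift of MP_5300c3_pr)
-/

set_option autoImplicit false

open MeasureTheory Set Filter Topology

namespace Pool.Agent.H659

open Pool.Agent.W783.PC (pm DepOn Inc)

namespace ShiftAux

/-- Translation of edges. -/
def tau {d : ℕ} (u : Fin d → ℤ) : Sym2 (Fin d → ℤ) ≃ Sym2 (Fin d → ℤ) where
  toFun := Sym2.map (fun x => x + u)
  invFun := Sym2.map (fun x => x - u)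
  left_inv e := by
    induction e using Sym2.ind with
    | _ a b => simp
  right_inv e := by
    induction e using Sym2.ind with
    | _ a b => simp

theorem adj_shift {d : ℕ} (u a b : Fin d → ℤ) : (Zd d).Adj (a + u) (b + u) ↔ (Zd d).Adj a b := by
  change ((∃ i, b + u = a + u + Pi.single i 1) ∨ ∃ i, a + u = b + u + Pi.single i 1) ↔
    ((∃ i, b = a + Pi.single i 1) ∨ ∃ i, a = b + Pi.single i 1)
  have e : ∀ (a b c : Fin d → ℤ), b + u = a + u + c ↔ b = a + c := by
    intro a b c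
    rw [add_right_comm, add_left_inj]
  simp only [e]

/-- The translation as an isomorphism of graphs. -/
def iso {d : ℕ} (u : Fin d → ℤ) (ω : Sym2 (Fin d → ℤ) → Bool) :
    Gr (Zd d) (opn fun c => ω (tau u c)) ∅ ≃g Gr (Zd d) (opn ω) ∅ where
  toEquiv := Equiv.addRight u
  map_rel_iff' := by
    intro a b
    change ((Zd d).Adj (a + u) (b + u) ∧ ω s(a + u, b + u) = true ∧ a + u ∉ (∅ : Set _) ∧
      b + u ∉ (∅ : Set _)) ↔ ((Zd d).Adj a b ∧ ω (tau u s(a, b)) = true ∧ a ∉ (∅ : Set _) ∧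
      b ∉ (∅ : Set _))
    rw [adj_shift]
    have : tau u s(a, b) = s(a + u, b + u) := rfl
    rw [this]
    simp only [Set.mem_empty_iff_false, not_false_eq_true]

theorem nf_shift {d : ℕ} (u : Fin d → ℤ) (ω : Sym2 (Fin d → ℤ) → Bool) :
    Nf (Zd d) ∅ 0 (opn fun c => ω (tau u c)) ↔ Nf (Zd d) ∅ u (opn ω) := by
  have h0 : iso u ω 0 = u := by
    change (0 : Fin d → ℤ) + u = u
    rw [zero_add]
  have h1 : {v | (Gr (Zd d) (opn ω) ∅).Reachable u v} =
      (iso u ω) '' {v | (Gr (Zd d) (opn fun c => ω (tau u c)) ∅).Reachable 0 v} := by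
    ext v
    constructor
    · intro hv
      refine ⟨(iso u ω).symm v, ?_, (iso u ω).apply_symm_apply v⟩
      change (Gr (Zd d) (opn fun c => ω (tau u c)) ∅).Reachable 0 ((iso u ω).symm v)
      rw [← SimpleGraph.Iso.reachable_iff (φ := iso u ω), h0, (iso u ω).apply_symm_apply]
      exact hv
    · rintro ⟨w, hw, rfl⟩
      change (Gr (Zd d) (opn ω) ∅).Reachable u (iso u ω w)
      have := (SimpleGraph.Iso.reachable_iff (φ := iso u ω)).2 hw
      rwa [h0] at this
  unfold Nf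
  rw [h1]
  constructor
  · rintro ⟨-, h⟩
    exact ⟨Set.notMem_empty _, h.image (iso u ω).injective.injOn⟩
  · rintro ⟨-, h⟩
    exact ⟨Set.notMem_empty _, h.of_image _⟩

end ShiftAux

theorem t_shift (h1 : S_measNf) : S_shift := by
  intro d p u
  have hm := (h1 (Fin d → ℤ) (Zd d) ∅ 0).1
  have h2 := Pool.Agent.W400.PC.s_equiv (Sym2 (Fin d → ℤ)) (fun _ => p) (ShiftAux.tau u)
    (Ev (Nf (Zd d) ∅ 0)) hm
  have h3 : {ω : Sym2 (Fin d → ℤ) → Bool | (fun c => ω (ShiftAux.tau u c)) ∈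
      Ev (Nf (Zd d) ∅ 0)} = Ev (Nf (Zd d) ∅ u) := by
    ext ω
    exact ShiftAux.nf_shift u ω
  rw [h3] at h2
  unfold Pb
  rw [Measure.real, Measure.real, ← h2]

end Pool.Agent.H659
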