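import Pool.Agent.H659.Win
import Pool.Agent.H659.J_shift

set_option autoImplicit false

open MeasureTheory Set Filter Topology

namespace Pool.Agent.H659

open Pool.Agent.W783.PC (pm DepOn Inc)

namespace ShnAux

open ShiftAux

/-- The action of the translation on configurations, as a measurable equivalence. -/
def eqv {d : ℕ} (u : Fin d → ℤ) :
    (Sym2 (Fin d → ℤ) → Bool) ≃ᵐ (Sym2 (Fin d → ℤ) → Bool) where
  toFun := fun ω c => ω (tau u c)
  invFun := fun ω c => ω ((tau u).symm c)
  left_inv := fun ω => by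
    funext c
    simp only [Equiv.apply_symm_apply]
  right_inv := fun ω => by
    funext c
    simp only [Equiv.symm_apply_apply]
  measurable_toFun := by
    show Measurable (fun (ω : Sym2 (Fin d → ℤ) → Bool) (c : Sym2 (Fin d → ℤ)) => ω (tau u c))
    fun_prop
  measurable_invFun := by
    show Measurable (fun (ω : Sym2 (Fin d → ℤ) → Bool) (c : Sym2 (Fin d → ℤ)) =>
      ω ((tau u).symm c))
    fun_prop

theorem map_eqv {d : ℕ} (u : Fin d → ℤ) (p : unitInterval) :
    (pm (fun _ : Sym2 (Fin d → ℤ) => p)).map (eqv u) = pm (fun _ : Sym2 (Fin d → ℤ) => p) := by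
  refine Measure.ext fun A hA => ?_
  rw [(eqv u).map_apply]
  exact (Pool.Agent.W400.PC.s_equiv (Sym2 (Fin d → ℤ)) (fun _ => p) (tau u) A hA).symm

theorem cs_shift {d : ℕ} (u : Fin d → ℤ) (ω : Sym2 (Fin d → ℤ) → Bool) :
    (Cs (Zd d) 0 (opn fun c => ω (tau u c))).ncard = (Cs (Zd d) u (opn ω)).ncard := by
  have h0 : iso u ω 0 = u := by
    change (0 : Fin d → ℤ) + u = u
    rw [zero_add]
  have h1 : Cs (Zd d) u (opn ω) = (iso u ω) '' Cs (Zd d) 0 (opn fun c => ω (tau u c)) := by
    ext v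
    constructor
    · intro hv
      refine ⟨(iso u ω).symm v, ?_, (iso u ω).apply_symm_apply v⟩
      change (Gr (Zd d) (opn fun c => ω (tau u c)) ∅).Reachable 0 ((iso u ω).symm v)
      rw [← SimpleGraph.Iso.reachable_iff (φ := iso u ω), h0, (iso u ω).apply_symm_apply]
      exact hv
    · rintro ⟨w, hw, rfl⟩
      change (Gr (Zd d) (opn ω) ∅).Reachable u (iso u ω w)
      have := (SimpleGraph.Iso.reachable_iff (φ := iso u ω)).2 hw
      rwa [h0] at this
  rw [h1, Set.ncard_image_of_injective _ (iso u ω).injective]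

end ShnAux

theorem t_shn : S_shn := by
  intro d p u n
  have h1 : (pm (fun _ : Sym2 (Fin d → ℤ) => p))
      (Ev (fun K => (Cs (Zd d) u K).ncard = n)) =
      (pm (fun _ : Sym2 (Fin d → ℤ) => p)) (Ev (fun K => (Cs (Zd d) 0 K).ncard = n)) := by
    conv_rhs => rw [← ShnAux.map_eqv u p]
    rw [(ShnAux.eqv u).map_apply]
    congr 1
    ext ω
    show (Cs (Zd d) u (opn ω)).ncard = n ↔
      (Cs (Zd d) 0 (opn fun c => ω (ShiftAux.tau u c))).ncard = n
    rw [ShnAux.cs_shift]
  unfold an Pb
  rw [Measure.real, Measure.real, h1]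

end Pool.Agent.H659
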