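import Pool.Agent.H659.Win
import Pool.Agent.H659.Tools
import Pool.Agent.H659.Graph

set_option autoImplicit false

open MeasureTheory Set Filter Topology

namespace Pool.Agent.H659

open Pool.Agent.W783.PC (pm DepOn Inc bern)

namespace Spr

noncomputable section

variable {V : Type}

/-! ### laws -/

theorem bern_ext (q : unitInterval) (μ : Measure Bool) [IsProbabilityMeasure μ]
    (h : μ {true} = ENNReal.ofReal q) : μ = bern q := by
  refine Measure.ext_of_singleton fun b => ?_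
  cases b
  · have h1 : ({true} : Set Bool)ᶜ = {false} := by ext b; cases b <;> simp
    rw [← h1, measure_compl (measurableSet_singleton _) (measure_ne_top _ _),
      measure_compl (measurableSet_singleton _) (measure_ne_top _ _), h, measure_univ,
      measure_univ, Pool.Agent.W45.PC.bern_true]
  · rw [h, Pool.Agent.W45.PC.bern_true]

theorem map_gen {ι κ : Type} (R : ι → unitInterval) (q : κ → unitInterval)
    (f : κ → (ι → Bool) → Bool) (S : κ → Set ι) (hS : ∀ k l, k ≠ l → Disjoint (S k) (S l))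
    (hf : ∀ k ω ω', (∀ c ∈ S k, ω c = ω' c) → f k ω = f k ω') (hm : ∀ k, Measurable (f k))
    (hq : ∀ k, pm R {ω | f k ω = true} = ENNReal.ofReal (q k)) :
    (pm R).map (fun ω k => f k ω) = pm q := by
  have hM : Measurable (fun (ω : ι → Bool) k => f k ω) := measurable_pi_lambda _ hm
  conv_rhs => unfold pm
  apply Measure.eq_infinitePi
  intro s t ht
  rw [Measure.map_apply hM (MeasurableSet.pi s.countable_toSet fun i _ => ht i)]
  have e : (fun (ω : ι → Bool) k => f k ω) ⁻¹' (Set.pi (s : Set κ) t) =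
      ⋂ k ∈ s, (f k) ⁻¹' (t k) := by
    ext ω
    simp [Set.mem_pi]
  rw [e, Pool.Agent.W45.PC.s_indepF ι R κ s S (fun k => (f k) ⁻¹' (t k))]
  · refine Finset.prod_congr rfl fun k _ => ?_
    have : IsProbabilityMeasure ((pm R).map (f k)) :=
      Measure.isProbabilityMeasure_map (hm k).aemeasurable
    have h1 : (pm R).map (f k) = bern (q k) := by
      apply bern_ext
      rw [Measure.map_apply (hm k) (measurableSet_singleton _)]
      exact hq k
    rw [← h1, Measure.map_apply (hm k) (ht k)]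
  · intro k _ ω ω' h
    simp only [mem_preimage]
    rw [hf k ω ω' h]
  · intro k _ l _ hkl
    exact hS k l hkl
  · intro k _
    exact hm k (ht k)

/-- the parameters of the coupling -/
def RR (p r : unitInterval) : Sym2 V ⊕ Sym2 V → unitInterval := Sum.elim (fun _ => p) (fun _ => r)

/-- the first configuration -/
def c1 (ω : Sym2 V ⊕ Sym2 V → Bool) : Sym2 V → Bool := fun e => ω (Sum.inl e)

/-- the second configuration -/
def c2 (ω : Sym2 V ⊕ Sym2 V → Bool) : Sym2 V → Bool := fun e => ω (Sum.inr e)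

/-- the union -/
def cu (ω : Sym2 V ⊕ Sym2 V → Bool) : Sym2 V → Bool := fun e => ω (Sum.inl e) || ω (Sum.inr e)

theorem opn_cu (ω : Sym2 V ⊕ Sym2 V → Bool) : opn (cu ω) = opn (c1 ω) ∪ opn (c2 ω) := by
  ext e
  simp [opn, cu, c1, c2]

theorem meas_c1 : Measurable (c1 : (Sym2 V ⊕ Sym2 V → Bool) → Sym2 V → Bool) :=
  measurable_pi_lambda _ fun e => measurable_pi_apply _

theorem meas_cu : Measurable (cu : (Sym2 V ⊕ Sym2 V → Bool) → Sym2 V → Bool) := by
  refine measurable_pi_lambda _ fun e => ?_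
  have h : Measurable (fun x : Bool × Bool => x.1 || x.2) := measurable_of_countable _
  have h2 : Measurable fun ω : Sym2 V ⊕ Sym2 V → Bool => (ω (Sum.inl e), ω (Sum.inr e)) := by
    fun_prop
  exact h.comp h2

theorem pm_one {ι : Type} (R : ι → unitInterval) (c : ι) (b : Bool) :
    pm R {ω | ω c = b} = bern (R c) {b} := by
  have h : {ω : ι → Bool | ω c = b} = Set.pi (({c} : Finset ι) : Set ι) fun _ => {b} := by
    ext ω
    simp
  rw [h]
  unfold pm
  rw [Measure.infinitePi_pi _ fun _ _ => MeasurableSet.singleton _]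
  simp only [Finset.prod_singleton]

theorem map_c1 (p r : unitInterval) :
    (pm (RR p r : Sym2 V ⊕ Sym2 V → unitInterval)).map c1 = pm (fun _ : Sym2 V => p) := by
  refine map_gen (RR p r) (fun _ => p) (fun e ω => ω (Sum.inl e)) (fun e => {Sum.inl e}) ?_ ?_ ?_ ?_
  · intro k l hkl
    simpa using hkl
  · intro k ω ω' h
    exact h _ rfl
  · intro k
    exact measurable_pi_apply _
  · intro k
    rw [pm_one, Pool.Agent.W45.PC.bern_true]
    rfl

theorem map_cu (p r p' : unitInterval) (h : 1 - (p' : ℝ) = (1 - p) * (1 - r)) :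
    (pm (RR p r : Sym2 V ⊕ Sym2 V → unitInterval)).map cu = pm (fun _ : Sym2 V => p') := by
  refine map_gen (RR p r) (fun _ => p') (fun e ω => ω (Sum.inl e) || ω (Sum.inr e))
    (fun e => {Sum.inl e, Sum.inr e}) ?_ ?_ ?_ ?_
  · intro k l hkl
    rw [Set.disjoint_left]
    rintro x (rfl | rfl) (hx | hx)
    · exact hkl (Sum.inl.inj hx)
    · exact absurd hx (by simp)
    · exact absurd hx (by simp)
    · exact hkl (Sum.inr.inj hx)
  · intro k ω ω' h
    rw [h _ (Or.inl rfl), h _ (Or.inr rfl)]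
  · intro k
    exact (measurable_pi_apply k).comp meas_cu
  · intro k
    have e1 : {ω : Sym2 V ⊕ Sym2 V → Bool | (ω (Sum.inl k) || ω (Sum.inr k)) = true} =
        ({ω | ω (Sum.inl k) = false} ∩ {ω | ω (Sum.inr k) = false})ᶜ := by
      ext ω
      simp only [mem_ofPred_eq, mem_compl_iff, mem_inter_iff]
      cases ω (Sum.inl k) <;> cases ω (Sum.inr k) <;> simp
    have m1 : ∀ c : Sym2 V ⊕ Sym2 V, MeasurableSet {ω : Sym2 V ⊕ Sym2 V → Bool | ω c = false} :=
      fun c => (measurable_pi_apply c : Measurable fun ω : Sym2 V ⊕ Sym2 V → Bool => ω c)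
        (measurableSet_singleton false)
    have e2 : pm (RR p r) ({ω : Sym2 V ⊕ Sym2 V → Bool | ω (Sum.inl k) = false} ∩
        {ω | ω (Sum.inr k) = false}) = ENNReal.ofReal (1 - p') := by
      rw [Pool.Agent.W45.PC.s_indep (Sym2 V ⊕ Sym2 V) (RR p r) {Sum.inl k} {Sum.inr k} _ _ ?_ ?_ ?_
        (m1 _) (m1 _), pm_one, pm_one, Pool.Agent.W45.PC.bern_false, Pool.Agent.W45.PC.bern_false,
        h, ENNReal.ofReal_mul (by linarith [p.2.2])]
      · rfl
      · intro ω ω' h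
        show ω (Sum.inl k) = false ↔ ω' (Sum.inl k) = false
        rw [h _ rfl]
      · intro ω ω' h
        show ω (Sum.inr k) = false ↔ ω' (Sum.inr k) = false
        rw [h _ rfl]
      · simp
    rw [e1, measure_compl ((m1 _).inter (m1 _)) (measure_ne_top _ _), e2, measure_univ,
      ← ENNReal.ofReal_one, ← ENNReal.ofReal_sub _ (by linarith [p'.2.2])]
    congr 1
    ring

/-! ### clusters -/

/-- the cluster of `y` off `C` -/
def Co (G : SimpleGraph V) (C : Set V) (y : V) (K : Set (Sym2 V)) : Set V :=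
  {z | (Gr G K C).Reachable y z}

theorem co_self (G : SimpleGraph V) (C : Set V) (y : V) (K : Set (Sym2 V)) : y ∈ Co G C y K :=
  SimpleGraph.Reachable.refl _

theorem co_le (G : SimpleGraph V) (C : Set V) (y : V) (K : Set (Sym2 V)) :
    Co G C y K ⊆ Co G ∅ y K := fun z hz => hz.mono (Gr_mono G subset_rfl (empty_subset _))

open Classical in
/-- `exp (-h |S|)` -/
def Fh (h : ℝ) (S : Set V) : ℝ := if S.Finite then Real.exp (-h * S.ncard) else 0

theorem fh_nn (h : ℝ) (S : Set V) : 0 ≤ Fh h S := by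
  unfold Fh
  split_ifs
  · exact (Real.exp_pos _).le
  · exact le_rfl

theorem fh_le (h : ℝ) (hh : 0 < h) (S : Set V) : Fh h S ≤ 1 := by
  unfold Fh
  split_ifs
  · rw [Real.exp_le_one_iff]
    have : (0 : ℝ) ≤ S.ncard := Nat.cast_nonneg _
    nlinarith
  · exact zero_le_one

theorem fh_fin (h : ℝ) {S : Set V} (hS : S.Finite) : Fh h S = Real.exp (-h * S.ncard) := by
  unfold Fh
  rw [if_pos hS]

theorem fh_inf (h : ℝ) {S : Set V} (hS : ¬ S.Finite) : Fh h S = 0 := by
  unfold Fh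
  rw [if_neg hS]

theorem fh_anti (h : ℝ) (hh : 0 < h) {S T : Set V} (hST : S ⊆ T) : Fh h T ≤ Fh h S := by
  by_cases hT : T.Finite
  · rw [fh_fin h hT, fh_fin h (hT.subset hST), Real.exp_le_exp]
    have h1 : (S.ncard : ℝ) ≤ T.ncard := by exact_mod_cast Set.ncard_le_ncard hST hT
    nlinarith
  · rw [fh_inf h hT]
    exact fh_nn h S

/-- the Weierstrass inequality -/
theorem weier {α : Type*} (I : Finset α) (t : α → ℝ) (h0 : ∀ i ∈ I, 0 ≤ t i) (h1 : ∀ i ∈ I, t i ≤ 1) :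
    1 - ∑ i ∈ I, t i ≤ ∏ i ∈ I, (1 - t i) ∧ ∏ i ∈ I, (1 - t i) ≤ 1 := by
  classical
  induction I using Finset.induction_on with
  | empty => simp
  | insert a s ha ih =>
    obtain ⟨k1, k2⟩ := ih (fun i hi => h0 i (Finset.mem_insert_of_mem hi))
      (fun i hi => h1 i (Finset.mem_insert_of_mem hi))
    have a0 := h0 a (Finset.mem_insert_self a s)
    have a1 := h1 a (Finset.mem_insert_self a s)
    have k3 : 0 ≤ ∏ i ∈ s, (1 - t i) := Finset.prod_nonneg fun i hi => by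
      linarith [h1 i (Finset.mem_insert_of_mem hi)]
    rw [Finset.sum_insert ha, Finset.prod_insert ha]
    constructor <;> nlinarith

open Classical in
/-- the open boundary pairs -/
def bd (N : V → Finset V) (T : Finset V) (K : Set (Sym2 V)) : Finset (V × V) :=
  (T ×ˢ (T.biUnion N)).filter fun q => q.2 ∈ N q.1 ∧ q.2 ∉ T ∧ s(q.1, q.2) ∈ K

theorem mem_bd (N : V → Finset V) (T : Finset V) (K : Set (Sym2 V)) (q : V × V) :
    q ∈ bd N T K ↔ q.1 ∈ T ∧ q.2 ∈ N q.1 ∧ q.2 ∉ T ∧ s(q.1, q.2) ∈ K := by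
  classical
  unfold bd
  rw [Finset.mem_filter, Finset.mem_product, Finset.mem_biUnion]
  constructor
  · rintro ⟨⟨h1, h2⟩, h3⟩
    exact ⟨h1, h3⟩
  · rintro ⟨h1, h3⟩
    exact ⟨⟨h1, q.1, h1, h3.1⟩, h3⟩

theorem cover (G : SimpleGraph V) (N : V → Finset V) (hN : ∀ u v, v ∈ N u ↔ G.Adj u v) (o : V)
    (K₁ K₂ : Set (Sym2 V)) (T : Finset V) (hT : Co G ∅ o K₁ = (T : Set V)) (z : V)
    (hz : z ∈ Co G ∅ o (K₁ ∪ K₂)) :
    z ∈ T ∨ ∃ q ∈ bd N T K₂, z ∈ Co G (T : Set V) q.2 (K₁ ∪ K₂) := by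
  have hz' : (Gr G (K₁ ∪ K₂) ∅).Reachable o z := hz
  rw [SimpleGraph.reachable_iff_reflTransGen] at hz'
  clear hz
  induction hz' with
  | refl =>
    left
    have : o ∈ Co G ∅ o K₁ := co_self _ _ _ _
    rw [hT] at this
    exact this
  | @tail b c hb hbc ih =>
    by_cases hc : c ∈ T
    · exact Or.inl hc
    · right
      by_cases hbT : b ∈ T
      · refine ⟨(b, c), ?_, co_self _ _ _ _⟩
        rw [mem_bd]
        refine ⟨hbT, (hN b c).2 hbc.1, hc, ?_⟩
        rcases hbc.2.1 with h | h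
        · exfalso
          apply hc
          have h1 : b ∈ Co G ∅ o K₁ := by rw [hT]; exact hbT
          have h2 : c ∈ Co G ∅ o K₁ := by
            have h3 : (Gr G K₁ ∅).Adj b c := ⟨hbc.1, h, hbc.2.2.1, hbc.2.2.2⟩
            exact SimpleGraph.Reachable.trans h1 h3.reachable
          rw [hT] at h2
          exact h2
        · exact h
      · rcases ih with h | ⟨q, hq, h⟩
        · exact absurd h hbT
        · refine ⟨q, hq, ?_⟩
          have h3 : (Gr G (K₁ ∪ K₂) (T : Set V)).Adj b c := ⟨hbc.1, hbc.2.1, hbT, hc⟩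
          exact SimpleGraph.Reachable.trans h h3.reachable

theorem key_real (G : SimpleGraph V) (N : V → Finset V) (hN : ∀ u v, v ∈ N u ↔ G.Adj u v) (o : V)
    (h : ℝ) (hh : 0 < h) (K₁ K₂ : Set (Sym2 V)) (T : Finset V) (hT : Co G ∅ o K₁ = (T : Set V)) :
    Fh h (T : Set V) ≤ Fh h (Co G ∅ o (K₁ ∪ K₂)) + Fh h (T : Set V) *
      ∑ q ∈ bd N T K₂, (1 - Fh h (Co G (T : Set V) q.2 (K₁ ∪ K₂))) := by
  classical
  have hpos : 0 ≤ Fh h (T : Set V) := fh_nn h _
  by_cases hall : ∀ q ∈ bd N T K₂, (Co G (T : Set V) q.2 (K₁ ∪ K₂)).Finite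
  · have hsub : Co G ∅ o (K₁ ∪ K₂) ⊆ (T : Set V) ∪ ⋃ q ∈ bd N T K₂,
        Co G (T : Set V) q.2 (K₁ ∪ K₂) := by
      intro z hz
      rcases cover G N hN o K₁ K₂ T hT z hz with h | ⟨q, hq, h⟩
      · exact Or.inl h
      · exact Or.inr (mem_iUnion₂.2 ⟨q, hq, h⟩)
    have hf1 : ((T : Set V) ∪ ⋃ q ∈ bd N T K₂, Co G (T : Set V) q.2 (K₁ ∪ K₂)).Finite :=
      T.finite_toSet.union ((bd N T K₂).finite_toSet.biUnion hall)
    have hf2 := hf1.subset hsub
    have hcard : (Co G ∅ o (K₁ ∪ K₂)).ncard ≤ T.card + ∑ q ∈ bd N T K₂,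
        (Co G (T : Set V) q.2 (K₁ ∪ K₂)).ncard := by
      refine (Set.ncard_le_ncard hsub hf1).trans ((Set.ncard_union_le _ _).trans ?_)
      rw [Set.ncard_coe_finset]
      exact Nat.add_le_add_left (Finset.set_ncard_biUnion_le _ _) _
    have hc' : ((Co G ∅ o (K₁ ∪ K₂)).ncard : ℝ) ≤ T.card + ∑ q ∈ bd N T K₂,
        ((Co G (T : Set V) q.2 (K₁ ∪ K₂)).ncard : ℝ) := by exact_mod_cast hcard
    have h1 : Fh h (T : Set V) * ∏ q ∈ bd N T K₂, Fh h (Co G (T : Set V) q.2 (K₁ ∪ K₂)) ≤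
        Fh h (Co G ∅ o (K₁ ∪ K₂)) := by
      rw [fh_fin h hf2, fh_fin h T.finite_toSet, Finset.prod_congr rfl fun q hq =>
        fh_fin h (hall q hq), ← Real.exp_sum, ← Real.exp_add, Real.exp_le_exp,
        ← Finset.mul_sum, Set.ncard_coe_finset]
      nlinarith
    have h2 := (weier (bd N T K₂) (fun q => 1 - Fh h (Co G (T : Set V) q.2 (K₁ ∪ K₂)))
      (fun q _ => by linarith [fh_le h hh (Co G (T : Set V) q.2 (K₁ ∪ K₂))])
      (fun q _ => by linarith [fh_nn h (Co G (T : Set V) q.2 (K₁ ∪ K₂))])).1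
    simp only [sub_sub_cancel] at h2
    nlinarith
  · push Not at hall
    obtain ⟨q, hq, hinf⟩ := hall
    have h1 : 1 ≤ ∑ q ∈ bd N T K₂, (1 - Fh h (Co G (T : Set V) q.2 (K₁ ∪ K₂))) := by
      have h2 : 1 - Fh h (Co G (T : Set V) q.2 (K₁ ∪ K₂)) = 1 := by
        rw [fh_inf h hinf, sub_zero]
      refine h2.symm.le.trans ?_
      exact Finset.single_le_sum (f := fun q => 1 - Fh h (Co G (T : Set V) q.2 (K₁ ∪ K₂)))
        (fun i _ => by linarith [fh_le h hh (Co G (T : Set V) i.2 (K₁ ∪ K₂))]) hq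
    have h3 := fh_nn h (Co G ∅ o (K₁ ∪ K₂))
    nlinarith

/-! ### measurability and expansions -/

/-- a random set -/
def MS {Ω : Type} [MeasurableSpace Ω] (c : Ω → Set V) : Prop := ∀ z, MeasurableSet {ω | z ∈ c ω}

theorem ms_eq [Countable V] {Ω : Type} [MeasurableSpace Ω] {c : Ω → Set V} (hc : MS c) (T : Set V) :
    MeasurableSet {ω | c ω = T} := by
  have h2 : {ω | c ω = T} = ⋂ z : V, {ω | z ∈ c ω ↔ z ∈ T} := by
    ext ω
    simp only [mem_ofPred_eq, mem_iInter, Set.ext_iff]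
  rw [h2]
  refine MeasurableSet.iInter fun z => ?_
  by_cases hz : z ∈ T
  · have : {ω | z ∈ c ω ↔ z ∈ T} = {ω | z ∈ c ω} := by
      ext ω
      simp only [mem_ofPred_eq, hz, iff_true]
    rw [this]
    exact hc z
  · have : {ω | z ∈ c ω ↔ z ∈ T} = {ω | z ∈ c ω}ᶜ := by
      ext ω
      simp only [mem_ofPred_eq, hz, iff_false, mem_compl_iff]
    rw [this]
    exact (hc z).compl

theorem ev_lint [Countable V] {Ω : Type} [MeasurableSpace Ω] (μ : Measure Ω) {c : Ω → Set V}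
    (hc : MS c) (g : Finset V → ENNReal) (F : Set V → ENNReal) (h1 : ∀ T : Finset V, F T = g T)
    (h2 : ∀ S : Set V, ¬ S.Finite → F S = 0) :
    Measurable (fun ω => F (c ω)) ∧
      ∫⁻ ω, F (c ω) ∂μ = ∑' T : Finset V, g T * μ {ω | c ω = T} := by
  have e : (fun ω => F (c ω)) = fun ω => ∑' T : Finset V,
      Set.indicator {ω | c ω = T} (fun _ => g T) ω := by
    funext ω
    by_cases hf : (c ω).Finite
    · rw [tsum_eq_single hf.toFinset]
      · rw [Set.indicator_of_mem]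
        · rw [← h1, hf.coe_toFinset]
        · show c ω = hf.toFinset
          rw [hf.coe_toFinset]
      · intro T hT
        rw [Set.indicator_of_notMem]
        intro h
        apply hT
        apply Finset.coe_injective
        rw [hf.coe_toFinset]
        exact (h : c ω = T).symm
    · rw [h2 _ hf]
      symm
      rw [ENNReal.tsum_eq_zero]
      intro T
      rw [Set.indicator_of_notMem]
      intro h
      apply hf
      rw [(h : c ω = T)]
      exact T.finite_toSet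
  have hm : ∀ T : Finset V, Measurable (Set.indicator {ω | c ω = T} (fun _ => g T)) := fun T =>
    measurable_const.indicator (ms_eq hc T)
  constructor
  · rw [e]
    exact Measurable.tsum hm
  · rw [e, lintegral_tsum fun T => (hm T).aemeasurable]
    refine tsum_congr fun T => ?_
    exact lintegral_indicator_const (ms_eq hc T) _

theorem nc_meas [Countable V] {Ω : Type} [MeasurableSpace Ω] {c : Ω → Set V}
    (hc : MS c) (n : ℕ) : MeasurableSet {ω | (c ω).ncard = n + 1} := by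
  have e : {ω | (c ω).ncard = n + 1} = ⋃ T : Finset V, ⋃ (_ : T.card = n + 1), {ω | c ω = T} := by
    ext ω
    simp only [mem_ofPred_eq, mem_iUnion]
    constructor
    · intro h
      have hf : (c ω).Finite := Set.finite_of_ncard_pos (by omega)
      refine ⟨hf.toFinset, ?_, ?_⟩
      · rw [← h, Set.ncard_eq_toFinset_card _ hf]
      · rw [hf.coe_toFinset]
    · rintro ⟨T, h3, h4⟩
      rw [h4, Set.ncard_coe_finset, h3]
  rw [e]
  exact MeasurableSet.iUnion fun T => MeasurableSet.iUnion fun _ => ms_eq hc T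

theorem nc_lint [Countable V] {Ω : Type} [MeasurableSpace Ω] (μ : Measure Ω) {c : Ω → Set V}
    (hc : MS c) (hne : ∀ ω, (c ω).Nonempty) (w : ℕ → ENNReal) (F : Set V → ENNReal)
    (h1 : ∀ S : Set V, S.Finite → ∀ n, S.ncard = n + 1 → F S = w n)
    (h2 : ∀ S : Set V, ¬ S.Finite → F S = 0) :
    ∫⁻ ω, F (c ω) ∂μ = ∑' n : ℕ, w n * μ {ω | (c ω).ncard = n + 1} := by
  have e : (fun ω => F (c ω)) = fun ω => ∑' n : ℕ,
      Set.indicator {ω | (c ω).ncard = n + 1} (fun _ => w n) ω := by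
    funext ω
    by_cases hf : (c ω).Finite
    · have hpos : 0 < (c ω).ncard := (Set.ncard_pos hf).2 (hne ω)
      obtain ⟨k, hk⟩ : ∃ k, (c ω).ncard = k + 1 := ⟨(c ω).ncard - 1, by omega⟩
      rw [tsum_eq_single k]
      · rw [Set.indicator_of_mem (by exact hk), h1 _ hf k hk]
      · intro n hn
        rw [Set.indicator_of_notMem]
        intro h
        apply hn
        have h' : (c ω).ncard = n + 1 := h
        omega
    · rw [h2 _ hf]
      symm
      rw [ENNReal.tsum_eq_zero]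
      intro n
      rw [Set.indicator_of_notMem]
      intro h
      have h' : (c ω).ncard = n + 1 := h
      rw [Set.Infinite.ncard hf] at h'
      omega
  rw [e, lintegral_tsum fun n => (measurable_const.indicator (nc_meas hc n)).aemeasurable]
  refine tsum_congr fun n => ?_
  exact lintegral_indicator_const (nc_meas hc n) _

/-- `exp (-h |S|)` -/
def FE (h : ℝ) (S : Set V) : ENNReal := ENNReal.ofReal (Fh h S)

open Classical in
/-- `|S| exp (-h |S|)` -/
def XE (h : ℝ) (S : Set V) : ENNReal := if S.Finite then (S.ncard : ENNReal) * FE h S else 0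

theorem fe_le (h : ℝ) (hh : 0 < h) (S : Set V) : FE h S ≤ 1 := by
  unfold FE
  rw [← ENNReal.ofReal_one]
  exact ENNReal.ofReal_le_ofReal (fh_le h hh S)

theorem fe_inf (h : ℝ) {S : Set V} (hS : ¬ S.Finite) : FE h S = 0 := by
  unfold FE
  rw [fh_inf h hS, ENNReal.ofReal_zero]

theorem fe_anti (h : ℝ) (hh : 0 < h) {S T : Set V} (hST : S ⊆ T) : FE h T ≤ FE h S :=
  ENNReal.ofReal_le_ofReal (fh_anti h hh hST)

theorem xe_fin (h : ℝ) {S : Set V} (hS : S.Finite) : XE h S = (S.ncard : ENNReal) * FE h S := by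
  unfold XE
  rw [if_pos hS]

theorem xe_inf (h : ℝ) {S : Set V} (hS : ¬ S.Finite) : XE h S = 0 := by
  unfold XE
  rw [if_neg hS]

theorem ms_co [Countable V] (G : SimpleGraph V) (C : Set V) (y : V) :
    MS (fun ω : Sym2 V → Bool => Co G C y (opn ω)) := fun z => t_meas V _ (fm_reach G C y z)

/-- the quantity `M` -/
theorem mg_eq [Countable V] (G : SimpleGraph V) (o : V) (p : unitInterval) (h : ℝ) :
    Mg G o p h = 1 - (∫⁻ ω, FE h (Co G ∅ o (opn ω)) ∂(pm fun _ : Sym2 V => p)).toReal := by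
  have h1 := nc_lint (pm fun _ : Sym2 V => p) (ms_co G ∅ o) (fun ω => ⟨o, co_self G ∅ o _⟩)
    (fun n => ENNReal.ofReal (Real.exp (-h * (n + 1)))) (FE h) ?_ (fun S hS => fe_inf h hS)
  · rw [h1, ENNReal.tsum_toReal_eq]
    · unfold Mg
      congr 1
      refine tsum_congr fun n => ?_
      rw [ENNReal.toReal_mul, ENNReal.toReal_ofReal (Real.exp_pos _).le, mul_comm]
      rfl
    · intro n
      exact ENNReal.mul_ne_top ENNReal.ofReal_ne_top (measure_ne_top _ _)
  · intro S hS n hn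
    unfold FE
    rw [fh_fin h hS, hn]
    push_cast
    rfl

theorem xg_eq [Countable V] (G : SimpleGraph V) (o : V) (p : unitInterval) (h : ℝ) :
    Xg G o p h = (∫⁻ ω, XE h (Co G ∅ o (opn ω)) ∂(pm fun _ : Sym2 V => p)).toReal := by
  have h1 := nc_lint (pm fun _ : Sym2 V => p) (ms_co G ∅ o) (fun ω => ⟨o, co_self G ∅ o _⟩)
    (fun n => ((n + 1 : ℕ) : ENNReal) * ENNReal.ofReal (Real.exp (-h * (n + 1)))) (XE h) ?_
    (fun S hS => xe_inf h hS)
  · rw [h1, ENNReal.tsum_toReal_eq]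
    · unfold Xg
      refine tsum_congr fun n => ?_
      rw [ENNReal.toReal_mul, ENNReal.toReal_mul, ENNReal.toReal_ofReal (Real.exp_pos _).le,
        ENNReal.toReal_natCast]
      have h2 : ((pm fun _ : Sym2 V => p) {ω | (Co G ∅ o (opn ω)).ncard = n + 1}).toReal =
          an G o p (n + 1) := rfl
      rw [h2]
      push_cast
      ring
    · intro n
      exact ENNReal.mul_ne_top (ENNReal.mul_ne_top (ENNReal.natCast_ne_top _)
        ENNReal.ofReal_ne_top) (measure_ne_top _ _)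
  · intro S hS n hn
    rw [xe_fin h hS, hn]
    unfold FE
    rw [fh_fin h hS, hn]
    push_cast
    rfl

/-! ### locality -/

theorem co_lo_aux (G : SimpleGraph V) (o : V) (T : Set V) (K K' : Set (Sym2 V))
    (h : ∀ e : Sym2 V, (∃ a ∈ e, a ∈ T) → (e ∈ K ↔ e ∈ K')) (hT : Co G ∅ o K = T) :
    Co G ∅ o K' = T := by
  apply Set.Subset.antisymm
  · intro z hz
    have hz' : (Gr G K' ∅).Reachable o z := hz
    rw [SimpleGraph.reachable_iff_reflTransGen] at hz'
    clear hz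
    induction hz' with
    | refl => rw [← hT]; exact co_self _ _ _ _
    | @tail b c hb hbc ih =>
      have h1 : s(b, c) ∈ K := (h _ ⟨b, Sym2.mem_mk_left b c, ih⟩).2 hbc.2.1
      have h2 : (Gr G K ∅).Adj b c := ⟨hbc.1, h1, hbc.2.2.1, hbc.2.2.2⟩
      rw [← hT] at ih ⊢
      exact SimpleGraph.Reachable.trans ih h2.reachable
  · intro z hz
    rw [← hT] at hz
    have hz' : (Gr G K ∅).Reachable o z := hz
    rw [SimpleGraph.reachable_iff_reflTransGen] at hz'
    clear hz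
    have key : (Gr G K' ∅).Reachable o z ∧ z ∈ T := by
      induction hz' with
      | refl =>
        refine ⟨SimpleGraph.Reachable.refl _, ?_⟩
        rw [← hT]
        exact co_self _ _ _ _
      | @tail b c hb hbc ih =>
        have h1 : s(b, c) ∈ K' := (h _ ⟨b, Sym2.mem_mk_left b c, ih.2⟩).1 hbc.2.1
        have h2 : (Gr G K' ∅).Adj b c := ⟨hbc.1, h1, hbc.2.2.1, hbc.2.2.2⟩
        refine ⟨SimpleGraph.Reachable.trans ih.1 h2.reachable, ?_⟩
        have h3 := ih.2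
        rw [← hT] at h3 ⊢
        exact SimpleGraph.Reachable.trans h3 (SimpleGraph.Adj.reachable hbc)
    exact key.1

theorem co_lo (G : SimpleGraph V) (o : V) (T : Set V) (K K' : Set (Sym2 V))
    (h : ∀ e : Sym2 V, (∃ a ∈ e, a ∈ T) → (e ∈ K ↔ e ∈ K')) :
    Co G ∅ o K = T ↔ Co G ∅ o K' = T :=
  ⟨co_lo_aux G o T K K' h, co_lo_aux G o T K' K fun e he => (h e he).symm⟩

theorem co_out (G : SimpleGraph V) (T : Set V) (y : V) (K K' : Set (Sym2 V))
    (h : ∀ e : Sym2 V, (∀ a ∈ e, a ∉ T) → (e ∈ K ↔ e ∈ K')) : Co G T y K = Co G T y K' := by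
  ext z
  refine reach_lo G T y z K K' ?_
  ext e
  simp only [mem_inter_iff, mem_ofPred_eq]
  constructor
  · rintro ⟨h1, h2⟩
    exact ⟨(h e h2).1 h1, h2⟩
  · rintro ⟨h1, h2⟩
    exact ⟨(h e h2).2 h1, h2⟩

/-! ### independence -/

theorem ind_lint {ι : Type} (R : ι → unitInterval) (S : Set ι) (E : Set (ι → Bool))
    (g : (ι → Bool) → ENNReal) (hE : DepOn E S) (mE : MeasurableSet E) (mg : Measurable g)
    (hg : ∀ ω ω', (∀ c ∈ Sᶜ, ω c = ω' c) → g ω = g ω') :
    ∫⁻ ω, E.indicator (fun _ => 1) ω * g ω ∂(pm R) = pm R E * ∫⁻ ω, g ω ∂(pm R) := by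
  have mf : Measurable (E.indicator fun _ : ι → Bool => (1 : ENNReal)) :=
    measurable_const.indicator mE
  have hind : ProbabilityTheory.IndepFun (E.indicator fun _ => (1 : ENNReal)) g (pm R) := by
    rw [ProbabilityTheory.indepFun_iff_measure_inter_preimage_eq_mul]
    intro s t hs ht
    refine Pool.Agent.W45.PC.s_indep ι R S Sᶜ _ _ ?_ ?_ disjoint_compl_right (mf hs) (mg ht)
    · intro ω ω' h
      have h1 := hE ω ω' h
      simp only [mem_preimage]
      by_cases hω : ω ∈ E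
      · rw [Set.indicator_of_mem hω, Set.indicator_of_mem (h1.1 hω)]
      · rw [Set.indicator_of_notMem hω, Set.indicator_of_notMem (fun h => hω (h1.2 h))]
    · intro ω ω' h
      simp only [mem_preimage]
      rw [hg ω ω' h]
  have h1 := ProbabilityTheory.lintegral_mul_eq_lintegral_mul_lintegral_of_indepFun mf mg hind
  simp only [Pi.mul_apply] at h1
  rw [h1, lintegral_indicator_const mE, one_mul]

/-- the event that the first cluster is `T` and the second configuration opens `e` -/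
def EV (G : SimpleGraph V) (o : V) (T : Set V) (e : Sym2 V) : Set (Sym2 V ⊕ Sym2 V → Bool) :=
  {ω | Co G ∅ o (opn (c1 ω)) = T} ∩ {ω | ω (Sum.inr e) = true}

theorem ms_c1 [Countable V] (G : SimpleGraph V) (C : Set V) (y : V) :
    MS (fun ω : Sym2 V ⊕ Sym2 V → Bool => Co G C y (opn (c1 ω))) := fun z =>
  meas_c1 (ms_co G C y z)

theorem ms_cu [Countable V] (G : SimpleGraph V) (C : Set V) (y : V) :
    MS (fun ω : Sym2 V ⊕ Sym2 V → Bool => Co G C y (opn (cu ω))) := fun z =>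
  meas_cu (ms_co G C y z)

theorem meas_inr (e : Sym2 V) :
    MeasurableSet {ω : Sym2 V ⊕ Sym2 V → Bool | ω (Sum.inr e) = true} :=
  (measurable_pi_apply (Sum.inr e) : Measurable fun ω : Sym2 V ⊕ Sym2 V → Bool => ω (Sum.inr e))
    (measurableSet_singleton true)

theorem meas_EV [Countable V] (G : SimpleGraph V) (o : V) (T : Set V) (e : Sym2 V) :
    MeasurableSet (EV G o T e) :=
  (ms_eq (ms_c1 G ∅ o) T).inter (meas_inr e)

theorem pm_EV [Countable V] (G : SimpleGraph V) (o : V) (T : Set V) (e : Sym2 V)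
    (p r : unitInterval) : pm (RR p r) (EV G o T e) =
      pm (fun _ : Sym2 V => p) {ω | Co G ∅ o (opn ω) = T} * ENNReal.ofReal r := by
  unfold EV
  rw [Pool.Agent.W45.PC.s_indep (Sym2 V ⊕ Sym2 V) (RR p r) (Set.range Sum.inl) {Sum.inr e} _ _ ?_ ?_
    ?_ (ms_eq (ms_c1 G ∅ o) T) (meas_inr e), pm_one, Pool.Agent.W45.PC.bern_true,
    ← map_c1 p r, Measure.map_apply meas_c1 (ms_eq (ms_co G ∅ o) T)]
  · rfl
  · intro ω ω' h
    have : c1 ω = c1 ω' := funext fun e => h _ ⟨e, rfl⟩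
    simp only [mem_ofPred_eq, this]
  · intro ω ω' h
    show ω (Sum.inr e) = true ↔ ω' (Sum.inr e) = true
    rw [h _ rfl]
  · rw [Set.disjoint_left]
    rintro x ⟨y, rfl⟩ hx
    exact absurd hx (by simp)

/-- the coordinates which touch `T` -/
def tc (T : Set V) : Set (Sym2 V ⊕ Sym2 V) := {c | ∃ e : Sym2 V, (c = Sum.inl e ∨ c = Sum.inr e) ∧
  ∃ a ∈ e, a ∈ T}

theorem dep_EV (G : SimpleGraph V) (o : V) (T : Set V) (x y : V) (hx : x ∈ T) :
    DepOn (EV G o T s(x, y)) (tc T) := by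
  intro ω ω' h
  unfold EV
  rw [mem_inter_iff, mem_inter_iff]
  refine and_congr ?_ ?_
  · refine co_lo G o T _ _ fun e he => ?_
    show ω (Sum.inl e) = true ↔ ω' (Sum.inl e) = true
    rw [h _ ⟨e, Or.inl rfl, he⟩]
  · show ω (Sum.inr s(x, y)) = true ↔ ω' (Sum.inr s(x, y)) = true
    rw [h _ ⟨s(x, y), Or.inr rfl, x, Sym2.mem_mk_left x y, hx⟩]

theorem dep_g (G : SimpleGraph V) (T : Set V) (y : V) (ω ω' : Sym2 V ⊕ Sym2 V → Bool)
    (h : ∀ c ∈ (tc T)ᶜ, ω c = ω' c) : Co G T y (opn (cu ω)) = Co G T y (opn (cu ω')) := by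
  refine co_out G T y _ _ fun e he => ?_
  have k : ∀ c : Sym2 V ⊕ Sym2 V, (c = Sum.inl e ∨ c = Sum.inr e) → ω c = ω' c := by
    intro c hc
    refine h c ?_
    rintro ⟨e', he', a, ha, haT⟩
    have : e' = e := by
      rcases hc with rfl | rfl <;> rcases he' with h | h
      · exact (Sum.inl.inj h).symm
      · exact absurd h (by simp)
      · exact absurd h (by simp)
      · exact (Sum.inr.inj h).symm
    subst this
    exact he a ha haT
  show (ω (Sum.inl e) || ω (Sum.inr e)) = true ↔ (ω' (Sum.inl e) || ω' (Sum.inr e)) = true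
  rw [k _ (Or.inl rfl), k _ (Or.inr rfl)]

theorem fe_meas [Countable V] {Ω : Type} [MeasurableSpace Ω] {c : Ω → Set V} (hc : MS c) (h : ℝ) :
    Measurable fun ω => FE h (c ω) :=
  (ev_lint (0 : Measure Ω) hc (fun T : Finset V => FE h (T : Set V)) (FE h) (fun _ => rfl)
    (fun S hS => fe_inf h hS)).1

theorem one_term [Countable V] (G : SimpleGraph V) (o : V) (T : Set V) (x y : V) (hx : x ∈ T)
    (p r p' : unitInterval) (hp : 1 - (p' : ℝ) = (1 - p) * (1 - r)) (h : ℝ) (hh : 0 < h) (m : ℝ)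
    (hm : Mg G y p' h ≤ m) :
    ∫⁻ ω, (EV G o T s(x, y)).indicator (fun _ => 1) ω * (1 - FE h (Co G T y (opn (cu ω))))
      ∂(pm (RR p r)) ≤
    pm (fun _ : Sym2 V => p) {ω | Co G ∅ o (opn ω) = T} * ENNReal.ofReal r * ENNReal.ofReal m := by
  rw [ind_lint (RR p r) (tc T) _ (fun ω => 1 - FE h (Co G T y (opn (cu ω)))) (dep_EV G o T x y hx)
    (meas_EV G o T _) (measurable_const.sub (fe_meas (ms_cu G T y) h))
    (fun ω ω' h' => by rw [dep_g G T y ω ω' h']), pm_EV]
  gcongr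
  have h1 : ∫⁻ ω, (1 - FE h (Co G T y (opn (cu ω)))) ∂(pm (RR p r)) ≤
      ∫⁻ ω, (1 - FE h (Co G ∅ y (opn (cu ω)))) ∂(pm (RR p r)) := by
    refine lintegral_mono fun ω => ?_
    exact tsub_le_tsub_left (fe_anti h hh (co_le G T y _)) 1
  have h2 : ∫⁻ ω, (1 - FE h (Co G ∅ y (opn (cu ω)))) ∂(pm (RR p r)) =
      ∫⁻ ω, (1 - FE h (Co G ∅ y (opn ω))) ∂(pm fun _ : Sym2 V => p') := by
    have mm : Measurable fun ω : Sym2 V → Bool => 1 - FE h (Co G ∅ y (opn ω)) :=
      measurable_const.sub (fe_meas (ms_co G ∅ y) h)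
    rw [← map_cu p r p' hp, lintegral_map mm meas_cu]
  have h3 : ∫⁻ ω, FE h (Co G ∅ y (opn ω)) ∂(pm fun _ : Sym2 V => p') ≤ 1 := by
    calc _ ≤ ∫⁻ _, 1 ∂(pm fun _ : Sym2 V => p') := lintegral_mono fun ω => fe_le h hh _
      _ = 1 := by simp
  have h4 : ∫⁻ ω, (1 - FE h (Co G ∅ y (opn ω))) ∂(pm fun _ : Sym2 V => p') =
      ENNReal.ofReal (Mg G y p' h) := by
    rw [lintegral_sub (fe_meas (ms_co G ∅ y) h) (ne_top_of_le_ne_top ENNReal.one_ne_top h3)
      (Eventually.of_forall fun ω => fe_le h hh _), mg_eq]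
    rw [ENNReal.ofReal_sub _ ENNReal.toReal_nonneg,
      ENNReal.ofReal_toReal (ne_top_of_le_ne_top ENNReal.one_ne_top h3)]
    simp
  calc _ ≤ _ := h1
    _ = _ := h2
    _ = _ := h4
    _ ≤ _ := ENNReal.ofReal_le_ofReal hm

/-- the pointwise inequality -/
theorem key_enn (G : SimpleGraph V) (N : V → Finset V) (hN : ∀ u v, v ∈ N u ↔ G.Adj u v) (o : V)
    (h : ℝ) (hh : 0 < h) (K₁ K₂ : Set (Sym2 V)) (T : Finset V) (hT : Co G ∅ o K₁ = (T : Set V)) :
    FE h (T : Set V) ≤ FE h (Co G ∅ o (K₁ ∪ K₂)) + FE h (T : Set V) *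
      ∑ q ∈ bd N T K₂, (1 - FE h (Co G (T : Set V) q.2 (K₁ ∪ K₂))) := by
  have h1 := key_real G N hN o h hh K₁ K₂ T hT
  have h2 : ∀ q ∈ bd N T K₂, (1 - FE h (Co G (T : Set V) q.2 (K₁ ∪ K₂))) =
      ENNReal.ofReal (1 - Fh h (Co G (T : Set V) q.2 (K₁ ∪ K₂))) := by
    intro q _
    unfold FE
    rw [ENNReal.ofReal_sub _ (fh_nn _ _), ENNReal.ofReal_one]
  have h3 : ∀ q ∈ bd N T K₂, 0 ≤ 1 - Fh h (Co G (T : Set V) q.2 (K₁ ∪ K₂)) := fun q _ => by
    linarith [fh_le h hh (Co G (T : Set V) q.2 (K₁ ∪ K₂))]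
  rw [Finset.sum_congr rfl h2, ← ENNReal.ofReal_sum_of_nonneg h3]
  unfold FE
  rw [← ENNReal.ofReal_mul (fh_nn _ _), ← ENNReal.ofReal_add (fh_nn _ _)
    (mul_nonneg (fh_nn _ _) (Finset.sum_nonneg h3))]
  exact ENNReal.ofReal_le_ofReal h1

open Classical in
/-- the pairs of neighbours -/
def pr (N : V → Finset V) (T : Finset V) : Finset (V × V) :=
  (T ×ˢ (T.biUnion N)).filter fun q => q.2 ∈ N q.1

theorem mem_pr (N : V → Finset V) (T : Finset V) (q : V × V) :
    q ∈ pr N T ↔ q.1 ∈ T ∧ q.2 ∈ N q.1 := by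
  classical
  unfold pr
  rw [Finset.mem_filter, Finset.mem_product, Finset.mem_biUnion]
  constructor
  · rintro ⟨⟨h1, h2⟩, h3⟩
    exact ⟨h1, h3⟩
  · rintro ⟨h1, h3⟩
    exact ⟨⟨h1, q.1, h1, h3⟩, h3⟩

theorem card_pr (N : V → Finset V) (T : Finset V) (D : ℕ) (hD : ∀ u, (N u).card ≤ D) :
    (pr N T).card ≤ D * T.card := by
  classical
  have h1 : pr N T ⊆ T.biUnion fun x => (N x).image fun y => (x, y) := by
    intro q hq
    rw [mem_pr] at hq
    rw [Finset.mem_biUnion]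
    exact ⟨q.1, hq.1, Finset.mem_image.2 ⟨q.2, hq.2, rfl⟩⟩
  refine (Finset.card_le_card h1).trans (Finset.card_biUnion_le.trans ?_)
  calc ∑ x ∈ T, ((N x).image fun y => (x, y)).card ≤ ∑ x ∈ T, D :=
        Finset.sum_le_sum fun x _ => Finset.card_image_le.trans (hD x)
    _ = D * T.card := by rw [Finset.sum_const, smul_eq_mul, mul_comm]

open Classical in
/-- one term of the bound -/
def tm (G : SimpleGraph V) (o : V) (h : ℝ) (T : Finset V) (q : V × V)
    (ω : Sym2 V ⊕ Sym2 V → Bool) : ENNReal :=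
  if q.2 ∈ T then 0 else FE h (T : Set V) *
    ((EV G o (T : Set V) s(q.1, q.2)).indicator (fun _ => 1) ω *
      (1 - FE h (Co G (T : Set V) q.2 (opn (cu ω)))))

theorem tm_meas [Countable V] (G : SimpleGraph V) (o : V) (h : ℝ) (T : Finset V) (q : V × V) :
    Measurable (tm G o h T q) := by
  unfold tm
  split_ifs
  · exact measurable_const
  · exact ((measurable_const.indicator (meas_EV G o _ _)).mul
      (measurable_const.sub (fe_meas (ms_cu G (T : Set V) q.2) h))).const_mul _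

theorem tm_le [Countable V] (G : SimpleGraph V) (N : V → Finset V) (D : ℕ) (o : V)
    (p r p' : unitInterval) (hp : 1 - (p' : ℝ) = (1 - p) * (1 - r)) (h : ℝ) (hh : 0 < h) (m : ℝ)
    (hm : ∀ x, Mg G x p' h ≤ m) (T : Finset V) (q : V × V) (hq : q ∈ pr N T) :
    ∫⁻ ω, tm G o h T q ω ∂(pm (RR p r)) ≤ FE h (T : Set V) *
      (pm (fun _ : Sym2 V => p) {ω | Co G ∅ o (opn ω) = (T : Set V)} * ENNReal.ofReal r *
        ENNReal.ofReal m) := by
  unfold tm
  split_ifs
  · simp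
  · rw [lintegral_const_mul]
    · gcongr
      exact one_term G o (T : Set V) q.1 q.2 ((mem_pr N T q).1 hq).1 p r p' hp h hh m (hm q.2)
    · exact (measurable_const.indicator (meas_EV G o _ _)).mul
        (measurable_const.sub (fe_meas (ms_cu G (T : Set V) q.2) h))

theorem pointw (G : SimpleGraph V) (N : V → Finset V) (hN : ∀ u v, v ∈ N u ↔ G.Adj u v) (o : V)
    (h : ℝ) (hh : 0 < h) (ω : Sym2 V ⊕ Sym2 V → Bool) :
    FE h (Co G ∅ o (opn (c1 ω))) ≤ FE h (Co G ∅ o (opn (cu ω))) +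
      ∑' T : Finset V, ∑ q ∈ pr N T, tm G o h T q ω := by
  by_cases hf : (Co G ∅ o (opn (c1 ω))).Finite
  · have hT : Co G ∅ o (opn (c1 ω)) = (hf.toFinset : Set V) := hf.coe_toFinset.symm
    have h1 := key_enn G N hN o h hh (opn (c1 ω)) (opn (c2 ω)) hf.toFinset hT
    rw [← opn_cu] at h1
    have h2 : FE h (hf.toFinset : Set V) * ∑ q ∈ bd N hf.toFinset (opn (c2 ω)),
        (1 - FE h (Co G (hf.toFinset : Set V) q.2 (opn (cu ω)))) ≤
        ∑ q ∈ pr N hf.toFinset, tm G o h hf.toFinset q ω := by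
      rw [Finset.mul_sum]
      have h3 : ∀ q ∈ bd N hf.toFinset (opn (c2 ω)), FE h (hf.toFinset : Set V) *
          (1 - FE h (Co G (hf.toFinset : Set V) q.2 (opn (cu ω)))) =
          tm G o h hf.toFinset q ω := by
        intro q hq
        rw [mem_bd] at hq
        unfold tm
        rw [if_neg hq.2.2.1, Set.indicator_of_mem, one_mul]
        exact ⟨hT, hq.2.2.2⟩
      rw [Finset.sum_congr rfl h3]
      refine Finset.sum_le_sum_of_subset ?_
      intro q hq
      rw [mem_bd] at hq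
      rw [mem_pr]
      exact ⟨hq.1, hq.2.1⟩
    have h4 : ∑ q ∈ pr N hf.toFinset, tm G o h hf.toFinset q ω ≤
        ∑' T : Finset V, ∑ q ∈ pr N T, tm G o h T q ω :=
      ENNReal.le_tsum (f := fun T : Finset V => ∑ q ∈ pr N T, tm G o h T q ω) hf.toFinset
    rw [hT]
    refine h1.trans ?_
    gcongr
    exact h2.trans h4
  · rw [fe_inf h hf]
    exact zero_le

theorem main_enn [Countable V] (G : SimpleGraph V) (N : V → Finset V) (D : ℕ) (o : V)
    (p r p' : unitInterval) (hp : 1 - (p' : ℝ) = (1 - p) * (1 - r)) (h : ℝ) (hh : 0 < h) (m : ℝ)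
    (hN : Nb G N D) (hm : ∀ x, Mg G x p' h ≤ m) :
    ∫⁻ ω, FE h (Co G ∅ o (opn ω)) ∂(pm fun _ : Sym2 V => p) ≤
      ∫⁻ ω, FE h (Co G ∅ o (opn ω)) ∂(pm fun _ : Sym2 V => p') +
      ((D : ENNReal) * ENNReal.ofReal r * ENNReal.ofReal m) *
        ∫⁻ ω, XE h (Co G ∅ o (opn ω)) ∂(pm fun _ : Sym2 V => p) := by
  have e1 : ∫⁻ ω, FE h (Co G ∅ o (opn ω)) ∂(pm fun _ : Sym2 V => p) =
      ∫⁻ ω, FE h (Co G ∅ o (opn (c1 ω))) ∂(pm (RR p r)) := by
    rw [← map_c1 p r, lintegral_map (fe_meas (ms_co G ∅ o) h) meas_c1]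
  have e2 : ∫⁻ ω, FE h (Co G ∅ o (opn ω)) ∂(pm fun _ : Sym2 V => p') =
      ∫⁻ ω, FE h (Co G ∅ o (opn (cu ω))) ∂(pm (RR p r)) := by
    rw [← map_cu p r p' hp, lintegral_map (fe_meas (ms_co G ∅ o) h) meas_cu]
  have e3 := (ev_lint (pm fun _ : Sym2 V => p) (ms_co G ∅ o)
    (fun T : Finset V => (T.card : ENNReal) * FE h (T : Set V)) (XE h) (fun T => by
      rw [xe_fin h T.finite_toSet, Set.ncard_coe_finset]) (fun S hS => xe_inf h hS)).2
  have mfe : Measurable fun ω : Sym2 V ⊕ Sym2 V → Bool => FE h (Co G ∅ o (opn (cu ω))) :=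
    fe_meas (ms_cu G ∅ o) h
  have mT : ∀ T : Finset V, Measurable fun ω => ∑ q ∈ pr N T, tm G o h T q ω := fun T =>
    Finset.measurable_fun_sum _ fun q _ => tm_meas G o h T q
  have e4 : ∀ T : Finset V, ∫⁻ ω, ∑ q ∈ pr N T, tm G o h T q ω ∂(pm (RR p r)) ≤
      ((D : ENNReal) * ENNReal.ofReal r * ENNReal.ofReal m) * (((T.card : ENNReal) *
        FE h (T : Set V)) * pm (fun _ : Sym2 V => p) {ω | Co G ∅ o (opn ω) = (T : Set V)}) := by
    intro T
    rw [lintegral_finsetSum _ fun q _ => tm_meas G o h T q]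
    refine (Finset.sum_le_sum fun q hq => tm_le G N D o p r p' hp h hh m hm T q hq).trans ?_
    rw [Finset.sum_const, nsmul_eq_mul]
    have h5 : ((pr N T).card : ENNReal) ≤ (D : ENNReal) * (T.card : ENNReal) := by
      exact_mod_cast card_pr N T D hN.2
    calc ((pr N T).card : ENNReal) * _ ≤ ((D : ENNReal) * (T.card : ENNReal)) * _ :=
          mul_le_mul_left h5 _
      _ = _ := by ring
  rw [e1, e2, e3, ← ENNReal.tsum_mul_left]
  calc ∫⁻ ω, FE h (Co G ∅ o (opn (c1 ω))) ∂(pm (RR p r))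
      ≤ ∫⁻ ω, (FE h (Co G ∅ o (opn (cu ω))) +
        ∑' T : Finset V, ∑ q ∈ pr N T, tm G o h T q ω) ∂(pm (RR p r)) :=
        lintegral_mono fun ω => pointw G N hN.1 o h hh ω
    _ = ∫⁻ ω, FE h (Co G ∅ o (opn (cu ω))) ∂(pm (RR p r)) +
        ∑' T : Finset V, ∫⁻ ω, ∑ q ∈ pr N T, tm G o h T q ω ∂(pm (RR p r)) := by
        rw [lintegral_add_left mfe, lintegral_tsum fun T => (mT T).aemeasurable]
    _ ≤ _ := by
        gcongr with T
        exact e4 T

theorem xe_bd (h : ℝ) (hh : 0 < h) (S : Set V) : XE h S ≤ ENNReal.ofReal (1 / h) := by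
  by_cases hf : S.Finite
  · rw [xe_fin h hf]
    unfold FE
    rw [fh_fin h hf, ← ENNReal.ofReal_natCast, ← ENNReal.ofReal_mul (Nat.cast_nonneg _)]
    apply ENNReal.ofReal_le_ofReal
    have h1 : h * (S.ncard : ℝ) ≤ Real.exp (h * S.ncard) := by
      linarith [Real.add_one_le_exp (h * (S.ncard : ℝ))]
    have h2 : Real.exp (-h * (S.ncard : ℝ)) * Real.exp (h * S.ncard) = 1 := by
      rw [← Real.exp_add]
      simp
    have h3 := Real.exp_pos (-h * (S.ncard : ℝ))
    rw [le_div_iff₀ hh]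
    nlinarith
  · rw [xe_inf h hf]
    exact zero_le

end

end Spr

open Spr in
theorem t_spr : S_spr := by
  intro V _ G N D o p p' h m hN hh hpp hp1 hm
  have hq : (0 : ℝ) < 1 - p := by linarith
  obtain ⟨r, hr⟩ : ∃ r : unitInterval, (r : ℝ) = (p' - p) / (1 - p) := by
    refine ⟨⟨(p' - p) / (1 - p), ?_, ?_⟩, rfl⟩
    · exact div_nonneg (by linarith) hq.le
    · rw [div_le_one hq]
      linarith [p'.2.2]
  have hp : 1 - (p' : ℝ) = (1 - p) * (1 - r) := by
    rw [hr]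
    field_simp
    ring
  have h1 := main_enn G N D o p r p' hp h hh m hN hm
  have b1 : ∀ q : unitInterval, ∫⁻ ω, FE h (Co G ∅ o (opn ω)) ∂(pm fun _ : Sym2 V => q) ≤ 1 := by
    intro q
    calc _ ≤ ∫⁻ _, 1 ∂(pm fun _ : Sym2 V => q) := lintegral_mono fun ω => fe_le h hh _
      _ = 1 := by simp
  have b2 : ∫⁻ ω, XE h (Co G ∅ o (opn ω)) ∂(pm fun _ : Sym2 V => p) ≤ ENNReal.ofReal (1 / h) := by
    calc _ ≤ ∫⁻ _, ENNReal.ofReal (1 / h) ∂(pm fun _ : Sym2 V => p) :=
          lintegral_mono fun ω => xe_bd h hh _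
      _ = ENNReal.ofReal (1 / h) := by simp
  have f1 : ∀ q : unitInterval, ∫⁻ ω, FE h (Co G ∅ o (opn ω)) ∂(pm fun _ : Sym2 V => q) ≠ ⊤ :=
    fun q => ne_top_of_le_ne_top ENNReal.one_ne_top (b1 q)
  have f2 : ∫⁻ ω, XE h (Co G ∅ o (opn ω)) ∂(pm fun _ : Sym2 V => p) ≠ ⊤ :=
    ne_top_of_le_ne_top ENNReal.ofReal_ne_top b2
  have f3 : ((D : ENNReal) * ENNReal.ofReal r * ENNReal.ofReal m) ≠ ⊤ :=
    ENNReal.mul_ne_top (ENNReal.mul_ne_top (ENNReal.natCast_ne_top D) ENNReal.ofReal_ne_top)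
      ENNReal.ofReal_ne_top
  have hm0 : 0 ≤ m := by
    refine le_trans ?_ (hm o)
    rw [mg_eq]
    have := ENNReal.toReal_mono ENNReal.one_ne_top (b1 p')
    rw [ENNReal.toReal_one] at this
    linarith
  have h2 := ENNReal.toReal_mono (ENNReal.add_ne_top.2 ⟨f1 p', ENNReal.mul_ne_top f3 f2⟩) h1
  rw [ENNReal.toReal_add (f1 p') (ENNReal.mul_ne_top f3 f2), ENNReal.toReal_mul,
    ENNReal.toReal_mul, ENNReal.toReal_mul, ENNReal.toReal_natCast,
    ENNReal.toReal_ofReal r.2.1, ENNReal.toReal_ofReal hm0, ← xg_eq, hr] at h2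
  rw [mg_eq G o p', mg_eq G o p]
  linarith

end Pool.Agent.H659
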