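import Pool.Agent.H659.Win

set_option autoImplicit false

open MeasureTheory Set Filter Topology

namespace Pool.Agent.H659

open Pool.Agent.W783.PC (pm DepOn Inc)

namespace SubH311

lemma summ_aux (k : ℕ) {r : ℝ} (hr : 0 < r) :
    Summable (fun n : ℕ => ((n : ℝ) + 1) ^ k * Real.exp (-r * (n + 1))) := by
  have h := (summable_nat_add_iff 1).2 (Real.summable_pow_mul_exp_neg_nat_mul k hr)
  refine h.congr (fun n => ?_)
  push_cast
  rfl

lemma der_aux (k : ℕ) (B : ℕ → ℝ) (hB : ∀ n, |B n| ≤ ((n : ℝ) + 1) ^ k) {h : ℝ} (hh : 0 < h) :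
    HasDerivAt (fun h : ℝ => ∑' n : ℕ, B n * Real.exp (-h * (n + 1)))
      (∑' n : ℕ, -((n + 1) * B n * Real.exp (-h * (n + 1)))) h := by
  have hu : Summable (fun n : ℕ => ((n : ℝ) + 1) ^ (k + 1) * Real.exp (-(h / 2) * (n + 1))) :=
    summ_aux (k + 1) (by linarith)
  refine hasDerivAt_tsum_of_isPreconnected (t := Ioi (h / 2)) (y₀ := h) hu isOpen_Ioi
    isPreconnected_Ioi (g := fun n y => B n * Real.exp (-y * (n + 1)))
    (g' := fun n y => -((n + 1) * B n * Real.exp (-y * (n + 1)))) ?_ ?_ ?_ ?_ ?_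
  · intro n y _
    have h1 : HasDerivAt (fun y : ℝ => -y * ((n : ℝ) + 1)) (-1 * ((n : ℝ) + 1)) y :=
      ((hasDerivAt_id y).neg).mul_const _
    have h2 := (h1.exp).const_mul (B n)
    refine h2.congr_deriv ?_
    ring
  · intro n y hy
    have hy' : h / 2 < y := hy
    rw [norm_neg, Real.norm_eq_abs, abs_mul, abs_mul, Real.abs_exp]
    have hn : (0 : ℝ) < (n : ℝ) + 1 := by positivity
    rw [abs_of_pos hn]
    have e1 : Real.exp (-y * ((n : ℝ) + 1)) ≤ Real.exp (-(h / 2) * ((n : ℝ) + 1)) := by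
      apply Real.exp_le_exp.2
      nlinarith
    calc ((n : ℝ) + 1) * |B n| * Real.exp (-y * ((n : ℝ) + 1))
        ≤ ((n : ℝ) + 1) * ((n : ℝ) + 1) ^ k * Real.exp (-(h / 2) * ((n : ℝ) + 1)) := by
          apply mul_le_mul _ e1 (Real.exp_nonneg _) (by positivity)
          exact mul_le_mul_of_nonneg_left (hB n) hn.le
      _ = _ := by ring
  · exact mem_Ioi.2 (by linarith)
  · refine Summable.of_norm_bounded (summ_aux k hh) (fun n => ?_)
    rw [Real.norm_eq_abs, abs_mul, Real.abs_exp]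
    exact mul_le_mul_of_nonneg_right (hB n) (Real.exp_nonneg _)
  · exact mem_Ioi.2 (by linarith)

lemma cont_aux (B : ℕ → ℝ) (hB0 : ∀ n, 0 ≤ B n) (hB : Summable B) :
    ContinuousOn (fun h : ℝ => ∑' n : ℕ, B n * Real.exp (-h * (n + 1))) (Ici 0) := by
  refine continuousOn_tsum (u := B) ?_ hB ?_
  · intro n
    fun_prop
  · intro n h hh
    have hh' : (0 : ℝ) ≤ h := hh
    rw [Real.norm_eq_abs, abs_mul, Real.abs_exp, abs_of_nonneg (hB0 n)]
    have : Real.exp (-h * ((n : ℝ) + 1)) ≤ 1 := by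
      apply Real.exp_le_one_iff.2
      have : (0 : ℝ) ≤ (n : ℝ) + 1 := by positivity
      nlinarith
    nlinarith [hB0 n]

lemma mono_aux {f g f' g' : ℝ → ℝ} {T : ℝ} (hT : 0 ≤ T) (hf : ContinuousOn f (Icc 0 T))
    (hg : ContinuousOn g (Icc 0 T)) (hf' : ∀ x ∈ Ioo 0 T, HasDerivAt f (f' x) x)
    (hg' : ∀ x ∈ Ioo 0 T, HasDerivAt g (g' x) x) (h : ∀ x ∈ Ioo 0 T, f' x ≤ g' x) :
    f T - f 0 ≤ g T - g 0 := by
  have hm : MonotoneOn (fun x => g x - f x) (Icc 0 T) := by
    refine monotoneOn_of_deriv_nonneg (convex_Icc 0 T) (hg.sub hf) ?_ ?_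
    · rw [interior_Icc]
      intro x hx
      exact ((hg' x hx).sub (hf' x hx)).differentiableAt.differentiableWithinAt
    · rw [interior_Icc]
      intro x hx
      have e := ((hg' x hx).sub (hf' x hx)).deriv
      have e2 : deriv (fun x => g x - f x) x = g' x - f' x := e
      rw [e2]
      linarith [h x hx]
  have := hm (left_mem_Icc.2 hT) (right_mem_Icc.2 hT) hT
  simp only at this
  linarith

/-- The comparison for a fixed sequence. -/
lemma main_aux (A : ℕ → ℝ) (hA0 : ∀ n, 0 ≤ A n) (hA1 : HasSum A 1)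
    (hS : Summable (fun n : ℕ => ((n : ℝ) + 1) * A n)) {c₁ c₂ T : ℝ} (hc : 0 < c₁) (hc2 : 0 < c₂)
    (hT : 0 < T)
    (hb : ∀ h ∈ Ioo 0 T,
      c₁ ≤ (∑' n : ℕ, ((n : ℝ) + 1) ^ 2 * A n * Real.exp (-h * (n + 1))) /
        (∑' n : ℕ, ((n : ℝ) + 1) * A n * Real.exp (-h * (n + 1))) ^ 3 ∧
      (∑' n : ℕ, ((n : ℝ) + 1) ^ 2 * A n * Real.exp (-h * (n + 1))) /
        (∑' n : ℕ, ((n : ℝ) + 1) * A n * Real.exp (-h * (n + 1))) ^ 3 ≤ c₂) :
    (√((1 / (∑' n : ℕ, ((n : ℝ) + 1) * A n)) ^ 2 + 2 * c₂ * T) -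
        (1 / (∑' n : ℕ, ((n : ℝ) + 1) * A n))) / c₂ ≤
      1 - ∑' n, A n * Real.exp (-T * (n + 1)) ∧
    1 - ∑' n, A n * Real.exp (-T * (n + 1)) ≤
    (√((1 / (∑' n : ℕ, ((n : ℝ) + 1) * A n)) ^ 2 + 2 * c₁ * T) -
        (1 / (∑' n : ℕ, ((n : ℝ) + 1) * A n))) / c₁ := by
  set χ : ℝ := ∑' n : ℕ, ((n : ℝ) + 1) * A n with hχ
  have hA1' : ∀ n, A n ≤ 1 := fun n => le_hasSum hA1 n (fun m _ => hA0 m)
  set M : ℝ → ℝ := fun h => 1 - ∑' n, A n * Real.exp (-h * (n + 1)) with hM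
  set X : ℝ → ℝ := fun h => ∑' n : ℕ, ((n : ℝ) + 1) * A n * Real.exp (-h * (n + 1)) with hX
  set X2 : ℝ → ℝ := fun h => ∑' n : ℕ, ((n : ℝ) + 1) ^ 2 * A n * Real.exp (-h * (n + 1)) with hX2
  have hMd : ∀ h : ℝ, 0 < h → HasDerivAt M (X h) h := by
    intro h hh
    have := (der_aux 0 A (fun n => by
      rw [abs_of_nonneg (hA0 n), pow_zero]; exact hA1' n) hh).const_sub 1
    refine this.congr_deriv ?_
    rw [tsum_neg, neg_neg]
  have hXd : ∀ h : ℝ, 0 < h → HasDerivAt X (-(X2 h)) h := by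
    intro h hh
    have := (der_aux 1 (fun n => ((n : ℝ) + 1) * A n) (fun n => by
      have : (0 : ℝ) < (n : ℝ) + 1 := by positivity
      rw [abs_of_nonneg (mul_nonneg this.le (hA0 n)), pow_one]
      nlinarith [hA1' n, hA0 n]) hh)
    refine this.congr_deriv ?_
    rw [tsum_neg, neg_inj]
    refine tsum_congr (fun n => ?_)
    ring
  have hMc : ContinuousOn M (Ici 0) := continuousOn_const.sub (cont_aux A hA0 hA1.summable)
  have hXc : ContinuousOn X (Ici 0) :=
    cont_aux (fun n : ℕ => ((n : ℝ) + 1) * A n) (fun n => mul_nonneg (by positivity) (hA0 n)) hS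
  have hX0 : X 0 = χ := by
    simp only [hX, hχ]
    refine tsum_congr (fun n => ?_)
    simp
  have hM0 : M 0 = 0 := by
    simp only [hM]
    have : ∑' n : ℕ, A n * Real.exp (-0 * ((n : ℝ) + 1)) = 1 := by
      rw [← hA1.tsum_eq]
      refine tsum_congr (fun n => ?_)
      simp
    rw [this]; ring
  -- positivity of `X`
  obtain ⟨m, hm⟩ : ∃ m, 0 < A m := by
    by_contra hcon
    push Not at hcon
    have : A = fun _ => 0 := by
      funext n
      exact le_antisymm (hcon n) (hA0 n)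
    rw [this] at hA1
    have := hA1.unique hasSum_zero
    norm_num at this
  have hXpos : ∀ h : ℝ, 0 ≤ h → 0 < X h := by
    intro h hh
    have hs : Summable (fun n : ℕ => ((n : ℝ) + 1) * A n * Real.exp (-h * (n + 1))) := by
      refine Summable.of_nonneg_of_le (fun n => ?_) (fun n => ?_) hS
      · exact mul_nonneg (mul_nonneg (by positivity) (hA0 n)) (Real.exp_nonneg _)
      · have : Real.exp (-h * ((n : ℝ) + 1)) ≤ 1 := by
          apply Real.exp_le_one_iff.2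
          have : (0 : ℝ) ≤ (n : ℝ) + 1 := by positivity
          nlinarith
        have h2 : 0 ≤ ((n : ℝ) + 1) * A n := mul_nonneg (by positivity) (hA0 n)
        nlinarith
    refine hs.tsum_pos (fun n => mul_nonneg (mul_nonneg (by positivity) (hA0 n))
      (Real.exp_nonneg _)) m ?_
    exact mul_pos (mul_pos (by positivity) hm) (Real.exp_pos _)
  have hχpos : 0 < χ := hX0 ▸ hXpos 0 le_rfl
  -- the function `Y`
  set Y : ℝ → ℝ := fun h => 1 / (X h) ^ 2 with hY
  have hYd : ∀ h : ℝ, 0 < h → HasDerivAt Y (2 * (X2 h / (X h) ^ 3)) h := by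
    intro h hh
    have hx := hXpos h hh.le
    have h1 : HasDerivAt (fun h => (X h) ^ 2) (2 * X h * (-(X2 h))) h := by
      have := (hXd h hh).pow 2
      refine this.congr_deriv ?_
      norm_num
    have h2 := h1.inv (by positivity)
    have h3 : Y = (fun h => (X h) ^ 2)⁻¹ := by
      funext t
      simp [hY]
    rw [h3]
    refine h2.congr_deriv ?_
    field_simp
  have hYc : ContinuousOn Y (Ici 0) := by
    refine continuousOn_const.div (hXc.pow 2) (fun h hh => ?_)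
    have := hXpos h hh
    positivity
  have hY0 : Y 0 = (1 / χ) ^ 2 := by
    simp only [hY, hX0]
    field_simp
  have hsub : ∀ t : ℝ, Icc (0 : ℝ) t ⊆ Ici 0 := fun t x hx => hx.1
  have hlin : ∀ (c : ℝ) (x : ℝ), HasDerivAt (fun x : ℝ => 2 * c * x) (2 * c) x := by
    intro c x
    simpa using (hasDerivAt_id x).const_mul (2 * c)
  have hYlow : ∀ t ∈ Ioo 0 T, (1 / χ) ^ 2 + 2 * c₁ * t ≤ Y t := by
    intro t ht
    have := mono_aux (f := fun x => 2 * c₁ * x) (g := Y) (f' := fun _ => 2 * c₁)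
      (g' := fun h => 2 * (X2 h / (X h) ^ 3)) ht.1.le (by fun_prop) (hYc.mono (hsub t))
      (fun x _ => hlin c₁ x) (fun x hx => hYd x hx.1)
      (fun x hx => by
        have := (hb x ⟨hx.1, hx.2.trans ht.2⟩).1
        simp only [hX2, hX]
        linarith)
    simp only [hY0] at this
    linarith
  have hYupp : ∀ t ∈ Ioo 0 T, Y t ≤ (1 / χ) ^ 2 + 2 * c₂ * t := by
    intro t ht
    have := mono_aux (g := fun x => 2 * c₂ * x) (f := Y) (g' := fun _ => 2 * c₂)
      (f' := fun h => 2 * (X2 h / (X h) ^ 3)) ht.1.le (hYc.mono (hsub t)) (by fun_prop)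
      (fun x hx => hYd x hx.1) (fun x _ => hlin c₂ x)
      (fun x hx => by
        have := (hb x ⟨hx.1, hx.2.trans ht.2⟩).2
        simp only [hX2, hX]
        linarith)
    simp only [hY0] at this
    linarith
  -- bounds of X
  have hXY : ∀ t : ℝ, 0 ≤ t → X t = 1 / √(Y t) := by
    intro t ht
    have hx := hXpos t ht
    have : Y t = (1 / X t) ^ 2 := by
      simp only [hY]
      field_simp
    rw [this, Real.sqrt_sq (by positivity)]
    field_simp
  -- the comparison functions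
  have hFd : ∀ c : ℝ, 0 < c → ∀ x : ℝ, 0 < x →
      HasDerivAt (fun x => √((1 / χ) ^ 2 + 2 * c * x) / c) (1 / √((1 / χ) ^ 2 + 2 * c * x)) x := by
    intro c hc x hx
    have hp : 0 < (1 / χ) ^ 2 + 2 * c * x := by positivity
    have h1 : HasDerivAt (fun x => (1 / χ) ^ 2 + 2 * c * x) (2 * c) x := (hlin c x).const_add _
    have h2 := (h1.sqrt hp.ne').div_const c
    refine h2.congr_deriv ?_
    have : √((1 / χ) ^ 2 + 2 * c * x) ≠ 0 := (Real.sqrt_pos.2 hp).ne'
    field_simp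
  have hFc : ∀ c : ℝ, ContinuousOn (fun x => √((1 / χ) ^ 2 + 2 * c * x) / c) (Icc 0 T) := by
    intro c
    apply Continuous.continuousOn
    exact ((continuous_const.add (continuous_const.mul continuous_id)).sqrt).div_const c
  have hF0 : ∀ c : ℝ, √((1 / χ) ^ 2 + 2 * c * 0) / c = (1 / χ) / c := by
    intro c
    rw [mul_zero, add_zero, Real.sqrt_sq (by positivity)]
  have hMT : M T = 1 - ∑' n, A n * Real.exp (-T * (n + 1)) := rfl
  constructor
  · have := mono_aux (g := M) (f := fun x => √((1 / χ) ^ 2 + 2 * c₂ * x) / c₂)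
      (f' := fun x => 1 / √((1 / χ) ^ 2 + 2 * c₂ * x)) (g' := X) hT.le (hFc c₂)
      (hMc.mono (hsub T)) (fun x hx => hFd c₂ hc2 x hx.1) (fun x hx => hMd x hx.1)
      (fun x hx => by
        rw [hXY x hx.1.le]
        have hYpos : 0 < Y x := by
          have := hXpos x hx.1.le
          simp only [hY]
          positivity
        exact one_div_le_one_div_of_le (Real.sqrt_pos.2 hYpos) (Real.sqrt_le_sqrt (hYupp x hx)))
    simp only [hF0, hM0] at this
    rw [sub_div]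
    linarith
  · have := mono_aux (f := M) (g := fun x => √((1 / χ) ^ 2 + 2 * c₁ * x) / c₁)
      (g' := fun x => 1 / √((1 / χ) ^ 2 + 2 * c₁ * x)) (f' := X) hT.le
      (hMc.mono (hsub T)) (hFc c₁) (fun x hx => hMd x hx.1) (fun x hx => hFd c₁ hc x hx.1)
      (fun x hx => by
        rw [hXY x hx.1.le]
        have h0 := hx.1
        exact one_div_le_one_div_of_le (Real.sqrt_pos.2 (by positivity))
          (Real.sqrt_le_sqrt (hYlow x hx)))
    simp only [hF0, hM0] at this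
    rw [sub_div]
    linarith

/-- The uniform form of the hypotheses. -/
lemma unif_aux (A : ℝ → ℕ → ℝ) (pc a b δ : ℝ) (ha : 0 < a) (hδ : 0 < δ)
    (hA0 : ∀ p ∈ Ioo (pc - δ) pc, ∀ n, 0 ≤ A p n)
    (hA1 : ∀ p ∈ Ioo (pc - δ) pc, HasSum (A p) 1)
    (h1 : Tendsto (fun p => (pc - p) * ∑' n : ℕ, (n + 1) * A p n) (𝓝[<] pc) (𝓝 (1 / a)))
    (h2 : Tendsto (fun q : ℝ × ℝ => (∑' n : ℕ, (n + 1) ^ 2 * A q.1 n * Real.exp (-q.2 * (n + 1))) /
      (∑' n : ℕ, (n + 1) * A q.1 n * Real.exp (-q.2 * (n + 1))) ^ 3)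
      (𝓝[Iio pc ×ˢ Ioi 0] (pc, 0)) (𝓝 b)) {ε : ℝ} (hε : 0 < ε) (hεb : ε < b) :
    ∃ η : ℝ, 0 < η ∧ ∀ p ∈ Ioo (pc - η) pc, ∀ T ∈ Ioo 0 η,
    (√((1 / (∑' n : ℕ, ((n : ℝ) + 1) * A p n)) ^ 2 + 2 * (b + ε) * T) -
        (1 / (∑' n : ℕ, ((n : ℝ) + 1) * A p n))) / (b + ε) ≤
      1 - ∑' n, A p n * Real.exp (-T * (n + 1)) ∧
    1 - ∑' n, A p n * Real.exp (-T * (n + 1)) ≤
    (√((1 / (∑' n : ℕ, ((n : ℝ) + 1) * A p n)) ^ 2 + 2 * (b - ε) * T) -
        (1 / (∑' n : ℕ, ((n : ℝ) + 1) * A p n))) / (b - ε) := by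
  have hev : ∀ᶠ p in 𝓝[<] pc, 0 < ∑' n : ℕ, ((n : ℝ) + 1) * A p n := by
    have e1 := h1.eventually (lt_mem_nhds (show (0 : ℝ) < 1 / a by positivity))
    filter_upwards [e1, self_mem_nhdsWithin] with p hp hp2
    have hp3 : 0 < pc - p := sub_pos.2 hp2
    exact (mul_pos_iff_of_pos_left hp3).1 hp
  have hev' : ∃ l < pc, Ioo l pc ⊆ {p | 0 < ∑' n : ℕ, ((n : ℝ) + 1) * A p n} :=
    mem_nhdsLT_iff_exists_Ioo_subset.1 hev
  obtain ⟨l, hl, hl2⟩ := hev'
  have hev2 := (Metric.tendsto_nhdsWithin_nhds.1 h2) ε hε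
  obtain ⟨r, hr, hr2⟩ := hev2
  refine ⟨min (min δ (pc - l)) r, by
    refine lt_min (lt_min hδ (sub_pos.2 hl)) hr, ?_⟩
  intro p hp T hT
  have hη1 : min (min δ (pc - l)) r ≤ δ := (min_le_left _ _).trans (min_le_left _ _)
  have hη2 : min (min δ (pc - l)) r ≤ pc - l := (min_le_left _ _).trans (min_le_right _ _)
  have hη3 : min (min δ (pc - l)) r ≤ r := min_le_right _ _
  have hp1 : p ∈ Ioo (pc - δ) pc := ⟨by linarith [hp.1], hp.2⟩
  have hp2 : p ∈ Ioo l pc := ⟨by linarith [hp.1], hp.2⟩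
  have hpos : 0 < ∑' n : ℕ, ((n : ℝ) + 1) * A p n := hl2 hp2
  have hS : Summable (fun n : ℕ => ((n : ℝ) + 1) * A p n) := by
    by_contra hcon
    rw [tsum_eq_zero_of_not_summable hcon] at hpos
    exact lt_irrefl _ hpos
  refine main_aux (A p) (hA0 p hp1) (hA1 p hp1) hS (by linarith) (by linarith) hT.1 ?_
  intro h hh
  have hq : dist ((p, h) : ℝ × ℝ) (pc, 0) < r := by
    rw [Prod.dist_eq]
    refine max_lt ?_ ?_
    · simp only [Real.dist_eq]
      rw [abs_lt]
      constructor <;> linarith [hp.1, hp.2]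
    · simp only [Real.dist_eq]
      rw [abs_lt]
      constructor <;> linarith [hh.1, hh.2, hT.2]
  have := hr2 (x := (p, h)) ⟨hp.2, hh.1⟩ hq
  rw [Real.dist_eq, abs_lt] at this
  simp only at this
  exact ⟨by linarith [this.1], by linarith [this.2]⟩

end SubH311

open SubH311 in
theorem t_sub : S_sub := by
  intro A pc a b δ ha hb hδ hA0 hA1 h1 h2
  constructor
  · obtain ⟨η, hη, H⟩ := unif_aux A pc a b δ ha hδ hA0 hA1 h1 h2 (ε := b / 2) (by linarith)
      (by linarith)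
    refine ⟨√(2 * (b - b / 2)) / (b - b / 2), min (η / 2) δ, ?_, lt_min (by linarith) hδ, ?_⟩
    · have : 0 < b - b / 2 := by linarith
      positivity
    · intro p hp h hh hh2
      have hm1 : min (η / 2) δ ≤ η / 2 := min_le_left _ _
      have hm2 : min (η / 2) δ ≤ δ := min_le_right _ _
      have hb2 : 0 < b - b / 2 := by linarith
      have := (H p ⟨by linarith [hp.1], hp.2⟩ h ⟨hh, by linarith⟩).2
      refine this.trans ?_
      rw [div_mul_eq_mul_div, ← Real.sqrt_mul (by positivity)]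
      apply div_le_div_of_nonneg_right _ hb2.le
      have hχ : 0 ≤ 1 / (∑' n : ℕ, ((n : ℝ) + 1) * A p n) := by
        apply one_div_nonneg.2
        exact tsum_nonneg (fun n => mul_nonneg (by positivity)
          (hA0 p ⟨by linarith [hp.1], hp.2⟩ n))
      set y := 1 / (∑' n : ℕ, ((n : ℝ) + 1) * A p n) with hy
      have h3 : √(y ^ 2 + 2 * (b - b / 2) * h) ≤ y + √(2 * (b - b / 2) * h) := by
        apply Real.sqrt_le_iff.2
        refine ⟨by positivity, ?_⟩
        have hs := Real.sq_sqrt (show 0 ≤ 2 * (b - b / 2) * h by positivity)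
        nlinarith [Real.sqrt_nonneg (2 * (b - b / 2) * h)]
      linarith
  · intro s hs
    -- the point `p_h`
    have hsq : Tendsto (fun h : ℝ => √h) (𝓝[>] 0) (𝓝[>] 0) := by
      refine tendsto_nhdsWithin_iff.2 ⟨?_, ?_⟩
      · have : Tendsto (fun h : ℝ => √h) (𝓝 0) (𝓝 (√0)) := Real.continuous_sqrt.tendsto 0
        rw [Real.sqrt_zero] at this
        exact this.mono_left nhdsWithin_le_nhds
      · filter_upwards [self_mem_nhdsWithin] with h hh
        exact Real.sqrt_pos.2 hh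
    have hp : Tendsto (fun h : ℝ => pc + s * √h) (𝓝[>] 0) (𝓝[<] pc) := by
      refine tendsto_nhdsWithin_iff.2 ⟨?_, ?_⟩
      · have h3 : Tendsto (fun h : ℝ => √h) (𝓝[>] 0) (𝓝 0) := hsq.mono_right nhdsWithin_le_nhds
        have h4 := (h3.const_mul s).const_add pc
        simpa using h4
      · filter_upwards [self_mem_nhdsWithin] with h hh
        have h0 : 0 < √h := Real.sqrt_pos.2 hh
        have : s * √h < 0 := mul_neg_of_neg_of_pos hs h0
        exact mem_Iio.2 (by linarith)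
    have hy : Tendsto (fun h : ℝ =>
        (1 / (∑' n : ℕ, ((n : ℝ) + 1) * A (pc + s * √h) n)) / √h) (𝓝[>] 0) (𝓝 (-s * a)) := by
      have h3 := (h1.comp hp).inv₀ (by positivity)
      have h4 := h3.const_mul (-s)
      have e : -s * (1 / a)⁻¹ = -s * a := by simp
      rw [e] at h4
      refine h4.congr' ?_
      filter_upwards [self_mem_nhdsWithin] with h hh
      have h0 : 0 < √h := Real.sqrt_pos.2 hh
      simp only [Function.comp]
      have e2 : pc - (pc + s * √h) = -s * √h := by ring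
      rw [e2]
      set χ := ∑' n : ℕ, ((n : ℝ) + 1) * A (pc + s * √h) n
      have hs' : -s ≠ 0 := by linarith
      rw [mul_inv, mul_inv, ← mul_assoc, ← mul_assoc, mul_inv_cancel₀ hs', one_mul, one_div,
        div_eq_mul_inv, mul_comm]
    have hL : (√(a ^ 2 * s ^ 2 + 2 * b) + a * s) / b = (√((-s * a) ^ 2 + 2 * b) - (-s * a)) / b := by
      congr 2
      · congr 1; ring
      · ring
    rw [hL]
    -- the function `G`
    have hG : ∀ c : ℝ, c ≠ 0 → ContinuousAt (fun c : ℝ => (√((-s * a) ^ 2 + 2 * c) - (-s * a)) / c) c := by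
      intro c hc
      refine ContinuousAt.div ?_ continuousAt_id hc
      exact (((continuous_const.add (continuous_const.mul continuous_id)).sqrt).sub
        continuous_const).continuousAt
    have hG2 : ∀ c : ℝ, Tendsto (fun h : ℝ =>
        (√(((1 / (∑' n : ℕ, ((n : ℝ) + 1) * A (pc + s * √h) n)) / √h) ^ 2 + 2 * c) -
          ((1 / (∑' n : ℕ, ((n : ℝ) + 1) * A (pc + s * √h) n)) / √h)) / c) (𝓝[>] 0)
        (𝓝 ((√((-s * a) ^ 2 + 2 * c) - (-s * a)) / c)) := by
      intro c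
      exact (((((hy.pow 2).add_const (2 * c)).sqrt).sub hy).div_const c)
    have hre : ∀ c y h : ℝ, 0 < h →
        ((√(y ^ 2 + 2 * c * h) - y) / c) / √h = (√((y / √h) ^ 2 + 2 * c) - y / √h) / c := by
      intro c y h hh
      have h0 : 0 < √h := Real.sqrt_pos.2 hh
      have e : (y / √h) ^ 2 + 2 * c = (y ^ 2 + 2 * c * h) / h := by
        rw [div_pow, Real.sq_sqrt hh.le]
        field_simp
      rw [e, Real.sqrt_div' _ hh.le]
      ring
    refine tendsto_order.2 ⟨?_, ?_⟩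
    · intro l hl
      have c1 : Tendsto (fun ε : ℝ => (√((-s * a) ^ 2 + 2 * (b + ε)) - (-s * a)) / (b + ε))
          (𝓝[>] 0) (𝓝 ((√((-s * a) ^ 2 + 2 * b) - (-s * a)) / b)) := by
        have e1 : Tendsto (fun ε : ℝ => b + ε) (𝓝[>] 0) (𝓝 b) := by
          have : Tendsto (fun ε : ℝ => b + ε) (𝓝 0) (𝓝 (b + 0)) :=
            (continuous_const.add continuous_id).tendsto 0
          rw [add_zero] at this
          exact this.mono_left nhdsWithin_le_nhds
        exact (hG b hb.ne').tendsto.comp e1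
      have c2 := c1.eventually (lt_mem_nhds hl)
      have c3 : ∀ᶠ ε : ℝ in 𝓝[>] 0, ε < b :=
        (mem_nhdsWithin_of_mem_nhds (gt_mem_nhds hb))
      obtain ⟨ε, ⟨hε1, hε2⟩, hε3⟩ := ((c2.and c3).and self_mem_nhdsWithin).exists
      have hε : 0 < ε := hε3
      obtain ⟨η, hη, H⟩ := unif_aux A pc a b δ ha hδ hA0 hA1 h1 h2 hε hε2
      have d1 := (hG2 (b + ε)).eventually (lt_mem_nhds hε1)
      have d2 : ∀ᶠ h : ℝ in 𝓝[>] 0, pc + s * √h ∈ Ioo (pc - η) pc :=
        hp (Ioo_mem_nhdsLT (by linarith))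
      have d3 : ∀ᶠ h : ℝ in 𝓝[>] 0, h ∈ Ioo 0 η := Ioo_mem_nhdsGT hη
      filter_upwards [d1, d2, d3] with h e1 e2 e3
      have h0 : 0 < √h := Real.sqrt_pos.2 e3.1
      refine e1.trans_le ?_
      rw [← hre _ _ _ e3.1]
      exact div_le_div_of_nonneg_right (H _ e2 _ e3).1 h0.le
    · intro l hl
      have c1 : Tendsto (fun ε : ℝ => (√((-s * a) ^ 2 + 2 * (b - ε)) - (-s * a)) / (b - ε))
          (𝓝[>] 0) (𝓝 ((√((-s * a) ^ 2 + 2 * b) - (-s * a)) / b)) := by
        have e1 : Tendsto (fun ε : ℝ => b - ε) (𝓝[>] 0) (𝓝 b) := by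
          have : Tendsto (fun ε : ℝ => b - ε) (𝓝 0) (𝓝 (b - 0)) :=
            (continuous_const.sub continuous_id).tendsto 0
          rw [sub_zero] at this
          exact this.mono_left nhdsWithin_le_nhds
        exact (hG b hb.ne').tendsto.comp e1
      have c2 := c1.eventually (gt_mem_nhds hl)
      have c3 : ∀ᶠ ε : ℝ in 𝓝[>] 0, ε < b :=
        (mem_nhdsWithin_of_mem_nhds (gt_mem_nhds hb))
      obtain ⟨ε, ⟨hε1, hε2⟩, hε3⟩ := ((c2.and c3).and self_mem_nhdsWithin).exists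
      have hε : 0 < ε := hε3
      obtain ⟨η, hη, H⟩ := unif_aux A pc a b δ ha hδ hA0 hA1 h1 h2 hε hε2
      have d1 := (hG2 (b - ε)).eventually (gt_mem_nhds hε1)
      have d2 : ∀ᶠ h : ℝ in 𝓝[>] 0, pc + s * √h ∈ Ioo (pc - η) pc :=
        hp (Ioo_mem_nhdsLT (by linarith))
      have d3 : ∀ᶠ h : ℝ in 𝓝[>] 0, h ∈ Ioo 0 η := Ioo_mem_nhdsGT hη
      filter_upwards [d1, d2, d3] with h e1 e2 e3
      have h0 : 0 < √h := Real.sqrt_pos.2 e3.1
      refine lt_of_le_of_lt ?_ e1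
      rw [← hre _ _ _ e3.1]
      exact div_le_div_of_nonneg_right (H _ e2 _ e3).2 h0.le

end Pool.Agent.H659
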