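import Pool.Agent.H659.Stmts
import Pool.Agent.W400.PC.PT
import Pool.Agent.W45.PC.PT1

set_option autoImplicit false

open MeasureTheory Set Filter Topology

namespace Pool.Agent.H659

open Pool.Agent.W783.PC (pm DepOn Inc)

namespace TrfAux

noncomputable section

/-- The bond of `ℤ^d` from `a` in direction `i`. -/
def bond (d : ℕ) (c : (Fin d → ℤ) × Fin d) : Sym2 (Fin d → ℤ) :=
  s(c.1, c.1 + Pi.single c.2 1)

theorem bond_inj (d : ℕ) : Function.Injective (bond d) := by
  rintro ⟨a, i⟩ ⟨b, j⟩ h
  simp only [bond, Sym2.eq_iff] at h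
  rcases h with ⟨h1, h2⟩ | ⟨h1, h2⟩
  · subst h1
    have h3 : (Pi.single i 1 : Fin d → ℤ) = Pi.single j 1 := add_left_cancel h2
    have h4 : i = j := by
      by_contra hne
      have h5 := congrFun h3 i
      rw [Pi.single_eq_same, Pi.single_eq_of_ne hne] at h5
      exact one_ne_zero h5
    rw [h4]
  · exfalso
    rw [h1] at h2
    have h3 : (Pi.single j 1 : Fin d → ℤ) + Pi.single i 1 = 0 := by
      have h4 : b + ((Pi.single j 1 : Fin d → ℤ) + Pi.single i 1) = b + 0 := by
        rw [← add_assoc, h2, add_zero]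
      exact add_left_cancel h4
    have h5 := congrFun h3 i
    simp only [Pi.add_apply, Pi.single_eq_same, Pi.zero_apply] at h5
    by_cases hij : i = j
    · subst hij
      rw [Pi.single_eq_same] at h5
      omega
    · rw [Pi.single_eq_of_ne hij] at h5
      omega

/-- Restriction of configurations along a map of the coordinates. -/
def rest {I J : Type} (f : J → I) (ω : I → Bool) : J → Bool := fun c => ω (f c)

theorem measurable_rest {I J : Type} (f : J → I) : Measurable (rest f) :=
  measurable_pi_lambda _ fun c => measurable_pi_apply (f c)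

theorem map_rest {I J : Type} (f : J → I) (hf : Function.Injective f) (r : I → unitInterval) :
    (pm r).map (rest f) = pm (fun c => r (f c)) := by
  classical
  conv_rhs => unfold Pool.Agent.W783.PC.pm
  apply Measure.eq_infinitePi
  intro s t ht
  rw [Measure.map_apply (measurable_rest f) (MeasurableSet.pi s.countable_toSet fun i _ => ht i)]
  set t' : I → Set Bool := fun e => if h : ∃ c, f c = e then t h.choose else univ with ht'
  have ht'f : ∀ c, t' (f c) = t c := by
    intro c
    have h : ∃ c', f c' = f c := ⟨c, rfl⟩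
    simp only [ht']
    rw [dif_pos h, hf h.choose_spec]
  have h1 : rest f ⁻¹' (Set.pi (s : Set J) t) =
      Set.pi ((s.map ⟨f, hf⟩ : Finset I) : Set I) t' := by
    ext ω
    simp only [Set.mem_preimage, Set.mem_pi, Finset.mem_coe, Finset.mem_map,
      Function.Embedding.coeFn_mk]
    constructor
    · rintro h _ ⟨c, hc, rfl⟩
      rw [ht'f]
      exact h c hc
    · intro h c hc
      have h2 := h (f c) ⟨c, hc, rfl⟩
      rw [ht'f] at h2
      exact h2
  rw [h1, Pool.Agent.W400.PC.pm_pi, Finset.prod_map]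
  refine Finset.prod_congr rfl fun c _ => ?_
  show Pool.Agent.W783.PC.bern (r (f c)) (t' (f c)) = _
  rw [ht'f]

open scoped Classical in
/-- Extension of configurations by `false`. -/
def ext {I J : Type} (f : J → I) (η : J → Bool) : I → Bool :=
  fun e => if h : ∃ c, f c = e then η h.choose else false

theorem measurable_ext {I J : Type} (f : J → I) : Measurable (ext f) := by
  classical
  refine measurable_pi_lambda _ fun e => ?_
  unfold ext
  by_cases h : ∃ c, f c = e
  · simp only [dif_pos h]
    exact measurable_pi_apply _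
  · simp only [dif_neg h]
    exact measurable_const

theorem rest_ext {I J : Type} (f : J → I) (hf : Function.Injective f) (η : J → Bool) :
    rest f (ext f η) = η := by
  funext c
  have h : ∃ c', f c' = f c := ⟨c, rfl⟩
  unfold rest ext
  rw [dif_pos h, hf h.choose_spec]

/-- The percolation event in terms of the directed bonds. -/
def Per (d : ℕ) : Set ((Fin d → ℤ) × Fin d → Bool) :=
  {η | Set.Infinite {x : Fin d → ℤ |
    (SimpleGraph.fromRel (fun a b : Fin d → ℤ =>
      ∃ i : Fin d, b = a + (Pi.single i (1 : ℤ) : Fin d → ℤ) ∧ η (a, i) = true)).Reachable 0 x}}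

theorem graph_eq (d : ℕ) (ω : Sym2 (Fin d → ℤ) → Bool) :
    SimpleGraph.fromRel (fun a b : Fin d → ℤ =>
      ∃ i : Fin d, b = a + (Pi.single i (1 : ℤ) : Fin d → ℤ) ∧ rest (bond d) ω (a, i) = true) =
    Gr (Zd d) (opn ω) ∅ := by
  ext a b
  simp only [SimpleGraph.fromRel_adj, Gr, Zd, opn, rest, bond, Set.mem_ofPred_eq,
    Set.mem_empty_iff_false, not_false_eq_true, and_true]
  constructor
  · rintro ⟨_, ⟨i, rfl, h⟩ | ⟨i, rfl, h⟩⟩
    · exact ⟨Or.inl ⟨i, rfl⟩, h⟩
    · exact ⟨Or.inr ⟨i, rfl⟩, by rw [Sym2.eq_swap]; exact h⟩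
  · rintro ⟨h1, h2⟩
    refine ⟨?_, ?_⟩
    · rcases h1 with ⟨i, h⟩ | ⟨i, h⟩ <;>
      · rintro rfl
        have h3 := congrFun h i
        simp at h3
    · rcases h1 with ⟨i, rfl⟩ | ⟨i, rfl⟩
      · exact Or.inl ⟨i, rfl, h2⟩
      · exact Or.inr ⟨i, rfl, by rw [Sym2.eq_swap]; exact h2⟩

theorem ev_eq (d : ℕ) : Ev (Nf (Zd d) ∅ 0) = rest (bond d) ⁻¹' (Per d) := by
  ext ω
  simp only [Ev, Nf, Per, Set.mem_ofPred_eq, Set.mem_preimage, Set.mem_empty_iff_false,
    not_false_eq_true, true_and]
  rw [graph_eq]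

theorem measurableSet_Per (d : ℕ) (h2 : S_measNf) : MeasurableSet (Per d) := by
  have h3 : MeasurableSet (Ev (Nf (Zd d) ∅ 0)) := (h2 (Fin d → ℤ) (Zd d) ∅ 0).1
  rw [ev_eq] at h3
  have h4 : Per d = ext (bond d) ⁻¹' (rest (bond d) ⁻¹' (Per d)) := by
    ext η
    rw [Set.mem_preimage, Set.mem_preimage, rest_ext _ (bond_inj d)]
  rw [h4]
  exact measurable_ext _ h3

/-- The configuration of the uniform variables. -/
def cfl {ι : Type} (p : unitInterval) (U : ι → unitInterval) : ι → Bool :=
  fun c => decide ((U c : ℝ) ≤ p)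

theorem meas_dec' (q : unitInterval) : Measurable fun u : unitInterval => decide ((u : ℝ) ≤ q) := by
  refine measurable_to_bool ?_
  have h1 : (fun u : unitInterval => decide ((u : ℝ) ≤ q)) ⁻¹' {true} = Set.Iic q := by
    ext u; simp
  rw [h1]
  exact measurableSet_Iic

theorem meas_cfl {ι : Type} (p : unitInterval) : Measurable (cfl (ι := ι) p) :=
  measurable_pi_lambda _ fun c => (meas_dec' p).comp (measurable_pi_apply c)

theorem map_dec' (q : unitInterval) :
    (volume : Measure unitInterval).map (fun u : unitInterval => decide ((u : ℝ) ≤ q)) =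
      Pool.Agent.W783.PC.bern q := by
  have h1 : (fun u : unitInterval => decide ((u : ℝ) ≤ q)) ⁻¹' {true} = Set.Iic q := by
    ext u; simp
  have h2 : (fun u : unitInterval => decide ((u : ℝ) ≤ q)) ⁻¹' {false} = Set.Ioi q := by
    ext u; simp
  refine Measure.ext_of_singleton fun b => ?_
  cases b
  · rw [Measure.map_apply (meas_dec' q) (measurableSet_singleton _), h2,
      Pool.Agent.W400.PC.bern_false, unitInterval.volume_Ioi]
  · rw [Measure.map_apply (meas_dec' q) (measurableSet_singleton _), h1,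
      Pool.Agent.W400.PC.bern_true, unitInterval.volume_Iic]

theorem map_cfl {ι : Type} (p : unitInterval) :
    (Measure.infinitePi (fun _ : ι => (volume : Measure unitInterval))).map (cfl p) =
      pm (fun _ : ι => p) := by
  unfold Pool.Agent.W783.PC.pm cfl
  rw [Measure.infinitePi_map_pi (fun _ : ι => (volume : Measure unitInterval))
    (f := fun _ u => decide ((u : ℝ) ≤ p)) fun _ => meas_dec' p]
  simp only [map_dec']

end

end TrfAux

open TrfAux in
theorem t_trf (h1 : S_meas) (h2 : S_measNf) : S_trf := by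
  intro d p
  have hm := measurableSet_Per d h2
  have e1 : {ω : (Fin d → ℤ) × Fin d → unitInterval | Set.Infinite {x : Fin d → ℤ |
      (SimpleGraph.fromRel (fun a b : Fin d → ℤ =>
        ∃ i : Fin d, b = a + (Pi.single i (1 : ℤ) : Fin d → ℤ) ∧
          ((ω (a, i) : ℝ) ≤ p))).Reachable 0 x}} = cfl p ⁻¹' (Per d) := by
    ext ω
    simp only [Per, cfl, Set.mem_ofPred_eq, Set.mem_preimage, decide_eq_true_eq]
  rw [e1, ← Measure.map_apply (meas_cfl p) hm, map_cfl]
  unfold Pb
  rw [Measure.real, ev_eq, ← Measure.map_apply (measurable_rest _) hm,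
    map_rest _ (bond_inj d)]

end Pool.Agent.H659
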