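import Pool.Agent.H659.Win
import Pool.Agent.H659.J_trf
import Pool.Agent.H659.Tools
import Pool.Agent.H659.Graph

set_option autoImplicit false

open MeasureTheory Set Filter Topology

namespace Pool.Agent.H659

open Pool.Agent.W783.PC (pm DepOn Inc)

namespace TrfnAux

open TrfAux

theorem meas_mem {V : Type} [Countable V] (G : SimpleGraph V) (o x : V) :
    MeasurableSet (Ev (fun K : Set (Sym2 V) => x ∈ Cs G o K)) :=
  t_meas V _ (fm_reach G ∅ o x)

theorem meas_eq {V : Type} [Countable V] (G : SimpleGraph V) (o : V) (C : Set V) :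
    MeasurableSet (Ev (fun K : Set (Sym2 V) => Cs G o K = C)) := by
  have h : Ev (fun K : Set (Sym2 V) => Cs G o K = C) =
      (⋂ x ∈ C, Ev (fun K : Set (Sym2 V) => x ∈ Cs G o K)) ∩
        ⋂ x ∈ Cᶜ, (Ev (fun K : Set (Sym2 V) => x ∈ Cs G o K))ᶜ := by
    ext ω
    simp only [Ev, mem_inter_iff, mem_iInter, mem_compl_iff, Set.mem_ofPred_eq]
    constructor
    · intro h
      refine ⟨fun x hx => by rw [h]; exact hx, fun x hx => by rw [h]; exact hx⟩
    · rintro ⟨h1, h2⟩
      ext x
      exact ⟨fun hx => by_contra fun hc => h2 x hc hx, fun hx => h1 x hx⟩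
  rw [h]
  refine MeasurableSet.inter ?_ ?_
  · exact MeasurableSet.biInter C.to_countable fun x _ => meas_mem G o x
  · exact MeasurableSet.biInter Cᶜ.to_countable fun x _ => (meas_mem G o x).compl

theorem meas_fin {V : Type} [Countable V] (G : SimpleGraph V) (o : V) (P : Finset V → Prop) :
    MeasurableSet (Ev (fun K : Set (Sym2 V) => ∃ F : Finset V, P F ∧ Cs G o K = F)) := by
  have h : Ev (fun K : Set (Sym2 V) => ∃ F : Finset V, P F ∧ Cs G o K = F) =
      ⋃ F : Finset V, ⋃ _ : P F, Ev (fun K : Set (Sym2 V) => Cs G o K = F) := by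
    ext ω
    simp only [Ev, mem_iUnion, Set.mem_ofPred_eq, exists_prop]
  rw [h]
  exact MeasurableSet.iUnion fun F => MeasurableSet.iUnion fun _ => meas_eq G o _

theorem meas_ncard {V : Type} [Countable V] (G : SimpleGraph V) (o : V) (n : ℕ) :
    MeasurableSet (Ev (fun K : Set (Sym2 V) => (Cs G o K).ncard = n)) := by
  classical
  by_cases hn : n = 0
  · subst hn
    have h : Ev (fun K : Set (Sym2 V) => (Cs G o K).ncard = 0) =
        (Ev (fun K : Set (Sym2 V) => ∃ F : Finset V, F.Nonempty ∧ Cs G o K = F))ᶜ := by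
      ext ω
      simp only [Ev, mem_compl_iff, Set.mem_ofPred_eq]
      constructor
      · rintro h ⟨F, hF, h2⟩
        rw [h2, Set.ncard_coe_finset, Finset.card_eq_zero] at h
        exact hF.ne_empty h
      · intro h
        refine Set.Infinite.ncard fun hf => h ⟨hf.toFinset, ?_, by simp⟩
        refine ⟨o, (Set.Finite.mem_toFinset hf).2 ?_⟩
        show (Gr G (opn ω) ∅).Reachable o o
        exact SimpleGraph.Reachable.refl o
    rw [h]
    exact (meas_fin G o _).compl
  · have h : Ev (fun K : Set (Sym2 V) => (Cs G o K).ncard = n) =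
        Ev (fun K : Set (Sym2 V) => ∃ F : Finset V, F.card = n ∧ Cs G o K = F) := by
      ext ω
      simp only [Ev, Set.mem_ofPred_eq]
      constructor
      · intro h
        have hf : (Cs G o (opn ω)).Finite := Set.finite_of_ncard_ne_zero (by rw [h]; exact hn)
        refine ⟨hf.toFinset, ?_, by simp⟩
        rw [← h, Set.ncard_eq_toFinset_card _ hf]
      · rintro ⟨F, hF, h2⟩
        rw [h2, Set.ncard_coe_finset, hF]
    rw [h]
    exact meas_fin G o _

/-- The event in terms of the directed bonds. -/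
def Pern (d n : ℕ) : Set ((Fin d → ℤ) × Fin d → Bool) :=
  {η | Set.ncard {x : Fin d → ℤ |
    (SimpleGraph.fromRel (fun a b : Fin d → ℤ =>
      ∃ i : Fin d, b = a + (Pi.single i (1 : ℤ) : Fin d → ℤ) ∧ η (a, i) = true)).Reachable 0 x} = n}

theorem evn_eq (d n : ℕ) : Ev (fun K => (Cs (Zd d) 0 K).ncard = n) =
    rest (bond d) ⁻¹' (Pern d n) := by
  ext ω
  simp only [Ev, Cs, Pern, Set.mem_ofPred_eq, Set.mem_preimage]
  rw [graph_eq]

theorem measurableSet_Pern (d n : ℕ) : MeasurableSet (Pern d n) := by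
  have h3 : MeasurableSet (Ev (fun K => (Cs (Zd d) 0 K).ncard = n)) := meas_ncard (Zd d) 0 n
  rw [evn_eq] at h3
  have h4 : Pern d n = ext (bond d) ⁻¹' (rest (bond d) ⁻¹' (Pern d n)) := by
    ext η
    rw [Set.mem_preimage, Set.mem_preimage, rest_ext _ (bond_inj d)]
  rw [h4]
  exact measurable_ext _ h3

end TrfnAux

open TrfAux TrfnAux in
theorem t_trfn : S_trfn := by
  intro d p n
  have hm := measurableSet_Pern d n
  have e1 : {ω : (Fin d → ℤ) × Fin d → unitInterval | Set.ncard {x : Fin d → ℤ |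
      (SimpleGraph.fromRel (fun a b : Fin d → ℤ =>
        ∃ i : Fin d, b = a + (Pi.single i (1 : ℤ) : Fin d → ℤ) ∧
          ((ω (a, i) : ℝ) ≤ p))).Reachable 0 x} = n} = cfl p ⁻¹' (Pern d n) := by
    ext ω
    simp only [Pern, cfl, Set.mem_ofPred_eq, Set.mem_preimage, decide_eq_true_eq]
  rw [e1, ← Measure.map_apply (meas_cfl p) hm, map_cfl]
  unfold an Pb
  rw [Measure.real, evn_eq, ← Measure.map_apply (measurable_rest _) hm,
    map_rest _ (bond_inj d)]

end Pool.Agent.H659
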