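import Pool.Agent.H659.Win

set_option autoImplicit false

open MeasureTheory Set Filter Topology

namespace Pool.Agent.H659

open Pool.Agent.W783.PC (pm DepOn Inc)

namespace Vit101

/-- A bounded family has a limit along an ultrafilter. -/
theorem lim_ex {ι : Type} (𝓤 : Ultrafilter ι) (a : ι → ℂ) (B : ℝ)
    (h : ∀ᶠ i in (𝓤 : Filter ι), ‖a i‖ ≤ B) :
    ∃ x : ℂ, ‖x‖ ≤ B ∧ Tendsto a 𝓤 (𝓝 x) := by
  have hc : IsCompact (Metric.closedBall (0 : ℂ) B) := isCompact_closedBall 0 B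
  have h2 : ((𝓤.map a : Ultrafilter ℂ) : Filter ℂ) ≤ 𝓟 (Metric.closedBall (0 : ℂ) B) := by
    rw [le_principal_iff]
    change ∀ᶠ i in (𝓤 : Filter ι), a i ∈ Metric.closedBall (0 : ℂ) B
    filter_upwards [h] with i hi
    simpa using hi
  obtain ⟨x, hx, hx2⟩ := hc.ultrafilter_le_nhds (𝓤.map a) h2
  exact ⟨x, by simpa using hx, hx2⟩

/-- The limit along an ultrafilter of a bounded family of holomorphic functions is holomorphic. -/
theorem lim_diff {ι : Type} (𝓤 : Ultrafilter ι) (f : ι → ℂ → ℂ) (B : ℝ) (U : Set ℂ)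
    (hU : IsOpen U)
    (hf : ∀ᶠ h in (𝓤 : Filter ι), DifferentiableOn ℂ (f h) U ∧ ∀ z ∈ U, ‖f h z‖ ≤ B) :
    ∃ F : ℂ → ℂ, DifferentiableOn ℂ F U ∧ ∀ z ∈ U, Tendsto (fun h => f h z) 𝓤 (𝓝 (F z)) := by
  classical
  have hpt : ∀ z ∈ U, ∃ x : ℂ, Tendsto (fun h => f h z) 𝓤 (𝓝 x) := by
    intro z hz
    obtain ⟨x, -, hx⟩ := lim_ex 𝓤 (fun h => f h z) B (hf.mono fun h hh => hh.2 z hz)
    exact ⟨x, hx⟩
  choose! F hF using hpt
  refine ⟨F, ?_, hF⟩
  intro c hc
  obtain ⟨r, hr, hball⟩ := Metric.isOpen_iff.1 hU c hc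
  have hr2 : 0 < r / 2 := by positivity
  have hcl : Metric.closedBall c (r / 2) ⊆ U :=
    (Metric.closedBall_subset_ball (by linarith)).trans hball
  have hbd : ∀ᶠ h in (𝓤 : Filter ι), ∀ n : ℕ,
      ‖((n.factorial : ℂ)⁻¹ * iteratedDeriv n (f h) c)‖ ≤ B / (r / 2) ^ n := by
    filter_upwards [hf] with h hh n
    have h1 := Complex.norm_iteratedDeriv_le_of_forall_mem_sphere_norm_le (c := c) (R := r / 2)
      (C := B) (f := f h) n hr2
      ((hh.1.mono (by
        rw [closure_ball c hr2.ne']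
        exact hcl)).diffContOnCl)
      (fun z hz => hh.2 z (hcl (Metric.sphere_subset_closedBall hz)))
    rw [norm_mul, norm_inv, Complex.norm_natCast]
    have hn : (0 : ℝ) < n.factorial := by exact_mod_cast n.factorial_pos
    rw [inv_mul_le_iff₀ hn]
    calc ‖iteratedDeriv n (f h) c‖ ≤ n.factorial * B / (r / 2) ^ n := h1
      _ = n.factorial * (B / (r / 2) ^ n) := by ring
  have hcoef : ∀ n : ℕ, ∃ x : ℂ, ‖x‖ ≤ B / (r / 2) ^ n ∧
      Tendsto (fun h => (n.factorial : ℂ)⁻¹ * iteratedDeriv n (f h) c) 𝓤 (𝓝 x) := by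
    intro n
    apply lim_ex
    filter_upwards [hbd] with h hh
    exact hh n
  choose b hb1 hb2 using hcoef
  have hterm : ∀ (x : ℂ) (n : ℕ) (z : ℂ), ‖x‖ ≤ B / (r / 2) ^ n → z ∈ Metric.ball c (r / 4) →
      ‖x * (z - c) ^ n‖ ≤ B * (1 / 2) ^ n := by
    intro x n z hx hz
    have hz' : ‖z - c‖ ≤ r / 4 := by
      rw [Metric.mem_ball, dist_eq_norm] at hz
      exact hz.le
    rw [norm_mul, norm_pow]
    calc ‖x‖ * ‖z - c‖ ^ n ≤ (B / (r / 2) ^ n) * (r / 4) ^ n := by
          apply mul_le_mul hx (pow_le_pow_left₀ (norm_nonneg _) hz' n) (by positivity)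
          exact (norm_nonneg _).trans hx
      _ = B * (1 / 2) ^ n := by
          have h3 : (r / 4) ^ n = (r / 2) ^ n * (1 / 2) ^ n := by
            rw [← mul_pow]; congr 1; ring
          rw [h3]
          have : (r / 2) ^ n ≠ 0 := by positivity
          field_simp
  have hsum : Summable (fun n : ℕ => B * (1 / 2 : ℝ) ^ n) :=
    (summable_geometric_of_lt_one (by norm_num) (by norm_num)).mul_left B
  have key : ∀ z ∈ Metric.ball c (r / 4), F z = ∑' n : ℕ, b n * (z - c) ^ n := by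
    intro z hz
    have hzr : z ∈ Metric.ball c r := Metric.ball_subset_ball (by linarith) hz
    have hzU : z ∈ U := hball hzr
    have h1 : Tendsto (fun h => ∑' n : ℕ, (n.factorial : ℂ)⁻¹ * iteratedDeriv n (f h) c *
        (z - c) ^ n) 𝓤 (𝓝 (∑' n, b n * (z - c) ^ n)) := by
      refine tendsto_tsum_of_dominated_convergence (bound := fun n : ℕ => B * (1 / 2 : ℝ) ^ n)
        hsum (fun n => (hb2 n).mul_const _) ?_
      filter_upwards [hbd] with h hh n
      exact hterm _ n z (hh n) hz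
    have h2 : (fun h => f h z) =ᶠ[(𝓤 : Filter ι)] fun h => ∑' n : ℕ,
        (n.factorial : ℂ)⁻¹ * iteratedDeriv n (f h) c * (z - c) ^ n := by
      filter_upwards [hf] with h hh
      exact (Complex.taylorSeries_eq_on_ball' hzr (hh.1.mono hball)).symm
    exact tendsto_nhds_unique (hF z hzU) (h1.congr' h2.symm)
  have hd : DifferentiableOn ℂ (fun z => ∑' n : ℕ, b n * (z - c) ^ n) (Metric.ball c (r / 4)) := by
    refine Complex.differentiableOn_tsum_of_summable_norm (u := fun n : ℕ => B * (1 / 2 : ℝ) ^ n)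
      hsum (fun n => ?_) Metric.isOpen_ball (fun n w hw => hterm _ n w (hb1 n) hw)
    fun_prop
  have hc4 : c ∈ Metric.ball c (r / 4) := Metric.mem_ball_self (by positivity)
  have h5 : DifferentiableAt ℂ (fun z => ∑' n : ℕ, b n * (z - c) ^ n) c :=
    hd.differentiableAt (Metric.isOpen_ball.mem_nhds hc4)
  have h6 : F =ᶠ[𝓝 c] fun z => ∑' n : ℕ, b n * (z - c) ^ n := by
    filter_upwards [Metric.isOpen_ball.mem_nhds hc4] with z hz
    exact key z hz
  exact (h5.congr_of_eventuallyEq h6).differentiableWithinAt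

end Vit101

theorem t_vit : S_vit := by
  intro S κ B α β f g hκ h1 h2 h3 hf hg hlim s hs1 hs2
  have hUo : IsOpen {z : ℂ | -S < z.re ∧ z.re < S ∧ |z.im| < κ} :=
    (isOpen_lt continuous_const Complex.continuous_re).inter
      ((isOpen_lt Complex.continuous_re continuous_const).inter
        (isOpen_lt (Complex.continuous_im.abs) continuous_const))
  have hUc : Convex ℝ {z : ℂ | -S < z.re ∧ z.re < S ∧ |z.im| < κ} := by
    intro z hz w hw a b ha hb hab
    obtain ⟨z1, z2, z3⟩ := hz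
    obtain ⟨w1, w2, w3⟩ := hw
    rw [abs_lt] at z3 w3
    have e1 : (a • z + b • w).re = a * z.re + b * w.re := by simp
    have e2 : (a • z + b • w).im = a * z.im + b * w.im := by simp
    have hb' : b = 1 - a := by linarith
    subst hb'
    have q1 := (convex_Ioo (-S) S) ⟨z1, z2⟩ ⟨w1, w2⟩ ha hb hab
    have q2 := (convex_Ioo (-κ) κ) z3 w3 ha hb hab
    refine ⟨?_, ?_, ?_⟩
    · rw [e1]; exact q1.1
    · rw [e1]; exact q1.2
    · rw [e2, abs_lt]; exact q2
  have hmem : ∀ x : ℝ, -S < x → x < S → (x : ℂ) ∈ {z : ℂ | -S < z.re ∧ z.re < S ∧ |z.im| < κ} := by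
    intro x hx1 hx2
    exact ⟨by simpa using hx1, by simpa using hx2, by simpa using hκ⟩
  rw [tendsto_iff_ultrafilter]
  intro 𝓤 h𝓤
  obtain ⟨F, hF1, hF2⟩ := Vit101.lim_diff 𝓤 f B _ hUo ((hf.filter_mono h𝓤).mono fun h hh =>
    ⟨hh.1, fun z hz => hh.2 z hz.1 hz.2.1 hz.2.2⟩)
  have hFg : ∀ x : ℝ, α < x → x < β → F x = g x := fun x hx1 hx2 =>
    tendsto_nhds_unique (hF2 x (hmem x (by linarith) (by linarith)))
      ((hlim x hx1 hx2).mono_left h𝓤)
  have hfr : ∃ᶠ z in 𝓝[≠] (((α + β) / 2 : ℝ) : ℂ), F z = g z := by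
    have ht : Tendsto (fun x : ℝ => (x : ℂ)) (𝓝[≠] ((α + β) / 2)) (𝓝[≠] (((α + β) / 2 : ℝ) : ℂ)) := by
      apply tendsto_nhdsWithin_of_tendsto_nhds_of_eventually_within
      · exact (Complex.continuous_ofReal.tendsto _).mono_left nhdsWithin_le_nhds
      · filter_upwards [self_mem_nhdsWithin] with x hx
        intro h
        exact hx (Complex.ofReal_injective h)
    refine ht.frequently (Eventually.frequently ?_)
    have : ∀ᶠ x in 𝓝 ((α + β) / 2), α < x ∧ x < β :=
      Ioo_mem_nhds (by linarith) (by linarith)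
    filter_upwards [nhdsWithin_le_nhds this] with x hx
    exact hFg x hx.1 hx.2
  have hEq : EqOn F g {z : ℂ | -S < z.re ∧ z.re < S ∧ |z.im| < κ} :=
    (hF1.analyticOnNhd hUo).eqOn_of_preconnected_of_frequently_eq (hg.analyticOnNhd hUo)
      hUc.isPreconnected (hmem _ (by linarith) (by linarith)) hfr
  have hs := hmem s hs1 hs2
  rw [← hEq hs]
  exact hF2 s hs

end Pool.Agent.H659
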