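import Pool.Agent.H659.Stmts
import Pool.Agent.H592F.OrientProb
import Pool.Agent.W45.PC.PT1

set_option autoImplicit false

open MeasureTheory Set Filter Topology

namespace Pool.Agent.H659

open Pool.Agent.W783.PC (pm DepOn Inc)

namespace Abs742

open Pool.Agent.H592F (P2 far near Reg bad dep dep_near bad_congr Wet safe card_Reg qq perc_det)

noncomputable section

open scoped Classical in
/-- the least element satisfying a predicate -/
def pick {St : Type} (f : St → ℕ) (P : St → Prop) : Option St :=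
  if h : ∃ B, P B ∧ ∀ B', P B' → f B ≤ f B' then some h.choose else none

theorem pick_iff {St : Type} {f : St → ℕ} (hf : Function.Injective f) {P : St → Prop} {B : St} :
    pick f P = some B ↔ P B ∧ ∀ B', P B' → f B ≤ f B' := by
  classical
  unfold pick
  constructor
  · intro h
    split_ifs at h with h1
    have h2 := h1.choose_spec
    rw [Option.some_inj.1 h] at h2
    exact h2
  · intro h
    have h1 : ∃ B, P B ∧ ∀ B', P B' → f B ≤ f B' := ⟨B, h⟩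
    rw [dif_pos h1]
    congr 1
    apply hf
    exact le_antisymm (h1.choose_spec.2 B h.1) (h.2 _ h1.choose_spec.1)

theorem pick_exists {St : Type} {f : St → ℕ} (hf : Function.Injective f) {P : St → Prop}
    (h : ∃ B, P B) : ∃ B, pick f P = some B := by
  obtain ⟨B, hB⟩ := h
  obtain ⟨B0, h1, h2⟩ := (InvImage.wf f Nat.lt_wfRel.wf).has_min {B | P B} ⟨B, hB⟩
  refine ⟨B0, (pick_iff hf).2 ⟨h1, fun B' hB' => ?_⟩⟩
  exact not_lt.1 (h2 B' hB')

variable {ι St : Type}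

/-- the predicate for the choice of the state at `v` -/
def Nx (ok : ℤ × ℤ → St → Prop) (Q₁ Q₂ : ℤ × ℤ → St → St → Set (ι → Bool))
    (s : ℤ × ℤ → (ι → Bool) → Option St) (v : ℤ × ℤ) (ω : ι → Bool) (B : St) : Prop :=
  ok v B ∧ ((∃ A, s (v.1 - 1, v.2) ω = some A ∧ ω ∈ Q₁ (v.1 - 1, v.2) A B) ∨
    ∃ A, s (v.1, v.2 - 1) ω = some A ∧ ω ∈ Q₂ (v.1, v.2 - 1) A B)

open scoped Classical in
/-- the state at `v` -/
def st (f : St → ℕ) (ok : ℤ × ℤ → St → Prop) (Q₁ Q₂ : ℤ × ℤ → St → St → Set (ι → Bool))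
    (A₀ : St) : ℕ → ℤ × ℤ → (ι → Bool) → Option St
  | 0, v, _ => if v = (0, 0) then some A₀ else none
  | n + 1, v, ω => pick f (Nx ok Q₁ Q₂ (st f ok Q₁ Q₂ A₀ n) v ω)

theorem st_meas [Countable St] {f : St → ℕ} (hf : Function.Injective f)
    {ok : ℤ × ℤ → St → Prop} {Q₁ Q₂ : ℤ × ℤ → St → St → Set (ι → Bool)} {A₀ : St}
    (h1 : ∀ v A B, MeasurableSet (Q₁ v A B)) (h2 : ∀ v A B, MeasurableSet (Q₂ v A B)) (n : ℕ) :
    ∀ (v : ℤ × ℤ) (B : St), Measurable fun ω => st f ok Q₁ Q₂ A₀ n v ω = some B := by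
  induction n with
  | zero =>
    intro v B
    unfold st
    exact measurable_const
  | succ n ih =>
    intro v B
    have hN : ∀ B, Measurable fun ω => Nx ok Q₁ Q₂ (st f ok Q₁ Q₂ A₀ n) v ω B := by
      intro B
      unfold Nx
      refine Measurable.and measurable_const (Measurable.or ?_ ?_)
      · exact Measurable.exists fun A => (ih _ A).and (measurableSet_setOfPred.1 (h1 _ A B))
      · exact Measurable.exists fun A => (ih _ A).and (measurableSet_setOfPred.1 (h2 _ A B))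
    have e : (fun ω => st f ok Q₁ Q₂ A₀ (n + 1) v ω = some B) = fun ω =>
        Nx ok Q₁ Q₂ (st f ok Q₁ Q₂ A₀ n) v ω B ∧
        ∀ B', Nx ok Q₁ Q₂ (st f ok Q₁ Q₂ A₀ n) v ω B' → f B ≤ f B' := by
      funext ω
      exact propext (pick_iff hf)
    rw [e]
    refine (hN B).and (Measurable.forall fun B' => ?_)
    exact (hN B').imp measurable_const

theorem st_dep {f : St → ℕ}
    {ok : ℤ × ℤ → St → Prop} {Q₁ Q₂ : ℤ × ℤ → St → St → Set (ι → Bool)} {A₀ : St}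
    {E : ℤ × ℤ → Set ι}
    (h1 : ∀ v A B, DepOn (Q₁ v A B) (E v)) (h2 : ∀ v A B, DepOn (Q₂ v A B) (E v))
    (ω ω' : ι → Bool) (n : ℕ) :
    ∀ v : ℤ × ℤ, v.1 + v.2 = n → (∀ u : ℤ × ℤ, u.1 + u.2 < n → ∀ c ∈ E u, ω c = ω' c) →
    st f ok Q₁ Q₂ A₀ n v ω = st f ok Q₁ Q₂ A₀ n v ω' := by
  induction n with
  | zero => intro v _ _; rfl
  | succ n ih =>
    intro v hv h
    push_cast at hv h
    have e : Nx ok Q₁ Q₂ (st f ok Q₁ Q₂ A₀ n) v ω = Nx ok Q₁ Q₂ (st f ok Q₁ Q₂ A₀ n) v ω' := by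
      funext B
      unfold Nx
      have e1 := ih (v.1 - 1, v.2) (by simp only; linarith)
        (fun u hu c hc => h u (by linarith) c hc)
      have e2 := ih (v.1, v.2 - 1) (by simp only; linarith)
        (fun u hu c hc => h u (by linarith) c hc)
      rw [e1, e2]
      have e3 : ∀ A, (ω ∈ Q₁ (v.1 - 1, v.2) A B ↔ ω' ∈ Q₁ (v.1 - 1, v.2) A B) := fun A =>
        h1 _ A B ω ω' fun c hc => h _ (by simp only; linarith) c hc
      have e4 : ∀ A, (ω ∈ Q₂ (v.1, v.2 - 1) A B ↔ ω' ∈ Q₂ (v.1, v.2 - 1) A B) := fun A =>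
        h2 _ A B ω ω' fun c hc => h _ (by simp only; linarith) c hc
      simp only [e3, e4]
    change pick f _ = pick f _
    rw [e]

theorem st_rch {f : St → ℕ} (hf : Function.Injective f)
    {ok : ℤ × ℤ → St → Prop} {Q₁ Q₂ : ℤ × ℤ → St → St → Set (ι → Bool)} {A₀ : St}
    (h0 : ok (0, 0) A₀) (ω : ι → Bool) (n : ℕ) :
    ∀ (v : ℤ × ℤ) (B : St), st f ok Q₁ Q₂ A₀ n v ω = some B →
    ok v B ∧ Rch Q₁ Q₂ ok A₀ ω v B := by
  induction n with
  | zero =>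
    intro v B h
    unfold st at h
    split_ifs at h with h1
    rw [Option.some_inj] at h
    subst h1
    subst h
    exact ⟨h0, Rch.zero⟩
  | succ n ih =>
    intro v B h
    have h1 := (pick_iff hf).1 h
    obtain ⟨⟨h2, h3⟩, -⟩ := h1
    refine ⟨h2, ?_⟩
    rcases h3 with ⟨A, h4, h5⟩ | ⟨A, h4, h5⟩
    · have h6 := (ih _ _ h4).2
      have e : ((v.1 - 1, v.2) : ℤ × ℤ).1 + 1 = v.1 := by simp
      have e2 : (((v.1 - 1, v.2) : ℤ × ℤ).1 + 1, ((v.1 - 1, v.2) : ℤ × ℤ).2) = v := by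
        rw [e]
      have h7 := Rch.right h6 h5 (by rw [e2]; exact h2)
      rw [e2] at h7
      exact h7
    · have h6 := (ih _ _ h4).2
      have e : ((v.1, v.2 - 1) : ℤ × ℤ).2 + 1 = v.2 := by simp
      have e2 : (((v.1, v.2 - 1) : ℤ × ℤ).1, ((v.1, v.2 - 1) : ℤ × ℤ).2 + 1) = v := by
        rw [e]
      have h7 := Rch.up h6 h5 (by rw [e2]; exact h2)
      rw [e2] at h7
      exact h7

/-- both transitions from `A` at `v` exist -/
def Tr (ok : ℤ × ℤ → St → Prop) (Q₁ Q₂ : ℤ × ℤ → St → St → Set (ι → Bool))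
    (v : ℤ × ℤ) (A : St) (ω : ι → Bool) : Prop :=
  (∃ B, ok (v.1 + 1, v.2) B ∧ ω ∈ Q₁ v A B) ∧ ∃ B, ok (v.1, v.2 + 1) B ∧ ω ∈ Q₂ v A B

/-- bad sites -/
def Bd (f : St → ℕ) (ok : ℤ × ℤ → St → Prop) (Q₁ Q₂ : ℤ × ℤ → St → St → Set (ι → Bool))
    (A₀ : St) (ω : ι → Bool) (v : ℤ × ℤ) : Prop :=
  0 ≤ v.1 + v.2 ∧ ∃ A, st f ok Q₁ Q₂ A₀ (v.1 + v.2).toNat v ω = some A ∧
    ¬ Tr ok Q₁ Q₂ v A ω

theorem wet_st {f : St → ℕ} (hf : Function.Injective f)
    {ok : ℤ × ℤ → St → Prop} {Q₁ Q₂ : ℤ × ℤ → St → St → Set (ι → Bool)} {A₀ : St}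
    (ω : ι → Bool) (v : ℤ × ℤ) (h : Wet (Bd f ok Q₁ Q₂ A₀ ω) v) :
    0 ≤ v.1 + v.2 ∧ ∃ A, st f ok Q₁ Q₂ A₀ (v.1 + v.2).toNat v ω = some A := by
  induction h with
  | zero => exact ⟨le_rfl, A₀, rfl⟩
  | @right v hw hb ih =>
    obtain ⟨h1, A, h2⟩ := ih
    have h3 : Tr ok Q₁ Q₂ v A ω := by
      by_contra h
      exact hb ⟨h1, A, h2, h⟩
    obtain ⟨B, h4, h5⟩ := h3.1
    have e : ((v.1 + 1, v.2) : ℤ × ℤ).1 + ((v.1 + 1, v.2) : ℤ × ℤ).2 = v.1 + v.2 + 1 := by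
      simp only; ring
    refine ⟨by rw [e]; linarith, ?_⟩
    rw [e, Int.toNat_add h1 zero_le_one]
    apply pick_exists hf
    refine ⟨B, h4, Or.inl ⟨A, ?_, ?_⟩⟩
    · have e3 : (((v.1 + 1, v.2) : ℤ × ℤ).1 - 1, ((v.1 + 1, v.2) : ℤ × ℤ).2) = v := by simp
      rw [e3]; exact h2
    · have e3 : (((v.1 + 1, v.2) : ℤ × ℤ).1 - 1, ((v.1 + 1, v.2) : ℤ × ℤ).2) = v := by simp
      rw [e3]; exact h5
  | @up v hw hb ih =>
    obtain ⟨h1, A, h2⟩ := ih
    have h3 : Tr ok Q₁ Q₂ v A ω := by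
      by_contra h
      exact hb ⟨h1, A, h2, h⟩
    obtain ⟨B, h4, h5⟩ := h3.2
    have e : ((v.1, v.2 + 1) : ℤ × ℤ).1 + ((v.1, v.2 + 1) : ℤ × ℤ).2 = v.1 + v.2 + 1 := by
      simp only; ring
    refine ⟨by rw [e]; linarith, ?_⟩
    rw [e, Int.toNat_add h1 zero_le_one]
    apply pick_exists hf
    refine ⟨B, h4, Or.inr ⟨A, ?_, ?_⟩⟩
    · have e3 : (((v.1, v.2 + 1) : ℤ × ℤ).1, ((v.1, v.2 + 1) : ℤ × ℤ).2 - 1) = v := by simp
      rw [e3]; exact h2
    · have e3 : (((v.1, v.2 + 1) : ℤ × ℤ).1, ((v.1, v.2 + 1) : ℤ × ℤ).2 - 1) = v := by simp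
      rw [e3]; exact h5

theorem tr_meas [Countable St] {ok : ℤ × ℤ → St → Prop}
    {Q₁ Q₂ : ℤ × ℤ → St → St → Set (ι → Bool)}
    (h1 : ∀ v A B, MeasurableSet (Q₁ v A B)) (h2 : ∀ v A B, MeasurableSet (Q₂ v A B))
    (v : ℤ × ℤ) (A : St) : Measurable fun ω => Tr ok Q₁ Q₂ v A ω := by
  unfold Tr
  refine Measurable.and ?_ ?_
  · exact Measurable.exists fun B => measurable_const.and (measurableSet_setOfPred.1 (h1 _ A B))
  · exact Measurable.exists fun B => measurable_const.and (measurableSet_setOfPred.1 (h2 _ A B))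

theorem tr_dep {ok : ℤ × ℤ → St → Prop} {Q₁ Q₂ : ℤ × ℤ → St → St → Set (ι → Bool)}
    {E : ℤ × ℤ → Set ι}
    (h1 : ∀ v A B, DepOn (Q₁ v A B) (E v)) (h2 : ∀ v A B, DepOn (Q₂ v A B) (E v))
    (v : ℤ × ℤ) (A : St) (ω ω' : ι → Bool) (h : ∀ c ∈ E v, ω c = ω' c) :
    Tr ok Q₁ Q₂ v A ω ↔ Tr ok Q₁ Q₂ v A ω' := by
  unfold Tr
  have e3 : ∀ B, (ω ∈ Q₁ v A B ↔ ω' ∈ Q₁ v A B) := fun B => h1 _ A B ω ω' h
  have e4 : ∀ B, (ω ∈ Q₂ v A B ↔ ω' ∈ Q₂ v A B) := fun B => h2 _ A B ω ω' h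
  simp only [e3, e4]

theorem bd_meas [Countable St] {f : St → ℕ} (hf : Function.Injective f)
    {ok : ℤ × ℤ → St → Prop} {Q₁ Q₂ : ℤ × ℤ → St → St → Set (ι → Bool)} {A₀ : St}
    (h1 : ∀ v A B, MeasurableSet (Q₁ v A B)) (h2 : ∀ v A B, MeasurableSet (Q₂ v A B))
    (v : ℤ × ℤ) : Measurable fun ω => Bd f ok Q₁ Q₂ A₀ ω v := by
  unfold Bd
  exact measurable_const.and (Measurable.exists fun A =>
    (st_meas hf h1 h2 _ _ _).and (tr_meas h1 h2 v A).not)

theorem bd_dep {f : St → ℕ}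
    {ok : ℤ × ℤ → St → Prop} {Q₁ Q₂ : ℤ × ℤ → St → St → Set (ι → Bool)} {A₀ : St}
    {E : ℤ × ℤ → Set ι}
    (h1 : ∀ v A B, DepOn (Q₁ v A B) (E v)) (h2 : ∀ v A B, DepOn (Q₂ v A B) (E v))
    (v : ℤ × ℤ) (ω ω' : ι → Bool)
    (h : ∀ u : ℤ × ℤ, (u.1 + u.2 < v.1 + v.2 ∨ u = v) → ∀ c ∈ E u, ω c = ω' c) :
    Bd f ok Q₁ Q₂ A₀ ω v ↔ Bd f ok Q₁ Q₂ A₀ ω' v := by
  unfold Bd
  by_cases h0 : 0 ≤ v.1 + v.2
  · have h3 : v.1 + v.2 = ((v.1 + v.2).toNat : ℤ) := (Int.toNat_of_nonneg h0).symm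
    have e1 : st f ok Q₁ Q₂ A₀ (v.1 + v.2).toNat v ω = st f ok Q₁ Q₂ A₀ (v.1 + v.2).toNat v ω' :=
      st_dep h1 h2 ω ω' _ v h3 fun u hu c hc => h u (Or.inl (by rw [h3]; exact hu)) c hc
    have e2 : ∀ A, (Tr ok Q₁ Q₂ v A ω ↔ Tr ok Q₁ Q₂ v A ω') := fun A =>
      tr_dep h1 h2 v A ω ω' fun c hc => h v (Or.inr rfl) c hc
    simp only [e1, e2]
  · simp only [h0, false_and]

/-- the product bound -/
theorem prod_bound [Countable St] (r : ι → unitInterval) {f : St → ℕ}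
    (hf : Function.Injective f)
    {ok : ℤ × ℤ → St → Prop} {Q₁ Q₂ : ℤ × ℤ → St → St → Set (ι → Bool)} {A₀ : St}
    {E : ℤ × ℤ → Set ι} (hE : ∀ u v, u ≠ v → Disjoint (E u) (E v))
    (h1 : ∀ v A B, DepOn (Q₁ v A B) (E v) ∧ MeasurableSet (Q₁ v A B))
    (h2 : ∀ v A B, DepOn (Q₂ v A B) (E v) ∧ MeasurableSet (Q₂ v A B))
    (h0 : ok (0, 0) A₀) (η : ENNReal)
    (hη : ∀ v A, ok v A → pm r {ω | ¬ Tr ok Q₁ Q₂ v A ω} ≤ η) (n : ℕ) :
    ∀ W : Finset (ℤ × ℤ), W.card = n →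
      pm r {ω | ∀ w ∈ W, Bd f ok Q₁ Q₂ A₀ ω w} ≤ η ^ n := by
  classical
  have h1d := fun v A B => (h1 v A B).1
  have h1m := fun v A B => (h1 v A B).2
  have h2d := fun v A B => (h2 v A B).1
  have h2m := fun v A B => (h2 v A B).2
  induction n with
  | zero =>
    intro W hW
    rw [pow_zero]
    exact prob_le_one
  | succ n ih =>
    intro W hW
    have hne : W.Nonempty := by
      rw [← Finset.card_pos, hW]; exact Nat.succ_pos n
    obtain ⟨w, hw, hmax⟩ := W.exists_max_image (fun u => u.1 + u.2) hne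
    set W' := W.erase w with hW'
    have hcard : W'.card = n := by rw [hW', Finset.card_erase_of_mem hw, hW]; rfl
    have ihW := ih W' hcard
    set D : Set (ι → Bool) := {ω | ∀ w ∈ W', Bd f ok Q₁ Q₂ A₀ ω w} with hD
    have hDm : MeasurableSet D := by
      rw [hD]
      have : {ω : ι → Bool | ∀ w ∈ W', Bd f ok Q₁ Q₂ A₀ ω w} =
          ⋂ w ∈ W', {ω | Bd f ok Q₁ Q₂ A₀ ω w} := by
        ext ω; simp
      rw [this]
      exact Finset.measurableSet_biInter W' fun u _ => measurableSet_setOfPred.2 (bd_meas hf h1m h2m u)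
    set S : Set ι := ⋃ u ∈ {u : ℤ × ℤ | u ≠ w}, E u with hS
    have hSE : Disjoint S (E w) := by
      rw [hS, Set.disjoint_iUnion₂_left]
      intro u hu
      exact hE u w hu
    have hDd : DepOn D S := by
      intro ω ω' h
      have key : ∀ u ∈ W', (Bd f ok Q₁ Q₂ A₀ ω u ↔ Bd f ok Q₁ Q₂ A₀ ω' u) := by
        intro u hu
        refine bd_dep h1d h2d u ω ω' ?_
        intro u' hu' c hc
        refine h c ?_
        rw [hS, mem_iUnion₂]
        refine ⟨u', ?_, hc⟩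
        rw [hW', Finset.mem_erase] at hu
        rcases hu' with h3 | h3
        · intro h4
          have := hmax u hu.2
          rw [h4] at h3
          linarith
        · rw [h3]; exact hu.1
      constructor
      · intro h3 u hu; exact (key u hu).1 (h3 u hu)
      · intro h3 u hu; exact (key u hu).2 (h3 u hu)
    by_cases hneg : 0 ≤ w.1 + w.2
    swap
    · have : {ω : ι → Bool | ∀ w ∈ W, Bd f ok Q₁ Q₂ A₀ ω w} = ∅ := by
        ext ω
        simp only [mem_empty_iff_false, iff_false]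
        intro h
        exact hneg (h w hw).1
      rw [this, measure_empty]
      exact zero_le
    have h3 : w.1 + w.2 = ((w.1 + w.2).toNat : ℤ) := (Int.toNat_of_nonneg hneg).symm
    set m := (w.1 + w.2).toNat with hm
    let SA : St → Set (ι → Bool) := fun A => {ω | st f ok Q₁ Q₂ A₀ m w ω = some A}
    have hSAm : ∀ A, MeasurableSet (SA A) := fun A => measurableSet_setOfPred.2 (st_meas hf h1m h2m _ _ _)
    have hSAd : ∀ A, DepOn (SA A) S := by
      intro A ω ω' h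
      have e1 : st f ok Q₁ Q₂ A₀ m w ω = st f ok Q₁ Q₂ A₀ m w ω' := by
        refine st_dep h1d h2d ω ω' _ w h3 fun u hu c hc => h c ?_
        rw [hS, mem_iUnion₂]
        refine ⟨u, ?_, hc⟩
        intro h4
        rw [h4] at hu
        linarith
      change _ = _ ↔ _ = _
      rw [e1]
    have hsub : {ω : ι → Bool | ∀ w ∈ W, Bd f ok Q₁ Q₂ A₀ ω w} ⊆
        ⋃ A : St, (D ∩ SA A) ∩ {ω | ¬ Tr ok Q₁ Q₂ w A ω} := by
      intro ω hω
      obtain ⟨-, A, h4, h5⟩ := hω w hw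
      rw [mem_iUnion]
      exact ⟨A, ⟨fun u hu => hω u (Finset.mem_of_mem_erase hu), h4⟩, h5⟩
    have hpiece : ∀ A, pm r ((D ∩ SA A) ∩ {ω | ¬ Tr ok Q₁ Q₂ w A ω}) ≤ η * pm r (D ∩ SA A) := by
      intro A
      by_cases hemp : (SA A).Nonempty
      · obtain ⟨ω0, h4⟩ := hemp
        have hok := (st_rch hf h0 ω0 m w A h4).1
        have e := Pool.Agent.W45.PC.s_indep ι r S (E w) (D ∩ SA A) {ω | ¬ Tr ok Q₁ Q₂ w A ω}
          (fun ω ω' h => and_congr (hDd ω ω' h) (hSAd A ω ω' h))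
          (fun ω ω' h => not_congr (tr_dep h1d h2d w A ω ω' h)) hSE
          (hDm.inter (hSAm A)) (measurableSet_setOfPred.2 (tr_meas h1m h2m w A).not)
        rw [e, mul_comm]
        exact mul_le_mul_left (hη w A hok) _
      · rw [Set.not_nonempty_iff_eq_empty] at hemp
        rw [hemp]
        simp
    have hdisj : Pairwise (Function.onFun Disjoint fun A => D ∩ SA A) := by
      intro A A' hA
      rw [Function.onFun, Set.disjoint_left]
      rintro ω ⟨-, h4⟩ ⟨-, h5⟩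
      apply hA
      have h6 : st f ok Q₁ Q₂ A₀ m w ω = some A := h4
      have h7 : st f ok Q₁ Q₂ A₀ m w ω = some A' := h5
      rw [h6] at h7
      exact Option.some_inj.1 h7
    calc pm r {ω : ι → Bool | ∀ w ∈ W, Bd f ok Q₁ Q₂ A₀ ω w}
        ≤ pm r (⋃ A : St, (D ∩ SA A) ∩ {ω | ¬ Tr ok Q₁ Q₂ w A ω}) := measure_mono hsub
      _ ≤ ∑' A : St, pm r ((D ∩ SA A) ∩ {ω | ¬ Tr ok Q₁ Q₂ w A ω}) := measure_iUnion_le _
      _ ≤ ∑' A : St, η * pm r (D ∩ SA A) := ENNReal.tsum_le_tsum hpiece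
      _ = η * ∑' A : St, pm r (D ∩ SA A) := ENNReal.tsum_mul_left
      _ = η * pm r (⋃ A : St, D ∩ SA A) := by
        rw [measure_iUnion hdisj fun A => hDm.inter (hSAm A)]
      _ ≤ η * pm r D := by
        gcongr
        exact iUnion_subset fun A => inter_subset_left
      _ ≤ η * η ^ n := by gcongr
      _ = η ^ (n + 1) := by rw [pow_succ']

/-- the minimal families of bad sites -/
def fam : ℕ → P2 → Finset (Finset P2)
  | 0, v => {{v}}
  | k + 1, v => by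
    classical
    exact (Reg v).biUnion fun s => (Reg v).biUnion fun t =>
      if far s t then ((fam k s) ×ˢ (fam k t)).image fun q => q.1 ∪ q.2 else ∅

theorem fam_succ (k : ℕ) (v : P2) (W : Finset P2) : W ∈ fam (k + 1) v ↔
    ∃ s ∈ Reg v, ∃ t ∈ Reg v, far s t ∧ ∃ W₁ ∈ fam k s, ∃ W₂ ∈ fam k t, W = W₁ ∪ W₂ := by
  classical
  rw [fam]
  simp only [Finset.mem_biUnion]
  constructor
  · rintro ⟨s, hs, t, ht, h⟩
    split_ifs at h with hf
    · rw [Finset.mem_image] at h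
      obtain ⟨q, hq, rfl⟩ := h
      rw [Finset.mem_product] at hq
      exact ⟨s, hs, t, ht, hf, q.1, hq.1, q.2, hq.2, by congr⟩
    · exact absurd h (Finset.notMem_empty _)
  · rintro ⟨s, hs, t, ht, hf, W₁, h1, W₂, h2, rfl⟩
    refine ⟨s, hs, t, ht, ?_⟩
    rw [if_pos hf, Finset.mem_image]
    exact ⟨(W₁, W₂), Finset.mem_product.2 ⟨h1, h2⟩, by congr⟩

theorem fam_dep (k : ℕ) : ∀ (v : P2) (W : Finset P2), W ∈ fam k v →
    W ⊆ dep k v ∧ W.card = 2 ^ k := by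
  classical
  induction k with
  | zero =>
    intro v W h
    rw [fam, Finset.mem_singleton] at h
    subst h
    exact ⟨by rw [dep], by simp⟩
  | succ k ih =>
    intro v W h
    rw [fam_succ] at h
    obtain ⟨s, hs, t, ht, hf, W₁, h1, W₂, h2, rfl⟩ := h
    obtain ⟨h3, h4⟩ := ih s W₁ h1
    obtain ⟨h5, h6⟩ := ih t W₂ h2
    constructor
    · rw [dep]
      intro x hx
      rw [Finset.mem_biUnion]
      rcases Finset.mem_union.1 hx with h | h
      · exact ⟨s, hs, h3 h⟩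
      · exact ⟨t, ht, h5 h⟩
    · have hd : Disjoint W₁ W₂ := by
        rw [Finset.disjoint_left]
        intro x hx hx'
        exact dep_near k s t x (h3 hx) (h5 hx') hf
      have h7 : (W₁ ∪ W₂).card = W₁.card + W₂.card := Finset.card_union_of_disjoint hd
      rw [h4, h6, ← mul_two, ← pow_succ] at h7
      exact h7

theorem bad_fam (B : P2 → Prop) (k : ℕ) : ∀ v, bad B k v → ∃ W ∈ fam k v, ∀ w ∈ W, B w := by
  classical
  induction k with
  | zero =>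
    intro v h
    refine ⟨{v}, ?_, ?_⟩
    · rw [fam, Finset.mem_singleton]
    · intro w hw
      rw [Finset.mem_singleton] at hw
      rw [hw]; exact h
  | succ k ih =>
    rintro v ⟨s, hs, t, ht, hf, h1, h2⟩
    obtain ⟨W₁, h3, h4⟩ := ih s h1
    obtain ⟨W₂, h5, h6⟩ := ih t h2
    refine ⟨W₁ ∪ W₂, (fam_succ k v _).2 ⟨s, hs, t, ht, hf, W₁, h3, W₂, h5, by congr⟩, ?_⟩
    intro w hw
    rcases Finset.mem_union.1 hw with h | h
    · exact h4 w h
    · exact h6 w h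

theorem fam_card (k : ℕ) : ∀ v, (fam k v).card ≤ 442050625 ^ (2 ^ k - 1) := by
  classical
  induction k with
  | zero => intro v; simp [fam]
  | succ k ih =>
    intro v
    rw [fam]
    refine (Finset.card_biUnion_le).trans ?_
    have h1 : ∀ s ∈ Reg v, ((Reg v).biUnion fun t =>
        if far s t then ((fam k s) ×ˢ (fam k t)).image fun q => q.1 ∪ q.2 else ∅).card ≤
        21025 * (442050625 ^ (2 ^ k - 1) * 442050625 ^ (2 ^ k - 1)) := by
      intro s _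
      refine (Finset.card_biUnion_le).trans ?_
      have h2 : ∀ t ∈ Reg v, (if far s t then ((fam k s) ×ˢ (fam k t)).image fun q => q.1 ∪ q.2
          else ∅).card ≤ 442050625 ^ (2 ^ k - 1) * 442050625 ^ (2 ^ k - 1) := by
        intro t _
        split_ifs
        · refine Finset.card_image_le.trans ?_
          rw [Finset.card_product]
          exact Nat.mul_le_mul (ih s) (ih t)
        · simp
      refine (Finset.sum_le_card_nsmul _ _ _ h2).trans ?_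
      rw [card_Reg, smul_eq_mul]
    refine (Finset.sum_le_card_nsmul _ _ _ h1).trans ?_
    rw [card_Reg, smul_eq_mul]
    apply le_of_eq
    have h3 : 2 ^ (k + 1) - 1 = 1 + ((2 ^ k - 1) + (2 ^ k - 1)) := by
      have : 1 ≤ 2 ^ k := Nat.one_le_two_pow
      rw [pow_succ]
      omega
    rw [h3, pow_add, pow_add, pow_one]
    ring


theorem bad_bound (P : Measure (ι → Bool)) (B : (ι → Bool) → P2 → Prop)
    (hB : ∀ W : Finset P2, P {ω | ∀ w ∈ W, B ω w} ≤ ENNReal.ofReal (1 / 10 ^ 12) ^ W.card)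
    (k : ℕ) (v : P2) : P {ω | bad (B ω) k v} ≤ ENNReal.ofReal (qq k) := by
  classical
  have hsub : {ω | bad (B ω) k v} ⊆ ⋃ W ∈ fam k v, {ω | ∀ w ∈ W, B ω w} := by
    intro ω h
    obtain ⟨W, h1, h2⟩ := bad_fam (B ω) k v h
    rw [mem_iUnion₂]
    exact ⟨W, h1, h2⟩
  refine (measure_mono hsub).trans ((measure_biUnion_finset_le _ _).trans ?_)
  have h1 : ∀ W ∈ fam k v, P {ω | ∀ w ∈ W, B ω w} ≤ ENNReal.ofReal ((1 / 10 ^ 12) ^ (2 ^ k)) := by
    intro W hW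
    refine (hB W).trans ?_
    rw [(fam_dep k v W hW).2, ENNReal.ofReal_pow (by positivity)]
  refine (Finset.sum_le_card_nsmul _ _ _ h1).trans ?_
  rw [nsmul_eq_mul]
  have h2 : (((fam k v).card : ℕ) : ENNReal) ≤ ENNReal.ofReal ((442050625 : ℝ) ^ (2 ^ k - 1)) := by
    have h3 : (((fam k v).card : ℕ) : ENNReal) = ENNReal.ofReal (((fam k v).card : ℕ) : ℝ) := by
      rw [ENNReal.ofReal_natCast]
    rw [h3]
    refine ENNReal.ofReal_le_ofReal ?_
    exact_mod_cast fam_card k v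
  refine (mul_le_mul_left h2 _).trans ?_
  rw [← ENNReal.ofReal_mul (by positivity)]
  refine ENNReal.ofReal_le_ofReal ?_
  unfold qq
  have h3 : (1 : ℕ) ≤ 2 ^ k := Nat.one_le_two_pow
  have h4 : (442050625 : ℝ) ^ (2 ^ k) = 442050625 ^ (2 ^ k - 1) * 442050625 := by
    rw [← pow_succ, Nat.sub_add_cancel h3]
  have h5 : (442050625 : ℝ) ^ (2 ^ k - 1) = 1 / 442050625 * 442050625 ^ (2 ^ k) := by
    rw [h4]; ring
  rw [h5, mul_assoc, ← mul_pow]
  refine mul_le_mul_of_nonneg_left ?_ (by norm_num)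
  have h6 : k + 1 ≤ 2 ^ k := Nat.lt_two_pow_self
  calc ((442050625 : ℝ) * (1 / 10 ^ 12)) ^ (2 ^ k) ≤ (1 / 2) ^ (2 ^ k) := by
        refine pow_le_pow_left₀ (by norm_num) (by norm_num) _
    _ ≤ (1 / 2) ^ (k + 1) := pow_le_pow_of_le_one (by norm_num) (by norm_num) h6

theorem fail_bound (P : Measure (ι → Bool)) (B : (ι → Bool) → P2 → Prop)
    (hB : ∀ W : Finset P2, P {ω | ∀ w ∈ W, B ω w} ≤ ENNReal.ofReal (1 / 10 ^ 12) ^ W.card) :
    P {ω | ∃ k, ¬ safe (bad (B ω) k) (0, 0)} ≤ ENNReal.ofReal (1 / 4) := by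
  set W : Finset P2 := Finset.Icc (-3) 3 ×ˢ Finset.Icc (-3) 3 with hW
  have hcW : W.card = 49 := by rw [hW, Finset.card_product, Int.card_Icc]; rfl
  have hsub : {ω | ∃ k, ¬ safe (bad (B ω) k) (0, 0)}
      ⊆ ⋃ k : ℕ, ⋃ u ∈ W, {ω | bad (B ω) k u} := by
    rintro ω ⟨k, hk⟩
    unfold safe at hk
    push Not at hk
    obtain ⟨u, hu, hb⟩ := hk
    rw [Set.mem_iUnion]
    refine ⟨k, ?_⟩
    rw [Set.mem_iUnion₂]
    refine ⟨u, ?_, hb⟩
    obtain ⟨h1, h2⟩ := hu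
    simp only [sub_zero] at h1 h2
    rw [abs_le] at h1 h2
    rw [hW, Finset.mem_product, Finset.mem_Icc, Finset.mem_Icc]
    exact ⟨h1, h2⟩
  refine (measure_mono hsub).trans ((measure_iUnion_le _).trans ?_)
  have h1 : ∀ k : ℕ, P (⋃ u ∈ W, {ω | bad (B ω) k u}) ≤ ENNReal.ofReal (49 * qq k) := by
    intro k
    refine (measure_biUnion_finset_le _ _).trans ?_
    calc _ ≤ ∑ u ∈ W, ENNReal.ofReal (qq k) := Finset.sum_le_sum fun u _ => bad_bound P B hB k u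
      _ = _ := by
          rw [Finset.sum_const, hcW, nsmul_eq_mul, ENNReal.ofReal_mul (by norm_num)]
          norm_num
  refine (ENNReal.tsum_le_tsum h1).trans ?_
  have hs : HasSum (fun k : ℕ => 49 * qq k) (49 * (1 / 442050625)) := by
    unfold qq
    have h2 := hasSum_geometric_of_lt_one (r := (1 / 2 : ℝ)) (by norm_num) (by norm_num)
    have h3 := h2.mul_left (49 * (1 / 442050625 * (1 / 2)))
    have e : (49 * (1 / 442050625 * (1 / 2)) * (1 - 1 / 2)⁻¹ : ℝ) = 49 * (1 / 442050625) := by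
      norm_num
    have e2 : (fun k : ℕ => (49 : ℝ) * (1 / 442050625 * (1 / 2) ^ (k + 1)))
        = fun k => 49 * (1 / 442050625 * (1 / 2)) * (1 / 2) ^ k := by
      funext k
      rw [pow_succ]
      ring
    rw [e2, ← e]
    exact h3
  rw [← ENNReal.ofReal_tsum_of_nonneg (fun k => by unfold qq; positivity) hs.summable, hs.tsum_eq]
  refine ENNReal.ofReal_le_ofReal ?_
  norm_num

end

end Abs742

theorem t_abs : S_abs := by
  intro ι r St _ E ok Q₁ Q₂ A₀ hE h1 h2 h0 hη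
  obtain ⟨f, hf⟩ := exists_injective_nat St
  have hη' : ∀ v A, ok v A → pm r {ω | ¬ Abs742.Tr ok Q₁ Q₂ v A ω} ≤
      ENNReal.ofReal (1 / 10 ^ 12) := by
    intro v A hA
    have h3 := hη v A hA
    rw [Measure.real] at h3
    exact (ENNReal.le_ofReal_iff_toReal_le (measure_ne_top _ _) (by positivity)).2 h3
  have hB : ∀ W : Finset (ℤ × ℤ), pm r {ω | ∀ w ∈ W, Abs742.Bd f ok Q₁ Q₂ A₀ ω w} ≤
      ENNReal.ofReal (1 / 10 ^ 12) ^ W.card := fun W =>
    Abs742.prod_bound r hf hE h1 h2 h0 _ hη' W.card W rfl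
  have hF := Abs742.fail_bound (pm r) (fun ω => Abs742.Bd f ok Q₁ Q₂ A₀ ω) hB
  set F := {ω | ∃ k, ¬ Pool.Agent.H592F.safe
    (Pool.Agent.H592F.bad (Abs742.Bd f ok Q₁ Q₂ A₀ ω) k) (0, 0)} with hFdef
  set T := {ω | ∀ n : ℕ, ∃ v A, (n : ℤ) ≤ v.1 + v.2 ∧ ok v A ∧ Rch Q₁ Q₂ ok A₀ ω v A} with hT
  have hcov : (Set.univ : Set (ι → Bool)) ⊆ F ∪ T := by
    intro ω _
    by_cases hω : ω ∈ F
    · exact Or.inl hω
    · right
      intro n
      have h3 : ∀ k, Pool.Agent.H592F.safe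
          (Pool.Agent.H592F.bad (Abs742.Bd f ok Q₁ Q₂ A₀ ω) k) (0, 0) := by
        intro k
        by_contra h
        exact hω ⟨k, h⟩
      obtain ⟨x, hx, hn⟩ := Pool.Agent.H592F.perc_det _ h3 n
      obtain ⟨-, A, hA⟩ := Abs742.wet_st hf ω x hx
      obtain ⟨h4, h5⟩ := Abs742.st_rch hf h0 ω _ x A hA
      exact ⟨x, A, hn, h4, h5⟩
  have h3 : (1 : ENNReal) ≤ ENNReal.ofReal (1 / 4) + pm r T := by
    calc (1 : ENNReal) = pm r Set.univ := (measure_univ).symm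
      _ ≤ pm r (F ∪ T) := measure_mono hcov
      _ ≤ pm r F + pm r T := measure_union_le _ _
      _ ≤ ENNReal.ofReal (1 / 4) + pm r T := by gcongr
  have h4 := ENNReal.toReal_mono (by
    exact ENNReal.add_ne_top.2 ⟨ENNReal.ofReal_ne_top, measure_ne_top _ _⟩) h3
  rw [ENNReal.toReal_one, ENNReal.toReal_add ENNReal.ofReal_ne_top (measure_ne_top _ _),
    ENNReal.toReal_ofReal (by norm_num)] at h4
  rw [Measure.real]
  linarith

end Pool.Agent.H659
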