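import Pool.Agent.H659.Stmts
import Pool.Agent.H974R2.BK
import Pool.Agent.W424.PC.Russo
import Pool.Agent.W45.PC.PT1

/-!
The inequality of van den Berg and Kesten for increasing properties with finite witnesses.
-/

set_option autoImplicit false

open MeasureTheory Set Filter Topology

namespace Pool.Agent.H659.BKJ

open Pool.Agent.W783.PC (pm DepOn Inc)
open Pool.Agent.W424.PC (cfgOf EE I1 pm_eq_EE)

variable {ι : Type}

theorem pm_eq_Pr [inst : DecidableEq ι] (r : ι → unitInterval) {J : Finset ι}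
    {A : Set (ι → Bool)} (h : DepOn A (J : Set ι)) :
    (pm r).real A = H974.Pr (fun c => (r c : ℝ)) J (fun F => cfgOf F ∈ A) := by
  rw [pm_eq_EE Pool.Agent.W45.PC.s_indep Pool.Agent.W45.PC.s_depmeas r h]
  obtain rfl : inst = fun a b => Classical.propDecidable (a = b) := Subsingleton.elim _ _
  unfold EE H974.Pr H974.Ex
  refine Finset.sum_congr rfl fun T _ => ?_
  congr 1

/-- The event that the open coordinates in `J` have the property `A`. -/
def EvF (J : Finset ι) (A : Finset ι → Prop) : Set (ι → Bool) :=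
  {ω | A (J.filter fun c => ω c = true)}

theorem EvF_dep (J : Finset ι) (A : Finset ι → Prop) : DepOn (EvF J A) (J : Set ι) := by
  intro ω ω' h
  have h1 : J.filter (fun c => ω c = true) = J.filter (fun c => ω' c = true) :=
    Finset.filter_congr fun c hc => by rw [h c hc]
  show A _ ↔ A _
  rw [h1]

theorem EvF_real [DecidableEq ι] (r : ι → unitInterval) (J : Finset ι) (A : Finset ι → Prop) :
    (pm r).real (EvF J A) = H974.Pr (fun c => (r c : ℝ)) J A := by
  rw [pm_eq_Pr r (EvF_dep J A)]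
  refine H974.Pr_congr fun F hF => ?_
  have h1 : J.filter (fun c => cfgOf F c = true) = F := by
    ext c
    simp only [Finset.mem_filter, cfgOf, decide_eq_true_eq]
    exact ⟨fun h => h.2, fun h => ⟨hF h, h⟩⟩
  show A _ ↔ A _
  rw [h1]

theorem coe_filter_sub {V : Type} (F : Finset (Sym2 V)) (ω : Sym2 V → Bool) :
    ((F.filter fun c => ω c = true : Finset (Sym2 V)) : Set (Sym2 V)) ⊆ opn ω := by
  intro c hc
  rw [Finset.coe_filter] at hc
  exact hc.2

end Pool.Agent.H659.BKJ

namespace Pool.Agent.H659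

open Pool.Agent.W783.PC (pm DepOn Inc)
open BKJ

theorem t_bk : S_bk := by
  classical
  intro V _ p A B hA hB
  set r : Sym2 V → unitInterval := fun _ => p with hr
  set A' : Finset (Sym2 V) → Prop := fun K => A (K : Set (Sym2 V)) with hA'
  set B' : Finset (Sym2 V) → Prop := fun K => B (K : Set (Sym2 V)) with hB'
  have hok : H974.Ok (fun c => (r c : ℝ)) := fun c => ⟨(r c).2.1, (r c).2.2⟩
  have hAi : ∀ F, H974.IncrE F A' := fun F K L hKL _ h => hA.1 _ _ (by exact_mod_cast hKL) h
  have hBi : ∀ F, H974.IncrE F B' := fun F K L hKL _ h => hB.1 _ _ (by exact_mod_cast hKL) h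
  have hle : ∀ (C : Set (Sym2 V) → Prop), Fm C → ∀ F : Finset (Sym2 V),
      H974.Pr (fun c => (r c : ℝ)) F (fun K => C (K : Set (Sym2 V))) ≤ Pb p C := by
    intro C hC F
    rw [← EvF_real r F]
    unfold Pb
    have hsub : EvF F (fun K => C (K : Set (Sym2 V))) ⊆ Ev C :=
      fun ω hω => hC.1 _ _ (coe_filter_sub F ω) hω
    exact measureReal_mono hsub (measure_ne_top _ _)
  have hnn : ∀ (C : Set (Sym2 V) → Prop), 0 ≤ Pb p C := fun C => measureReal_nonneg
  have hF : ∀ F : Finset (Sym2 V), (pm r).real (EvF F (H974.DisjOcc A' B')) ≤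
      Pb p A * Pb p B := by
    intro F
    rw [EvF_real]
    refine (H974.bk hok (hAi F) (hBi F)).trans ?_
    exact mul_le_mul (hle A hA F) (hle B hB F) (H974.Pr_nonneg hok _ _) (hnn A)
  have hun : Ev (Dj A B) ⊆ ⋃ F : Finset (Sym2 V), EvF F (H974.DisjOcc A' B') := by
    rintro ω ⟨K₁, K₂, h1, h2, h3, h4, h5⟩
    obtain ⟨L₁, hL₁, hf₁, ha⟩ := hA.2 K₁ h4
    obtain ⟨L₂, hL₂, hf₂, hb⟩ := hB.2 K₂ h5
    rw [mem_iUnion]
    refine ⟨hf₁.toFinset ∪ hf₂.toFinset, hf₁.toFinset, hf₂.toFinset, ?_, ?_, ?_, ?_, ?_⟩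
    · intro c hc
      rw [Finset.mem_filter]
      exact ⟨Finset.mem_union_left _ hc, h1 (hL₁ (hf₁.mem_toFinset.1 hc))⟩
    · intro c hc
      rw [Finset.mem_filter]
      exact ⟨Finset.mem_union_right _ hc, h2 (hL₂ (hf₂.mem_toFinset.1 hc))⟩
    · rw [Finset.disjoint_left]
      intro c hc1 hc2
      exact (Set.disjoint_left.1 h3) (hL₁ (hf₁.mem_toFinset.1 hc1)) (hL₂ (hf₂.mem_toFinset.1 hc2))
    · show A _
      rw [Set.Finite.coe_toFinset]
      exact ha
    · show B _
      rw [Set.Finite.coe_toFinset]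
      exact hb
  have hmono : Monotone fun F : Finset (Sym2 V) => EvF F (H974.DisjOcc A' B') := by
    intro F F' hFF ω hω
    obtain ⟨K, L, h1, h2, h3, h4, h5⟩ := hω
    exact ⟨K, L, h1.trans (Finset.filter_subset_filter _ hFF),
      h2.trans (Finset.filter_subset_filter _ hFF), h3, h4, h5⟩
  have h0 : 0 ≤ Pb p A * Pb p B := mul_nonneg (hnn A) (hnn B)
  show (pm r).real (Ev (Dj A B)) ≤ _
  refine (measureReal_mono hun).trans ?_
  unfold Measure.real
  rw [hmono.directed_le.measure_iUnion]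
  refine ENNReal.toReal_le_of_le_ofReal h0 (iSup_le fun F => ?_)
  rw [← ENNReal.ofReal_toReal (measure_ne_top (pm r) _)]
  exact ENNReal.ofReal_le_ofReal (hF F)

end Pool.Agent.H659
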