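import Pool.Agent.H659.Stmts

set_option autoImplicit false

open MeasureTheory Set Filter Topology

namespace Pool.Agent.H659

open Pool.Agent.W783.PC (pm DepOn Inc)

namespace C642

theorem Pb_le_of_imp {V : Type} (p : unitInterval) {A B : Set (Sym2 V) → Prop}
    (h : ∀ K, A K → B K) : Pb p A ≤ Pb p B := by
  unfold Pb
  exact measureReal_mono (fun ω hω => h _ hω)

theorem gr_mono {V : Type} (G : SimpleGraph V) {K K' : Set (Sym2 V)} (C : Set V) (h : K ⊆ K') :
    Gr G K C ≤ Gr G K' C := by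
  intro a b hab
  exact ⟨hab.1, h hab.2.1, hab.2.2.1, hab.2.2.2⟩

theorem fm_reach {V : Type} (G : SimpleGraph V) (C : Set V) (a r : V) :
    Fm (fun K => (Gr G K C).Reachable a r) := by
  constructor
  · intro K K' h h1
    exact h1.mono (gr_mono G C h)
  · intro K h
    rw [SimpleGraph.reachable_iff_reflTransGen] at h
    induction h with
    | refl => exact ⟨∅, by simp, by simp, SimpleGraph.Reachable.refl _⟩
    | @tail b c h1 h2 ih =>
      obtain ⟨K', h3, h4, h5⟩ := ih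
      refine ⟨insert s(b, c) K', ?_, h4.insert _, ?_⟩
      · intro e he
        rcases he with rfl | he
        · exact h2.2.1
        · exact h3 he
      · refine (h5.mono (gr_mono G C (Set.subset_insert _ _))).trans ?_
        exact SimpleGraph.Adj.reachable ⟨h2.1, Set.mem_insert _ _, h2.2.2.1, h2.2.2.2⟩

theorem fm_ex {V ι : Type} (S : ι → Prop) (A : ι → Set (Sym2 V) → Prop) (h : ∀ i, Fm (A i)) :
    Fm (fun K => ∃ i, S i ∧ A i K) := by
  constructor
  · rintro K K' hK ⟨i, h1, h2⟩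
    exact ⟨i, h1, (h i).1 K K' hK h2⟩
  · rintro K ⟨i, h1, h2⟩
    obtain ⟨K', h3, h4, h5⟩ := (h i).2 K h2
    exact ⟨K', h3, h4, i, h1, h5⟩

theorem fm_all {V ι : Type} (R : Finset ι) (A : ι → Set (Sym2 V) → Prop) (h : ∀ i, Fm (A i)) :
    Fm (fun K => ∀ i ∈ R, A i K) := by
  constructor
  · intro K K' hK h1 i hi
    exact (h i).1 K K' hK (h1 i hi)
  · intro K h1
    have h2 : ∀ i : ι, ∃ K' : Set (Sym2 V), i ∈ R → (K' ⊆ K ∧ K'.Finite ∧ A i K') := by
      intro i
      by_cases hi : i ∈ R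
      · obtain ⟨K', h3⟩ := (h i).2 K (h1 i hi)
        exact ⟨K', fun _ => h3⟩
      · exact ⟨∅, fun h => absurd h hi⟩
    choose f hf using h2
    refine ⟨⋃ i ∈ R, f i, ?_, ?_, ?_⟩
    · exact Set.iUnion₂_subset fun i hi => (hf i hi).1
    · exact Set.Finite.biUnion R.finite_toSet fun i hi => (hf i hi).2.1
    · intro i hi
      exact (h i).1 _ _ (Set.subset_iUnion₂_of_subset i hi (Set.Subset.refl _)) (hf i hi).2.2

theorem fm_and_const {V : Type} (c : Prop) (A : Set (Sym2 V) → Prop) (h : Fm A) :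
    Fm (fun K => c ∧ A K) := by
  constructor
  · rintro K K' hK ⟨h1, h2⟩
    exact ⟨h1, h.1 K K' hK h2⟩
  · rintro K ⟨h1, h2⟩
    obtain ⟨K', h3, h4, h5⟩ := h.2 K h2
    exact ⟨K', h3, h4, h1, h5⟩

theorem gr_congr {V : Type} (G : SimpleGraph V) (C : Set V) {K K' : Set (Sym2 V)}
    (h : K ∩ G.edgeSet = K' ∩ G.edgeSet) : Gr G K C = Gr G K' C := by
  ext a b
  have h1 : G.Adj a b → (s(a, b) ∈ K ↔ s(a, b) ∈ K') := by
    intro hab
    have h2 := Set.ext_iff.1 h s(a, b)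
    simp only [Set.mem_inter_iff, SimpleGraph.mem_edgeSet, hab, and_true] at h2
    exact h2
  constructor
  · rintro ⟨h2, h3, h4⟩
    exact ⟨h2, (h1 h2).1 h3, h4⟩
  · rintro ⟨h2, h3, h4⟩
    exact ⟨h2, (h1 h2).2 h3, h4⟩

theorem sum_bound {Ω I : Type} [MeasurableSpace Ω] (μ : Measure Ω) [IsProbabilityMeasure μ]
    [Countable I] (E F : I → Set Ω) (hE : ∀ i, MeasurableSet (E i))
    (hd : Pairwise (Function.onFun Disjoint E)) (c : ℝ) (hc : 0 ≤ c)
    (h : ∀ i, μ.real (E i ∩ F i) ≤ c * μ.real (E i)) : μ.real (⋃ i, E i ∩ F i) ≤ c := by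
  have h1 : ∀ i, μ (E i ∩ F i) ≤ ENNReal.ofReal c * μ (E i) := by
    intro i
    rw [← ENNReal.ofReal_toReal (measure_ne_top μ (E i ∩ F i)),
      ← ENNReal.ofReal_toReal (measure_ne_top μ (E i)), ← ENNReal.ofReal_mul hc]
    exact ENNReal.ofReal_le_ofReal (h i)
  have h2 : μ (⋃ i, E i ∩ F i) ≤ ENNReal.ofReal c := by
    calc μ (⋃ i, E i ∩ F i) ≤ ∑' i, μ (E i ∩ F i) := measure_iUnion_le _
      _ ≤ ∑' i, ENNReal.ofReal c * μ (E i) := ENNReal.tsum_le_tsum h1
      _ = ENNReal.ofReal c * ∑' i, μ (E i) := ENNReal.tsum_mul_left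
      _ = ENNReal.ofReal c * μ (⋃ i, E i) := by rw [measure_iUnion hd hE]
      _ ≤ ENNReal.ofReal c * 1 := by gcongr; exact prob_le_one
      _ = ENNReal.ofReal c := mul_one _
  unfold Measure.real
  exact ENNReal.toReal_le_of_le_ofReal hc h2

/-! ### the lattice -/

/-- horizontal edges -/
def Hg (d m : ℕ) : SimpleGraph (Fin d → ℤ) where
  Adj x y := ∃ i : Fin d, 2 * m ≤ (i : ℕ) ∧ (y = x + Pi.single i 1 ∨ x = y + Pi.single i 1)
  symm := ⟨fun _ _ ⟨i, h1, h2⟩ => ⟨i, h1, h2.symm⟩⟩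
  loopless := ⟨fun x ⟨i, _, h⟩ => by
    rcases h with h | h <;>
    · have := congrFun h i
      simp at this⟩

open scoped Classical in
/-- neighbours -/
noncomputable def Nh (d m : ℕ) (u : Fin d → ℤ) : Finset (Fin d → ℤ) :=
  (Finset.univ.filter (fun i : Fin d => 2 * m ≤ (i : ℕ))).image (fun i => u + Pi.single i 1) ∪
    (Finset.univ.filter (fun i : Fin d => 2 * m ≤ (i : ℕ))).image (fun i => u - Pi.single i 1)

theorem mem_Nh (d m : ℕ) (u v : Fin d → ℤ) : v ∈ Nh d m u ↔ (Hg d m).Adj u v := by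
  unfold Nh Hg
  simp only [Finset.mem_union, Finset.mem_image, Finset.mem_filter, Finset.mem_univ, true_and]
  constructor
  · rintro (⟨i, h1, h2⟩ | ⟨i, h1, h2⟩)
    · exact ⟨i, h1, Or.inl h2.symm⟩
    · exact ⟨i, h1, Or.inr (by rw [← h2]; simp)⟩
  · rintro ⟨i, h1, h2 | h2⟩
    · exact Or.inl ⟨i, h1, h2.symm⟩
    · exact Or.inr ⟨i, h1, by rw [h2]; simp⟩

theorem single_inj {d : ℕ} {i j : Fin d} (h : (Pi.single i 1 : Fin d → ℤ) = Pi.single j 1) :
    i = j := by
  by_contra hne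
  have := congrFun h i
  simp [Pi.single_eq_of_ne hne] at this

theorem card_Nh (d m : ℕ) (hm : 2 * m < d) (u : Fin d → ℤ) : (Nh d m u).card = 2 * (d - 2 * m) := by
  classical
  unfold Nh
  have hc : (Finset.univ.filter (fun i : Fin d => 2 * m ≤ (i : ℕ))).card = d - 2 * m := by
    have : (Finset.univ.filter (fun i : Fin d => 2 * m ≤ (i : ℕ))) = Finset.Ici ⟨2 * m, hm⟩ := by
      ext i
      simp [Fin.le_def]
    rw [this, Fin.card_Ici]
  rw [Finset.card_union_of_disjoint, Finset.card_image_of_injective, Finset.card_image_of_injective,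
    hc]
  · ring
  · intro i j h
    have h : u - Pi.single i 1 = u - Pi.single j 1 := h
    exact single_inj (sub_right_injective h)
  · intro i j h
    have h : u + Pi.single i 1 = u + Pi.single j 1 := h
    exact single_inj (add_right_injective u h)
  · rw [Finset.disjoint_left]
    intro x hx hy
    simp only [Finset.mem_image, Finset.mem_filter, Finset.mem_univ, true_and] at hx hy
    obtain ⟨i, _, h2⟩ := hx
    obtain ⟨j, _, h4⟩ := hy
    have h5 : (Pi.single i 1 : Fin d → ℤ) + Pi.single j 1 = 0 := by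
      have : u + Pi.single i 1 = u - Pi.single j 1 := h2.trans h4.symm
      have := congrArg (fun z => z - u + Pi.single j 1) this
      simpa using this
    have h6 := congrFun h5 i
    simp only [Pi.add_apply, Pi.single_eq_same, Pi.zero_apply] at h6
    by_cases hij : i = j
    · subst hij; simp at h6
    · rw [Pi.single_eq_of_ne hij] at h6; omega

theorem hh_add (d m : ℕ) (x : Fin d → ℤ) (i : Fin d) :
    hh d m (x + Pi.single i 1) = hh d m x + ((if (i : ℕ) < m then 1 else 0),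
      (if m ≤ (i : ℕ) ∧ (i : ℕ) < 2 * m then 1 else 0)) := by
  unfold hh
  have key : ∀ (P : ℕ → Prop) [DecidablePred P],
      (∑ j : Fin d, if P j then (x + (Pi.single i 1 : Fin d → ℤ)) j else 0) =
      (∑ j : Fin d, if P j then x j else 0) + if P i then 1 else 0 := by
    intro P _
    have : ∀ j : Fin d, (if P j then (x + (Pi.single i 1 : Fin d → ℤ)) j else 0) =
        (if P j then x j else 0) + (if j = i then (if P i then 1 else 0) else 0) := by
      intro j
      by_cases hj : j = i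
      · subst hj
        by_cases hP : P j <;> simp [hP]
      · by_cases hP : P j <;> simp [hP, hj]
    simp only [this, Finset.sum_add_distrib]
    simp
  rw [Prod.mk_add_mk, key (fun j => j < m), key (fun j => m ≤ j ∧ j < 2 * m)]

theorem hh_adj (d m : ℕ) {x y : Fin d → ℤ} (h : (Hg d m).Adj x y) : hh d m x = hh d m y := by
  obtain ⟨i, h1, h2 | h2⟩ := h
  · rw [h2, hh_add]
    have h3 : ¬ (i : ℕ) < m := by omega
    have h4 : ¬ (m ≤ (i : ℕ) ∧ (i : ℕ) < 2 * m) := by omega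
    simp [h3, h4]
  · rw [h2, hh_add]
    have h3 : ¬ (i : ℕ) < m := by omega
    have h4 : ¬ (m ≤ (i : ℕ) ∧ (i : ℕ) < 2 * m) := by omega
    simp [h3, h4]

theorem reach_lift (d m : ℕ) (s : ℤ × ℤ) (K : Set (Sym2 (Fin d → ℤ))) (a r : Fin d → ℤ)
    (ha : hh d m a = s) (h : (Gr (Hg d m) K ∅).Reachable a r) :
    hh d m r = s ∧ (Gr (Zd d) (K ∩ Es d m s) ∅).Reachable a r := by
  rw [SimpleGraph.reachable_iff_reflTransGen] at h
  induction h with
  | refl => exact ⟨ha, SimpleGraph.Reachable.refl _⟩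
  | @tail b c h1 h2 ih =>
    have h3 := hh_adj d m h2.1
    refine ⟨h3 ▸ ih.1, ih.2.trans (SimpleGraph.Adj.reachable ?_)⟩
    obtain ⟨i, h4, h5 | h5⟩ := h2.1
    · refine ⟨Or.inl ⟨i, h5⟩, ⟨h2.2.1, b, i, ih.1, by rw [h5]⟩, by simp, by simp⟩
    · refine ⟨Or.inr ⟨i, h5⟩, ⟨h2.2.1, c, i, h3 ▸ ih.1, ?_⟩, by simp, by simp⟩
      rw [← h5, Sym2.eq_swap]

open scoped Classical in
/-- the upper neighbours -/
noncomputable def Up {d : ℕ} (I : Finset (Fin d)) (R : Finset (Fin d → ℤ)) : Finset (Fin d → ℤ) :=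
  R.biUnion (fun x => I.image (fun i => x + Pi.single i 1))

theorem card_Up {d : ℕ} (I : Finset (Fin d)) (R : Finset (Fin d → ℤ)) :
    R.card * I.card ≤ (Up I R).card + R.card ^ 2 := by
  classical
  induction R using Finset.induction_on with
  | empty => simp
  | @insert x R hx ih =>
    have h1 : Up I (insert x R) = I.image (fun i => x + Pi.single i 1) ∪ Up I R := by
      unfold Up
      rw [Finset.biUnion_insert]
    have h2 : (I.image (fun i => x + (Pi.single i 1 : Fin d → ℤ))).card = I.card := by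
      apply Finset.card_image_of_injective
      intro i j h
      exact single_inj (add_right_injective x h)
    have h3 : (I.image (fun i => x + (Pi.single i 1 : Fin d → ℤ)) ∩ Up I R).card ≤ R.card := by
      have h4 : I.image (fun i => x + (Pi.single i 1 : Fin d → ℤ)) ∩ Up I R ⊆
          R.biUnion (fun x' => I.image (fun i => x + (Pi.single i 1 : Fin d → ℤ)) ∩
            I.image (fun i => x' + (Pi.single i 1 : Fin d → ℤ))) := by
        intro z hz
        rw [Finset.mem_inter] at hz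
        obtain ⟨hz1, hz2⟩ := hz
        unfold Up at hz2
        rw [Finset.mem_biUnion] at hz2 ⊢
        obtain ⟨x', hx', hz3⟩ := hz2
        exact ⟨x', hx', Finset.mem_inter.2 ⟨hz1, hz3⟩⟩
      refine (Finset.card_le_card h4).trans (Finset.card_biUnion_le.trans ?_)
      have h5 : ∀ x' ∈ R, (I.image (fun i => x + (Pi.single i 1 : Fin d → ℤ)) ∩
            I.image (fun i => x' + (Pi.single i 1 : Fin d → ℤ))).card ≤ 1 := by
        intro x' hx'
        have hne : x ≠ x' := fun h => hx (h ▸ hx')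
        rw [Finset.card_le_one]
        intro z hz z' hz'
        simp only [Finset.mem_inter, Finset.mem_image] at hz hz'
        obtain ⟨⟨i, _, hi⟩, ⟨j, _, hj⟩⟩ := hz
        obtain ⟨⟨k, _, hk⟩, ⟨l, _, hl⟩⟩ := hz'
        have e1 : x + (Pi.single i 1 : Fin d → ℤ) = x' + Pi.single j 1 := hi.trans hj.symm
        have e2 : x + (Pi.single k 1 : Fin d → ℤ) = x' + Pi.single l 1 := hk.trans hl.symm
        have hij : i ≠ j := by
          rintro rfl
          exact hne (add_left_injective _ e1)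
        have hkl : k ≠ l := by
          rintro rfl
          exact hne (add_left_injective _ e2)
        have hik : i = k := by
          by_contra hik
          have a1 := congrFun e1 k
          have a2 := congrFun e2 k
          simp only [Pi.add_apply, Pi.single_eq_same] at a1 a2
          rw [Pi.single_eq_of_ne hkl] at a2
          rw [Pi.single_eq_of_ne (Ne.symm hik)] at a1
          have a3 : 0 ≤ (Pi.single j 1 : Fin d → ℤ) k := by
            by_cases h : k = j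
            · subst h; simp
            · rw [Pi.single_eq_of_ne h]
          omega
        rw [← hi, ← hk, hik]
      calc ∑ u ∈ R, (I.image (fun i => x + (Pi.single i 1 : Fin d → ℤ)) ∩
            I.image (fun i => u + (Pi.single i 1 : Fin d → ℤ))).card ≤ ∑ u ∈ R, 1 :=
            Finset.sum_le_sum h5
        _ = R.card := by simp
    have h4 := Finset.card_union_add_card_inter (I.image (fun i => x + (Pi.single i 1 : Fin d → ℤ)))
      (Up I R)
    rw [h1, Finset.card_insert_of_notMem hx]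
    nlinarith [h2, h3, h4, ih]

open scoped Classical in
theorem exF {d m : ℕ} (s s' : ℤ × ℤ) (hs : s ≠ s') (I : Finset (Fin d))
    (hI : ∀ x : Fin d → ℤ, ∀ i ∈ I, hh d m x = s → hh d m (x + Pi.single i 1) = s')
    (R : Finset (Fin d → ℤ)) (hR : ∀ x ∈ R, hh d m x = s) :
    ∃ F : Finset (Sym2 (Fin d → ℤ)), R.card * I.card ≤ F.card + R.card ^ 2 ∧
      (∀ e ∈ F, e ∉ (Hg d m).edgeSet) ∧
      ∀ (M : ℕ) (K : Set (Sym2 (Fin d → ℤ))), M ≤ (F.filter (fun e => e ∈ K)).card →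
        ∃ W : Finset (Fin d → ℤ), W.card = M ∧ ∀ w ∈ W, hh d m w = s' ∧
          ∃ x ∈ R, ∃ i : Fin d, w = x + Pi.single i 1 ∧ s(x, w) ∈ K := by
  have h1 : ∀ z : Fin d → ℤ, ∃ x : Fin d → ℤ, z ∈ Up I R → (x ∈ R ∧ ∃ i ∈ I, z = x + Pi.single i 1) := by
    intro z
    by_cases hz : z ∈ Up I R
    · have hz' := hz
      unfold Up at hz'
      rw [Finset.mem_biUnion] at hz'
      obtain ⟨x, hx, hz'⟩ := hz'
      rw [Finset.mem_image] at hz'
      obtain ⟨i, hi, hz'⟩ := hz'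
      exact ⟨x, fun _ => ⟨hx, i, hi, hz'.symm⟩⟩
    · exact ⟨0, fun h => absurd h hz⟩
  choose f hf using h1
  have hf' : ∀ z ∈ Up I R, hh d m z = s' := by
    intro z hz
    obtain ⟨h2, i, hi, h3⟩ := hf z hz
    rw [h3]
    exact hI _ i hi (hR _ h2)
  have hinj : Set.InjOn (fun z => s(f z, z)) (Up I R : Set (Fin d → ℤ)) := by
    intro z hz z' hz' h
    have h : s(f z, z) = s(f z', z') := h
    rw [Sym2.eq_iff] at h
    rcases h with h | h
    · exact h.2
    · exfalso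
      apply hs
      rw [← hR _ (hf z hz).1, h.1, hf' z' hz']
  refine ⟨(Up I R).image (fun z => s(f z, z)), ?_, ?_, ?_⟩
  · rw [Finset.card_image_of_injOn hinj]
    exact card_Up I R
  · intro e he
    rw [Finset.mem_image] at he
    obtain ⟨z, hz, rfl⟩ := he
    rw [SimpleGraph.mem_edgeSet]
    intro h
    apply hs
    rw [← hR _ (hf z hz).1, hh_adj d m h, hf' z hz]
  · intro M K hM
    have h2 : ((Up I R).image (fun z => s(f z, z))).filter (fun e => e ∈ K) ⊆
        ((Up I R).filter (fun z => s(f z, z) ∈ K)).image (fun z => s(f z, z)) := by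
      intro e he
      rw [Finset.mem_filter, Finset.mem_image] at he
      obtain ⟨⟨z, hz, rfl⟩, h3⟩ := he
      rw [Finset.mem_image]
      exact ⟨z, Finset.mem_filter.2 ⟨hz, h3⟩, rfl⟩
    have h3 : M ≤ ((Up I R).filter (fun z => s(f z, z) ∈ K)).card :=
      hM.trans ((Finset.card_le_card h2).trans Finset.card_image_le)
    obtain ⟨W, hW1, hW2⟩ := Finset.exists_subset_card_eq h3
    refine ⟨W, hW2, fun w hw => ?_⟩
    have h4 := Finset.mem_filter.1 (hW1 hw)
    obtain ⟨h5, i, _, h6⟩ := hf w h4.1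
    exact ⟨hf' w h4.1, f w, h5, i, h6, h4.2⟩


theorem exp_aux (x : ℝ) (h0 : 0 ≤ x) (h1 : x ≤ 1 / 2) : Real.exp (-(x + x ^ 2)) ≤ 1 - x := by
  rw [Real.exp_neg]
  have h2 := Real.quadratic_le_exp_of_nonneg (by positivity : 0 ≤ x + x ^ 2)
  rw [inv_le_iff_one_le_mul₀ (Real.exp_pos _)]
  have h3 : 0 ≤ 1 - x - x ^ 2 - x ^ 3 := by nlinarith [mul_nonneg h0 h0, mul_nonneg h0 (mul_nonneg h0 h0)]
  have h4 : 1 ≤ (1 - x) * (1 + (x + x ^ 2) + (x + x ^ 2) ^ 2 / 2) := by
    have : (1 - x) * (1 + (x + x ^ 2) + (x + x ^ 2) ^ 2 / 2) =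
        1 + x ^ 2 / 2 * (1 - x - x ^ 2 - x ^ 3) := by ring
    rw [this]
    nlinarith [mul_nonneg (by positivity : 0 ≤ x ^ 2 / 2) h3]
  exact h4.trans (mul_le_mul_of_nonneg_left h2 (by linarith))

open scoped Classical in
theorem fm_many {V : Type} (F : Finset (Sym2 V)) (M : ℕ) :
    Fm (fun K => M ≤ (F.filter (fun e => e ∈ K)).card) := by
  constructor
  · intro K K' hK h
    refine h.trans (Finset.card_le_card ?_)
    intro e he
    rw [Finset.mem_filter] at he ⊢
    exact ⟨he.1, hK he.2⟩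
  · intro K h
    refine ⟨K ∩ F, Set.inter_subset_left, F.finite_toSet.subset Set.inter_subset_right, ?_⟩
    refine le_trans h (le_of_eq ?_)
    congr 1
    ext e
    simp only [Finset.mem_filter, Set.mem_inter_iff, Finset.mem_coe]
    tauto

open scoped Classical in
theorem main_bound (h1 : S_meas) (h2 : S_ind) (h3 : S_exp) (h4 : S_few)
    {d m M B n₀ : ℕ} (hM : 0 < M) (hm : 2 * m < d) (p : unitInterval) (s₀ : ℝ) (hs0 : 0 ≤ s₀)
    (hs1 : s₀ ≤ 1) (hn : n₀ + B ≤ 2 * (d - 2 * m)) (hq : (1 - (p : ℝ) + p * s₀) ^ n₀ ≤ s₀)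
    (c : ℝ) (hc : 0 ≤ c)
    (hF : ∀ k : ℕ, B * m ≤ k + B ^ 2 → M * (1 - (p : ℝ)) ^ (k / M) ≤ c)
    (s : ℤ × ℤ) (A : Finset (Fin d → ℤ)) (hA : Sd d m M s A) :
    Pb p (fun K => ¬ Gd d m M s A K) ≤ s₀ ^ M + (c + c) := by
  -- the exploration
  have hexp : Pb p (fun K => ¬ Big (Hg d m) ∅ A B K) ≤ s₀ ^ M := by
    have := h3 (Fin d → ℤ) (Hg d m) (Nh d m) p s₀ n₀ B {x | hh d m x = s} (mem_Nh d m)
      (fun u _ => by rw [card_Nh d m hm]; exact hn)
      (fun u hu v hv => by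
        rw [mem_Nh] at hv
        show hh d m v = s
        rw [← hh_adj d m hv]; exact hu) hs0 hs1 hq A ∅ (fun a ha => hA.2 a ha)
      (Finset.disjoint_empty_right _)
    rwa [hA.1] at this
  -- the sets reached
  set Q : Finset (Fin d → ℤ) → Set (Sym2 (Fin d → ℤ)) → Prop := fun R K =>
    R.card = B ∧ ∀ r ∈ R, ∃ a, a ∈ A ∧ (Gr (Hg d m) K ∅).Reachable a r with hQdef
  have hQfm : ∀ R, Fm (Q R) := fun R =>
    fm_and_const _ _ (fm_all R _ (fun r => fm_ex _ _ (fun a => fm_reach _ _ a r)))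
  have hQlev : ∀ R K, Q R K → ∀ r ∈ R, hh d m r = s := by
    intro R K h r hr
    obtain ⟨a, ha, h5⟩ := h.2 r hr
    exact (reach_lift d m s K a r (hA.2 a ha) h5).1
  have hQloc : ∀ R K K', K ∩ (Hg d m).edgeSet = K' ∩ (Hg d m).edgeSet → (Q R K ↔ Q R K') := by
    intro R K K' h
    simp only [hQdef, gr_congr (Hg d m) ∅ h]
  obtain ⟨enc, henc⟩ := exists_injective_nat (Finset (Fin d → ℤ))
  set E : Finset (Fin d → ℤ) → Set (Sym2 (Fin d → ℤ)) → Prop := fun R K =>
    Q R K ∧ ∀ R', enc R' < enc R → ¬ Q R' K with hEdef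
  have hEloc : ∀ R, Lo (E R) (Hg d m).edgeSet := by
    intro R K K' h
    simp only [hEdef, hQloc R K K' h]
    constructor
    · rintro ⟨h5, h6⟩
      exact ⟨h5, fun R' h7 h8 => h6 R' h7 ((hQloc R' K K' h).2 h8)⟩
    · rintro ⟨h5, h6⟩
      exact ⟨h5, fun R' h7 h8 => h6 R' h7 ((hQloc R' K K' h).1 h8)⟩
  have hEmeas : ∀ R, MeasurableSet (Ev (E R)) := by
    intro R
    have h5 : Ev (E R) = Ev (Q R) ∩ ⋂ R', ⋂ (_ : enc R' < enc R), (Ev (Q R'))ᶜ := by
      ext ω
      simp only [Ev, hEdef, Set.mem_inter_iff, Set.mem_ofPred_eq, Set.mem_iInter, Set.mem_compl_iff]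
    rw [h5]
    refine (h1 _ _ (hQfm R)).inter (MeasurableSet.iInter fun R' => MeasurableSet.iInter fun _ =>
      (h1 _ _ (hQfm R')).compl)
  have hEdisj : Pairwise (Function.onFun Disjoint (fun R => Ev (E R))) := by
    intro R R' hne
    rw [Function.onFun, Set.disjoint_left]
    intro ω h5 h6
    have h5 : E R (opn ω) := h5
    have h6 : E R' (opn ω) := h6
    rcases lt_trichotomy (enc R) (enc R') with h | h | h
    · exact h6.2 R h h5.1
    · exact hne (henc h)
    · exact h5.2 R' h h6.1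
  -- one direction
  have hdir : ∀ (s' : ℤ × ℤ) (I : Finset (Fin d)), s ≠ s' → I.card = m →
      (∀ x : Fin d → ℤ, ∀ i ∈ I, hh d m x = s → hh d m (x + Pi.single i 1) = s') →
      ∃ Few : Finset (Fin d → ℤ) → Set (Sym2 (Fin d → ℤ)) → Prop,
        Pb p (fun K => ∃ R, E R K ∧ Few R K) ≤ c ∧
        ∀ R K, E R K → ¬ Few R K → ∃ W, Sd d m M s' W ∧ Jn d m s A W K := by
    intro s' I hs hIc hI
    have hex : ∀ R : Finset (Fin d → ℤ), ∃ F : Finset (Sym2 (Fin d → ℤ)),
        (∀ e ∈ F, e ∉ (Hg d m).edgeSet) ∧ ((∀ x ∈ R, hh d m x = s) →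
          R.card * I.card ≤ F.card + R.card ^ 2 ∧
          ∀ (M : ℕ) (K : Set (Sym2 (Fin d → ℤ))), M ≤ (F.filter (fun e => e ∈ K)).card →
            ∃ W : Finset (Fin d → ℤ), W.card = M ∧ ∀ w ∈ W, hh d m w = s' ∧
              ∃ x ∈ R, ∃ i : Fin d, w = x + Pi.single i 1 ∧ s(x, w) ∈ K) := by
      intro R
      by_cases hR : ∀ x ∈ R, hh d m x = s
      · obtain ⟨F, a1, a2, a3⟩ := exF s s' hs I hI R hR
        exact ⟨F, a2, fun _ => ⟨a1, a3⟩⟩
      · exact ⟨∅, by simp, fun h => absurd h hR⟩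
    choose F hF1 hF2 using hex
    refine ⟨fun R K => ((F R).filter (fun e => e ∈ K)).card < M, ?_, ?_⟩
    · have hmeas : ∀ R, MeasurableSet (Ev (fun K => ((F R).filter (fun e => e ∈ K)).card < M)) := by
        intro R
        have h5 : Ev (fun K => ((F R).filter (fun e => e ∈ K)).card < M) =
            (Ev (fun K => M ≤ ((F R).filter (fun e => e ∈ K)).card))ᶜ := by
          ext ω
          simp only [Ev, Set.mem_ofPred_eq, Set.mem_compl_iff, not_le]
        rw [h5]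
        exact (h1 _ _ (fm_many _ _)).compl
      have hloc : ∀ R, Lo (fun K => ((F R).filter (fun e => e ∈ K)).card < M)
          (Hg d m).edgeSetᶜ := by
        intro R K K' h
        have h5 : (F R).filter (fun e => e ∈ K) = (F R).filter (fun e => e ∈ K') := by
          apply Finset.filter_congr
          intro e he
          have h6 := Set.ext_iff.1 h e
          simp only [Set.mem_inter_iff, Set.mem_compl_iff, hF1 R e he, not_false_eq_true,
            and_true] at h6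
          exact h6
        show _ < M ↔ _ < M
        rw [h5]
      have hb : ∀ R, (pm (fun _ : Sym2 (Fin d → ℤ) => p)).real (Ev (E R) ∩
          Ev (fun K => ((F R).filter (fun e => e ∈ K)).card < M)) ≤
          c * (pm (fun _ : Sym2 (Fin d → ℤ) => p)).real (Ev (E R)) := by
        intro R
        by_cases hne : ∃ K, Q R K
        · obtain ⟨K₀, hK₀⟩ := hne
          have h5 := h2 (Fin d → ℤ) p (E R) _ (Hg d m).edgeSet (hEloc R) (hloc R) (hEmeas R)
            (hmeas R)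
          have h6 : Pb p (fun K => ((F R).filter (fun e => e ∈ K)).card < M) ≤ c := by
            refine (h4 _ p (F R) M hM).trans (hF _ ?_)
            have := (hF2 R (hQlev R K₀ hK₀)).1
            rwa [hIc, hK₀.1] at this
          have h7 : (pm (fun _ : Sym2 (Fin d → ℤ) => p)).real (Ev (E R) ∩
              Ev (fun K => ((F R).filter (fun e => e ∈ K)).card < M)) =
              Pb p (fun K => E R K ∧ ((F R).filter (fun e => e ∈ K)).card < M) := rfl
          rw [h7, h5, mul_comm]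
          exact mul_le_mul_of_nonneg_right h6 measureReal_nonneg
        · have h5 : Ev (E R) = ∅ := by
            ext ω
            simp only [Set.mem_empty_iff_false, iff_false]
            intro h
            have h : E R (opn ω) := h
            exact hne ⟨_, h.1⟩
          rw [h5]
          simp
      have h5 : Pb p (fun K => ∃ R, E R K ∧ ((F R).filter (fun e => e ∈ K)).card < M) =
          (pm (fun _ : Sym2 (Fin d → ℤ) => p)).real (⋃ R, Ev (E R) ∩
          Ev (fun K => ((F R).filter (fun e => e ∈ K)).card < M)) := by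
        unfold Pb
        congr 1
        ext ω
        simp only [Ev, Set.mem_ofPred_eq, Set.mem_iUnion, Set.mem_inter_iff]
      rw [h5]
      exact sum_bound _ (fun R => Ev (E R)) _ hEmeas hEdisj c hc hb
    · intro R K hE hfew
      have hfew : ¬ ((F R).filter (fun e => e ∈ K)).card < M := hfew
      obtain ⟨W, hW1, hW2⟩ := (hF2 R (hQlev R K hE.1)).2 M K (not_lt.1 hfew)
      refine ⟨W, ⟨hW1, fun w hw => (hW2 w hw).1⟩, ?_⟩
      intro w hw
      obtain ⟨_, x, hx, i, h5, h6⟩ := hW2 w hw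
      obtain ⟨a, ha, h7⟩ := hE.1.2 x hx
      obtain ⟨h8, h9⟩ := reach_lift d m s K a x (hA.2 a ha) h7
      refine ⟨a, ha, h9.trans (SimpleGraph.Adj.reachable ?_)⟩
      exact ⟨Or.inl ⟨i, h5⟩, ⟨h6, x, i, h8, by rw [h5]⟩, by simp, by simp⟩
  have hI1 : (Finset.univ.filter (fun i : Fin d => (i : ℕ) < m)).card = m := by
    have : (Finset.univ.filter (fun i : Fin d => (i : ℕ) < m)) =
        Finset.Iio ⟨m, by omega⟩ := by
      ext i
      simp [Fin.lt_def]
    rw [this, Fin.card_Iio]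
  have hI2 : (Finset.univ.filter (fun i : Fin d => m ≤ (i : ℕ) ∧ (i : ℕ) < 2 * m)).card = m := by
    have : (Finset.univ.filter (fun i : Fin d => m ≤ (i : ℕ) ∧ (i : ℕ) < 2 * m)) =
        Finset.Ico ⟨m, by omega⟩ ⟨2 * m, hm⟩ := by
      ext i
      simp [Fin.lt_def, Fin.le_def]
    rw [this, Fin.card_Ico]
    show 2 * m - m = m
    omega
  obtain ⟨Few1, ha1, hb1⟩ := hdir (s.1 + 1, s.2) _ (by
    intro h
    have := congrArg Prod.fst h
    simp at this) hI1 (by
    intro x i hi hx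
    rw [Finset.mem_filter] at hi
    have h5 : ¬ (m ≤ (i : ℕ) ∧ (i : ℕ) < 2 * m) := by omega
    rw [hh_add, hx, if_pos hi.2, if_neg h5]
    ext <;> simp)
  obtain ⟨Few2, ha2, hb2⟩ := hdir (s.1, s.2 + 1) _ (by
    intro h
    have := congrArg Prod.snd h
    simp at this) hI2 (by
    intro x i hi hx
    rw [Finset.mem_filter] at hi
    have h5 : ¬ ((i : ℕ) < m) := by omega
    rw [hh_add, hx, if_pos hi.2, if_neg h5]
    ext <;> simp)
  have hfin : ∀ K, ¬ Gd d m M s A K → (¬ Big (Hg d m) ∅ A B K ∨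
      ((∃ R, E R K ∧ Few1 R K) ∨ ∃ R, E R K ∧ Few2 R K)) := by
    intro K hG
    by_contra hcon
    push Not at hcon
    obtain ⟨⟨R, hR1, hR2⟩, hc1, hc2⟩ := hcon
    have hex : ∃ R, Q R K := by
      have h5 : B ≤ R.card := by simpa using hR1
      obtain ⟨R', h6, h7⟩ := Finset.exists_subset_card_eq h5
      refine ⟨R', h7, fun r hr => ?_⟩
      obtain ⟨a, ha, _, h8⟩ := hR2 r (h6 hr)
      exact ⟨a, ha, by simpa using h8⟩
    obtain ⟨R₀, h5, h6⟩ := (InvImage.wf enc Nat.lt_wfRel.wf).has_min {R | Q R K} hex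
    have hE : E R₀ K := ⟨h5, fun R' h7 h8 => h6 R' h8 h7⟩
    exact hG ⟨hb1 R₀ K hE (hc1 R₀ hE), hb2 R₀ K hE (hc2 R₀ hE)⟩
  refine (Pb_le_of_imp p hfin).trans ?_
  have hun : ∀ X Y : Set (Sym2 (Fin d → ℤ)) → Prop, Pb p (fun K => X K ∨ Y K) ≤ Pb p X + Pb p Y := by
    intro X Y
    unfold Pb
    exact measureReal_union_le (Ev X) (Ev Y)
  refine (hun _ _).trans (add_le_add hexp ((hun _ _).trans (add_le_add ha1 ha2)))

theorem few_bound {δ η : ℝ} (hδ : 0 < δ) (hη : 0 < η) {d m B M : ℕ} (hB1 : 2 * B ≤ m)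
    (hB3 : δ * d / 64 ≤ (B : ℝ)) (hM : 0 < M) (p : unitInterval)
    (hpd : (1 + δ) ≤ (p : ℝ) * (2 * d))
    (hdM : 8192 * (M : ℝ) * (4 * (M : ℝ) / η + 1) ≤ δ ^ 2 * d) (k : ℕ)
    (hk : B * m ≤ k + B ^ 2) : M * (1 - (p : ℝ)) ^ (k / M) ≤ η / 4 := by
  have hp0 : (0 : ℝ) ≤ p := p.2.1
  have hp1 : (p : ℝ) ≤ 1 := p.2.2
  have hMpos : (0 : ℝ) < M := by exact_mod_cast hM
  have h5 : B ^ 2 ≤ k := by
    have h50 : B * (2 * B) ≤ B * m := Nat.mul_le_mul_left B hB1
    have h51 : B * (2 * B) = B ^ 2 + B ^ 2 := by ring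
    omega
  have h6 : k < M * (k / M + 1) := Nat.lt_mul_div_succ k hM
  set t : ℕ := k / M with ht
  have h7 : (B : ℝ) ^ 2 ≤ M * ((t : ℝ) + 1) := by
    have : B ^ 2 ≤ M * (t + 1) := h5.trans h6.le
    exact_mod_cast this
  have h8 : (δ * d / 64) ^ 2 ≤ (B : ℝ) ^ 2 := pow_le_pow_left₀ (by positivity) hB3 2
  have h9 : 4 * (M : ℝ) / η ≤ p * t := by
    have a1 : (p : ℝ) * (δ * d / 64) ^ 2 ≤ p * (M * ((t : ℝ) + 1)) :=
      mul_le_mul_of_nonneg_left (h8.trans h7) hp0
    have a2 : δ ^ 2 * d / 8192 ≤ (p : ℝ) * (δ * d / 64) ^ 2 := by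
      have a3 : (p : ℝ) * (δ * d / 64) ^ 2 = (p * (2 * d)) * (δ ^ 2 * d / 8192) := by ring
      rw [a3]
      have a4 : 0 ≤ δ ^ 2 * (d : ℝ) / 8192 := by positivity
      have a9 : 1 ≤ (p : ℝ) * (2 * d) := by linarith
      have a10 := mul_le_mul_of_nonneg_right a9 a4
      linarith
    have a5 : M * (4 * (M : ℝ) / η + 1) ≤ δ ^ 2 * d / 8192 := by linarith
    have a6 : M * (4 * (M : ℝ) / η + 1) ≤ M * ((p : ℝ) * t + 1) := by
      have a7 : (p : ℝ) * (M * ((t : ℝ) + 1)) ≤ M * (p * t + 1) := by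
        have a11 : (p : ℝ) * (M * ((t : ℝ) + 1)) = M * (p * t) + M * p := by ring
        have a12 : (M : ℝ) * p ≤ M * 1 := mul_le_mul_of_nonneg_left hp1 hMpos.le
        rw [a11]; linarith
      linarith
    have a8 := le_of_mul_le_mul_left a6 hMpos
    linarith
  have h10 : 0 < 4 * (M : ℝ) / η := by positivity
  have h11 : (1 - (p : ℝ)) ^ t ≤ Real.exp (-(p * t)) := by
    calc (1 - (p : ℝ)) ^ t ≤ (Real.exp (-p)) ^ t :=
          pow_le_pow_left₀ (by linarith) (Real.one_sub_le_exp_neg _) _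
      _ = Real.exp (-(p * t)) := by rw [← Real.exp_nat_mul]; congr 1; ring
  have h12 : Real.exp (-((p : ℝ) * t)) ≤ (4 * (M : ℝ) / η)⁻¹ := by
    rw [Real.exp_neg]
    apply inv_anti₀ h10
    have := Real.add_one_le_exp ((p : ℝ) * t)
    linarith
  calc (M : ℝ) * (1 - (p : ℝ)) ^ t ≤ M * (4 * (M : ℝ) / η)⁻¹ :=
        mul_le_mul_of_nonneg_left (h11.trans h12) hMpos.le
    _ = η / 4 := by field_simp

end C642

theorem t_cell (h1 : S_meas) (h2 : S_ind) (h3 : S_exp) (h4 : S_few) : S_cell := by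
  intro δ η hδ hδ1 hη
  obtain ⟨M₀, hM₀⟩ := exists_pow_lt_of_lt_one (half_pos hη) (show 1 - δ / 2 < 1 by linarith)
  obtain ⟨d₀, hd₀⟩ := exists_nat_ge (64 / δ + 8192 * ((M₀ : ℝ) + 1) * (4 * ((M₀ : ℝ) + 1) / η + 1) /
    δ ^ 2 + 1)
  refine ⟨M₀ + 1, d₀, Nat.succ_pos _, fun d hd => ?_⟩
  have hdR : 64 / δ + 8192 * ((M₀ : ℝ) + 1) * (4 * ((M₀ : ℝ) + 1) / η + 1) / δ ^ 2 + 1 ≤ (d : ℝ) :=
    hd₀.trans (by exact_mod_cast hd)
  have hpos1 : 0 < 64 / δ := by positivity
  have hpos2 : 0 < 8192 * ((M₀ : ℝ) + 1) * (4 * ((M₀ : ℝ) + 1) / η + 1) / δ ^ 2 := by positivity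
  have hd1 : (1 : ℝ) ≤ d := by linarith
  have hd64 : 64 ≤ δ * d := by
    have : 64 / δ ≤ (d : ℝ) := by linarith
    rw [div_le_iff₀ hδ] at this
    linarith
  have hdM : 8192 * ((M₀ : ℝ) + 1) * (4 * ((M₀ : ℝ) + 1) / η + 1) ≤ δ ^ 2 * d := by
    have : 8192 * ((M₀ : ℝ) + 1) * (4 * ((M₀ : ℝ) + 1) / η + 1) / δ ^ 2 ≤ (d : ℝ) := by linarith
    rw [div_le_iff₀ (by positivity)] at this
    linarith
  set m : ℕ := ⌊δ * d / 16⌋₊ with hmdef
  have hm1 : (m : ℝ) ≤ δ * d / 16 := Nat.floor_le (by positivity)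
  have hm2 : δ * d / 16 < m + 1 := Nat.lt_floor_add_one _
  have hm16 : 16 * m ≤ d := by
    have h0 : δ * d ≤ 1 * d := mul_le_mul_of_nonneg_right hδ1.le (by linarith)
    have : (16 * m : ℝ) ≤ d := by linarith
    exact_mod_cast this
  have hd0 : 0 < d := by
    have : (0 : ℝ) < d := by linarith
    exact_mod_cast this
  have hmd : 2 * m < d := by omega
  refine ⟨m, hmd, fun p hp s A hA => ?_⟩
  set B : ℕ := m / 2 with hBdef
  have hB1 : 2 * B ≤ m := by omega
  have hB2 : m ≤ 2 * B + 1 := by omega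
  have hB3 : δ * d / 64 ≤ (B : ℝ) := by
    have : (m : ℝ) ≤ 2 * B + 1 := by exact_mod_cast hB2
    linarith
  have hp0 : (0 : ℝ) ≤ p := p.2.1
  have hp1 : (p : ℝ) ≤ 1 := p.2.2
  have hpd : (1 + δ) ≤ p * (2 * d) := by
    rw [div_le_iff₀ (by positivity)] at hp
    exact hp
  set n₀ : ℕ := 2 * (d - 2 * m) - B with hn₀def
  have hn₀ : n₀ + B = 2 * (d - 2 * m) := by omega
  have hn₀R : (n₀ : ℝ) = 2 * (d - 2 * m) - B := by
    have : (n₀ : ℝ) + B = 2 * ((d : ℝ) - 2 * m) := by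
      have h5 : ((d - 2 * m : ℕ) : ℝ) = (d : ℝ) - 2 * m := by
        rw [Nat.cast_sub hmd.le]; push_cast; ring
      rw [← h5]
      exact_mod_cast hn₀
    linarith
  have hBm : (B : ℝ) ≤ m := by
    have : B ≤ m := by omega
    exact_mod_cast this
  have hpn : 1 + δ / 2 ≤ p * n₀ := by
    have h5 : (2 * d * (1 - 5 * δ / 32) : ℝ) ≤ n₀ := by
      rw [hn₀R]
      have h50 : (2 * d * (1 - 5 * δ / 32) : ℝ) = 2 * d - 5 * (δ * d / 16) := by ring
      rw [h50]; linarith
    have h6 : (p : ℝ) * (2 * d * (1 - 5 * δ / 32)) ≤ p * (n₀ : ℝ) := mul_le_mul_of_nonneg_left h5 hp0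
    have h7 : (1 + δ) * (1 - 5 * δ / 32) ≤ p * (2 * d) * (1 - 5 * δ / 32) :=
      mul_le_mul_of_nonneg_right hpd (by linarith)
    have h8 : 1 + δ / 2 ≤ (1 + δ) * (1 - 5 * δ / 32) := by
      have : 0 ≤ δ * (1 - δ) := mul_nonneg hδ.le (by linarith)
      nlinarith
    linarith
  have hq : (1 - (p : ℝ) + p * (1 - δ / 2)) ^ n₀ ≤ 1 - δ / 2 := by
    have h5 : (1 - (p : ℝ) + p * (1 - δ / 2)) = 1 - p * (δ / 2) := by ring
    have h6 : 0 ≤ 1 - (p : ℝ) * (δ / 2) := by
      have : (p : ℝ) * (δ / 2) ≤ 1 * (δ / 2) := mul_le_mul_of_nonneg_right hp1 (by linarith)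
      linarith
    calc (1 - (p : ℝ) + p * (1 - δ / 2)) ^ n₀ = (1 - p * (δ / 2)) ^ n₀ := by rw [h5]
      _ ≤ (Real.exp (-(p * (δ / 2)))) ^ n₀ := pow_le_pow_left₀ h6 (Real.one_sub_le_exp_neg _) _
      _ = Real.exp (-(p * n₀ * (δ / 2))) := by
        rw [← Real.exp_nat_mul]; congr 1; ring
      _ ≤ Real.exp (-((δ / 2) + (δ / 2) ^ 2)) := by
        apply Real.exp_le_exp.2
        have : (1 + δ / 2) * (δ / 2) ≤ (p : ℝ) * n₀ * (δ / 2) :=
          mul_le_mul_of_nonneg_right hpn (by linarith)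
        have h7 : (1 + δ / 2) * (δ / 2) = δ / 2 + (δ / 2) ^ 2 := by ring
        linarith
      _ ≤ 1 - δ / 2 := C642.exp_aux _ (by linarith) (by linarith)
  have hmain := C642.main_bound h1 h2 h3 h4 (d := d) (m := m) (M := M₀ + 1) (B := B) (n₀ := n₀)
    (Nat.succ_pos _) hmd p (1 - δ / 2) (by linarith) (by linarith) hn₀.le hq (η / 4) (by linarith)
    (C642.few_bound hδ hη hB1 hB3 (Nat.succ_pos _) p hpd (by push_cast; exact hdM)) s A hA
  refine hmain.trans ?_
  have h5 : (1 - δ / 2) ^ (M₀ + 1) ≤ η / 2 := by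
    have h6 : (1 - δ / 2) ^ (M₀ + 1) ≤ (1 - δ / 2) ^ M₀ :=
      pow_le_pow_of_le_one (by linarith) (by linarith) (Nat.le_succ _)
    linarith
  linarith

end Pool.Agent.H659
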