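import Pool.Agent.H659.Stmts

set_option autoImplicit false

open MeasureTheory Set Filter Topology

namespace Pool.Agent.H659

open Pool.Agent.W783.PC (pm DepOn Inc)

namespace Comb404

theorem fm_and {V : Type} {A B : Set (Sym2 V) → Prop} (hA : Fm A) (hB : Fm B) :
    Fm (fun K => A K ∧ B K) := by
  refine ⟨fun K K' h ⟨h1, h2⟩ => ⟨hA.1 K K' h h1, hB.1 K K' h h2⟩, fun K ⟨h1, h2⟩ => ?_⟩
  obtain ⟨K1, hK1, hf1, ha⟩ := hA.2 K h1
  obtain ⟨K2, hK2, hf2, hb⟩ := hB.2 K h2
  exact ⟨K1 ∪ K2, union_subset hK1 hK2, hf1.union hf2,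
    hA.1 _ _ subset_union_left ha, hB.1 _ _ subset_union_right hb⟩

theorem fm_edge {V : Type} (e : Sym2 V) : Fm (fun K : Set (Sym2 V) => e ∈ K) := by
  refine ⟨fun K K' h h1 => h h1, fun K h1 => ?_⟩
  exact ⟨{e}, singleton_subset_iff.2 h1, finite_singleton e, mem_singleton e⟩

theorem Pb_nonneg {V : Type} (p : unitInterval) (A : Set (Sym2 V) → Prop) : 0 ≤ Pb p A :=
  measureReal_nonneg

theorem Pb_mono {V : Type} (p : unitInterval) {A B : Set (Sym2 V) → Prop}
    (h : ∀ K, A K → B K) : Pb p A ≤ Pb p B :=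
  measureReal_mono (fun _ hω => h _ hω)

theorem Pb_or {V : Type} (p : unitInterval) (A B : Set (Sym2 V) → Prop) :
    Pb p (fun K => A K ∨ B K) ≤ Pb p A + Pb p B :=
  measureReal_union_le _ _

theorem Pb_ex {V : Type} (p : unitInterval) (L : ℕ) (B : ℕ → Set (Sym2 V) → Prop) :
    Pb p (fun K => ∃ n < L, B n K) ≤ ∑ n ∈ Finset.range L, Pb p (B n) := by
  have h : Ev (fun K => ∃ n < L, B n K) = ⋃ n ∈ Finset.range L, Ev (B n) := by
    ext ω
    simp [Ev]
  unfold Pb
  rw [h]
  exact measureReal_biUnion_finset_le _ _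

end Comb404

open Comb404

theorem t_comb (h1 : S_bk) (h2 : S_fmdj) (h3 : S_edge) (h4 : S_fmrt) (h5 : S_lp) (h6 : S_det) (h7 : S_xx) (h8 : S_phi) : S_comb := by
  classical
  intro V _ G N D p hN hDp C T y L q δ hy hdist hq0 hδ0 hq hδ
  have hp0 : (0 : ℝ) ≤ p := p.2.1
  have hFmBr : ∀ v, Fm (Br G C T y v) := fun v => fm_and (fm_edge _) (h4 V G (insert y C) T v)
  -- the bound for one ordered pair
  set bd : V → V → ℝ := fun v w => Pb p (Br G C T y v) * (p * q) +
    if w ∈ C then 0 else ∑ n ∈ Finset.range L, (p : ℝ) * Pb p (XX G T (DD G y v) n (insert y C) w)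
    with hbd
  have hbd0 : ∀ v w, 0 ≤ bd v w := by
    intro v w
    have e1 : 0 ≤ Pb p (Br G C T y v) * (p * q) :=
      mul_nonneg (Pb_nonneg _ _) (mul_nonneg hp0 hq0)
    have e2 : 0 ≤ (if w ∈ C then (0 : ℝ) else ∑ n ∈ Finset.range L,
        (p : ℝ) * Pb p (XX G T (DD G y v) n (insert y C) w)) := by
      split_ifs
      · exact le_rfl
      · exact Finset.sum_nonneg fun n _ => mul_nonneg hp0 (Pb_nonneg _ _)
    exact add_nonneg e1 e2
  have hpair : ∀ x ∈ (N y).offDiag, Pb p (fun K => Br G C T y x.1 K ∧ Br G C T y x.2 K) ≤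
      bd x.1 x.2 := by
    rintro ⟨v, w⟩ hx
    rw [Finset.mem_offDiag] at hx
    obtain ⟨hv, hw, hvw⟩ := hx
    have hv' : G.Adj y v := (hN.1 y v).1 hv
    have hw' : G.Adj y w := (hN.1 y w).1 hw
    simp only at hvw ⊢
    by_cases hwC : w ∈ C
    · have e0 : Pb p (fun K => Br G C T y v K ∧ Br G C T y w K) ≤ 0 := by
        have : Pb p (fun K => Br G C T y v K ∧ Br G C T y w K) ≤ Pb p (fun _ : Set (Sym2 V) => False) :=
          Pb_mono p fun K hK => hK.2.2.1 (mem_insert_of_mem _ hwC)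
        have e1 : Pb p (fun _ : Set (Sym2 V) => False) = 0 := by
          simp [Pb, Ev]
        linarith
      exact e0.trans (hbd0 v w)
    · have hwy : w ∉ insert y C := by
        intro h
        rcases mem_insert_iff.1 h with h | h
        · exact hw'.ne h.symm
        · exact hwC h
      have hwd : ∀ t ∈ T, ∀ q : G.Walk w t, L ≤ q.length := by
        intro t ht r
        have := hdist t ht (SimpleGraph.Walk.cons hw' r)
        simpa using this
      have e1 : Pb p (fun K => Br G C T y v K ∧ Br G C T y w K) ≤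
          Pb p (fun K => Dj (Br G C T y v) (Dj (fun K' => s(y, w) ∈ K') (LP G L (insert y C) w)) K ∨
            ∃ n < L, Dj (fun K' => s(y, w) ∈ K') (XX G T (DD G y v) n (insert y C) w) K) :=
        Pb_mono p fun K hK => h6 V G C T L y v w K hy hv' hw' hvw hwd hK.1 hK.2
      refine e1.trans ((Pb_or p _ _).trans ?_)
      simp only [hbd, if_neg hwC]
      refine add_le_add ?_ ((Pb_ex p L _).trans (Finset.sum_le_sum fun n _ => ?_))
      · have f1 : Fm (LP G L (insert y C) w) := (h5 V G N D p hN L (insert y C) w).1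
        refine (h1 V p _ _ (hFmBr v) (h2 V _ _ (fm_edge _) f1)).trans ?_
        refine mul_le_mul_of_nonneg_left ?_ (Pb_nonneg _ _)
        refine (h1 V p _ _ (fm_edge _) f1).trans ?_
        rw [h3]
        exact mul_le_mul_of_nonneg_left (hq _ _) hp0
      · have f2 : Fm (XX G T (DD G y v) n (insert y C) w) :=
          (h7 V G N D p hN T y δ hδ0 hδ n (insert y C) w (mem_insert _ _) hwy).1 v hv
        refine (h1 V p _ _ (fm_edge _) f2).trans ?_
        rw [h3]
  have e1 : E2 G N p C T y ≤ ∑ x ∈ (N y).offDiag, bd x.1 x.2 := by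
    unfold E2
    convert Finset.sum_le_sum hpair
  have e2 : ∑ x ∈ (N y).offDiag, bd x.1 x.2 ≤ ∑ x ∈ (N y) ×ˢ (N y), bd x.1 x.2 := by
    refine Finset.sum_le_sum_of_subset_of_nonneg ?_ fun x _ _ => hbd0 _ _
    intro x hx
    rw [Finset.mem_offDiag] at hx
    exact Finset.mem_product.2 ⟨hx.1, hx.2.1⟩
  have e3 : ∑ x ∈ (N y) ×ˢ (N y), bd x.1 x.2 = ∑ w ∈ N y, ∑ v ∈ N y, bd v w := by
    rw [Finset.sum_product_right]
  have hE1 : 0 ≤ E1 G N p C T y := Finset.sum_nonneg fun v _ => Pb_nonneg _ _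
  have e4 : ∑ w ∈ N y, ∑ v ∈ N y, bd v w = ((N y).card : ℝ) * (E1 G N p C T y * (p * q)) +
      ∑ w ∈ N y, if w ∈ C then 0 else ∑ n ∈ Finset.range L, (p : ℝ) *
        ∑ v ∈ N y, Pb p (XX G T (DD G y v) n (insert y C) w) := by
    simp only [hbd, Finset.sum_add_distrib]
    congr 1
    · rw [Finset.sum_const, nsmul_eq_mul, E1, Finset.sum_mul]
    · refine Finset.sum_congr rfl fun w _ => ?_
      by_cases hwC : w ∈ C
      · simp [hwC]
      · simp only [if_neg hwC]
        rw [Finset.sum_comm]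
        refine Finset.sum_congr rfl fun n _ => ?_
        rw [Finset.mul_sum]
  have e5 : (∑ w ∈ N y, if w ∈ C then 0 else ∑ n ∈ Finset.range L, (p : ℝ) *
        ∑ v ∈ N y, Pb p (XX G T (DD G y v) n (insert y C) w)) ≤
      ∑ w ∈ N y, if w ∈ C then 0 else ∑ n ∈ Finset.range L, (p : ℝ) *
        (δ * Phi G N p T n (insert y C) w) := by
    refine Finset.sum_le_sum fun w hw => ?_
    by_cases hwC : w ∈ C
    · simp [hwC]
    · simp only [if_neg hwC]
      have hw' : G.Adj y w := (hN.1 y w).1 hw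
      have hwy : w ∉ insert y C := by
        intro h
        rcases mem_insert_iff.1 h with h | h
        · exact hw'.ne h.symm
        · exact hwC h
      refine Finset.sum_le_sum fun n _ => ?_
      exact mul_le_mul_of_nonneg_left
        (h7 V G N D p hN T y δ hδ0 hδ n (insert y C) w (mem_insert _ _) hwy).2 hp0
  have e6 : (∑ w ∈ N y, if w ∈ C then 0 else ∑ n ∈ Finset.range L, (p : ℝ) *
        (δ * Phi G N p T n (insert y C) w)) = δ * ∑ n ∈ Finset.range L, Phi G N p T (n + 1) C y := by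
    have : ∀ n, Phi G N p T (n + 1) C y =
        ∑ v ∈ N y, if v ∈ C then 0 else (p : ℝ) * Phi G N p T n (insert y C) v := by
      intro n
      rw [Phi]
    simp only [this]
    rw [Finset.sum_comm, Finset.mul_sum]
    refine Finset.sum_congr rfl fun w _ => ?_
    by_cases hwC : w ∈ C
    · simp [hwC]
    · simp only [if_neg hwC]
      rw [Finset.mul_sum]
      refine Finset.sum_congr rfl fun n _ => ?_
      ring
  have e7 : ∑ n ∈ Finset.range L, Phi G N p T (n + 1) C y ≤ 3 ^ (L + 1) * Pb p (RT G C T y) := by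
    have f1 : ∀ n ∈ Finset.range L, Phi G N p T (n + 1) C y ≤ 3 ^ (n + 1) * Pb p (RT G C T y) :=
      fun n _ => (h8 V G N D p hN hDp (n + 1) C T y hy).2
    refine (Finset.sum_le_sum f1).trans ?_
    rw [← Finset.sum_mul]
    refine mul_le_mul_of_nonneg_right ?_ (Pb_nonneg _ _)
    have f2 : ∀ M : ℕ, ∑ n ∈ Finset.range M, (3 : ℝ) ^ (n + 1) ≤ 3 ^ (M + 1) - 3 := by
      intro M
      induction M with
      | zero => simp
      | succ M ih =>
        rw [Finset.sum_range_succ]
        have : (0 : ℝ) < 3 ^ (M + 1) := by positivity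
        have e : (3 : ℝ) ^ (M + 1 + 1) = 3 * 3 ^ (M + 1) := by ring
        linarith
    linarith [f2 L]
  have hcard : ((N y).card : ℝ) ≤ D := by exact_mod_cast hN.2 y
  calc E2 G N p C T y ≤ ∑ w ∈ N y, ∑ v ∈ N y, bd v w := by
        rw [← e3]; exact e1.trans e2
    _ ≤ ((N y).card : ℝ) * (E1 G N p C T y * (p * q)) +
        δ * ∑ n ∈ Finset.range L, Phi G N p T (n + 1) C y := by
        rw [e4, ← e6]
        gcongr
    _ ≤ (D : ℝ) * (E1 G N p C T y * (p * q)) + δ * (3 ^ (L + 1) * Pb p (RT G C T y)) := by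
        have hpq : 0 ≤ E1 G N p C T y * (p * q) := mul_nonneg hE1 (mul_nonneg hp0 hq0)
        exact add_le_add (mul_le_mul_of_nonneg_right hcard hpq) (mul_le_mul_of_nonneg_left e7 hδ0)
    _ = D * p * q * E1 G N p C T y + δ * 3 ^ (L + 1) * Pb p (RT G C T y) := by ring

end Pool.Agent.H659
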