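import Pool.Agent.H659.Stmts

/-
Sum of the probabilities that two vertices are joined through a given first edge (S_dd).
-/

set_option autoImplicit false

open MeasureTheory Set Filter Topology

namespace Pool.Agent.H659

open Pool.Agent.W783.PC (pm DepOn Inc)

namespace T365dd

variable {V : Type}

/-- number of walks -/
noncomputable def W (N : V → Finset V) (z : V) : ℕ → V → ℝ
  | 0, u => Set.indicator {z} (fun _ => 1) u
  | n + 1, u => ∑ v ∈ N u, W N z n v

theorem W_zero (N : V → Finset V) (z u : V) [Decidable (u = z)] :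
    W N z 0 u = if u = z then 1 else 0 := by
  simp [W, Set.indicator_apply]

theorem W_succ (N : V → Finset V) (z : V) (n : ℕ) (u : V) :
    W N z (n + 1) u = ∑ v ∈ N u, W N z n v := rfl

theorem W_le {G : SimpleGraph V} {N : V → Finset V} {D : ℕ} (hN : Nb G N D) (z : V) :
    ∀ (n : ℕ) (u : V), W N z (n + 1) u ≤ (D : ℝ) ^ n
  | 0, u => by
    classical
    rw [W_succ, pow_zero]
    simp only [W_zero]
    rw [Finset.sum_ite_eq']
    split_ifs <;> norm_num
  | n + 1, u => by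
    rw [W_succ]
    calc ∑ v ∈ N u, W N z (n + 1) v ≤ ∑ _v ∈ N u, (D : ℝ) ^ n :=
          Finset.sum_le_sum fun v _ => W_le hN z n v
      _ = (N u).card * (D : ℝ) ^ n := by rw [Finset.sum_const, nsmul_eq_mul]
      _ ≤ D * (D : ℝ) ^ n := by
          apply mul_le_mul_of_nonneg_right _ (by positivity)
          exact_mod_cast hN.2 u
      _ = (D : ℝ) ^ (n + 1) := by ring

theorem fm_edge (e : Sym2 V) : Fm (fun K : Set (Sym2 V) => e ∈ K) :=
  ⟨fun _ _ h h' => h h', fun _ h => ⟨{e}, by simpa using h, Set.finite_singleton e, rfl⟩⟩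

theorem pb_mono [Countable V] (p : unitInterval) {A B : Set (Sym2 V) → Prop}
    (h : ∀ K, A K → B K) : Pb p A ≤ Pb p B := by
  unfold Pb
  exact measureReal_mono (fun ω hω => h _ hω)

theorem pb_nonneg (p : unitInterval) (A : Set (Sym2 V) → Prop) : 0 ≤ Pb p A :=
  measureReal_nonneg

theorem pb_or [Countable V] (p : unitInterval) (A B : Set (Sym2 V) → Prop) :
    Pb p (fun K => A K ∨ B K) ≤ Pb p A + Pb p B := by
  unfold Pb
  exact measureReal_union_le (Ev A) (Ev B)

theorem pb_ex [Countable V] {ι : Type} (p : unitInterval) (s : Finset ι)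
    (A : ι → Set (Sym2 V) → Prop) :
    Pb p (fun K => ∃ i ∈ s, A i K) ≤ ∑ i ∈ s, Pb p (A i) := by
  classical
  induction s using Finset.induction_on with
  | empty =>
    simp only [Finset.notMem_empty, false_and, exists_false, Finset.sum_empty]
    have : Ev (fun _ : Set (Sym2 V) => False) = ∅ := by
      ext ω
      simp [Ev]
    unfold Pb
    rw [this]
    simp
  | insert a s ha ih =>
    rw [Finset.sum_insert ha]
    refine le_trans (pb_mono p (B := fun K => A a K ∨ ∃ i ∈ s, A i K) ?_)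
      ((pb_or p _ _).trans (add_le_add le_rfl ih))
    rintro K ⟨i, hi, h⟩
    rcases Finset.mem_insert.1 hi with rfl | hi
    · exact Or.inl h
    · exact Or.inr ⟨i, hi, h⟩

theorem fm_ex {ι : Type} {P : ι → Prop} {A : ι → Set (Sym2 V) → Prop} (h : ∀ i, Fm (A i)) :
    Fm (fun K => ∃ i, P i ∧ A i K) := by
  refine ⟨?_, ?_⟩
  · rintro K K' hK ⟨i, hi, h1⟩
    exact ⟨i, hi, (h i).1 K K' hK h1⟩
  · rintro K ⟨i, hi, h1⟩
    obtain ⟨K', h2, h3, h4⟩ := (h i).2 K h1
    exact ⟨K', h2, h3, i, hi, h4⟩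

theorem sc_fm (h2 : S_fmdj) (G : SimpleGraph V) (z : V) : ∀ (n : ℕ) (C : Set V) (u : V),
    Fm (SC G z n C u)
  | 0, _, u => ⟨fun _ _ _ h => h, fun _ h => ⟨∅, Set.empty_subset _, Set.finite_empty, h⟩⟩
  | n + 1, C, u => by
    have h := fm_ex (P := fun v => G.Adj u v ∧ v ∉ C)
      (A := fun v => Dj (fun K' => s(u, v) ∈ K') (SC G z n (insert u C) v))
      (fun v => h2 V _ _ (fm_edge _) (sc_fm h2 G z n (insert u C) v))
    simp only [and_assoc] at h
    exact h

theorem bk1 [Countable V] (h1 : S_bk) (h3 : S_edge) (p : unitInterval) (e : Sym2 V)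
    {B : Set (Sym2 V) → Prop} (hB : Fm B) {b : ℝ} (hb : Pb p B ≤ b) :
    Pb p (Dj (fun K' => e ∈ K') B) ≤ p * b := by
  refine (h1 V p _ _ (fm_edge e) hB).trans ?_
  rw [h3 V p e]
  exact mul_le_mul_of_nonneg_left hb p.2.1

theorem sc_pb [Countable V] (h1 : S_bk) (h2 : S_fmdj) (h3 : S_edge) {G : SimpleGraph V}
    {N : V → Finset V} {D : ℕ} (p : unitInterval) (hN : Nb G N D) (z : V) :
    ∀ (n : ℕ) (C : Set V) (u : V), Pb p (SC G z n C u) ≤ (p : ℝ) ^ n * W N z n u
  | 0, C, u => by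
    classical
    rw [W_zero, pow_zero, one_mul]
    split_ifs with h
    · unfold Pb
      exact measureReal_le_one
    · have : Ev (SC G z 0 C u) = ∅ := by
        ext ω
        simp [Ev, SC, h]
      unfold Pb
      rw [this]
      simp
  | n + 1, C, u => by
    have e1 : Pb p (SC G z (n + 1) C u) ≤ ∑ v ∈ N u,
        Pb p (Dj (fun K' => s(u, v) ∈ K') (SC G z n (insert u C) v)) := by
      refine le_trans (pb_mono p ?_) (pb_ex p (N u) _)
      rintro K ⟨v, hv, -, h⟩
      exact ⟨v, (hN.1 u v).2 hv, h⟩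
    refine e1.trans ?_
    rw [W_succ, Finset.mul_sum]
    refine Finset.sum_le_sum fun v _ => ?_
    refine (bk1 h1 h3 p _ (sc_fm h2 G z n _ v) (sc_pb h1 h2 h3 p hN z n _ v)).trans ?_
    apply le_of_eq
    ring

theorem sc_del (G : SimpleGraph V) (z y w : V) : ∀ (n : ℕ) (C : Set V) (u : V)
    (K : Set (Sym2 V)), y ∈ C → u ≠ y → SC G z n C u K → SC G z n C u (K \ {s(y, w)})
  | 0, _, _, _, _, _, h => h
  | n + 1, C, u, K, hy, hu, h => by
    obtain ⟨v, h1, h2, K₁, K₂, h3, h4, h5, h6, h7⟩ := h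
    have hv : v ≠ y := fun e => h2 (e ▸ hy)
    refine ⟨v, h1, h2, K₁ \ {s(y, w)}, K₂ \ {s(y, w)}, Set.sdiff_subset_sdiff_left h3,
      Set.sdiff_subset_sdiff_left h4, h5.mono Set.sdiff_subset Set.sdiff_subset, ⟨h6, ?_⟩,
      sc_del G z y w n (insert u C) v K₂ (Set.mem_insert_of_mem _ hy) hv h7⟩
    intro e
    rw [Set.mem_singleton_iff, Sym2.eq_iff] at e
    rcases e with ⟨e, -⟩ | ⟨-, e⟩
    · exact hu e
    · exact hv e

theorem lp_del (G : SimpleGraph V) (y w : V) : ∀ (n : ℕ) (C : Set V) (u : V)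
    (K : Set (Sym2 V)), y ∈ C → u ≠ y → LP G n C u K → LP G n C u (K \ {s(y, w)})
  | 0, _, _, _, _, _, h => h
  | n + 1, C, u, K, hy, hu, h => by
    obtain ⟨v, h1, h2, K₁, K₂, h3, h4, h5, h6, h7⟩ := h
    have hv : v ≠ y := fun e => h2 (e ▸ hy)
    refine ⟨v, h1, h2, K₁ \ {s(y, w)}, K₂ \ {s(y, w)}, Set.sdiff_subset_sdiff_left h3,
      Set.sdiff_subset_sdiff_left h4, h5.mono Set.sdiff_subset Set.sdiff_subset, ⟨h6, ?_⟩,
      lp_del G y w n (insert u C) v K₂ (Set.mem_insert_of_mem _ hy) hv h7⟩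
    intro e
    rw [Set.mem_singleton_iff, Sym2.eq_iff] at e
    rcases e with ⟨e, -⟩ | ⟨-, e⟩
    · exact hu e
    · exact hv e

theorem dj_edge {e : Sym2 V} {B : Set (Sym2 V) → Prop} {K : Set (Sym2 V)} (he : e ∈ K)
    (hB : B (K \ {e})) : Dj (fun K' => e ∈ K') B K :=
  ⟨{e}, K \ {e}, by simpa using he, Set.sdiff_subset, Set.disjoint_sdiff_right, rfl, hB⟩

theorem dd_pb [Countable V] (h1 : S_bk) (h2 : S_fmdj) (h3 : S_edge) (h4 : S_lp) (h5 : S_split)
    {G : SimpleGraph V} {N : V → Finset V} {D : ℕ} (p : unitInterval) (hN : Nb G N D) (L : ℕ)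
    (y z v : V) (hv : G.Adj y v) :
    Pb p (DD G y v z) ≤ ∑ n ∈ Finset.range L, (p : ℝ) ^ (n + 1) * W N z n v +
      p * qb p D L := by
  have hvy : v ≠ y := hv.ne'
  have e1 : Pb p (DD G y v z) ≤ Pb p (fun K =>
      (∃ n ∈ Finset.range L, Dj (fun K' => s(y, v) ∈ K') (SC G z n {y} v) K) ∨
        Dj (fun K' => s(y, v) ∈ K') (LP G L {y} v) K) := by
    refine pb_mono p ?_
    rintro K ⟨h6, h7⟩
    rcases h5 V G {y} L v z K h7 with ⟨n, hn, h8⟩ | h8
    · exact Or.inl ⟨n, Finset.mem_range.2 hn,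
        dj_edge h6 (sc_del G z y v n {y} v K rfl hvy h8)⟩
    · exact Or.inr (dj_edge h6 (lp_del G y v L {y} v K rfl hvy h8))
  refine e1.trans ((pb_or p _ _).trans (add_le_add ((pb_ex p _ _).trans ?_) ?_))
  · refine Finset.sum_le_sum fun n _ => ?_
    refine (bk1 h1 h3 p _ (sc_fm h2 G z n _ v) (sc_pb h1 h2 h3 p hN z n _ v)).trans ?_
    apply le_of_eq
    ring
  · obtain ⟨h6, h7⟩ := h4 V G N D p hN L {y} v
    exact bk1 h1 h3 p _ h6 h7

end T365dd

open T365dd in
theorem t_dd (h1 : S_bk) (h2 : S_fmdj) (h3 : S_edge) (h4 : S_lp) (h5 : S_split) (h6 : S_meas) :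
    S_dd := by
  clear h6
  intro V _ G N D p hN L y z _
  have hq : 0 ≤ qb p D L := (pb_nonneg p _).trans (h4 V G N D p hN L ∅ y).2
  calc ∑ v ∈ N y, Pb p (DD G y v z)
      ≤ ∑ v ∈ N y, (∑ n ∈ Finset.range L, (p : ℝ) ^ (n + 1) * W N z n v + p * qb p D L) :=
        Finset.sum_le_sum fun v hv => dd_pb h1 h2 h3 h4 h5 p hN L y z v ((hN.1 y v).1 hv)
    _ = ∑ n ∈ Finset.range L, (p : ℝ) ^ (n + 1) * W N z (n + 1) y +
          (N y).card * (p * qb p D L) := by
        rw [Finset.sum_add_distrib, Finset.sum_comm, Finset.sum_const, nsmul_eq_mul]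
        congr 1
        refine Finset.sum_congr rfl fun n _ => ?_
        rw [W_succ, Finset.mul_sum]
    _ ≤ ∑ n ∈ Finset.range L, (p : ℝ) ^ (n + 1) * (D : ℝ) ^ n + D * (p * qb p D L) := by
        refine add_le_add (Finset.sum_le_sum fun n _ => ?_) ?_
        · exact mul_le_mul_of_nonneg_left (W_le hN z n y) (pow_nonneg p.2.1 _)
        · apply mul_le_mul_of_nonneg_right _ (mul_nonneg p.2.1 hq)
          exact_mod_cast hN.2 y
    _ = p * ∑ n ∈ Finset.range L, (D * (p : ℝ)) ^ n + D * p * qb p D L := by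
        rw [Finset.mul_sum, mul_assoc]
        congr 1
        refine Finset.sum_congr rfl fun n _ => ?_
        rw [mul_pow]
        ring

end Pool.Agent.H659
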