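import Pool.Agent.H659.Stmts
import Pool.Agent.W45.PC.PT1
import Pool.Agent.W400.PC.PT
import Pool.Agent.W424.PC.Russo

set_option autoImplicit false

open MeasureTheory Set Filter Topology

namespace Pool.Agent.H659

open Pool.Agent.W783.PC (pm DepOn Inc)

namespace Der768

open Pool.Agent.W400.PC (um cf meas_cf pm_eq um_eval)

/-! ### Graph facts -/

section graph

variable {V : Type} {G : SimpleGraph V}

lemma gr_mono {K K' : Set (Sym2 V)} {C C' : Set V} (hK : K ⊆ K') (hC : C' ⊆ C) :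
    Gr G K C ≤ Gr G K' C' := by
  intro a b h
  obtain ⟨h1, h2, h3, h4⟩ := h
  exact ⟨h1, hK h2, fun h => h3 (hC h), fun h => h4 (hC h)⟩

lemma nf_mono (o : V) (K K' : Set (Sym2 V)) (hK : K ⊆ K') (h : Nf G ∅ o K) : Nf G ∅ o K' := by
  refine ⟨h.1, h.2.mono ?_⟩
  intro v hv
  exact SimpleGraph.Reachable.mono (gr_mono hK (subset_refl _)) hv

lemma cl_congr {o : V} {e : Sym2 V} {K K' : Set (Sym2 V)} (h : K \ {e} = K' \ {e}) :
    Cl G o e K = Cl G o e K' := by
  unfold Cl
  rw [h]

lemma gr_congr {x y : V} {K K' : Set (Sym2 V)} (h : K \ {s(x, y)} = K' \ {s(x, y)}) {C : Set V}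
    (hx : x ∈ C) : Gr G K C = Gr G K' C := by
  have key : ∀ K₁ K₂ : Set (Sym2 V), K₁ \ {s(x, y)} = K₂ \ {s(x, y)} →
      ∀ a b, (Gr G K₁ C).Adj a b → (Gr G K₂ C).Adj a b := by
    intro K₁ K₂ hh a b hab
    obtain ⟨h1, h2, h3, h4⟩ := hab
    have hne : s(a, b) ≠ s(x, y) := by
      intro he
      rw [Sym2.eq_iff] at he
      rcases he with ⟨h5, _⟩ | ⟨_, h5⟩
      · exact h3 (h5 ▸ hx)
      · exact h4 (h5 ▸ hx)
    have h6 : s(a, b) ∈ K₁ \ {s(x, y)} := ⟨h2, hne⟩
    rw [hh] at h6
    exact ⟨h1, h6.1, h3, h4⟩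
  ext a b
  exact ⟨key _ _ h a b, key _ _ h.symm a b⟩

lemma pv_congr {o x y : V} {K K' : Set (Sym2 V)} (h : K \ {s(x, y)} = K' \ {s(x, y)})
    (hP : Pv G o x y K) : Pv G o x y K' := by
  obtain ⟨h1, h2, h3, h4⟩ := hP
  have hC : Cl G o s(x, y) K = Cl G o s(x, y) K' := cl_congr h
  rw [hC] at h1 h2 h3 h4
  refine ⟨h1, h2, h3, h4.1, ?_⟩
  have := h4.2
  rwa [gr_congr h h2] at this

lemma piv_on {o x y : V} {K K' : Set (Sym2 V)} (hG : G.Adj x y) (hK : K ⊆ K')
    (he : s(x, y) ∈ K') (hP : Pv G o x y K) : Nf G ∅ o K' := by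
  obtain ⟨h1, h2, h3, h4⟩ := hP
  refine ⟨fun h => h, h4.2.mono ?_⟩
  intro v hv
  have hv' : (Gr G K' ∅).Reachable y v :=
    SimpleGraph.Reachable.mono (gr_mono hK (empty_subset _)) hv
  have hx : (Gr G K' ∅).Reachable o x :=
    SimpleGraph.Reachable.mono (gr_mono (sdiff_subset.trans hK) (empty_subset _)) h2
  have hxy : (Gr G K' ∅).Adj x y := ⟨hG, he, fun h => h, fun h => h⟩
  exact (hx.trans hxy.reachable).trans hv'

lemma piv_off {o x y : V} {K : Set (Sym2 V)} (he : s(x, y) ∉ K) (hP : Pv G o x y K) :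
    ¬ Nf G ∅ o K := by
  intro h
  have h1 := hP.1
  unfold Cl at h1
  rw [sdiff_singleton_eq_self he] at h1
  exact h.2 h1

lemma fm_reach (G : SimpleGraph V) (e : Sym2 V) (o z : V) :
    Fm (fun K => (Gr G (K \ {e}) ∅).Reachable o z) := by
  constructor
  · intro K K' hK h
    exact SimpleGraph.Reachable.mono (gr_mono (sdiff_subset_sdiff_left hK) (subset_refl _)) h
  · rintro K ⟨w⟩
    induction w with
    | nil => exact ⟨∅, empty_subset _, finite_empty, SimpleGraph.Reachable.refl _⟩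
    | @cons u v w h p ih =>
      obtain ⟨K', h1, h2, h3⟩ := ih
      obtain ⟨h4, h5, h6, h7⟩ := h
      refine ⟨insert s(u, v) K', insert_subset h5.1 h1, h2.insert _, ?_⟩
      have h8 : (Gr G (insert s(u, v) K' \ {e}) ∅).Adj u v :=
        ⟨h4, ⟨mem_insert _ _, h5.2⟩, h6, h7⟩
      exact h8.reachable.trans (SimpleGraph.Reachable.mono
        (gr_mono (sdiff_subset_sdiff_left (subset_insert _ _)) (subset_refl _)) h3)

lemma meas_pv [Countable V] (h1 : S_meas) (h2 : S_measNf) (G : SimpleGraph V) (o x y : V) :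
    MeasurableSet (Ev (Pv G o x y)) := by
  have hz : ∀ z, MeasurableSet {ω : Sym2 V → Bool | z ∈ Cl G o s(x, y) (opn ω)} := fun z =>
    h1 V _ (fm_reach G s(x, y) o z)
  have hC : ∀ C : Finset V,
      MeasurableSet {ω : Sym2 V → Bool | Cl G o s(x, y) (opn ω) = (C : Set V)} := by
    intro C
    have : {ω : Sym2 V → Bool | Cl G o s(x, y) (opn ω) = (C : Set V)} =
        ⋂ z : V, {ω | z ∈ Cl G o s(x, y) (opn ω) ↔ z ∈ (C : Set V)} := by
      ext ω
      simp only [mem_ofPred_eq, mem_iInter]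
      exact Set.ext_iff
    rw [this]
    refine MeasurableSet.iInter fun z => ?_
    by_cases hzC : z ∈ (C : Set V)
    · simpa only [hzC, iff_true] using hz z
    · simp only [hzC, iff_false]
      exact (hz z).compl
  have : Ev (Pv G o x y) = ⋃ C : Finset V, {ω : Sym2 V → Bool |
      Cl G o s(x, y) (opn ω) = (C : Set V)} ∩ ({ω | x ∈ (C : Set V) ∧ y ∉ (C : Set V)} ∩
        Ev (Nf G (C : Set V) y)) := by
    ext ω
    simp only [mem_iUnion]
    constructor
    · rintro ⟨h3, h4, h5, h6⟩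
      have hc : Cl G o s(x, y) (opn ω) = (h3.toFinset : Set V) := (h3.coe_toFinset).symm
      refine ⟨h3.toFinset, hc, ⟨?_, ?_⟩, ?_⟩
      · rw [← hc]; exact h4
      · rw [← hc]; exact h5
      · rw [← hc]; exact h6
    · rintro ⟨C, h3, ⟨h4, h5⟩, h6⟩
      have h3' : Cl G o s(x, y) (opn ω) = (C : Set V) := h3
      refine ⟨?_, ?_, ?_, ?_⟩
      · rw [h3']; exact C.finite_toSet
      · rw [h3']; exact h4
      · rw [h3']; exact h5
      · rw [h3']; exact h6
  rw [this]
  refine MeasurableSet.iUnion fun C => (hC C).inter (MeasurableSet.inter ?_ (h2 V G _ y).1)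
  exact MeasurableSet.const _

end graph

/-! ### Independence of one uniform variable from the others -/

lemma um_indep {ι : Type} (e : ι) {S : Set unitInterval} (hS : MeasurableSet S)
    {B : Set (ι → unitInterval)} (hB : MeasurableSet B)
    (hd : ∀ U U' : ι → unitInterval, (∀ i, i ≠ e → U i = U' i) → U ∈ B → U' ∈ B) :
    um ι ({U | U e ∈ S} ∩ B) = volume S * um ι B := by
  classical
  have hI : ProbabilityTheory.iIndepFun (fun (i : ι) (ω : ι → unitInterval) => ω i) (um ι) :=
    ProbabilityTheory.iIndepFun_infinitePi (P := fun _ : ι => (volume : Measure unitInterval))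
      (X := fun _ u => u) (fun _ => measurable_id)
  have hI2 : ProbabilityTheory.iIndep (fun i : ι => MeasurableSpace.comap
      (fun ω : ι → unitInterval => ω i) inferInstance) (um ι) := hI
  have hle : ∀ i : ι, MeasurableSpace.comap (fun ω : ι → unitInterval => ω i) inferInstance ≤
      (inferInstance : MeasurableSpace (ι → unitInterval)) := fun i =>
    (measurable_pi_apply i).comap_le
  have hI3 := ProbabilityTheory.indep_iSup_of_disjoint hle hI2
    (S := {e}) (T := {e}ᶜ) disjoint_compl_right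
  rw [ProbabilityTheory.Indep_iff] at hI3
  rw [hI3 {U | U e ∈ S} B ?_ ?_, um_eval e hS]
  · refine (le_iSup₂_of_le (f := fun i (_ : i ∈ ({e} : Set ι)) => MeasurableSpace.comap
      (fun ω : ι → unitInterval => ω i) inferInstance) e rfl le_rfl) _ ?_
    exact ⟨S, hS, rfl⟩
  · have hg : @Measurable _ _ (⨆ i ∈ ({e}ᶜ : Set ι), MeasurableSpace.comap
        (fun ω : ι → unitInterval => ω i) inferInstance) inferInstance
        (fun U : ι → unitInterval => Function.update U e 0) := by
      refine @measurable_pi_lambda _ _ _ (_) _ _ fun i => ?_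
      by_cases hi : i = e
      · subst hi
        simp only [Function.update_self]
        exact @measurable_const _ _ _ (_) _
      · simp only [Function.update_of_ne hi]
        refine Measurable.mono (comap_measurable _) ?_ le_rfl
        exact le_iSup₂_of_le (f := fun i (_ : i ∈ ({e}ᶜ : Set ι)) => MeasurableSpace.comap
          (fun ω : ι → unitInterval => ω i) inferInstance) i hi le_rfl
    have hB' : B = (fun U : ι → unitInterval => Function.update U e 0) ⁻¹' B := by
      ext U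
      constructor
      · intro h
        refine hd U _ (fun i hi => ?_) h
        show U i = Function.update U e 0 i
        rw [Function.update_of_ne hi]
      · intro h
        refine hd _ U (fun i hi => ?_) h
        show Function.update U e 0 i = U i
        rw [Function.update_of_ne hi]
    rw [hB']
    exact hg hB

end Der768

open Der768 in
open Pool.Agent.W400.PC (um cf meas_cf pm_eq um_eval) in
theorem t_der (h1 : S_meas) (h2 : S_measNf) (h3 : S_mono) : S_der := by
  classical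
  intro V _ G p o F c hF hc
  set s : ℝ := ∑ q ∈ F, Pb p (Pv G o q.1 q.2) with hs
  set n : ℝ := (F.card : ℝ) with hn
  have hn0 : 0 ≤ n := Nat.cast_nonneg _
  refine ⟨(s - c) / (n * n + 1), div_pos (sub_pos.2 hc) (by positivity), ?_⟩
  intro p' hpp' hη
  have hlt : (p : ℝ) < p' := hpp'
  set δ : ℝ := (p' : ℝ) - p with hδ
  have hδ0 : 0 < δ := sub_pos.2 hlt
  have hδ1 : δ * (n * n + 1) < s - c := by
    rw [← lt_div_iff₀ (by positivity)]
    linarith
  -- the coupling
  set μ := um (Sym2 V) with hμ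
  have hPb : ∀ (r : unitInterval) (A : Set (Sym2 V) → Prop), MeasurableSet (Ev A) →
      Pb r A = μ.real (cf (fun _ => r) ⁻¹' Ev A) := by
    intro r A hA
    unfold Pb Measure.real
    rw [pm_eq _ hA]
  have hNm : MeasurableSet (Ev (Nf G ∅ o)) := (h2 V G ∅ o).1
  have hPm : ∀ x y, MeasurableSet (Ev (Pv G o x y)) := fun x y => meas_pv h1 h2 G o x y
  have hopn : ∀ (r : unitInterval) (U : Sym2 V → unitInterval) (e : Sym2 V),
      e ∈ opn (cf (fun _ => r) U) ↔ U e < r := by
    intro r U e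
    unfold opn cf
    simp
  have hsub : ∀ U : Sym2 V → unitInterval,
      opn (cf (fun _ => p) U) ⊆ opn (cf (fun _ => p') U) := by
    intro U e he
    rw [hopn] at he ⊢
    exact he.trans hpp'
  set I : Set unitInterval := Ico p p' with hI
  have hIm : MeasurableSet I := measurableSet_Ico
  have hIv : volume I = ENNReal.ofReal δ := by
    rw [hI, unitInterval.volume_Ico]
  have hIv' : ∀ e : Sym2 V, μ.real {U | U e ∈ I} = δ := by
    intro e
    unfold Measure.real
    rw [um_eval e hIm, hIv, ENNReal.toReal_ofReal hδ0.le]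
  -- the events
  let R : V × V → Set (Sym2 V → unitInterval) := fun q =>
    (cf (fun _ => p) ⁻¹' Ev (Pv G o q.1 q.2)) \
      ⋃ q' ∈ F.filter (fun q' => s(q'.1, q'.2) ≠ s(q.1, q.2)), {U | U s(q'.1, q'.2) ∈ I}
  let H : V × V → Set (Sym2 V → unitInterval) := fun q => {U | U s(q.1, q.2) ∈ I} ∩ R q
  have hIe : ∀ e : Sym2 V, MeasurableSet {U : Sym2 V → unitInterval | U e ∈ I} := fun e =>
    (measurable_pi_apply e) hIm
  have hUm : ∀ q : V × V, MeasurableSet (⋃ q' ∈ F.filter (fun q' : V × V =>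
      s(q'.1, q'.2) ≠ s(q.1, q.2)), {U : Sym2 V → unitInterval | U s(q'.1, q'.2) ∈ I}) :=
    fun q => Finset.measurableSet_biUnion _ fun q' _ => hIe _
  have hRm : ∀ q, MeasurableSet (R q) := fun q =>
    (meas_cf _ (hPm q.1 q.2)).diff (hUm q)
  have hHm : ∀ q, MeasurableSet (H q) := fun q => (hIe _).inter (hRm q)
  -- the probability of `H q`
  have hR : ∀ q ∈ F, Pb p (Pv G o q.1 q.2) - n * δ ≤ μ.real (R q) := by
    intro q _
    have e1 : μ.real (⋃ q' ∈ F.filter (fun q' : V × V => s(q'.1, q'.2) ≠ s(q.1, q.2)),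
        {U : Sym2 V → unitInterval | U s(q'.1, q'.2) ∈ I}) ≤ n * δ := by
      refine (measureReal_biUnion_finset_le _ _).trans ?_
      simp only [hIv', Finset.sum_const, nsmul_eq_mul]
      refine mul_le_mul_of_nonneg_right ?_ hδ0.le
      rw [hn]
      exact Nat.cast_le.2 (Finset.card_filter_le _ _)
    have e2 : μ.real (cf (fun _ => p) ⁻¹' Ev (Pv G o q.1 q.2)) ≤ μ.real (R q) +
        μ.real (⋃ q' ∈ F.filter (fun q' : V × V => s(q'.1, q'.2) ≠ s(q.1, q.2)),
        {U : Sym2 V → unitInterval | U s(q'.1, q'.2) ∈ I}) := by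
      refine le_trans (measureReal_mono ?_ (measure_ne_top _ _)) (measureReal_union_le _ _)
      intro U hU
      by_cases hU' : U ∈ ⋃ q' ∈ F.filter (fun q' : V × V => s(q'.1, q'.2) ≠ s(q.1, q.2)),
        {U : Sym2 V → unitInterval | U s(q'.1, q'.2) ∈ I}
      · exact Or.inr hU'
      · exact Or.inl ⟨hU, hU'⟩
    rw [hPb p _ (hPm _ _)]
    linarith
  have hH : ∀ q ∈ F, δ * (Pb p (Pv G o q.1 q.2) - n * δ) ≤ μ.real (H q) := by
    intro q hq
    have e1 : μ.real (H q) = δ * μ.real (R q) := by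
      have := um_indep (s(q.1, q.2)) hIm (hRm q) ?_
      · unfold Measure.real
        rw [this, ENNReal.toReal_mul, hIv, ENNReal.toReal_ofReal hδ0.le]
      · rintro U U' hUU ⟨hU1, hU2⟩
        refine ⟨?_, ?_⟩
        · show Pv G o q.1 q.2 (opn (cf (fun _ => p) U'))
          refine pv_congr ?_ hU1
          ext e
          simp only [Set.mem_sdiff, mem_singleton_iff, hopn]
          constructor
          · rintro ⟨h4, h5⟩
            exact ⟨by rw [← hUU e h5]; exact h4, h5⟩
          · rintro ⟨h4, h5⟩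
            exact ⟨by rw [hUU e h5]; exact h4, h5⟩
        · simp only [mem_iUnion, not_exists] at hU2 ⊢
          intro q' hq' h6
          refine hU2 q' hq' ?_
          have h7 := (Finset.mem_filter.1 hq').2
          show U s(q'.1, q'.2) ∈ I
          rw [hUU _ h7]
          exact h6
    rw [e1]
    exact mul_le_mul_of_nonneg_left (hR q hq) hδ0.le
  -- disjointness
  have hdis : (F : Set (V × V)).PairwiseDisjoint H := by
    intro q hq q' hq' hne
    rw [Function.onFun, Set.disjoint_left]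
    rintro U ⟨hU1, hU2, hU3⟩ ⟨hU1', hU2', hU3'⟩
    by_cases he : s(q'.1, q'.2) = s(q.1, q.2)
    · have h4 : Pv G o q.1 q.2 (opn (cf (fun _ => p) U)) := hU2
      have h5 : Pv G o q'.1 q'.2 (opn (cf (fun _ => p) U)) := hU2'
      have h6 := he
      rw [Sym2.eq_iff] at h6
      rcases h6 with ⟨h7, h8⟩ | ⟨h7, h8⟩
      · exact hne (Prod.ext h7.symm h8.symm)
      · have h9 := h4.2.1
        have h10 := h5.2.2.1
        rw [he, h8] at h10
        exact h10 h9
    · simp only [mem_iUnion, not_exists] at hU3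
      exact hU3 q' (Finset.mem_filter.2 ⟨hq', he⟩) hU1'
  -- conclusion
  have hB0m : MeasurableSet (cf (fun _ => p) ⁻¹' Ev (Nf G ∅ o)) := meas_cf _ hNm
  have hB1m : MeasurableSet (cf (fun _ => p') ⁻¹' Ev (Nf G ∅ o)) := meas_cf _ hNm
  have hB : cf (fun _ => p) ⁻¹' Ev (Nf G ∅ o) ⊆ cf (fun _ => p') ⁻¹' Ev (Nf G ∅ o) := by
    intro U hU
    exact nf_mono o _ _ (hsub U) hU
  have hHB : (⋃ q ∈ F, H q) ⊆
      (cf (fun _ => p') ⁻¹' Ev (Nf G ∅ o)) \ (cf (fun _ => p) ⁻¹' Ev (Nf G ∅ o)) := by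
    intro U hU
    simp only [mem_iUnion] at hU
    obtain ⟨q, hq, hU1, hU2, hU3⟩ := hU
    have hU1' : U s(q.1, q.2) ∈ Ico p p' := hU1
    refine ⟨?_, ?_⟩
    · exact piv_on (hF q hq) (hsub U) ((hopn _ _ _).2 hU1'.2) hU2
    · exact piv_off (fun h => absurd ((hopn _ _ _).1 h) (not_lt.2 hU1'.1)) hU2
  have hfin : ∑ q ∈ F, μ.real (H q) ≤ Pb p' (Nf G ∅ o) - Pb p (Nf G ∅ o) := by
    rw [hPb p' _ hNm, hPb p _ hNm, ← measureReal_sdiff hB hB0m,
      ← measureReal_biUnion_finset hdis fun q _ => hHm q]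
    exact measureReal_mono hHB (measure_ne_top _ _)
  have hsum : δ * (s - n * (n * δ)) ≤ ∑ q ∈ F, μ.real (H q) := by
    refine le_trans (le_of_eq ?_) (Finset.sum_le_sum hH)
    rw [← Finset.mul_sum, Finset.sum_sub_distrib, Finset.sum_const, nsmul_eq_mul]
  refine le_trans ?_ (hsum.trans hfin)
  rw [mul_comm c δ]
  refine mul_le_mul_of_nonneg_left ?_ hδ0.le
  nlinarith

end Pool.Agent.H659
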