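import Pool.Agent.H659.Stmts

set_option autoImplicit false

open MeasureTheory Set Filter Topology

namespace Pool.Agent.H659

open Pool.Agent.W783.PC (pm DepOn Inc)

namespace Det917

variable {V : Type} {G : SimpleGraph V}

/-- A walk with edges in `K` and vertices off `C` gives a connection. -/
theorem reach_of_walk {K : Set (Sym2 V)} {C : Set V} {a b : V} (P : G.Walk a b)
    (hE : ∀ e ∈ P.edges, e ∈ K) (hC : ∀ c ∈ P.support, c ∉ C) : (Gr G K C).Reachable a b := by
  induction P with
  | nil => exact SimpleGraph.Reachable.refl _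
  | cons h p ih =>
    have h1 : (Gr G K C).Adj _ _ := ⟨h, hE _ (by simp), hC _ (by simp),
      hC _ (by simp [SimpleGraph.Walk.start_mem_support])⟩
    exact h1.reachable.trans (ih (fun e he => hE e (by simp [he])) fun c hc => hC c (by simp [hc]))

/-- A connection gives a path. -/
theorem path_of_reach {K : Set (Sym2 V)} {C : Set V} {a b : V} (ha : a ∉ C)
    (h : (Gr G K C).Reachable a b) : ∃ P : G.Walk a b, P.IsPath ∧ (∀ e ∈ P.edges, e ∈ K) ∧
      ∀ c ∈ P.support, c ∉ C := by
  classical
  obtain ⟨W⟩ := h
  have hle : Gr G K C ≤ G := fun x y hxy => hxy.1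
  have key : ∀ {a b : V} (W : (Gr G K C).Walk a b), a ∉ C → (∀ e ∈ W.edges, e ∈ K) ∧
      ∀ c ∈ W.support, c ∉ C := by
    intro a b W
    induction W with
    | nil => intro ha; simpa using ha
    | cons h p ih =>
      intro ha
      obtain ⟨h1, h2⟩ := ih h.2.2.2
      constructor
      · intro e he
        rw [SimpleGraph.Walk.edges_cons, List.mem_cons] at he
        rcases he with rfl | he
        · exact h.2.1
        · exact h1 e he
      · intro c hc
        rw [SimpleGraph.Walk.support_cons, List.mem_cons] at hc
        rcases hc with rfl | hc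
        · exact ha
        · exact h2 c hc
  obtain ⟨h1, h2⟩ := key W.toPath.1 ha
  refine ⟨W.toPath.1.mapLe hle, ?_, ?_, ?_⟩
  · exact (SimpleGraph.Walk.isPath_mapLe hle).2 W.toPath.2
  · rw [SimpleGraph.Walk.edges_mapLe_eq_edges]; exact h1
  · rw [SimpleGraph.Walk.support_mapLe_eq_support]; exact h2

theorem notMem_edges {a b u u' : V} {P : G.Walk a b} (h : u ∉ P.support) : s(u, u') ∉ P.edges :=
  fun he => h (P.fst_mem_support_of_mem_edges he)

/-- The induction along the second path. -/
theorem main (T : Set V) (y v t : V) (ht : t ∈ T) (P : G.Walk v t) (hP : P.IsPath) :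
    ∀ (L : ℕ) (C' : Set V) (u t' : V) (Q : G.Walk u t'), y ∈ C' → (∀ a ∈ P.support, a ∉ C') →
      Q.IsPath → (∀ a ∈ Q.support, a ∉ C') → L ≤ Q.length →
      LP G L C' u {e | e ∈ Q.edges ∧ e ∉ P.edges} ∨
        ∃ n < L, XX G T (DD G y v) n C' u (insert s(y, v) {e | e ∈ P.edges ∨ e ∈ Q.edges}) := by
  classical
  intro L
  induction L with
  | zero => intro C' u t' Q _ _ _ _ _; left; trivial
  | succ L ih =>
    intro C' u t' Q hy hPC hQ hQC hL
    have huC : u ∉ C' := hQC u Q.start_mem_support
    by_cases hu : u ∈ P.support
    · right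
      refine ⟨0, Nat.succ_pos L, ?_⟩
      have hyP : y ∉ P.support := fun h => hPC y h hy
      have hsplit : (P.takeUntil u hu).edges ++ (P.dropUntil u hu).edges = P.edges := by
        rw [← SimpleGraph.Walk.edges_append, SimpleGraph.Walk.take_spec]
      have hnd : ((P.takeUntil u hu).edges ++ (P.dropUntil u hu).edges).Nodup := by
        rw [hsplit]; exact hP.isTrail.edges_nodup
      have hsup1 : ∀ c ∈ (P.takeUntil u hu).support, c ∈ P.support :=
        fun c hc => P.support_takeUntil_subset_support hu hc
      have hsup2 : ∀ c ∈ (P.dropUntil u hu).support, c ∈ P.support :=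
        fun c hc => P.support_dropUntil_subset_support hu hc
      refine ⟨insert s(y, v) {e | e ∈ (P.takeUntil u hu).edges},
        {e | e ∈ (P.dropUntil u hu).edges}, ?_, ?_, ?_, ⟨Or.inl rfl, ?_⟩, huC, t, ht, ?_⟩
      · intro e he
        rcases he with rfl | he
        · exact Or.inl rfl
        · right; left; rw [← hsplit]; exact List.mem_append_left _ he
      · intro e he
        right; left; rw [← hsplit]; exact List.mem_append_right _ he
      · rw [Set.disjoint_left]
        rintro e (rfl | he) he'
        · have h1 : s(y, v) ∈ P.edges := by rw [← hsplit]; exact List.mem_append_right _ he'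
          exact notMem_edges hyP h1
        · exact (List.nodup_append.1 hnd).2.2 e he e he' rfl
      · refine reach_of_walk (P.takeUntil u hu) (fun e he => Or.inr he) fun c hc hcy => ?_
        rw [Set.mem_singleton_iff] at hcy
        subst hcy
        exact hyP (hsup1 c hc)
      · exact reach_of_walk (P.dropUntil u hu) (fun e he => he) fun c hc => hPC c (hsup2 c hc)
    · cases Q with
      | nil => simp at hL
      | cons h Q' =>
        rename_i u'
        rw [SimpleGraph.Walk.length_cons] at hL
        rw [SimpleGraph.Walk.cons_isPath_iff] at hQ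
        have hQC' : ∀ a ∈ Q'.support, a ∉ C' := fun a ha => hQC a (by simp [ha])
        have hu' : u' ∉ C' := hQC' u' Q'.start_mem_support
        have h1 := ih (insert u C') u' t' Q' (Or.inr hy) (fun a ha hac => by
            rcases hac with rfl | hac
            · exact hu ha
            · exact hPC a ha hac) hQ.1 (fun a ha hac => by
            rcases hac with rfl | hac
            · exact hQ.2 ha
            · exact hQC' a ha hac) (by omega)
        rcases h1 with h1 | ⟨n, hn, h1⟩
        · left
          refine ⟨u', h, hu', {s(u, u')}, {e | e ∈ Q'.edges ∧ e ∉ P.edges}, ?_, ?_, ?_, rfl, h1⟩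
          · rintro e rfl
            exact ⟨by simp, notMem_edges hu⟩
          · rintro e ⟨he, he'⟩
            exact ⟨by simp [he], he'⟩
          · rw [Set.disjoint_left]
            rintro e rfl ⟨he, _⟩
            exact notMem_edges hQ.2 he
        · right
          refine ⟨n + 1, by omega, u', h, hu', {s(u, u')},
            insert s(y, v) {e | e ∈ P.edges ∨ e ∈ Q'.edges}, ?_, ?_, ?_, rfl, h1⟩
          · rintro e rfl
            right; right; simp
          · rintro e (rfl | he | he)
            · exact Or.inl rfl
            · exact Or.inr (Or.inl he)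
            · right; right; simp [he]
          · rw [Set.disjoint_left]
            rintro e rfl (he | he | he)
            · rw [Sym2.eq_iff] at he
              rcases he with ⟨h2, _⟩ | ⟨h2, _⟩
              · exact huC (h2 ▸ hy)
              · exact hu (h2 ▸ P.start_mem_support)
            · exact notMem_edges hu he
            · exact notMem_edges hQ.2 he

end Det917

open Det917 in
theorem t_det : S_det := by
  intro V G C T L y v w K hy hyv hyw hvw hdist hv hw
  obtain ⟨hvK, hvC, t, ht, hvt⟩ := hv
  obtain ⟨hwK, hwC, t', ht', hwt⟩ := hw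
  obtain ⟨P, hP, hPK, hPC⟩ := path_of_reach hvC hvt
  obtain ⟨Q, hQ, hQK, hQC⟩ := path_of_reach hwC hwt
  have hyP : y ∉ P.support := fun h => hPC y h (Or.inl rfl)
  have hyQ : y ∉ Q.support := fun h => hQC y h (Or.inl rfl)
  have hne : s(y, w) ≠ s(y, v) := by
    intro h
    rw [Sym2.eq_iff] at h
    rcases h with ⟨_, h⟩ | ⟨h, _⟩
    · exact hvw h.symm
    · exact hyv.ne h
  rcases main T y v t ht P hP L (insert y C) w t' Q (Or.inl rfl) hPC hQ hQC (hdist t' ht' Q) with
    h | ⟨n, hn, h⟩
  · left
    refine ⟨insert s(y, v) {e | e ∈ P.edges}, insert s(y, w) {e | e ∈ Q.edges ∧ e ∉ P.edges},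
      ?_, ?_, ?_, ⟨Or.inl rfl, hvC, t, ht, reach_of_walk P (fun e he => Or.inr he) hPC⟩,
      {s(y, w)}, {e | e ∈ Q.edges ∧ e ∉ P.edges}, ?_, ?_, ?_, rfl, h⟩
    · rintro e (rfl | he)
      · exact hvK
      · exact hPK e he
    · rintro e (rfl | he)
      · exact hwK
      · exact hQK e he.1
    · rw [Set.disjoint_left]
      rintro e (rfl | he) (he' | he')
      · exact hne he'.symm
      · exact notMem_edges hyQ he'.1
      · subst he'
        exact notMem_edges hyP he
      · exact he'.2 he
    · rintro e rfl
      exact Or.inl rfl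
    · exact fun e he => Or.inr he
    · rw [Set.disjoint_left]
      rintro e rfl he
      exact notMem_edges hyQ he.1
  · right
    refine ⟨n, hn, {s(y, w)}, insert s(y, v) {e | e ∈ P.edges ∨ e ∈ Q.edges}, ?_, ?_, ?_, rfl, h⟩
    · rintro e rfl
      exact hwK
    · rintro e (rfl | he | he)
      · exact hvK
      · exact hPK e he
      · exact hQK e he
    · rw [Set.disjoint_left]
      rintro e rfl (he | he | he)
      · exact hne he
      · exact notMem_edges hyP he
      · exact notMem_edges hyQ he

end Pool.Agent.H659
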