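import Pool.Agent.H659.Stmts
import Pool.Agent.W45.PC.PT1

set_option autoImplicit false

open MeasureTheory Set Filter Topology

namespace Pool.Agent.H659

open Pool.Agent.W783.PC (pm DepOn Inc)

namespace ExpAux

variable {V : Type}

lemma gr_mono (G : SimpleGraph V) {K K' : Set (Sym2 V)} {C C' : Set V} (hK : K ⊆ K')
    (hC : C' ⊆ C) : Gr G K C ≤ Gr G K' C' := by
  intro a b h
  exact ⟨h.1, hK h.2.1, fun h' => h.2.2.1 (hC h'), fun h' => h.2.2.2 (hC h')⟩

lemma walk_fin (G : SimpleGraph V) (K : Set (Sym2 V)) (C : Set V) {a b : V}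
    (h : (Gr G K C).Reachable a b) :
    ∃ K' : Set (Sym2 V), K' ⊆ K ∧ K'.Finite ∧ (Gr G K' C).Reachable a b := by
  obtain ⟨w⟩ := h
  induction w with
  | nil => exact ⟨∅, empty_subset _, finite_empty, SimpleGraph.Reachable.refl _⟩
  | cons hadj w ih =>
    rename_i u v w'
    obtain ⟨K', h1, h2, h3⟩ := ih
    refine ⟨insert s(u, v) K', insert_subset hadj.2.1 h1, h2.insert _, ?_⟩
    have h4 : (Gr G (insert s(u, v) K') C).Adj u v :=
      ⟨hadj.1, mem_insert _ _, hadj.2.2.1, hadj.2.2.2⟩
    exact h4.reachable.trans (h3.mono (gr_mono G (subset_insert _ _) subset_rfl))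

lemma big_mono (G : SimpleGraph V) (X A : Finset V) (B : ℕ) {K K' : Set (Sym2 V)} (hK : K ⊆ K')
    (h : Big G X A B K) : Big G X A B K' := by
  obtain ⟨R, h1, h2⟩ := h
  refine ⟨R, h1, fun r hr => ?_⟩
  obtain ⟨a, ha, haX, hra⟩ := h2 r hr
  exact ⟨a, ha, haX, hra.mono (gr_mono G hK subset_rfl)⟩

lemma big_fm (G : SimpleGraph V) (X A : Finset V) (B : ℕ) : Fm (Big G X A B) := by
  refine ⟨fun K K' hK h => big_mono G X A B hK h, fun K h => ?_⟩
  obtain ⟨R, h1, h2⟩ := h
  choose! a ha haX hra using h2
  have h3 : ∀ r ∈ R, ∃ K' : Set (Sym2 V), K' ⊆ K ∧ K'.Finite ∧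
      (Gr G K' (X : Set V)).Reachable (a r) r := fun r hr => walk_fin G K _ (hra r hr)
  choose! Kr hKr hfin hreach using h3
  refine ⟨⋃ r ∈ R, Kr r, iUnion₂_subset hKr, R.finite_toSet.biUnion (fun r hr => hfin r hr),
    R, h1, fun r hr => ⟨a r, ha r hr, haX r hr, ?_⟩⟩
  exact (hreach r hr).mono (gr_mono G (subset_biUnion_of_mem (u := Kr) hr) subset_rfl)

/-- the edges at `v` -/
def star (v : V) : Set (Sym2 V) := {e | v ∈ e}

lemma big_lo (G : SimpleGraph V) (X A : Finset V) (B : ℕ) (v : V) (hv : v ∈ X) :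
    Lo (fun K => ¬ Big G X A B K) (star v)ᶜ := by
  intro K K' h
  have hGr : Gr G K (X : Set V) = Gr G K' (X : Set V) := by
    ext a b
    have key : ∀ a b : V, a ∉ (X : Set V) → b ∉ (X : Set V) → (s(a, b) ∈ K ↔ s(a, b) ∈ K') := by
      intro a b ha hb
      have hs : s(a, b) ∈ (star v)ᶜ := by
        intro hmem
        rcases Sym2.mem_iff.1 hmem with rfl | rfl
        · exact ha hv
        · exact hb hv
      constructor
      · intro hK
        exact ((Set.ext_iff.1 h s(a, b)).1 ⟨hK, hs⟩).1
      · intro hK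
        exact ((Set.ext_iff.1 h s(a, b)).2 ⟨hK, hs⟩).1
    constructor
    · rintro ⟨h1, h2, h3, h4⟩
      exact ⟨h1, (key a b h3 h4).1 h2, h3, h4⟩
    · rintro ⟨h1, h2, h3, h4⟩
      exact ⟨h1, (key a b h3 h4).2 h2, h3, h4⟩
  show (¬ Big G X A B K) ↔ ¬ Big G X A B K'
  unfold Big
  rw [hGr]

/-- the open edges from `v` to `F` are those to `U` -/
def EU (v : V) (F U : Finset V) (K : Set (Sym2 V)) : Prop := ∀ u ∈ F, (s(v, u) ∈ K ↔ u ∈ U)

lemma eu_lo (v : V) (F U : Finset V) : Lo (EU v F U) (star v) := by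
  intro K K' h
  have key : ∀ u : V, (s(v, u) ∈ K ↔ s(v, u) ∈ K') := by
    intro u
    have hs : s(v, u) ∈ star v := Sym2.mem_mk_left v u
    constructor
    · intro hK
      exact ((Set.ext_iff.1 h s(v, u)).1 ⟨hK, hs⟩).1
    · intro hK
      exact ((Set.ext_iff.1 h s(v, u)).2 ⟨hK, hs⟩).1
  unfold EU
  constructor
  · intro h1 u hu; rw [← key]; exact h1 u hu
  · intro h1 u hu; rw [key]; exact h1 u hu

lemma eu_dep [DecidableEq (Sym2 V)] (v : V) (F U : Finset V) :
    DepOn (Ev (EU v F U)) ((F.image fun u => s(v, u) : Finset (Sym2 V)) : Set (Sym2 V)) := by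
  intro ω ω' h
  have key : ∀ u ∈ F, (s(v, u) ∈ opn ω ↔ s(v, u) ∈ opn ω') := by
    intro u hu
    have := h s(v, u) (by simpa using ⟨u, hu, Or.inl rfl⟩)
    show ω _ = true ↔ ω' _ = true
    rw [this]
  show (∀ u ∈ F, (s(v, u) ∈ opn ω ↔ u ∈ U)) ↔ (∀ u ∈ F, (s(v, u) ∈ opn ω' ↔ u ∈ U))
  constructor
  · intro h1 u hu; rw [← key u hu]; exact h1 u hu
  · intro h1 u hu; rw [key u hu]; exact h1 u hu

lemma eu_meas (v : V) (F U : Finset V) : MeasurableSet (Ev (EU v F U)) := by
  classical
  exact Pool.Agent.W45.PC.s_depmeas (Sym2 V) (F.image fun u => s(v, u)) _ (eu_dep v F U)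

lemma eu_prob (p : unitInterval) (v : V) (F U : Finset V) (hU : U ⊆ F) :
    Pb p (EU v F U) = (p : ℝ) ^ U.card * (1 - (p : ℝ)) ^ (F.card - U.card) := by
  classical
  have hinj : Function.Injective (fun u : V => s(v, u)) := by
    intro a b hab
    exact Sym2.congr_right.1 hab
  have hset : Ev (EU v F U) = Set.pi ((F.image fun u => s(v, u) : Finset (Sym2 V)) : Set (Sym2 V))
      (fun c => {decide (c ∈ U.image fun u => s(v, u))}) := by
    ext ω
    show (∀ u ∈ F, (s(v, u) ∈ opn ω ↔ u ∈ U)) ↔ _
    simp only [Set.mem_pi, Finset.coe_image, Set.mem_image, Finset.mem_coe, forall_exists_index,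
      and_imp, forall_apply_eq_imp_iff₂, Set.mem_singleton_iff, Finset.mem_image]
    constructor
    · intro h u hu
      have h1 := h u hu
      by_cases hu' : u ∈ U
      · rw [show ω s(v, u) = true from h1.2 hu']
        symm; rw [decide_eq_true_eq]
        exact ⟨u, hu', rfl⟩
      · have h2 : ω s(v, u) ≠ true := fun h' => hu' (h1.1 h')
        rw [show ω s(v, u) = false from Bool.eq_false_iff.2 h2]
        symm; rw [decide_eq_false_iff_not]
        rintro ⟨w, hw, hw'⟩
        exact hu' (hinj hw' ▸ hw)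
    · intro h u hu
      have h1 := h u hu
      show ω s(v, u) = true ↔ u ∈ U
      rw [h1, decide_eq_true_eq]
      constructor
      · rintro ⟨w, hw, hw'⟩
        exact hinj hw' ▸ hw
      · intro hu'; exact ⟨u, hu', rfl⟩
  have hp0 : (0 : ℝ) ≤ p := p.2.1
  have hp1 : (0 : ℝ) ≤ 1 - p := by linarith [p.2.2]
  unfold Pb
  rw [hset, measureReal_def]
  unfold pm
  rw [Measure.infinitePi_pi _ fun _ _ => MeasurableSet.singleton _]
  rw [Finset.prod_image (fun a _ b _ h => hinj h)]
  have hterm : ∀ u ∈ F, Pool.Agent.W783.PC.bern p {decide (s(v, u) ∈ U.image fun u => s(v, u))} =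
      ENNReal.ofReal (if u ∈ U then (p : ℝ) else 1 - p) := by
    intro u _
    by_cases hu' : u ∈ U
    · have : (s(v, u) ∈ U.image fun u => s(v, u)) := Finset.mem_image.2 ⟨u, hu', rfl⟩
      rw [decide_eq_true this, if_pos hu']
      exact Pool.Agent.W45.PC.bern_true p
    · have : ¬ (s(v, u) ∈ U.image fun u => s(v, u)) := by
        intro h
        obtain ⟨w, hw, hw'⟩ := Finset.mem_image.1 h
        exact hu' (hinj hw' ▸ hw)
      rw [decide_eq_false this, if_neg hu']
      exact Pool.Agent.W45.PC.bern_false p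
  rw [Finset.prod_congr rfl hterm, ← ENNReal.ofReal_prod_of_nonneg, ENNReal.toReal_ofReal]
  · rw [Finset.prod_ite]
    have e1 : F.filter (fun u => u ∈ U) = U := by
      ext u; simp only [Finset.mem_filter]; exact ⟨fun h => h.2, fun h => ⟨hU h, h⟩⟩
    have e2 : F.filter (fun u => ¬ u ∈ U) = F \ U := by
      ext u; simp
    rw [e1, e2, Finset.prod_const, Finset.prod_const, Finset.card_sdiff_of_subset hU]
  · apply Finset.prod_nonneg
    intro u _; split_ifs <;> assumption
  · intro u _; split_ifs <;> assumption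

lemma big_step [DecidableEq V] (G : SimpleGraph V) (X A F U : Finset V) (B : ℕ) (v : V)
    (hvA : v ∈ A) (hvX : v ∉ X) (hU : U ⊆ F) (hF : ∀ u ∈ F, G.Adj v u ∧ u ∉ X)
    (K : Set (Sym2 V)) (hE : EU v F U K) (h : Big G (insert v X) (A.erase v ∪ U) B K) :
    Big G X A B K := by
  obtain ⟨R, h1, h2⟩ := h
  have hvR : v ∉ R := by
    intro hv
    obtain ⟨a, ha, haX, hra⟩ := h2 v hv
    have hav : a ≠ v := fun h' => haX (h' ▸ Finset.mem_insert_self _ _)
    obtain ⟨w⟩ := hra.symm
    cases w with
    | nil => exact hav rfl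
    | cons hadj w => exact hadj.2.2.1 (by simp)
  refine ⟨insert v R, ?_, ?_⟩
  · rw [Finset.card_insert_of_notMem hvX] at h1
    rw [Finset.card_insert_of_notMem hvR]
    omega
  · have hle : Gr G K ((insert v X : Finset V) : Set V) ≤ Gr G K (X : Set V) :=
      gr_mono G subset_rfl (by simp [Finset.coe_insert])
    intro r hr
    rcases Finset.mem_insert.1 hr with rfl | hr
    · exact ⟨r, hvA, hvX, SimpleGraph.Reachable.refl _⟩
    · obtain ⟨a, ha, haX, hra⟩ := h2 r hr
      rcases Finset.mem_union.1 ha with ha | ha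
      · exact ⟨a, Finset.mem_of_mem_erase ha, fun h' => haX (Finset.mem_insert_of_mem h'),
          hra.mono hle⟩
      · have haF := hU ha
        have hadj : (Gr G K (X : Set V)).Adj v a :=
          ⟨(hF a haF).1, (hE a haF).2 ha, by simpa using hvX, by simpa using (hF a haF).2⟩
        exact ⟨v, hvA, hvX, hadj.reachable.trans (hra.mono hle)⟩

lemma pb_le_one (p : unitInterval) (A : Set (Sym2 V) → Prop) : Pb p A ≤ 1 := by
  unfold Pb; exact measureReal_le_one

lemma pb_mono [Countable V] (p : unitInterval) (A B : Set (Sym2 V) → Prop) (h : ∀ K, A K → B K) :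
    Pb p A ≤ Pb p B := by
  unfold Pb
  exact measureReal_mono (fun ω hω => h _ hω)

end ExpAux

open ExpAux in
theorem t_exp (h1 : S_meas) (h2 : S_ind) : S_exp := by
  classical
  intro V _ G N p s n₀ B S hN hcard hS hs0 hs1 hps
  have hp0 : (0 : ℝ) ≤ p := p.2.1
  have hp1 : (0 : ℝ) ≤ 1 - p := by linarith [p.2.2]
  have main : ∀ n : ℕ, ∀ A X : Finset V, B ≤ X.card + n → (∀ a ∈ A, a ∈ S) → Disjoint A X →
      Pb p (fun K => ¬ Big G X A B K) ≤ s ^ A.card := by
    intro n
    induction n with
    | zero =>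
      intro A X hB hA hd
      have hbig : ∀ K, Big G X A B K := fun K => ⟨∅, by simpa using hB, by simp⟩
      have : Ev (fun K => ¬ Big G X A B K) = ∅ := by
        ext ω; simp [Ev, hbig]
      unfold Pb; rw [this, measureReal_empty]; positivity
    | succ n ih =>
      intro A X hB hA hd
      by_cases hbig : B ≤ X.card + A.card
      · have hbig' : ∀ K, Big G X A B K := fun K => ⟨A, hbig, fun r hr =>
          ⟨r, hr, Finset.disjoint_left.1 hd hr, SimpleGraph.Reachable.refl _⟩⟩
        have : Ev (fun K => ¬ Big G X A B K) = ∅ := by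
          ext ω; simp [Ev, hbig']
        unfold Pb; rw [this, measureReal_empty]; positivity
      push Not at hbig
      rcases A.eq_empty_or_nonempty with rfl | ⟨v, hv⟩
      · simpa using pb_le_one p _
      have hvX : v ∉ X := Finset.disjoint_left.1 hd hv
      set F := N v \ (X ∪ A) with hF
      have hFcard : n₀ ≤ F.card := by
        have e1 := hcard v (hA v hv)
        have e2 : (N v).card - (X ∪ A).card ≤ F.card := by
          rw [hF]; exact Finset.le_card_sdiff _ _
        have e3 := Finset.card_union_le X A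
        omega
      have hFp : ∀ u ∈ F, G.Adj v u ∧ u ∉ X := by
        intro u hu
        rw [hF, Finset.mem_sdiff, Finset.mem_union, not_or] at hu
        exact ⟨(hN v u).1 hu.1, hu.2.1⟩
      have hFA : Disjoint A F := by
        rw [Finset.disjoint_left]
        intro a ha haF
        rw [hF, Finset.mem_sdiff, Finset.mem_union, not_or] at haF
        exact haF.2.2 ha
      have hmeas : ∀ X A : Finset V, MeasurableSet (Ev (fun K => ¬ Big G X A B K)) := fun X A =>
        (h1 V _ (big_fm G X A B)).compl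
      have hsub : Ev (fun K => ¬ Big G X A B K) ⊆ ⋃ U ∈ F.powerset,
          Ev (fun K => EU v F U K ∧ ¬ Big G (insert v X) (A.erase v ∪ U) B K) := by
        intro ω hω
        rw [Set.mem_iUnion₂]
        refine ⟨F.filter (fun u => s(v, u) ∈ opn ω), Finset.mem_powerset.2 (Finset.filter_subset _ _), ?_⟩
        have hE : EU v F (F.filter (fun u => s(v, u) ∈ opn ω)) (opn ω) := by
          intro u hu
          rw [Finset.mem_filter]
          exact ⟨fun h => ⟨hu, h⟩, fun h => h.2⟩
        exact ⟨hE, fun hb => hω (big_step G X A F _ B v hv hvX (Finset.filter_subset _ _) hFp _ hE hb)⟩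
      have hterm : ∀ U ∈ F.powerset,
          Pb p (fun K => EU v F U K ∧ ¬ Big G (insert v X) (A.erase v ∪ U) B K) ≤
            s ^ (A.card - 1) * ((p * s : ℝ) ^ U.card * (1 - (p : ℝ)) ^ (F.card - U.card)) := by
        intro U hU
        have hUF := Finset.mem_powerset.1 hU
        rw [h2 V p _ _ (star v) (eu_lo v F U)
          (big_lo G _ _ B v (Finset.mem_insert_self _ _)) (eu_meas v F U) (hmeas _ _),
          eu_prob p v F U hUF]
        have hdisj : Disjoint (A.erase v) U :=
          (hFA.mono_left (Finset.erase_subset _ _)).mono_right hUF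
        have hih := ih (A.erase v ∪ U) (insert v X)
          (by rw [Finset.card_insert_of_notMem hvX]; omega)
          (by
            intro a ha
            rcases Finset.mem_union.1 ha with ha | ha
            · exact hA a (Finset.mem_of_mem_erase ha)
            · have haF := hUF ha
              rw [hF, Finset.mem_sdiff] at haF
              exact hS v (hA v hv) a haF.1)
          (by
            rw [Finset.disjoint_left]
            intro a ha ha'
            rcases Finset.mem_union.1 ha with ha1 | ha1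
            · rcases Finset.mem_insert.1 ha' with hav | ha'
              · exact (Finset.ne_of_mem_erase ha1) hav
              · exact Finset.disjoint_left.1 hd (Finset.mem_of_mem_erase ha1) ha'
            · rcases Finset.mem_insert.1 ha' with hav | ha'
              · exact Finset.disjoint_left.1 hFA hv (hUF (hav ▸ ha1))
              · exact (hFp a (hUF ha1)).2 ha')
        rw [Finset.card_union_of_disjoint hdisj, Finset.card_erase_of_mem hv, pow_add] at hih
        calc (p : ℝ) ^ U.card * (1 - (p : ℝ)) ^ (F.card - U.card) *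
              Pb p (fun K => ¬ Big G (insert v X) (A.erase v ∪ U) B K)
            ≤ (p : ℝ) ^ U.card * (1 - (p : ℝ)) ^ (F.card - U.card) *
              (s ^ (A.card - 1) * s ^ U.card) := by
              apply mul_le_mul_of_nonneg_left hih (by positivity)
          _ = s ^ (A.card - 1) * ((p * s : ℝ) ^ U.card * (1 - (p : ℝ)) ^ (F.card - U.card)) := by
              rw [mul_pow]; ring
      have hq0 : 0 ≤ 1 - (p : ℝ) + p * s := by positivity
      have hq1 : 1 - (p : ℝ) + p * s ≤ 1 := by nlinarith
      have hpos : 0 < A.card := Finset.card_pos.2 ⟨v, hv⟩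
      calc Pb p (fun K => ¬ Big G X A B K)
          ≤ (pm (fun _ : Sym2 V => p)).real (⋃ U ∈ F.powerset,
            Ev (fun K => EU v F U K ∧ ¬ Big G (insert v X) (A.erase v ∪ U) B K)) :=
            measureReal_mono hsub (measure_ne_top _ _)
        _ ≤ ∑ U ∈ F.powerset,
            Pb p (fun K => EU v F U K ∧ ¬ Big G (insert v X) (A.erase v ∪ U) B K) :=
            measureReal_biUnion_finset_le _ _
        _ ≤ ∑ U ∈ F.powerset,
            s ^ (A.card - 1) * ((p * s : ℝ) ^ U.card * (1 - (p : ℝ)) ^ (F.card - U.card)) :=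
            Finset.sum_le_sum hterm
        _ = s ^ (A.card - 1) * (p * s + (1 - (p : ℝ))) ^ F.card := by
            rw [← Finset.mul_sum, Finset.sum_pow_mul_eq_add_pow]
        _ ≤ s ^ (A.card - 1) * s := by
            apply mul_le_mul_of_nonneg_left _ (by positivity)
            rw [add_comm]
            exact (pow_le_pow_of_le_one hq0 hq1 hFcard).trans hps
        _ = s ^ A.card := by
            rw [← pow_succ]; congr 1; omega
  intro A X hA hd
  exact main B A X (Nat.le_add_left _ _) hA hd

end Pool.Agent.H659
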