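import Pool.Agent.H659.Stmts
import Pool.Agent.W45.PC.PT1
/-
Owner helper659. `Pool/Agent/H659/Defs.lean` and `Pool/Agent/H659/Stmts.lean` are on origin/main (git fetch in
outputs/live; copy them and `H592F/Orient.lean`, `W783/Perc/Defs.lean` to the same paths under /workdir/pool/Pool/Agent).
All definitions are there; each `S_*` is a Prop. Hypotheses of the target theorem are proved elsewhere (given).
Useful starting modules (in outputs/live): W45/PC/PT1 (s_indep, s_indepF, s_depmeas, s_glue for `pm`), W400/PC/PT (s_mono,
s_approx, s_equiv, uniform coupling `um`, `cf`), W333/PC/Harris (s_harris), W424/PC/Russo (pm_split, pm_eq_EE),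
Y288/PL/Tight (pm_eq_Pr: `pm` on finitely many coordinates = H974.Pr), H974R2/Basic+BK (finite Harris and BK),
H592F/Orient + OrientProb (multiscale oriented percolation), W975/PC/GR1 (measurability of connection events).
Deliver a file with the target theorem proved, statement unchanged, no sorry, in namespace Pool.Agent.H659 (helpers in
a sub-namespace of your own please).

PROOF IDEA
Choose M pairwise disjoint subsets F_1..F_M of F each of cardinality k = F.card / M. If fewer than M edges of F are open then some F_j
has no open edge; Pb(no open edge in F_j) = (1-p)^k (product measure; e.g. `pm_pi`/`s_closedF`-style computation with Measure.infinitePi_pi); union bound.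
-/

set_option autoImplicit false

open MeasureTheory Set Filter Topology

namespace Pool.Agent.H659

open Pool.Agent.W783.PC (pm DepOn Inc)

namespace Few

theorem pm_false {ι : Type} (r : ι → unitInterval) (F : Finset ι) :
    pm r {ω | ∀ c ∈ F, ω c = false} = ∏ c ∈ F, ENNReal.ofReal (1 - (r c : ℝ)) := by
  have : {ω : ι → Bool | ∀ c ∈ F, ω c = false} = Set.pi (F : Set ι) fun _ => {false} := by
    ext ω
    simp
  rw [this]
  unfold pm
  rw [Measure.infinitePi_pi _ fun _ _ => MeasurableSet.singleton _]
  simp only [Pool.Agent.W45.PC.bern_false]

theorem real_false {ι : Type} (p : unitInterval) (F : Finset ι) :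
    (pm (fun _ : ι => p)).real {ω | ∀ c ∈ F, ω c = false} = (1 - (p : ℝ)) ^ F.card := by
  have h0 : (0 : ℝ) ≤ 1 - p := by linarith [p.2.2]
  unfold Measure.real
  rw [pm_false, Finset.prod_const, ENNReal.toReal_pow, ENNReal.toReal_ofReal h0]

theorem few_aux {ι : Type} (p : unitInterval) (k : ℕ) : ∀ (M : ℕ) (F : Finset ι),
    M * k ≤ F.card → (pm (fun _ : ι => p)).real
      {ω | (F.filter (fun e => ω e = true)).card < M} ≤ M * (1 - (p : ℝ)) ^ k := by
  classical
  intro M
  induction M with
  | zero =>
    intro F _
    have h : {ω : ι → Bool | (F.filter (fun e => ω e = true)).card < 0} = ∅ := by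
      ext ω
      simp
    rw [h, measureReal_empty]
    simp
  | succ M ih =>
    intro F hF
    obtain ⟨A, hA, hAk⟩ : ∃ A ⊆ F, A.card = k := by
      apply Finset.exists_subset_card_eq
      refine le_trans ?_ hF
      exact Nat.le_mul_of_pos_left k (Nat.succ_pos M)
    have hcard : M * k ≤ (F \ A).card := by
      rw [Finset.card_sdiff_of_subset hA, hAk]
      have : (M + 1) * k = M * k + k := by ring
      omega
    have hsub : {ω : ι → Bool | (F.filter (fun e => ω e = true)).card < M + 1} ⊆
        {ω | ∀ c ∈ A, ω c = false} ∪ {ω | ((F \ A).filter (fun e => ω e = true)).card < M} := by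
      intro ω hω
      by_cases h1 : ∀ c ∈ A, ω c = false
      · left; exact h1
      · right
        push Not at h1
        obtain ⟨c, hc, hc'⟩ := h1
        have hcT : ω c = true := by
          cases h : ω c
          · exact absurd h hc'
          · rfl
        have h2 : insert c ((F \ A).filter (fun e => ω e = true)) ⊆
            F.filter (fun e => ω e = true) := by
          intro e he
          rw [Finset.mem_insert] at he
          rcases he with rfl | he
          · exact Finset.mem_filter.2 ⟨hA hc, hcT⟩
          · rw [Finset.mem_filter, Finset.mem_sdiff] at he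
            exact Finset.mem_filter.2 ⟨he.1.1, he.2⟩
        have h3 := Finset.card_le_card h2
        rw [Finset.card_insert_of_notMem] at h3
        · have h4 : (F.filter (fun e => ω e = true)).card < M + 1 := hω
          show ((F \ A).filter (fun e => ω e = true)).card < M
          omega
        · rw [Finset.mem_filter, Finset.mem_sdiff]
          exact fun h => h.1.2 hc
    have h5 := measureReal_mono hsub (measure_ne_top (pm (fun _ : ι => p)) _)
    have h6 := measureReal_union_le (μ := pm (fun _ : ι => p))
      {ω : ι → Bool | ∀ c ∈ A, ω c = false}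
      {ω | ((F \ A).filter (fun e => ω e = true)).card < M}
    have h7 := ih (F \ A) hcard
    have h8 := real_false p A
    rw [hAk] at h8
    push_cast
    calc _ ≤ _ := h5
      _ ≤ _ := h6
      _ ≤ (1 - (p : ℝ)) ^ k + M * (1 - (p : ℝ)) ^ k := by rw [h8]; linarith
      _ = ((M : ℝ) + 1) * (1 - (p : ℝ)) ^ k := by ring

end Few

theorem t_few : S_few := by
  intro V p F M hM
  have h := Few.few_aux p (F.card / M) M F (Nat.mul_div_le F.card M)
  refine le_trans (le_of_eq ?_) h
  unfold Pb
  congr 1
  ext ω
  unfold Ev opn
  simp only [Set.mem_ofPred_eq]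

end Pool.Agent.H659
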