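import Pool.Agent.H659.Stmts

set_option autoImplicit false

open MeasureTheory Set Filter Topology

namespace Pool.Agent.H659

open Pool.Agent.W783.PC (pm DepOn Inc)

namespace InfAux

variable {V : Type}

/-- far away vertices -/
def TT (enc : V → ℕ) (n : ℕ) : Set V := {x | n ≤ enc x}

theorem nf_iff {enc : V → ℕ} (henc : Function.Injective enc) (G : SimpleGraph V) (C : Set V) (u : V)
    (K : Set (Sym2 V)) : Nf G C u K ↔ ∀ n, RT G C (TT enc n) u K := by
  constructor
  · rintro ⟨hu, hinf⟩ n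
    refine ⟨hu, ?_⟩
    by_contra hcon
    push Not at hcon
    apply hinf
    have h1 : {v | (Gr G K C).Reachable u v} ⊆ enc ⁻¹' (Iio n) := by
      intro v hv
      by_contra h
      exact hcon v (by simpa [TT] using h) hv
    exact ((finite_Iio n).preimage henc.injOn).subset h1
  · intro h
    refine ⟨(h 0).1, fun hfin => ?_⟩
    obtain ⟨b, hb⟩ := (hfin.image enc).bddAbove
    obtain ⟨-, t, ht, hr⟩ := h (b + 1)
    have h1 : enc t ≤ b := hb ⟨t, hr, rfl⟩
    have h2 : b + 1 ≤ enc t := ht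
    omega

theorem tt_anti {enc : V → ℕ} {G : SimpleGraph V} {C : Set V} {u : V} {K : Set (Sym2 V)} {m n : ℕ}
    (hmn : m ≤ n) (h : RT G C (TT enc n) u K) : RT G C (TT enc m) u K := by
  obtain ⟨h1, t, ht, hr⟩ := h
  exact ⟨h1, t, hmn.trans ht, hr⟩

theorem tendsto_rt [Countable V] (h1 : S_meas) (h3 : S_fmrt) {enc : V → ℕ}
    (henc : Function.Injective enc) (G : SimpleGraph V) (p : unitInterval) (C : Set V) (u : V) :
    Tendsto (fun n => Pb p (RT G C (TT enc n) u)) atTop (𝓝 (Pb p (Nf G C u))) := by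
  have e : Ev (Nf G C u) = ⋂ n, Ev (RT G C (TT enc n) u) := by
    ext ω
    simp only [Ev, mem_ofPred_eq, mem_iInter]
    exact nf_iff henc G C u _
  have hanti : Antitone fun n => Ev (RT G C (TT enc n) u) := by
    intro m n hmn ω hω
    exact tt_anti hmn hω
  have h := tendsto_measure_iInter_atTop (μ := pm (fun _ : Sym2 V => p))
    (fun n => (h1 V _ (h3 V G C (TT enc n) u)).nullMeasurableSet) hanti ⟨0, measure_ne_top _ _⟩
  rw [← e] at h
  exact (ENNReal.tendsto_toReal (measure_ne_top _ _)).comp h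

theorem finite_walk {G : SimpleGraph V} {N : V → Finset V} (hN : ∀ u v, v ∈ N u ↔ G.Adj u v) :
    ∀ (k : ℕ) (y : V), {x | ∃ q : G.Walk y x, q.length = k}.Finite := by
  intro k
  induction k with
  | zero =>
    intro y
    apply (finite_singleton y).subset
    rintro x ⟨q, hq⟩
    exact (SimpleGraph.Walk.eq_of_length_eq_zero hq).symm
  | succ k ih =>
    intro y
    apply ((N y).finite_toSet.biUnion fun w _ => ih w).subset
    rintro x ⟨q, hq⟩
    cases q with
    | nil => simp at hq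
    | @cons _ w _ h q =>
      rw [mem_iUnion₂]
      refine ⟨w, (hN y w).2 h, q, ?_⟩
      rw [SimpleGraph.Walk.length_cons] at hq
      omega

theorem ev_far {G : SimpleGraph V} {N : V → Finset V} (hN : ∀ u v, v ∈ N u ↔ G.Adj u v)
    (enc : V → ℕ) (L : ℕ) (y : V) :
    ∀ᶠ n in atTop, ∀ t ∈ TT enc n, ∀ q : G.Walk y t, L ≤ q.length := by
  have hfin : {x | ∃ q : G.Walk y x, q.length < L}.Finite := by
    apply ((finite_Iio L).biUnion fun k _ => finite_walk hN k y).subset
    rintro x ⟨q, hq⟩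
    rw [mem_iUnion₂]
    exact ⟨q.length, hq, q, rfl⟩
  obtain ⟨b, hb⟩ := (hfin.image enc).bddAbove
  filter_upwards [eventually_gt_atTop b] with n hn t ht q
  by_contra hcon
  push Not at hcon
  have h1 : enc t ≤ b := hb ⟨t, ⟨q, hcon⟩, rfl⟩
  have h2 : n ≤ enc t := ht
  omega

theorem pb_mono {p : unitInterval} {A B : Set (Sym2 V) → Prop} (h : ∀ K, A K → B K) :
    Pb p A ≤ Pb p B := by
  unfold Pb
  exact measureReal_mono fun ω hω => h _ hω

theorem pb_nonneg {p : unitInterval} {A : Set (Sym2 V) → Prop} : 0 ≤ Pb p A := measureReal_nonneg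

end InfAux

open InfAux

theorem t_inf (h1 : S_meas) (h2 : S_measNf) (h3 : S_fmrt) (h4 : S_fmdj) (h5 : S_men) (h6 : S_long) (h7 : S_lp) (h8 : S_qb) (h9 : S_loc) : S_inf := by
  intro ε hε
  obtain ⟨η₁, hη₁, D₁, L₁, hq⟩ := h8 ε hε
  obtain ⟨η₂, hη₂, D₂, L₂, hl⟩ := h9 ε hε
  refine ⟨min η₁ η₂, lt_min hη₁ hη₂, max D₁ D₂, ?_⟩
  intro V _ G N D p hNb hD hDp
  obtain ⟨enc, henc⟩ := exists_injective_nat V
  have hDp1 : D * (p : ℝ) ≤ 1 + η₁ := hDp.trans (by linarith [min_le_left η₁ η₂])
  have hDp2 : D * (p : ℝ) ≤ 1 + η₂ := hDp.trans (by linarith [min_le_right η₁ η₂])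
  have hD1 : D₁ ≤ D := (le_max_left _ _).trans hD
  have hD2 : D₂ ≤ D := (le_max_right _ _).trans hD
  constructor
  · intro C y
    obtain ⟨n, hn⟩ := (ev_far hNb.1 enc L₁ y).exists
    have h10 : Pb p (Nf G C y) ≤ Pb p (LP G L₁ C y) := pb_mono fun K hK =>
      h6 V G C (TT enc n) L₁ y K hn ((nf_iff henc G C y K).1 hK n)
    exact h10.trans (((h7 V G N D p hNb L₁ C y).2).trans (hq D p hD1 p.2.1 p.2.2 hDp1))
  · intro C y t hy ht hw
    have key : ∀ t' : ℝ, t < t' → Pb p (X2 G C y) ≤ (1 / 2 + ε) * t' * Pb p (Nf G C y) := by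
      intro t' ht'
      have hev : ∀ᶠ n in atTop, Pb p (X2 G C y) ≤
          (1 / 2 + ε) * t' * Pb p (RT G C (TT enc n) y) := by
        have e1 : ∀ᶠ n in atTop, ∀ w ∈ N y, Pb p (RT G ∅ (TT enc n) w) ≤ t' := by
          rw [Filter.eventually_all_finset]
          intro w _
          have h10 := tendsto_rt h1 h3 henc G p ∅ w
          filter_upwards [h10.eventually (gt_mem_nhds ((hw w).trans_lt ht'))] with n hn
          exact hn.le
        filter_upwards [e1, ev_far hNb.1 enc L₂ y, eventually_gt_atTop (enc y)] with n hn1 hn2 hn3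
        have hyT : y ∉ TT enc n := by
          intro h
          have : n ≤ enc y := h
          omega
        have h11 := hl V G N D p hNb hD2 hDp2 C (TT enc n) y t' hy hyT (ht.trans ht'.le) hn2 hn1
        refine le_trans (pb_mono fun K hK => ?_) h11
        apply h5
        · exact (nf_iff henc G C y K).1 hK.1 n
        · intro e
          exact (nf_iff henc G C y _).1 (hK.2 e) n
      have hlim := (tendsto_rt h1 h3 henc G p C y).const_mul ((1 / 2 + ε) * t')
      exact ge_of_tendsto hlim hev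
    have hlim : Tendsto (fun t' : ℝ => (1 / 2 + ε) * t' * Pb p (Nf G C y)) (𝓝[>] t)
        (𝓝 ((1 / 2 + ε) * t * Pb p (Nf G C y))) := by
      apply Tendsto.mono_left _ nhdsWithin_le_nhds
      exact (Continuous.tendsto (by fun_prop) t)
    exact ge_of_tendsto hlim (eventually_nhdsWithin_of_forall fun t' ht' => key t' ht')

end Pool.Agent.H659
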