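import Pool.Agent.H659.Stmts

set_option autoImplicit false

open MeasureTheory Set Filter Topology

namespace Pool.Agent.H659

open Pool.Agent.W783.PC (pm DepOn Inc)

namespace TInt

theorem open_part (f : ℝ → ℝ) (a b c : ℝ) (hc : 0 < c) (hf : MonotoneOn f (Icc a b))
    (h : ∀ x ∈ Ioo a b, ∃ η > 0, ∀ y, x < y → y < x + η → y ≤ b → c * (y - x) ≤ f y - f x)
    (x y : ℝ) (hax : a < x) (hxy : x < y) (hyb : y ≤ b) : c * (y - x) ≤ f y - f x := by
  set T : Set ℝ := {t | x ≤ t ∧ t ≤ y ∧ c * (t - x) ≤ f t - f x} with hT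
  have hxT : x ∈ T := ⟨le_rfl, hxy.le, by simp⟩
  have hbdd : BddAbove T := ⟨y, fun t ht => ht.2.1⟩
  set s := sSup T with hs
  have hxs : x ≤ s := le_csSup hbdd hxT
  have hsy : s ≤ y := csSup_le ⟨x, hxT⟩ fun t ht => ht.2.1
  have hsT : s ∈ T := by
    refine ⟨hxs, hsy, ?_⟩
    have key : s ≤ x + (f s - f x) / c := by
      refine csSup_le ⟨x, hxT⟩ fun t ht => ?_
      have hts : t ≤ s := le_csSup hbdd ht
      have hft : f t ≤ f s := hf ⟨by linarith [ht.1], by linarith [ht.2.1]⟩
        ⟨by linarith, by linarith⟩ hts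
      have h1 : t - x ≤ (f s - f x) / c := by
        rw [le_div_iff₀ hc]
        have := ht.2.2
        nlinarith
      linarith
    have h1 : s - x ≤ (f s - f x) / c := by linarith
    rw [le_div_iff₀ hc] at h1
    linarith
  by_cases hlt : s < y
  · exfalso
    obtain ⟨η, hη, hη'⟩ := h s ⟨by linarith, by linarith⟩
    set t := min (s + η / 2) y with ht
    have h1 : s < t := lt_min (by linarith) hlt
    have h2 : t < s + η := lt_of_le_of_lt (min_le_left _ _) (by linarith)
    have h3 : t ≤ y := min_le_right _ _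
    have h4 := hη' t h1 h2 (by linarith)
    have h5 := hsT.2.2
    have : t ∈ T := ⟨by linarith, h3, by nlinarith⟩
    have := le_csSup hbdd this
    linarith
  · have : s = y := le_antisymm hsy (not_lt.mp hlt)
    rw [← this]
    exact hsT.2.2

end TInt

theorem t_int : S_int := by
  intro f a b c hab hf h x y hax hxy hyb
  rcases hxy.eq_or_lt with rfl | hxy'
  · simp
  have hfm : f x ≤ f y := hf ⟨hax, by linarith⟩ ⟨by linarith, hyb⟩ hxy
  rcases le_or_gt c 0 with hc | hc
  · have : c * (y - x) ≤ 0 := mul_nonpos_of_nonpos_of_nonneg hc (by linarith)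
    linarith
  · refine le_of_forall_pos_le_add fun ε hε => ?_
    set δ := min (ε / c) ((y - x) / 2) with hδ
    have h0 : 0 < δ := lt_min (div_pos hε hc) (by linarith)
    have h1 : δ ≤ (y - x) / 2 := min_le_right _ _
    have h2 : c * δ ≤ ε := by
      have : δ ≤ ε / c := min_le_left _ _
      rw [le_div_iff₀ hc] at this
      linarith
    have h3 := TInt.open_part f a b c hc hf h (x + δ) y (by linarith) (by linarith) hyb
    have h4 : f x ≤ f (x + δ) := hf ⟨hax, by linarith⟩ ⟨by linarith, by linarith⟩ (by linarith)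
    nlinarith

end Pool.Agent.H659
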