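import Pool.Agent.H659.Stmts

set_option autoImplicit false

open MeasureTheory Set Filter Topology

namespace Pool.Agent.H659

open Pool.Agent.W783.PC (pm DepOn Inc)

theorem t_last (h1 : S_measNf) (h2 : S_lastdet) (h3 : S_lastpr) : S_last := by
  intro V _ G p o κ hκ0 hκ c hc hlt
  by_contra hcon
  push Not at hcon
  let I : Type := {q : V × V // G.Adj q.1 q.2}
  let f : I → ℝ := fun q => Pb p (Pv G o q.1.1 q.1.2)
  have hf0 : ∀ q, 0 ≤ f q := fun q => measureReal_nonneg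
  have hfs : ∀ s : Finset I, ∑ q ∈ s, f q ≤ c := by
    intro s
    have h4 := hcon (s.map (Function.Embedding.subtype _)) (by
      intro q hq
      rw [Finset.mem_map] at hq
      obtain ⟨a, -, rfl⟩ := hq
      exact a.2)
    rw [Finset.sum_map] at h4
    exact h4
  have hsum : Summable f := summable_of_sum_le hf0 hfs
  have htsum : ∑' q, f q ≤ c := hsum.tsum_le_of_sum_le hfs
  set μ : Measure (Sym2 V → Bool) := pm (fun _ : Sym2 V => p) with hμ
  -- Borel-Cantelli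
  have hfin : ∑' q : I, μ (Ev (Pv G o q.1.1 q.1.2)) ≠ ⊤ := by
    have : ∀ q : I, μ (Ev (Pv G o q.1.1 q.1.2)) = ENNReal.ofReal (f q) := by
      intro q
      exact (ENNReal.ofReal_toReal (measure_ne_top _ _)).symm
    simp only [this]
    rw [← ENNReal.ofReal_tsum_of_nonneg hf0 hsum]
    exact ENNReal.ofReal_ne_top
  have hae : ∀ᵐ ω ∂μ, {q : I | ω ∈ Ev (Pv G o q.1.1 q.1.2)}.Finite :=
    ae_finite_setOf_mem hfin
  let E : I → Set (Sym2 V → Bool) := fun q => Ev (fun K => s(q.1.1, q.1.2) ∈ K ∧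
    Pv G o q.1.1 q.1.2 K ∧ X2 G (Cl G o s(q.1.1, q.1.2) K) q.1.2 K)
  have hle : μ (Ev (Nf G ∅ o)) ≤ μ (Ev (X2 G ∅ o) ∪ ⋃ q, E q) := by
    apply measure_mono_ae
    filter_upwards [hae] with ω hω hN
    have hfin2 : {q : V × V | G.Adj q.1 q.2 ∧ s(q.1, q.2) ∈ opn ω ∧
        Pv G o q.1 q.2 (opn ω)}.Finite := by
      refine (hω.image (fun q : I => q.1)).subset ?_
      rintro q ⟨hq1, -, hq3⟩
      exact ⟨⟨q, hq1⟩, hq3, rfl⟩
    rcases h2 V G o (opn ω) hN hfin2 with h | ⟨x, y, hxy, h5⟩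
    · exact Or.inl h
    · exact Or.inr (mem_iUnion.2 ⟨⟨(x, y), hxy⟩, h5⟩)
  have hpκ : 0 ≤ (p : ℝ) * κ := mul_nonneg p.2.1 hκ0
  have hEq : ∀ q : I, μ (E q) ≤ ENNReal.ofReal ((p : ℝ) * κ * f q) := by
    intro q
    have h4 := (h3 V G p o q.1.1 q.1.2 κ q.2 hκ).2
    have h5 : μ (E q) = ENNReal.ofReal (μ.real (E q)) :=
      (ENNReal.ofReal_toReal (measure_ne_top _ _)).symm
    rw [h5]
    exact ENNReal.ofReal_le_ofReal h4
  have hU : μ (⋃ q, E q) ≤ ENNReal.ofReal ((p : ℝ) * κ * c) := by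
    calc μ (⋃ q, E q) ≤ ∑' q, μ (E q) := measure_iUnion_le _
      _ ≤ ∑' q, ENNReal.ofReal ((p : ℝ) * κ * f q) := ENNReal.tsum_le_tsum hEq
      _ = ENNReal.ofReal (∑' q, (p : ℝ) * κ * f q) :=
        (ENNReal.ofReal_tsum_of_nonneg (fun q => mul_nonneg hpκ (hf0 q))
          (hsum.mul_left _)).symm
      _ ≤ ENNReal.ofReal ((p : ℝ) * κ * c) := by
        apply ENNReal.ofReal_le_ofReal
        rw [tsum_mul_left]
        exact mul_le_mul_of_nonneg_left htsum hpκ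
  have hX : μ (Ev (X2 G ∅ o)) ≤ ENNReal.ofReal (κ * Pb p (Nf G ∅ o)) := by
    have h5 : μ (Ev (X2 G ∅ o)) = ENNReal.ofReal (Pb p (X2 G ∅ o)) :=
      (ENNReal.ofReal_toReal (measure_ne_top _ _)).symm
    rw [h5]
    exact ENNReal.ofReal_le_ofReal (hκ ∅ o finite_empty (notMem_empty _))
  have hN0 : 0 ≤ Pb p (Nf G ∅ o) := measureReal_nonneg
  have hfinal : ENNReal.ofReal (Pb p (Nf G ∅ o)) ≤
      ENNReal.ofReal (κ * Pb p (Nf G ∅ o) + (p : ℝ) * κ * c) := by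
    rw [ENNReal.ofReal_add (mul_nonneg hκ0 hN0) (mul_nonneg hpκ hc)]
    have h5 : ENNReal.ofReal (Pb p (Nf G ∅ o)) = μ (Ev (Nf G ∅ o)) :=
      ENNReal.ofReal_toReal (measure_ne_top _ _)
    rw [h5]
    exact hle.trans ((measure_union_le _ _).trans (add_le_add hX hU))
  have h6 := (ENNReal.ofReal_le_ofReal_iff (add_nonneg (mul_nonneg hκ0 hN0)
    (mul_nonneg hpκ hc))).1 hfinal
  linarith

end Pool.Agent.H659
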