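import Pool.Agent.H659.Stmts

set_option autoImplicit false

open MeasureTheory Set Filter Topology

namespace Pool.Agent.H659

open Pool.Agent.W783.PC (pm DepOn Inc)

namespace LastDet

variable {V : Type}

lemma reach_ind {H : SimpleGraph V} (P : V → Prop) (hs : ∀ v w, P v → H.Adj v w → P w)
    {o z : V} (h : H.Reachable o z) (h0 : P o) : P z := by
  obtain ⟨p⟩ := h
  induction p with
  | nil => exact h0
  | cons hadj p ih => exact ih (hs _ _ h0 hadj)

/-- The cluster of `o` in `K'` is contained in `C` and the cluster of `y` off `C` in `K'`. -/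
lemma cover (G : SimpleGraph V) (o x y : V) (K K' : Set (Sym2 V)) (hKK : K' ⊆ K)
    (_hx : x ∈ Cl G o s(x, y) K) (hy : y ∉ Cl G o s(x, y) K) {z : V}
    (hz : (Gr G K' ∅).Reachable o z) :
    z ∈ Cl G o s(x, y) K ∪ {v | (Gr G K' (Cl G o s(x, y) K)).Reachable y v} := by
  refine reach_ind (fun z => z ∈ Cl G o s(x, y) K ∪
    {v | (Gr G K' (Cl G o s(x, y) K)).Reachable y v}) ?_ hz (Or.inl (SimpleGraph.Reachable.refl _))
  rintro v w hv ⟨h1, h2, -, -⟩
  by_cases hw : w ∈ Cl G o s(x, y) K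
  · exact Or.inl hw
  right
  show (Gr G K' (Cl G o s(x, y) K)).Reachable y w
  by_cases hvC : v ∈ Cl G o s(x, y) K
  · have he : s(v, w) = s(x, y) := by
      by_contra hne
      exact hw (SimpleGraph.Reachable.trans hvC
        (SimpleGraph.Adj.reachable ⟨h1, ⟨hKK h2, hne⟩, Set.notMem_empty _, Set.notMem_empty _⟩))
    rcases Sym2.eq_iff.1 he with ⟨-, h⟩ | ⟨h, -⟩
    · rw [h]
    · exact absurd (h ▸ hvC) hy
  · rcases hv with hv | hv
    · exact absurd hv hvC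
    · exact SimpleGraph.Reachable.trans hv (SimpleGraph.Adj.reachable ⟨h1, h2, hvC, hw⟩)

lemma piv (G : SimpleGraph V) (o : V) (K : Set (Sym2 V)) (hK : Nf G ∅ o K) (e : Sym2 V)
    (hf : (Cl G o e K).Finite) :
    ∃ x y, e = s(x, y) ∧ G.Adj x y ∧ s(x, y) ∈ K ∧ Pv G o x y K := by
  obtain ⟨a, b, hab, ha, hb⟩ : ∃ a b, (Gr G K ∅).Adj a b ∧ a ∈ Cl G o e K ∧ b ∉ Cl G o e K := by
    by_contra hcon
    push Not at hcon
    refine hK.2 (hf.subset fun z hz => ?_)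
    exact reach_ind (fun z => z ∈ Cl G o e K) (fun v w hv hvw => hcon v w hvw hv) hz
      (SimpleGraph.Reachable.refl _)
  obtain ⟨h1, h2, -, -⟩ := hab
  have he : e = s(a, b) := by
    by_contra hne
    exact hb (SimpleGraph.Reachable.trans ha (SimpleGraph.Adj.reachable
      ⟨h1, ⟨h2, fun h => hne h.symm⟩, Set.notMem_empty _, Set.notMem_empty _⟩))
  subst he
  refine ⟨a, b, rfl, h1, h2, hf, ha, hb, hb, fun hfin => ?_⟩
  exact hK.2 ((hf.union hfin).subset fun z hz => cover G o a b K K subset_rfl ha hb hz)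

end LastDet

open LastDet in
theorem t_lastdet : S_lastdet := by
  intro V G o K hK hfin
  by_cases hX : X2 G ∅ o K
  · exact Or.inl hX
  right
  obtain ⟨e, he⟩ : ∃ e, ¬ Nf G ∅ o (K \ {e}) := by
    by_contra hcon
    push Not at hcon
    exact hX ⟨hK, hcon⟩
  have hef : (Cl G o e K).Finite := by
    by_contra hinf
    exact he ⟨Set.notMem_empty _, hinf⟩
  obtain ⟨x₀, y₀, -, h1, h2, h3⟩ := piv G o K hK e hef
  obtain ⟨⟨x, y⟩, ⟨hq1, hq2, hq3⟩, hmax⟩ := Set.exists_max_image _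
    (fun q : V × V => (Cl G o s(q.1, q.2) K).ncard) hfin ⟨(x₀, y₀), h1, h2, h3⟩
  simp only at hq1 hq2 hq3 hmax
  refine ⟨x, y, hq1, hq2, hq3, hq3.2.2.2, fun f => ?_⟩
  by_contra hf
  obtain ⟨hCf, hxC, hyC, hN⟩ := hq3
  have hff : {v | (Gr G (K \ {f}) (Cl G o s(x, y) K)).Reachable y v}.Finite := by
    by_contra hinf
    exact hf ⟨hyC, hinf⟩
  have hDf : (Cl G o f K).Finite :=
    (hCf.union hff).subset fun z hz => cover G o x y K (K \ {f}) Set.sdiff_subset hxC hyC hz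
  obtain ⟨x', y', rfl, h1', h2', h3'⟩ := piv G o K hK f hDf
  -- the ends of `f` are off the cluster
  have hoff : x' ∉ Cl G o s(x, y) K ∧ y' ∉ Cl G o s(x, y) K := by
    by_contra hcon
    apply hN.2
    have hgr : Gr G K (Cl G o s(x, y) K) = Gr G (K \ {s(x', y')}) (Cl G o s(x, y) K) := by
      ext a b
      constructor
      · rintro ⟨g1, g2, g3, g4⟩
        refine ⟨g1, ⟨g2, fun h => ?_⟩, g3, g4⟩
        rcases Sym2.eq_iff.1 h with ⟨e1, e2⟩ | ⟨e1, e2⟩
        · exact hcon ⟨e1 ▸ g3, e2 ▸ g4⟩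
        · exact hcon ⟨e2 ▸ g4, e1 ▸ g3⟩
      · rintro ⟨g1, g2, g3, g4⟩
        exact ⟨g1, g2.1, g3, g4⟩
    rw [hgr]
    exact hff
  have hne : ∀ v w, v ∈ Cl G o s(x, y) K → s(v, w) ≠ s(x', y') := by
    intro v w hv h
    rcases Sym2.eq_iff.1 h with ⟨e1, -⟩ | ⟨e1, -⟩
    · exact hoff.1 (e1 ▸ hv)
    · exact hoff.2 (e1 ▸ hv)
  have hsub : Cl G o s(x, y) K ⊆ Cl G o s(x', y') K := by
    intro z hz
    have := reach_ind (fun z => z ∈ Cl G o s(x, y) K ∧ z ∈ Cl G o s(x', y') K) ?_ hz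
      ⟨SimpleGraph.Reachable.refl _, SimpleGraph.Reachable.refl _⟩
    · exact this.2
    · rintro v w ⟨hv1, hv2⟩ ⟨g1, g2, -, -⟩
      exact ⟨SimpleGraph.Reachable.trans hv1 (SimpleGraph.Adj.reachable
          ⟨g1, g2, Set.notMem_empty _, Set.notMem_empty _⟩),
        SimpleGraph.Reachable.trans hv2 (SimpleGraph.Adj.reachable
          ⟨g1, ⟨g2.1, hne v w hv1⟩, Set.notMem_empty _, Set.notMem_empty _⟩)⟩
  have hy : y ∈ Cl G o s(x', y') K :=
    SimpleGraph.Reachable.trans (hsub hxC) (SimpleGraph.Adj.reachable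
      ⟨hq1, ⟨hq2, hne x y hxC⟩, Set.notMem_empty _, Set.notMem_empty _⟩)
  have hlt : (Cl G o s(x, y) K).ncard < (Cl G o s(x', y') K).ncard :=
    Set.ncard_lt_ncard ⟨hsub, fun h => hyC (h hy)⟩ hDf
  exact absurd (hmax (x', y') ⟨h1', h2', h3'⟩) (not_le.2 hlt)

end Pool.Agent.H659
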