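import Pool.Agent.H659.Stmts
import Pool.Agent.W45.PC.PT1

set_option autoImplicit false

open MeasureTheory Set Filter Topology

namespace Pool.Agent.H659

open Pool.Agent.W783.PC (pm DepOn Inc)

namespace LastPr

theorem hasSum_real {α ι : Type} [Countable ι] [MeasurableSpace α] (μ : Measure α)
    [IsFiniteMeasure μ] (f : ι → Set α) (hd : Pairwise (Function.onFun Disjoint f))
    (hm : ∀ i, MeasurableSet (f i)) :
    HasSum (fun i => μ.real (f i)) (μ.real (⋃ i, f i)) := by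
  have h := measure_iUnion (μ := μ) hd hm
  have hne : ∑' i, μ (f i) ≠ ⊤ := h ▸ measure_ne_top _ _
  have h2 := ENNReal.hasSum_toReal hne
  have h3 := ENNReal.tsum_toReal_eq (f := fun i => μ (f i)) (fun i => measure_ne_top _ _)
  rw [← h3, ← h] at h2
  exact h2

variable {V : Type}

theorem gr_mono (G : SimpleGraph V) {K K' : Set (Sym2 V)} (C : Set V) (h : K ⊆ K') :
    Gr G K C ≤ Gr G K' C := by
  intro a b hab
  exact ⟨hab.1, h hab.2.1, hab.2.2.1, hab.2.2.2⟩

theorem fm_reach (G : SimpleGraph V) (o z : V) (e : Sym2 V) :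
    Fm (fun K => (Gr G (K \ {e}) ∅).Reachable o z) := by
  constructor
  · intro K K' h hr
    exact hr.mono (gr_mono G ∅ (diff_subset_diff_left h))
  · intro K hr
    obtain ⟨w⟩ := hr
    refine ⟨{f | f ∈ w.edges}, ?_, w.edges.finite_toSet, ?_⟩
    · intro f hf
      have h1 := w.edges_subset_edgeSet hf
      induction f using Sym2.ind with
      | _ a b => exact (SimpleGraph.mem_edgeSet _ |>.1 h1).2.1.1
    · refine ⟨w.transfer _ ?_⟩
      intro f hf
      have h1 := w.edges_subset_edgeSet hf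
      induction f using Sym2.ind with
      | _ a b =>
        have h2 := SimpleGraph.mem_edgeSet _ |>.1 h1
        rw [SimpleGraph.mem_edgeSet]
        exact ⟨h2.1, ⟨hf, h2.2.1.2⟩, h2.2.2.1, h2.2.2.2⟩

theorem meas_cl [Countable V] (h1 : S_meas) (G : SimpleGraph V) (o : V) (e : Sym2 V) (C : Set V) :
    MeasurableSet (Ev (fun K => Cl G o e K = C)) := by
  have h2 : Ev (fun K => Cl G o e K = C) =
      ⋂ z : V, {ω | z ∈ Cl G o e (opn ω) ↔ z ∈ C} := by
    ext ω
    simp only [Ev, mem_setOf_eq, mem_iInter, Set.ext_iff]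
  rw [h2]
  refine MeasurableSet.iInter fun z => ?_
  have h3 : MeasurableSet (Ev (fun K => (Gr G (K \ {e}) ∅).Reachable o z)) :=
    h1 V _ (fm_reach G o z e)
  by_cases hz : z ∈ C
  · have : {ω | z ∈ Cl G o e (opn ω) ↔ z ∈ C} =
        Ev (fun K => (Gr G (K \ {e}) ∅).Reachable o z) := by
      ext ω
      simp only [Ev, mem_setOf_eq, hz, iff_true, Cl]
    rw [this]
    exact h3
  · have : {ω | z ∈ Cl G o e (opn ω) ↔ z ∈ C} =
        (Ev (fun K => (Gr G (K \ {e}) ∅).Reachable o z))ᶜ := by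
      ext ω
      simp only [Ev, mem_setOf_eq, hz, iff_false, Cl, mem_compl_iff]
    rw [this]
    exact h3.compl

/-- The edges other than `e` with an end in `C`. -/
def SI (C : Set V) (e : Sym2 V) : Set (Sym2 V) := {f | f ≠ e ∧ ∃ a ∈ f, a ∈ C}

/-- The edges with no end in `C`. -/
def SO (C : Set V) : Set (Sym2 V) := {f | ∀ a ∈ f, a ∉ C}

theorem lo_cl_aux (G : SimpleGraph V) (o : V) (e : Sym2 V) (C : Set V) (K K' : Set (Sym2 V))
    (h : K ∩ SI C e = K' ∩ SI C e) (hC : Cl G o e K = C) : Cl G o e K' = C := by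
  have hk : ∀ f ∈ SI C e, f ∈ K ↔ f ∈ K' := by
    intro f hf
    have := Set.ext_iff.1 h f
    simp only [mem_inter_iff, hf, and_true] at this
    exact this
  apply Set.Subset.antisymm
  · intro z hz
    have hz' : (Gr G (K' \ {e}) ∅).Reachable o z := hz
    rw [SimpleGraph.reachable_iff_reflTransGen] at hz'
    induction hz' with
    | refl => rw [← hC]; exact SimpleGraph.Reachable.refl _
    | @tail b c hb hbc ih =>
      have hbC : b ∈ C := ih (by
        show (Gr G (K' \ {e}) ∅).Reachable o b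
        rw [SimpleGraph.reachable_iff_reflTransGen]
        exact hb)
      have h1 : s(b, c) ∈ SI C e := ⟨hbc.2.1.2, b, Sym2.mem_mk_left b c, hbC⟩
      have h2 : s(b, c) ∈ K := (hk _ h1).2 hbc.2.1.1
      rw [← hC] at hbC ⊢
      have h3 : (Gr G (K \ {e}) ∅).Reachable o b := hbC
      have h4 : (Gr G (K \ {e}) ∅).Adj b c := ⟨hbc.1, ⟨h2, hbc.2.1.2⟩, hbc.2.2.1, hbc.2.2.2⟩
      exact h3.trans h4.reachable
  · intro z hz
    rw [← hC] at hz
    have hz' : (Gr G (K \ {e}) ∅).Reachable o z := hz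
    rw [SimpleGraph.reachable_iff_reflTransGen] at hz'
    show (Gr G (K' \ {e}) ∅).Reachable o z
    induction hz' with
    | refl => exact SimpleGraph.Reachable.refl _
    | @tail b c hb hbc ih =>
      have hbr : (Gr G (K \ {e}) ∅).Reachable o b := by
        rw [SimpleGraph.reachable_iff_reflTransGen]
        exact hb
      have hbC : b ∈ C := by
        rw [← hC]
        exact hbr
      have ih' := ih hbr
      have h1 : s(b, c) ∈ SI C e := ⟨hbc.2.1.2, b, Sym2.mem_mk_left b c, hbC⟩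
      have h2 : s(b, c) ∈ K' := (hk _ h1).1 hbc.2.1.1
      have h4 : (Gr G (K' \ {e}) ∅).Adj b c := ⟨hbc.1, ⟨h2, hbc.2.1.2⟩, hbc.2.2.1, hbc.2.2.2⟩
      exact ih'.trans h4.reachable

theorem lo_cl (G : SimpleGraph V) (o : V) (e : Sym2 V) (C : Set V) :
    Lo (fun K => Cl G o e K = C) (SI C e) := by
  intro K K' h
  exact ⟨lo_cl_aux G o e C K K' h, lo_cl_aux G o e C K' K h.symm⟩

theorem gr_eq (G : SimpleGraph V) (C : Set V) (K K' : Set (Sym2 V))
    (h : K ∩ SO C = K' ∩ SO C) : Gr G K C = Gr G K' C := by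
  ext a b
  have key : a ∉ C → b ∉ C → (s(a, b) ∈ K ↔ s(a, b) ∈ K') := by
    intro ha hb
    have hf : s(a, b) ∈ SO C := by
      intro c hc
      rcases Sym2.mem_iff.1 hc with rfl | rfl
      · exact ha
      · exact hb
    have := Set.ext_iff.1 h s(a, b)
    simp only [mem_inter_iff, hf, and_true] at this
    exact this
  constructor
  · rintro ⟨h1, h2, h3, h4⟩
    exact ⟨h1, (key h3 h4).1 h2, h3, h4⟩
  · rintro ⟨h1, h2, h3, h4⟩
    exact ⟨h1, (key h3 h4).2 h2, h3, h4⟩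

theorem lo_nf (G : SimpleGraph V) (C : Set V) (y : V) : Lo (Nf G C y) (SO C) := by
  intro K K' h
  unfold Nf
  rw [gr_eq G C K K' h]

theorem lo_x2 (G : SimpleGraph V) (C : Set V) (y : V) : Lo (X2 G C y) (SO C) := by
  intro K K' h
  have h1 : ∀ f : Sym2 V, (K \ {f}) ∩ SO C = (K' \ {f}) ∩ SO C := by
    intro f
    ext g
    have := Set.ext_iff.1 h g
    simp only [mem_inter_iff, mem_diff, mem_singleton_iff] at this ⊢
    tauto
  unfold X2
  rw [lo_nf G C y K K' h]
  constructor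
  · rintro ⟨h2, h3⟩
    exact ⟨h2, fun e => (lo_nf G C y _ _ (h1 e)).1 (h3 e)⟩
  · rintro ⟨h2, h3⟩
    exact ⟨h2, fun e => (lo_nf G C y _ _ (h1 e)).2 (h3 e)⟩

theorem lo_mono {A : Set (Sym2 V) → Prop} {S T : Set (Sym2 V)} (h : Lo A S) (hST : S ⊆ T) :
    Lo A T := by
  intro K K' hK
  apply h
  ext f
  have := Set.ext_iff.1 hK f
  simp only [mem_inter_iff] at this ⊢
  constructor
  · rintro ⟨h1, h2⟩
    exact ⟨(this.1 ⟨h1, hST h2⟩).1, h2⟩
  · rintro ⟨h1, h2⟩
    exact ⟨(this.2 ⟨h1, hST h2⟩).1, h2⟩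

theorem lo_and {A B : Set (Sym2 V) → Prop} {S : Set (Sym2 V)} (hA : Lo A S) (hB : Lo B S) :
    Lo (fun K => A K ∧ B K) S := by
  intro K K' hK
  show A K ∧ B K ↔ A K' ∧ B K'
  rw [hA K K' hK, hB K K' hK]

theorem lo_mem (e : Sym2 V) (S : Set (Sym2 V)) (h : e ∈ S) : Lo (fun K => e ∈ K) S := by
  intro K K' hK
  have := Set.ext_iff.1 hK e
  simp only [mem_inter_iff, h, and_true] at this
  exact this

theorem ev_and (A B : Set (Sym2 V) → Prop) : Ev (fun K => A K ∧ B K) = Ev A ∩ Ev B := rfl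

theorem meas_mem [Countable V] (e : Sym2 V) : MeasurableSet (Ev (fun K => e ∈ K)) := by
  have : Ev (fun K => e ∈ K) = (fun ω : Sym2 V → Bool => ω e) ⁻¹' {true} := by
    ext ω
    simp [Ev, opn]
  rw [this]
  exact measurable_pi_apply e (measurableSet_singleton _)

end LastPr

open LastPr in
theorem t_lastpr (h1 : S_meas) (h2 : S_ind) (h3 : S_measNf) (h4 : S_edge) : S_lastpr := by
  intro V _ G p o x y κ hxy hκ
  classical
  set e : Sym2 V := s(x, y) with he
  let I : Type := {C : Finset V // x ∈ C ∧ y ∉ C}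
  -- the two families
  let Fe : I → Set (Sym2 V → Bool) := fun C =>
    Ev (fun K => Cl G o e K = (C.1 : Set V) ∧ Nf G (C.1 : Set V) y K)
  let Ee : I → Set (Sym2 V → Bool) := fun C =>
    Ev (fun K => (Cl G o e K = (C.1 : Set V) ∧ e ∈ K) ∧ X2 G (C.1 : Set V) y K)
  have hPv : Ev (Pv G o x y) = ⋃ C, Fe C := by
    ext ω
    simp only [mem_iUnion]
    constructor
    · rintro ⟨k1, k2, k3, k4⟩
      refine ⟨⟨k1.toFinset, k1.mem_toFinset.2 k2, fun h => k3 (k1.mem_toFinset.1 h)⟩, ?_, ?_⟩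
      · simp [he]
      · simpa using k4
    · rintro ⟨C, k1, k2⟩
      have k1' : Cl G o s(x, y) (opn ω) = (C.1 : Set V) := k1
      refine ⟨?_, ?_, ?_, ?_⟩
      · rw [k1']; exact C.1.finite_toSet
      · rw [k1']; exact C.2.1
      · rw [k1']; exact C.2.2
      · rw [k1']; exact k2
  have hEv : Ev (fun K => s(x, y) ∈ K ∧ Pv G o x y K ∧ X2 G (Cl G o s(x, y) K) y K) =
      ⋃ C, Ee C := by
    ext ω
    simp only [mem_iUnion]
    constructor
    · rintro ⟨k0, ⟨k1, k2, k3, k4⟩, k5⟩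
      refine ⟨⟨k1.toFinset, k1.mem_toFinset.2 k2, fun h => k3 (k1.mem_toFinset.1 h)⟩,
        ⟨?_, k0⟩, ?_⟩
      · simp [he]
      · simpa using k5
    · rintro ⟨C, ⟨k1, k0⟩, k2⟩
      have k1' : Cl G o s(x, y) (opn ω) = (C.1 : Set V) := k1
      refine ⟨k0, ⟨?_, ?_, ?_, ?_⟩, ?_⟩
      · rw [k1']; exact C.1.finite_toSet
      · rw [k1']; exact C.2.1
      · rw [k1']; exact C.2.2
      · rw [k1']; exact k2.1
      · rw [k1']; exact k2
  have mCl : ∀ C : Set V, MeasurableSet (Ev (fun K => Cl G o e K = C)) := meas_cl h1 G o e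
  have mF : ∀ C, MeasurableSet (Fe C) := fun C => (mCl _).inter (h3 V G _ y).1
  have mE : ∀ C, MeasurableSet (Ee C) := fun C =>
    ((mCl _).inter (meas_mem e)).inter (h3 V G _ y).2
  have dF : Pairwise (Function.onFun Disjoint Fe) := by
    intro C C' hC
    rw [Function.onFun, Set.disjoint_left]
    rintro ω ⟨k1, -⟩ ⟨k2, -⟩
    apply hC
    have k1' : Cl G o e (opn ω) = (C.1 : Set V) := k1
    have k2' : Cl G o e (opn ω) = (C'.1 : Set V) := k2
    exact Subtype.ext (Finset.coe_injective (k1'.symm.trans k2'))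
  have dE : Pairwise (Function.onFun Disjoint Ee) := by
    intro C C' hC
    rw [Function.onFun, Set.disjoint_left]
    rintro ω ⟨⟨k1, -⟩, -⟩ ⟨⟨k2, -⟩, -⟩
    apply hC
    have k1' : Cl G o e (opn ω) = (C.1 : Set V) := k1
    have k2' : Cl G o e (opn ω) = (C'.1 : Set V) := k2
    exact Subtype.ext (Finset.coe_injective (k1'.symm.trans k2'))
  have hsF := hasSum_real (pm (fun _ : Sym2 V => p)) Fe dF mF
  have hsE := hasSum_real (pm (fun _ : Sym2 V => p)) Ee dE mE
  refine ⟨by rw [hPv]; exact MeasurableSet.iUnion mF, ?_⟩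
  unfold Pb
  rw [hEv, hPv]
  refine hasSum_le (fun C => ?_) hsE (hsF.mul_left ((p : ℝ) * κ))
  have hxe : ∀ C : I, e ∈ (SO (C.1 : Set V))ᶜ := by
    intro C hC
    exact hC x (Sym2.mem_mk_left x y) C.2.1
  have hSI : ∀ C : I, SI (C.1 : Set V) e ⊆ (SO (C.1 : Set V))ᶜ := by
    rintro C f ⟨-, a, ha, haC⟩ hf
    exact hf a ha haC
  have e1 : (pm (fun _ : Sym2 V => p)).real (Fe C) =
      Pb p (fun K => Cl G o e K = (C.1 : Set V)) * Pb p (Nf G (C.1 : Set V) y) := by
    refine h2 V p _ _ (SO (C.1 : Set V))ᶜ (lo_mono (lo_cl G o e _) (hSI C)) ?_ (mCl _)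
      (h3 V G _ y).1
    rw [compl_compl]
    exact lo_nf G _ y
  have e2 : (pm (fun _ : Sym2 V => p)).real (Ee C) =
      Pb p (fun K => Cl G o e K = (C.1 : Set V) ∧ e ∈ K) * Pb p (X2 G (C.1 : Set V) y) := by
    refine h2 V p _ _ (SO (C.1 : Set V))ᶜ
      (lo_and (lo_mono (lo_cl G o e _) (hSI C)) (lo_mem e _ (hxe C))) ?_
      ((mCl _).inter (meas_mem e)) (h3 V G _ y).2
    rw [compl_compl]
    exact lo_x2 G _ y
  have e3 : Pb p (fun K => Cl G o e K = (C.1 : Set V) ∧ e ∈ K) =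
      Pb p (fun K => Cl G o e K = (C.1 : Set V)) * p := by
    rw [h2 V p (fun K => Cl G o e K = (C.1 : Set V)) (fun K => e ∈ K) {e}ᶜ
      (lo_mono (lo_cl G o e _) (fun f hf => hf.1)) (lo_mem e _ (by simp)) (mCl _) (meas_mem e),
      h4 V p e]
  rw [e1, e2, e3]
  have h5 := hκ (C.1 : Set V) y C.1.finite_toSet (by exact_mod_cast C.2.2)
  have h6 : 0 ≤ Pb p (fun K => Cl G o e K = (C.1 : Set V)) * (p : ℝ) :=
    mul_nonneg measureReal_nonneg p.2.1
  calc Pb p (fun K => Cl G o e K = (C.1 : Set V)) * (p : ℝ) * Pb p (X2 G (C.1 : Set V) y)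
      ≤ Pb p (fun K => Cl G o e K = (C.1 : Set V)) * (p : ℝ) *
        (κ * Pb p (Nf G (C.1 : Set V) y)) := mul_le_mul_of_nonneg_left h5 h6
    _ = (p : ℝ) * κ * (Pb p (fun K => Cl G o e K = (C.1 : Set V)) *
        Pb p (Nf G (C.1 : Set V) y)) := by ring

end Pool.Agent.H659
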