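import Pool.Agent.H659.Stmts

/-!
`S_loc`: the local bound for two disjoint connections.
-/

set_option autoImplicit false

open MeasureTheory Set Filter Topology

namespace Pool.Agent.H659

open Pool.Agent.W783.PC (pm DepOn Inc)

namespace Loc439

theorem Pb_nonneg {V : Type} (p : unitInterval) (A : Set (Sym2 V) → Prop) : 0 ≤ Pb p A :=
  measureReal_nonneg

/-- the final computation -/
theorem final {x a t P e1 e2 X : ℝ} (hx0 : 0 < x) (hx : x ≤ 1 / 8) (ha0 : 0 ≤ a) (ha : a ≤ 1 + x)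
    (ht : 0 ≤ t) (hP : 0 ≤ P) (he1 : 0 ≤ e1) (h2 : e2 ≤ a * x * e1 + 7 / 3 * x * P)
    (h1 : e1 - e2 / 2 ≤ P) (hX : X ≤ 1 / 2 * (a * t) * e1) : X ≤ (1 / 2 + 8 * x) * t * P := by
  have ha43 : a ≤ 4 / 3 := by linarith
  have h3 : a * (x * e1) ≤ 4 / 3 * (x * e1) :=
    mul_le_mul_of_nonneg_right ha43 (mul_nonneg hx0.le he1)
  have h4 : e1 * (1 - 2 / 3 * x) ≤ P * (1 + 3 / 2 * x) := by
    have h5 : 0 ≤ x * P := mul_nonneg hx0.le hP
    nlinarith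
  have h6 : 0 < 1 - 2 / 3 * x := by linarith
  have h7 : X * (1 - 2 / 3 * x) ≤ (1 / 2 + 8 * x) * t * P * (1 - 2 / 3 * x) := by
    calc X * (1 - 2 / 3 * x) ≤ 1 / 2 * (a * t) * e1 * (1 - 2 / 3 * x) :=
          mul_le_mul_of_nonneg_right hX h6.le
      _ = 1 / 2 * (a * t) * (e1 * (1 - 2 / 3 * x)) := by ring
      _ ≤ 1 / 2 * (a * t) * (P * (1 + 3 / 2 * x)) :=
          mul_le_mul_of_nonneg_left h4 (by positivity)
      _ = 1 / 2 * (t * P) * (1 + 3 / 2 * x) * a := by ring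
      _ ≤ 1 / 2 * (t * P) * (1 + 3 / 2 * x) * (1 + x) :=
          mul_le_mul_of_nonneg_left ha (by positivity)
      _ = t * P * (1 / 2 * (1 + 3 / 2 * x) * (1 + x)) := by ring
      _ ≤ t * P * ((1 / 2 + 8 * x) * (1 - 2 / 3 * x)) := by
          refine mul_le_mul_of_nonneg_left ?_ (by positivity)
          nlinarith
      _ = (1 / 2 + 8 * x) * t * P * (1 - 2 / 3 * x) := by ring
  exact le_of_mul_le_mul_right h7 h6

end Loc439

theorem t_loc (h1 : S_bon) (h2 : S_comb) (h3 : S_two) (h4 : S_dd) (h5 : S_lp) (h6 : S_qb) : S_loc := by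
  intro ε hε
  set x : ℝ := min ε 1 / 8 with hx
  have hx0 : 0 < x := by positivity
  have hx8 : x ≤ 1 / 8 := by
    have : min ε 1 ≤ 1 := min_le_right _ _
    linarith
  have hxε : 8 * x ≤ ε := by
    have : min ε 1 ≤ ε := min_le_left _ _
    linarith
  obtain ⟨η₁, hη₁, D₁, L₁, hq₁⟩ := h6 x hx0
  obtain ⟨η₂, hη₂, D₂, L₂, hq₂⟩ := h6 (x / 3 ^ (L₁ + 1)) (by positivity)
  set Kc : ℝ := L₂ * (4 / 3) ^ L₂ * 3 ^ (L₁ + 1) with hKc
  obtain ⟨D₃, hD₃⟩ := exists_nat_ge (4 / 3 * Kc / x)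
  refine ⟨min (min η₁ η₂) x, by positivity, max (max D₁ D₂) D₃, L₁ + 1, ?_⟩
  intro V _ G N D p hN hD ha C T y t hyC hyT ht hT hw
  have hp0 : (0:ℝ) ≤ p := p.2.1
  have hp1 : (p:ℝ) ≤ 1 := p.2.2
  have e1 : min (min η₁ η₂) x ≤ x := min_le_right _ _
  have e2 : min (min η₁ η₂) x ≤ η₁ := (min_le_left _ _).trans (min_le_left _ _)
  have e3 : min (min η₁ η₂) x ≤ η₂ := (min_le_left _ _).trans (min_le_right _ _)
  have hD1 : D₁ ≤ D := ((le_max_left _ _).trans (le_max_left _ _)).trans hD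
  have hD2 : D₂ ≤ D := ((le_max_right _ _).trans (le_max_left _ _)).trans hD
  have hD3 : D₃ ≤ D := (le_max_right _ _).trans hD
  have hax : (D:ℝ) * p ≤ 1 + x := by linarith
  have ha43 : (D:ℝ) * p ≤ 4 / 3 := by linarith
  have ha0 : 0 ≤ (D:ℝ) * p := by positivity
  have hqb₁ : qb p D L₁ ≤ x := hq₁ D p hD1 hp0 hp1 (by linarith)
  have hqb₂ : qb p D L₂ ≤ x / 3 ^ (L₁ + 1) := hq₂ D p hD2 hp0 hp1 (by linarith)
  have hqb₂0 : 0 ≤ qb p D L₂ :=
    (Loc439.Pb_nonneg p _).trans (h5 V G N D p hN L₂ C y).2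
  -- the sum of the two-point functions
  have hsum : (p:ℝ) * ∑ n ∈ Finset.range L₂, (D * (p : ℝ)) ^ n ≤ x / 3 ^ (L₁ + 1) := by
    have s1 : ∑ n ∈ Finset.range L₂, (D * (p : ℝ)) ^ n ≤ L₂ * (4 / 3) ^ L₂ := by
      calc ∑ n ∈ Finset.range L₂, (D * (p : ℝ)) ^ n
          ≤ ∑ n ∈ Finset.range L₂, (4 / 3 : ℝ) ^ L₂ := by
            refine Finset.sum_le_sum fun n hn => ?_
            calc (D * (p : ℝ)) ^ n ≤ (4 / 3 : ℝ) ^ n := pow_le_pow_left₀ ha0 ha43 n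
              _ ≤ (4 / 3 : ℝ) ^ L₂ :=
                pow_le_pow_right₀ (by norm_num) (Finset.mem_range.1 hn).le
        _ = L₂ * (4 / 3) ^ L₂ := by rw [Finset.sum_const, Finset.card_range, nsmul_eq_mul]
    have s2 : 4 / 3 * Kc ≤ D * x := by
      have : (D₃ : ℝ) ≤ D := by exact_mod_cast hD3
      rw [← div_le_iff₀ hx0]
      exact hD₃.trans this
    have s3 : (p:ℝ) * Kc ≤ x := by
      have s4 := mul_le_mul_of_nonneg_left s2 hp0
      have s5 := mul_le_mul_of_nonneg_right ha43 hx0.le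
      nlinarith
    rw [le_div_iff₀ (by positivity)]
    calc (p:ℝ) * (∑ n ∈ Finset.range L₂, (D * (p : ℝ)) ^ n) * 3 ^ (L₁ + 1)
        ≤ (p:ℝ) * (L₂ * (4 / 3) ^ L₂) * 3 ^ (L₁ + 1) :=
          mul_le_mul_of_nonneg_right (mul_le_mul_of_nonneg_left s1 hp0) (by positivity)
      _ = p * Kc := by rw [hKc]; ring
      _ ≤ x := s3
  have h3pos : (0:ℝ) < 3 ^ (L₁ + 1) := by positivity
  have hdd : ∀ z, z ≠ y → ∑ v ∈ N y, Pb p (DD G y v z) ≤ 7 / 3 * (x / 3 ^ (L₁ + 1)) := by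
    intro z hz
    refine (h4 V G N D p hN L₂ y z hz).trans ?_
    have s1 : (D:ℝ) * p * qb p D L₂ ≤ 4 / 3 * (x / 3 ^ (L₁ + 1)) :=
      mul_le_mul ha43 hqb₂ hqb₂0 (by norm_num)
    linarith
  have hcomb := h2 V G N D p hN ha43 C T y L₁ x (7 / 3 * (x / 3 ^ (L₁ + 1))) hyC
    (fun t ht w => hT t ht w) hx0.le (by positivity)
    (fun C' u => ((h5 V G N D p hN L₁ C' u).2).trans hqb₁) hdd
  have hcomb' : E2 G N p C T y ≤ D * p * x * E1 G N p C T y + 7 / 3 * x * Pb p (RT G C T y) := by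
    refine hcomb.trans (le_of_eq ?_)
    field_simp
  have hbon := h1 V G N D p hN C T y hyC hyT
  have htwo := h3 V G N D p hN C T y t hyC hyT ht hw
  have hE1 : 0 ≤ E1 G N p C T y := Finset.sum_nonneg fun v _ => Loc439.Pb_nonneg p _
  have hP := Loc439.Pb_nonneg p (RT G C T y)
  refine (Loc439.final hx0 hx8 ha0 hax ht hP hE1 hcomb' hbon htwo).trans ?_
  have : (1 / 2 + 8 * x) * (t * Pb p (RT G C T y)) ≤ (1 / 2 + ε) * (t * Pb p (RT G C T y)) :=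
    mul_le_mul_of_nonneg_right (by linarith) (mul_nonneg ht hP)
  linarith

end Pool.Agent.H659
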