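import Pool.Agent.H659.Defs
import Pool.Agent.H592F.Orient

set_option autoImplicit false

open MeasureTheory Set Filter Topology

/-!
Statements of the parts of the project: each `S_*` is proved in its own file.
-/

namespace Pool.Agent.H659

open Pool.Agent.W783.PC (pm DepOn Inc)

noncomputable section

/-! ### A: tools -/

def S_meas : Prop := ∀ (V : Type) [Countable V] (A : Set (Sym2 V) → Prop), Fm A →
  MeasurableSet (Ev A)

def S_bk : Prop := ∀ (V : Type) [Countable V] (p : unitInterval) (A B : Set (Sym2 V) → Prop),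
  Fm A → Fm B → Pb p (Dj A B) ≤ Pb p A * Pb p B

def S_fmdj : Prop := ∀ (V : Type) (A B : Set (Sym2 V) → Prop), Fm A → Fm B → Fm (Dj A B)

def S_edge : Prop := ∀ (V : Type) (p : unitInterval) (e : Sym2 V),
  Pb p (fun K => e ∈ K) = p

def S_ind : Prop := ∀ (V : Type) [Countable V] (p : unitInterval) (A B : Set (Sym2 V) → Prop)
  (S : Set (Sym2 V)), Lo A S → Lo B Sᶜ → MeasurableSet (Ev A) → MeasurableSet (Ev B) →
  Pb p (fun K => A K ∧ B K) = Pb p A * Pb p B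

/-- Harris -/
def S_har : Prop := ∀ (V : Type) [Countable V] (p : unitInterval) (F : Finset V)
  (B : V → Set (Sym2 V) → Prop), (∀ v ∈ F, Fm (B v)) →
  Pb p (fun K => ∃ v ∈ F, B v K) ≤ 1 - ∏ v ∈ F, (1 - Pb p (B v))

def S_mono : Prop := ∀ (V : Type) [Countable V] (p p' : unitInterval)
  (A : Set (Sym2 V) → Prop), (∀ K K', K ⊆ K' → A K → A K') → MeasurableSet (Ev A) → p ≤ p' →
  Pb p A ≤ Pb p' A

/-! ### B: graphs -/

def S_fmrt : Prop := ∀ (V : Type) (G : SimpleGraph V) (C T : Set V) (u : V), Fm (RT G C T u)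

def S_rtiff : Prop := ∀ (V : Type) (G : SimpleGraph V) (C T : Set V) (y : V) (K : Set (Sym2 V)),
  y ∉ C → y ∉ T → (RT G C T y K ↔ ∃ v, G.Adj y v ∧ Br G C T y v K)

/-- two edge-disjoint paths (Menger) -/
def S_men : Prop := ∀ (V : Type) (G : SimpleGraph V) (C T : Set V) (y : V) (K : Set (Sym2 V)),
  RT G C T y K → (∀ e, RT G C T y (K \ {e})) → Dj (RT G C T y) (RT G C T y) K

def S_det : Prop := ∀ (V : Type) (G : SimpleGraph V) (C T : Set V) (L : ℕ) (y v w : V)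
  (K : Set (Sym2 V)), y ∉ C → G.Adj y v → G.Adj y w → v ≠ w →
  (∀ t ∈ T, ∀ q : G.Walk w t, L ≤ q.length) → Br G C T y v K → Br G C T y w K →
  Dj (Br G C T y v) (Dj (fun K' => s(y, w) ∈ K') (LP G L (insert y C) w)) K ∨
  ∃ n < L, Dj (fun K' => s(y, w) ∈ K') (XX G T (DD G y v) n (insert y C) w) K

/-- a long connection contains a long path -/
def S_long : Prop := ∀ (V : Type) (G : SimpleGraph V) (C T : Set V) (L : ℕ) (u : V)
  (K : Set (Sym2 V)), (∀ t ∈ T, ∀ q : G.Walk u t, L ≤ q.length) → RT G C T u K → LP G L C u K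

/-- a connection is a short path or contains a long path -/
def S_split : Prop := ∀ (V : Type) (G : SimpleGraph V) (C : Set V) (L : ℕ) (u z : V)
  (K : Set (Sym2 V)), (Gr G K C).Reachable u z → (∃ n < L, SC G z n C u K) ∨ LP G L C u K

/-! ### C: probability bounds -/

/-- bound for the probability of a path of length `n` -/
def qb (p : ℝ) (D : ℕ) : ℕ → ℝ
  | 0 => 1
  | n + 1 => 1 - (1 - p * qb p D n) ^ D

def S_lp : Prop := ∀ (V : Type) [Countable V]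
  (G : SimpleGraph V) (N : V → Finset V) (D : ℕ) (p : unitInterval), Nb G N D →
  ∀ (n : ℕ) (C : Set V) (u : V), Fm (LP G n C u) ∧ Pb p (LP G n C u) ≤ qb p D n

def S_qb : Prop := ∀ ε : ℝ, 0 < ε → ∃ η > 0, ∃ D₀ L : ℕ, ∀ (D : ℕ) (p : ℝ), D₀ ≤ D → 0 ≤ p →
  p ≤ 1 → D * p ≤ 1 + η → qb p D L ≤ ε

/-- sum of the probabilities that `y` is joined to `z` through `v` -/
def S_dd : Prop := ∀ (V : Type) [Countable V]
  (G : SimpleGraph V) (N : V → Finset V) (D : ℕ) (p : unitInterval), Nb G N D →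
  ∀ (L : ℕ) (y z : V), z ≠ y →
  ∑ v ∈ N y, Pb p (DD G y v z) ≤ p * ∑ n ∈ Finset.range L, (D * (p : ℝ)) ^ n + D * p * qb p D L

/-- the second factorial moment of the number of branches at `y` -/
def E2 {V : Type} (G : SimpleGraph V) (N : V → Finset V) (p : unitInterval) (C T : Set V)
    (y : V) : ℝ := by
  classical
  exact ∑ q ∈ (N y).offDiag, Pb p (fun K => Br G C T y q.1 K ∧ Br G C T y q.2 K)

/-- the first moment of the number of branches at `y` -/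
def E1 {V : Type} (G : SimpleGraph V) (N : V → Finset V) (p : unitInterval) (C T : Set V)
    (y : V) : ℝ := ∑ v ∈ N y, Pb p (Br G C T y v)

/-- Bonferroni -/
def S_bon : Prop := ∀ (V : Type) [Countable V]
  (G : SimpleGraph V) (N : V → Finset V) (D : ℕ) (p : unitInterval), Nb G N D →
  ∀ (C T : Set V) (y : V), y ∉ C → y ∉ T →
  E1 G N p C T y - E2 G N p C T y / 2 ≤ Pb p (RT G C T y)

/-- the edge at `y` is independent of the rest of the branch -/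
def S_br : Prop := ∀ (V : Type) [Countable V]
  (G : SimpleGraph V) (p : unitInterval) (C T : Set V) (y v w : V), G.Adj y v →
  Pb p (Br G C T y v) = p * Pb p (RT G (insert y C) T v) ∧
  (G.Adj y w → v ≠ w → Pb p (fun K => Br G C T y v K ∧ Br G C T y w K) ≤
    p * Pb p (Br G C T y v))

/-- the first moment is at most three times the probability -/
def S_rho : Prop := ∀ (V : Type) [Countable V]
  (G : SimpleGraph V) (N : V → Finset V) (D : ℕ) (p : unitInterval), Nb G N D →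
  D * (p : ℝ) ≤ 4 / 3 → ∀ (C T : Set V) (y : V), y ∉ C →
  E1 G N p C T y ≤ 3 * Pb p (RT G C T y)

open scoped Classical in
/-- weighted sums over self-avoiding paths -/
def Phi {V : Type} (G : SimpleGraph V) (N : V → Finset V) (p : unitInterval) (T : Set V) :
    ℕ → Set V → V → ℝ
  | 0, C, u => Pb p (RT G C T u)
  | n + 1, C, u => ∑ v ∈ N u, if v ∈ C then 0 else (p : ℝ) * Phi G N p T n (insert u C) v

def S_phi : Prop := ∀ (V : Type) [Countable V]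
  (G : SimpleGraph V) (N : V → Finset V) (D : ℕ) (p : unitInterval), Nb G N D →
  D * (p : ℝ) ≤ 4 / 3 → ∀ (n : ℕ) (C T : Set V) (u : V), u ∉ C →
  0 ≤ Phi G N p T n C u ∧ Phi G N p T n C u ≤ 3 ^ n * Pb p (RT G C T u)

def S_xx : Prop := ∀ (V : Type) [Countable V]
  (G : SimpleGraph V) (N : V → Finset V) (D : ℕ) (p : unitInterval), Nb G N D →
  ∀ (T : Set V) (y : V) (δ : ℝ), 0 ≤ δ → (∀ z, z ≠ y → ∑ v ∈ N y, Pb p (DD G y v z) ≤ δ) →
  ∀ (n : ℕ) (C : Set V) (u : V), y ∈ C → u ∉ C →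
  (∀ v ∈ N y, Fm (XX G T (DD G y v) n C u)) ∧
  ∑ v ∈ N y, Pb p (XX G T (DD G y v) n C u) ≤ δ * Phi G N p T n C u

/-- COMB -/
def S_comb : Prop := ∀ (V : Type) [Countable V]
  (G : SimpleGraph V) (N : V → Finset V) (D : ℕ) (p : unitInterval), Nb G N D →
  D * (p : ℝ) ≤ 4 / 3 → ∀ (C T : Set V) (y : V) (L : ℕ) (q δ : ℝ), y ∉ C →
  (∀ t ∈ T, ∀ w : G.Walk y t, L + 1 ≤ w.length) → 0 ≤ q → 0 ≤ δ →
  (∀ (C' : Set V) (u : V), Pb p (LP G L C' u) ≤ q) →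
  (∀ z, z ≠ y → ∑ v ∈ N y, Pb p (DD G y v z) ≤ δ) →
  E2 G N p C T y ≤ D * p * q * E1 G N p C T y + δ * 3 ^ (L + 1) * Pb p (RT G C T y)

/-- two disjoint branches -/
def S_two : Prop := ∀ (V : Type) [Countable V]
  (G : SimpleGraph V) (N : V → Finset V) (D : ℕ) (p : unitInterval), Nb G N D →
  ∀ (C T : Set V) (y : V) (t : ℝ), y ∉ C → y ∉ T → 0 ≤ t →
  (∀ w ∈ N y, Pb p (RT G ∅ T w) ≤ t) →
  Pb p (Dj (RT G C T y) (RT G C T y)) ≤ 1 / 2 * (D * p * t) * E1 G N p C T y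

/-- LOC -/
def S_loc : Prop := ∀ ε : ℝ, 0 < ε → ∃ η > 0, ∃ D₀ L : ℕ, ∀ (V : Type) [Countable V]
  (G : SimpleGraph V) (N : V → Finset V) (D : ℕ) (p : unitInterval), Nb G N D → D₀ ≤ D →
  D * (p : ℝ) ≤ 1 + η → ∀ (C T : Set V) (y : V) (t : ℝ), y ∉ C → y ∉ T → 0 ≤ t →
  (∀ x ∈ T, ∀ q : G.Walk y x, L ≤ q.length) →
  (∀ w ∈ N y, Pb p (RT G ∅ T w) ≤ t) →
  Pb p (Dj (RT G C T y) (RT G C T y)) ≤ (1 / 2 + ε) * t * Pb p (RT G C T y)

/-! ### D: infinite clusters -/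

def S_measNf : Prop := ∀ (V : Type) [Countable V] (G : SimpleGraph V) (C : Set V) (u : V),
  MeasurableSet (Ev (Nf G C u)) ∧ MeasurableSet (Ev (X2 G C u))

def S_inf : Prop := ∀ ε : ℝ, 0 < ε → ∃ η > 0, ∃ D₀ : ℕ, ∀ (V : Type) [Countable V]
  (G : SimpleGraph V) (N : V → Finset V) (D : ℕ) (p : unitInterval), Nb G N D → D₀ ≤ D →
  D * (p : ℝ) ≤ 1 + η → (∀ (C : Set V) (y : V), Pb p (Nf G C y) ≤ ε) ∧
  ∀ (C : Set V) (y : V) (t : ℝ), y ∉ C → 0 ≤ t → (∀ w, Pb p (Nf G ∅ w) ≤ t) →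
    Pb p (X2 G C y) ≤ (1 / 2 + ε) * t * Pb p (Nf G C y)

/-! ### E: the last pivotal edge -/

/-- deterministic part -/
def S_lastdet : Prop := ∀ (V : Type) (G : SimpleGraph V) (o : V) (K : Set (Sym2 V)),
  Nf G ∅ o K → {q : V × V | G.Adj q.1 q.2 ∧ s(q.1, q.2) ∈ K ∧ Pv G o q.1 q.2 K}.Finite →
  X2 G ∅ o K ∨ ∃ x y, G.Adj x y ∧ s(x, y) ∈ K ∧ Pv G o x y K ∧ X2 G (Cl G o s(x, y) K) y K

/-- probability of being the last pivotal edge -/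
def S_lastpr : Prop := ∀ (V : Type) [Countable V] (G : SimpleGraph V) (p : unitInterval)
  (o x y : V) (κ : ℝ), G.Adj x y →
  (∀ (C : Set V) (y : V), C.Finite → y ∉ C → Pb p (X2 G C y) ≤ κ * Pb p (Nf G C y)) →
  MeasurableSet (Ev (Pv G o x y)) ∧
  Pb p (fun K => s(x, y) ∈ K ∧ Pv G o x y K ∧ X2 G (Cl G o s(x, y) K) y K) ≤
    p * κ * Pb p (Pv G o x y)

def S_last : Prop := ∀ (V : Type) [Countable V] (G : SimpleGraph V) (p : unitInterval)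
  (o : V) (κ : ℝ), 0 ≤ κ →
  (∀ (C : Set V) (y : V), C.Finite → y ∉ C → Pb p (X2 G C y) ≤ κ * Pb p (Nf G C y)) →
  ∀ c : ℝ, 0 ≤ c → p * κ * c < (1 - κ) * Pb p (Nf G ∅ o) →
  ∃ F : Finset (V × V), (∀ q ∈ F, G.Adj q.1 q.2) ∧ c < ∑ q ∈ F, Pb p (Pv G o q.1 q.2)

/-! ### F: derivative -/

def S_der : Prop := ∀ (V : Type) [Countable V] (G : SimpleGraph V) (p : unitInterval)
  (o : V) (F : Finset (V × V)) (c : ℝ), (∀ q ∈ F, G.Adj q.1 q.2) →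
  c < ∑ q ∈ F, Pb p (Pv G o q.1 q.2) → ∃ η > 0, ∀ p' : unitInterval, p < p' →
  (p' : ℝ) < p + η → c * ((p' : ℝ) - p) ≤ Pb p' (Nf G ∅ o) - Pb p (Nf G ∅ o)

def S_int : Prop := ∀ (f : ℝ → ℝ) (a b c : ℝ), a < b → MonotoneOn f (Icc a b) →
  (∀ x ∈ Ioo a b, ∃ η > 0, ∀ y, x < y → y < x + η → y ≤ b → c * (y - x) ≤ f y - f x) →
  ∀ x y, a ≤ x → x ≤ y → y ≤ b → c * (y - x) ≤ f y - f x

/-! ### G: the critical point -/

/-- a large set joined to `A` off `X` -/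
def Big {V : Type} (G : SimpleGraph V) (X A : Finset V) (B : ℕ) (K : Set (Sym2 V)) : Prop :=
  ∃ R : Finset V, B ≤ X.card + R.card ∧ ∀ r ∈ R, ∃ a ∈ A, a ∉ X ∧
    (Gr G K (X : Set V)).Reachable a r

/-- exploration -/
def S_exp : Prop := ∀ (V : Type) [Countable V] (G : SimpleGraph V) (N : V → Finset V)
  (p : unitInterval) (s : ℝ) (n₀ B : ℕ) (S : Set V), (∀ u v, v ∈ N u ↔ G.Adj u v) →
  (∀ u ∈ S, n₀ + B ≤ (N u).card) → (∀ u ∈ S, ∀ v ∈ N u, v ∈ S) → 0 ≤ s → s ≤ 1 →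
  (1 - (p : ℝ) + p * s) ^ n₀ ≤ s →
  ∀ A X : Finset V, (∀ a ∈ A, a ∈ S) → Disjoint A X →
  Pb p (fun K => ¬ Big G X A B K) ≤ s ^ A.card

open scoped Classical in
/-- few open edges -/
def S_few : Prop := ∀ (V : Type) (p : unitInterval) (F : Finset (Sym2 V)) (M : ℕ), 0 < M →
  Pb p (fun K => (F.filter (fun e => e ∈ K)).card < M) ≤ M * (1 - (p : ℝ)) ^ (F.card / M)

/-- the two heights -/
def hh (d m : ℕ) (x : Fin d → ℤ) : ℤ × ℤ :=
  (∑ i : Fin d, if (i : ℕ) < m then x i else 0,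
    ∑ i : Fin d, if m ≤ (i : ℕ) ∧ (i : ℕ) < 2 * m then x i else 0)

/-- the edges of the cell `s` -/
def Es (d m : ℕ) (s : ℤ × ℤ) : Set (Sym2 (Fin d → ℤ)) :=
  {e | ∃ (x : Fin d → ℤ) (i : Fin d), hh d m x = s ∧ e = s(x, x + Pi.single i 1)}

/-- all the points of `B` are joined to `A` inside the cell `s` -/
def Jn (d m : ℕ) (s : ℤ × ℤ) (A B : Finset (Fin d → ℤ)) (K : Set (Sym2 (Fin d → ℤ))) : Prop :=
  ∀ w ∈ B, ∃ a ∈ A, (Gr (Zd d) (K ∩ Es d m s) ∅).Reachable a w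

/-- `A` is a seed of the cell `s` -/
def Sd (d m M : ℕ) (s : ℤ × ℤ) (A : Finset (Fin d → ℤ)) : Prop :=
  A.card = M ∧ ∀ a ∈ A, hh d m a = s

/-- the cell `s` transmits the seed `A` -/
def Gd (d m M : ℕ) (s : ℤ × ℤ) (A : Finset (Fin d → ℤ)) (K : Set (Sym2 (Fin d → ℤ))) : Prop :=
  (∃ B, Sd d m M (s.1 + 1, s.2) B ∧ Jn d m s A B K) ∧
    ∃ B, Sd d m M (s.1, s.2 + 1) B ∧ Jn d m s A B K

def S_cell : Prop := ∀ δ η : ℝ, 0 < δ → δ < 1 → 0 < η → ∃ M d₀ : ℕ, 0 < M ∧ ∀ d : ℕ, d₀ ≤ d →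
  ∃ m : ℕ, 2 * m < d ∧ ∀ (p : unitInterval), (1 + δ) / (2 * d) ≤ (p : ℝ) →
  ∀ (s : ℤ × ℤ) (A : Finset (Fin d → ℤ)), Sd d m M s A →
  Pb p (fun K => ¬ Gd d m M s A K) ≤ η

/-- the sites reached by an oriented renormalised path, with their states -/
inductive Rch {ι St : Type} (Q₁ Q₂ : ℤ × ℤ → St → St → Set (ι → Bool))
    (ok : ℤ × ℤ → St → Prop) (A₀ : St) (ω : ι → Bool) : ℤ × ℤ → St → Prop
  | zero : Rch Q₁ Q₂ ok A₀ ω (0, 0) A₀
  | right {v : ℤ × ℤ} {A B : St} : Rch Q₁ Q₂ ok A₀ ω v A → ω ∈ Q₁ v A B →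
      ok (v.1 + 1, v.2) B → Rch Q₁ Q₂ ok A₀ ω (v.1 + 1, v.2) B
  | up {v : ℤ × ℤ} {A B : St} : Rch Q₁ Q₂ ok A₀ ω v A → ω ∈ Q₂ v A B →
      ok (v.1, v.2 + 1) B → Rch Q₁ Q₂ ok A₀ ω (v.1, v.2 + 1) B

/-- rare failures along sequentially chosen states -/
def S_abs : Prop := ∀ (ι : Type) (r : ι → unitInterval) (St : Type) [Countable St]
  (E : ℤ × ℤ → Set ι) (ok : ℤ × ℤ → St → Prop) (Q₁ Q₂ : ℤ × ℤ → St → St → Set (ι → Bool))
  (A₀ : St), (∀ u v, u ≠ v → Disjoint (E u) (E v)) →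
  (∀ v A B, DepOn (Q₁ v A B) (E v) ∧ MeasurableSet (Q₁ v A B)) →
  (∀ v A B, DepOn (Q₂ v A B) (E v) ∧ MeasurableSet (Q₂ v A B)) →
  ok (0, 0) A₀ →
  (∀ v A, ok v A → (pm r).real {ω | ¬ ((∃ B, ok (v.1 + 1, v.2) B ∧ ω ∈ Q₁ v A B) ∧
    ∃ B, ok (v.1, v.2 + 1) B ∧ ω ∈ Q₂ v A B)} ≤ 1 / 10 ^ 12) →
  1 / 2 ≤ (pm r).real {ω | ∀ n : ℕ, ∃ v A, (n : ℤ) ≤ v.1 + v.2 ∧ ok v A ∧
    Rch Q₁ Q₂ ok A₀ ω v A}

/-- the critical point in high dimensions -/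
def S_pc : Prop := ∀ δ : ℝ, 0 < δ → ∃ d₀ : ℕ, ∀ d : ℕ, d₀ ≤ d → ∀ p : unitInterval,
  (1 + δ) / (2 * d) ≤ (p : ℝ) → 0 < Pb p (Nf (Zd d) ∅ 0)

/-! ### H: the lattice -/

def S_nb : Prop := ∀ d : ℕ, ∃ N : (Fin d → ℤ) → Finset (Fin d → ℤ), Nb (Zd d) N (2 * d)

def S_shift : Prop := ∀ (d : ℕ) (p : unitInterval) (u : Fin d → ℤ),
  Pb p (Nf (Zd d) ∅ u) = Pb p (Nf (Zd d) ∅ 0)

/-- the uniform coupling -/
def S_trf : Prop := ∀ (d : ℕ) (p : unitInterval),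
  ((Measure.infinitePi (fun _ : (Fin d → ℤ) × Fin d => (volume : Measure unitInterval)))
    {ω : (Fin d → ℤ) × Fin d → unitInterval | Set.Infinite {x : Fin d → ℤ |
      (SimpleGraph.fromRel (fun a b : Fin d → ℤ =>
        ∃ i : Fin d, b = a + (Pi.single i (1 : ℤ) : Fin d → ℤ) ∧
          ((ω (a, i) : ℝ) ≤ p))).Reachable 0 x}}).toReal = Pb p (Nf (Zd d) ∅ 0)

end

end Pool.Agent.H659
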