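-- target proved, default heartbeats, axioms propext/choice/Quot.sound; also useful: H586Split.path_LP, path_SC, tail_path, dj_edge
import Pool.Agent.H659.Stmts

set_option autoImplicit false

open MeasureTheory Set Filter Topology

namespace Pool.Agent.H659

open Pool.Agent.W783.PC (pm DepOn Inc)

namespace H586Split

variable {V : Type}

theorem le_G (G : SimpleGraph V) (K : Set (Sym2 V)) (C : Set V) : Gr G K C ≤ G :=
  fun _ _ h => h.1

/-- the tail of a path is a path off its first point and its first edge -/
theorem tail_path (G : SimpleGraph V) {K : Set (Sym2 V)} {C : Set V} {u v w : V}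
    (q : (Gr G K C).Walk v w) (hq : q.IsPath) (hu : u ∉ q.support) :
    ∃ q' : (Gr G (K \ {s(u, v)}) (insert u C)).Walk v w, q'.IsPath ∧ q'.length = q.length := by
  have h1 : ∀ e ∈ q.edges, e ∈ (Gr G (K \ {s(u, v)}) (insert u C)).edgeSet := by
    intro e
    induction e using Sym2.ind with
    | _ a b =>
      intro he
      have h2 := q.adj_of_mem_edges he
      have ha : a ≠ u := fun h => hu (h ▸ q.fst_mem_support_of_mem_edges he)
      have hb : b ≠ u := fun h => hu (h ▸ q.snd_mem_support_of_mem_edges he)
      rw [SimpleGraph.mem_edgeSet]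
      refine ⟨h2.1, ⟨h2.2.1, ?_⟩, ?_, ?_⟩
      · intro h
        rcases Sym2.eq_iff.1 (Set.mem_singleton_iff.1 h) with h3 | h3
        · exact ha h3.1
        · exact hb h3.2
      · rintro (h | h)
        · exact ha h
        · exact h2.2.2.1 h
      · rintro (h | h)
        · exact hb h
        · exact h2.2.2.2 h
  exact ⟨q.transfer _ h1, hq.transfer h1, q.length_transfer h1⟩

theorem dj_edge {A : Set (Sym2 V) → Prop} {K : Set (Sym2 V)} {e : Sym2 V} (he : e ∈ K)
    (hA : A (K \ {e})) : Dj (fun K' => e ∈ K') A K :=
  ⟨{e}, K \ {e}, Set.singleton_subset_iff.2 he, Set.sdiff_subset, Set.disjoint_sdiff_right,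
    Set.mem_singleton e, hA⟩

theorem path_LP (G : SimpleGraph V) : ∀ (L : ℕ) (C : Set V) (u w : V) (K : Set (Sym2 V))
    (q : (Gr G K C).Walk u w), q.IsPath → L ≤ q.length → LP G L C u K := by
  intro L
  induction L with
  | zero => intro C u w K q _ _; trivial
  | succ L ih =>
    intro C u w K q hq hL
    cases q with
    | nil => simp at hL
    | cons h q =>
      rename_i v
      rw [SimpleGraph.Walk.cons_isPath_iff] at hq
      obtain ⟨q', h1, h2⟩ := tail_path G (u := u) q hq.1 hq.2
      refine ⟨v, h.1, h.2.2.2, dj_edge h.2.1 (ih _ _ w _ q' h1 ?_)⟩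
      rw [h2]
      simpa using hL

theorem path_SC (G : SimpleGraph V) (z : V) : ∀ (n : ℕ) (C : Set V) (u : V) (K : Set (Sym2 V))
    (q : (Gr G K C).Walk u z), q.IsPath → q.length = n → SC G z n C u K := by
  intro n
  induction n with
  | zero =>
    intro C u K q _ h
    exact SimpleGraph.Walk.eq_of_length_eq_zero h
  | succ n ih =>
    intro C u K q hq hL
    cases q with
    | nil => simp at hL
    | cons h q =>
      rename_i v
      rw [SimpleGraph.Walk.cons_isPath_iff] at hq
      obtain ⟨q', h1, h2⟩ := tail_path G (u := u) q hq.1 hq.2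
      refine ⟨v, h.1, h.2.2.2, dj_edge h.2.1 (ih _ _ _ q' h1 ?_)⟩
      rw [h2]
      simpa using hL

end H586Split

open H586Split in
theorem t_long_split : S_long ∧ S_split := by
  classical
  constructor
  · intro V G C T L u K h hR
    obtain ⟨-, t, ht, hr⟩ := hR
    obtain ⟨q, hq⟩ := hr.exists_isPath
    refine path_LP G L C u t K q hq ?_
    have := h t ht (q.mapLe (le_G G K C))
    simpa using this
  · intro V G C L u z K hr
    obtain ⟨q, hq⟩ := hr.exists_isPath
    by_cases hL : q.length < L
    · exact Or.inl ⟨q.length, hL, path_SC G z _ C u K q hq rfl⟩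
    · exact Or.inr (path_LP G L C u z K q hq (not_lt.1 hL))

end Pool.Agent.H659
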