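import Pool.Agent.H659.Stmts

set_option autoImplicit false

open MeasureTheory Set Filter Topology

namespace Pool.Agent.H659

open Pool.Agent.W783.PC (pm DepOn Inc)

namespace T92

theorem Pb_le_one {V : Type} (p : unitInterval) (A : Set (Sym2 V) → Prop) : Pb p A ≤ 1 := by
  unfold Pb
  exact measureReal_le_one

theorem Pb_nonneg {V : Type} (p : unitInterval) (A : Set (Sym2 V) → Prop) : 0 ≤ Pb p A := by
  unfold Pb
  exact measureReal_nonneg

theorem fm_edge {V : Type} (e : Sym2 V) : Fm (fun K : Set (Sym2 V) => e ∈ K) :=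
  ⟨fun _ _ h he => h he, fun _ he => ⟨{e}, Set.singleton_subset_iff.2 he, Set.finite_singleton e,
    Set.mem_singleton e⟩⟩

theorem fm_true {V : Type} : Fm (fun _ : Set (Sym2 V) => True) :=
  ⟨fun _ _ _ _ => trivial, fun _ _ => ⟨∅, Set.empty_subset _, Set.finite_empty, trivial⟩⟩

theorem qb_mem (p : unitInterval) (D n : ℕ) : 0 ≤ qb p D n ∧ qb p D n ≤ 1 := by
  have hp0 : (0 : ℝ) ≤ p := p.2.1
  have hp1 : (p : ℝ) ≤ 1 := p.2.2
  induction n with
  | zero => exact ⟨zero_le_one, le_refl _⟩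
  | succ n ih =>
    have h1 : 0 ≤ (p : ℝ) * qb p D n := mul_nonneg hp0 ih.1
    have h2 : (p : ℝ) * qb p D n ≤ 1 := mul_le_one₀ hp1 ih.1 ih.2
    change 0 ≤ 1 - (1 - (p : ℝ) * qb p D n) ^ D ∧ 1 - (1 - (p : ℝ) * qb p D n) ^ D ≤ 1
    have h3 : (1 - (p : ℝ) * qb p D n) ^ D ≤ 1 := pow_le_one₀ (by linarith) (by linarith)
    have h4 : 0 ≤ (1 - (p : ℝ) * qb p D n) ^ D := pow_nonneg (by linarith) _
    constructor <;> linarith

end T92

open T92

theorem t_lp (h1 : S_bk) (h2 : S_fmdj) (h3 : S_edge) (h4 : S_har) : S_lp := by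
  classical
  intro V _ G N D p hN n
  induction n with
  | zero =>
    intro C u
    exact ⟨fm_true, Pb_le_one _ _⟩
  | succ n ih =>
    intro C u
    have hB : ∀ v, Fm (Dj (fun K' : Set (Sym2 V) => s(u, v) ∈ K') (LP G n (insert u C) v)) :=
      fun v => h2 V _ _ (fm_edge _) (ih _ _).1
    have hBp : ∀ v, Pb p (Dj (fun K' : Set (Sym2 V) => s(u, v) ∈ K') (LP G n (insert u C) v)) ≤
        (p : ℝ) * qb p D n := by
      intro v
      refine (h1 V p _ _ (fm_edge _) (ih (insert u C) v).1).trans ?_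
      rw [h3 V p]
      exact mul_le_mul_of_nonneg_left (ih (insert u C) v).2 p.2.1
    refine ⟨⟨?_, ?_⟩, ?_⟩
    · rintro K K' hK ⟨v, hv1, hv2, hv3⟩
      exact ⟨v, hv1, hv2, (hB v).1 K K' hK hv3⟩
    · rintro K ⟨v, hv1, hv2, hv3⟩
      obtain ⟨K', h5, h6, h7⟩ := (hB v).2 K hv3
      exact ⟨K', h5, h6, v, hv1, hv2, h7⟩
    · set F := (N u).filter (fun v => v ∉ C) with hF
      have hEq : LP G (n + 1) C u = fun K => ∃ v ∈ F,
          Dj (fun K' : Set (Sym2 V) => s(u, v) ∈ K') (LP G n (insert u C) v) K := by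
        funext K
        apply propext
        constructor
        · rintro ⟨v, hv1, hv2, hv3⟩
          exact ⟨v, Finset.mem_filter.2 ⟨(hN.1 u v).2 hv1, hv2⟩, hv3⟩
        · rintro ⟨v, hv, hv3⟩
          rw [hF, Finset.mem_filter] at hv
          exact ⟨v, (hN.1 u v).1 hv.1, hv.2, hv3⟩
      rw [hEq]
      refine (h4 V p F _ fun v _ => hB v).trans ?_
      change _ ≤ 1 - (1 - (p : ℝ) * qb p D n) ^ D
      have hq := qb_mem p D n
      have hp0 : (0 : ℝ) ≤ p := p.2.1
      have hp1 : (p : ℝ) ≤ 1 := p.2.2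
      have h5 : 0 ≤ (p : ℝ) * qb p D n := mul_nonneg hp0 hq.1
      have h6 : (p : ℝ) * qb p D n ≤ 1 := mul_le_one₀ hp1 hq.1 hq.2
      have h7 : (1 - (p : ℝ) * qb p D n) ^ F.card ≤ ∏ v ∈ F, (1 - Pb p (Dj
          (fun K' : Set (Sym2 V) => s(u, v) ∈ K') (LP G n (insert u C) v))) := by
        rw [← Finset.prod_const]
        refine Finset.prod_le_prod (fun v _ => by linarith) fun v _ => ?_
        have := hBp v
        linarith
      have h8 : (1 - (p : ℝ) * qb p D n) ^ D ≤ (1 - (p : ℝ) * qb p D n) ^ F.card :=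
        pow_le_pow_of_le_one (by linarith) (by linarith)
          ((Finset.card_filter_le _ _).trans (hN.2 u))
      linarith

end Pool.Agent.H659
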