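import Pool.Agent.H659.Stmts

set_option autoImplicit false

open MeasureTheory Set Filter Topology

namespace Pool.Agent.H659

open Pool.Agent.W783.PC (pm DepOn Inc)

namespace Men362

variable {V : Type}

/-- the initial segment of a walk up to its first vertex in `A` -/
theorem first {H : SimpleGraph V} (A : Set V) {y t : V} (R : H.Walk y t) (ht : t ∈ A) :
    ∃ x ∈ A, ∃ R' : H.Walk y x, (∀ e ∈ R'.edges, e ∈ R.edges) ∧
      ∀ e ∈ R'.edges, ∃ z ∈ e, z ∉ A := by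
  classical
  induction R with
  | nil => exact ⟨_, ht, .nil, by simp, by simp⟩
  | @cons u v w h p ih =>
    by_cases hu : u ∈ A
    · exact ⟨u, hu, .nil, by simp, by simp⟩
    · obtain ⟨x, hx, R', h1, h2⟩ := ih ht
      refine ⟨x, hx, .cons h R', ?_, ?_⟩
      · intro e he
        rw [SimpleGraph.Walk.edges_cons, List.mem_cons] at he ⊢
        exact he.imp id (h1 e)
      · intro e he
        rw [SimpleGraph.Walk.edges_cons, List.mem_cons] at he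
        rcases he with rfl | he
        · exact ⟨u, Sym2.mem_mk_left _ _, hu⟩
        · exact h2 e he

theorem mem_supp {H : SimpleGraph V} {y t : V} (P : H.Walk y t) {e : Sym2 V} (he : e ∈ P.edges)
    {z : V} (hz : z ∈ e) : z ∈ P.support := by
  induction e using Sym2.ind with
  | _ a b =>
    rcases Sym2.mem_iff.1 hz with rfl | rfl
    · exact P.fst_mem_support_of_mem_edges he
    · exact P.snd_mem_support_of_mem_edges he

/-- the step of the induction -/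
theorem step {H : SimpleGraph V} (T : Set V) {y y' : V} (h : H.Adj y y')
    (hyp : ∀ e, ∃ t ∈ T, ∃ q : H.Walk y t, e ∉ q.edges)
    {t₁ t₂ : V} (ht₁ : t₁ ∈ T) (ht₂ : t₂ ∈ T) (P₁ : H.Walk y' t₁) (P₂ : H.Walk y' t₂)
    (hP₁ : P₁.IsPath) (hP₂ : P₂.IsPath) (hd : ∀ e ∈ P₁.edges, e ∉ P₂.edges) :
    ∃ t₁ ∈ T, ∃ t₂ ∈ T, ∃ (Q₁ : H.Walk y t₁) (Q₂ : H.Walk y t₂), ∀ e ∈ Q₁.edges, e ∉ Q₂.edges := by
  classical
  -- the edge belongs to one of the paths
  have key : ∀ {t₁ t₂ : V} (_ : t₁ ∈ T) (_ : t₂ ∈ T) (P₁ : H.Walk y' t₁) (P₂ : H.Walk y' t₂)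
      (_ : P₁.IsPath) (_ : ∀ e ∈ P₁.edges, e ∉ P₂.edges), s(y, y') ∈ P₁.edges →
      ∃ t₁ ∈ T, ∃ t₂ ∈ T, ∃ (Q₁ : H.Walk y t₁) (Q₂ : H.Walk y t₂), ∀ e ∈ Q₁.edges, e ∉ Q₂.edges := by
    intro t₁ t₂ ht₁ ht₂ P₁ P₂ hP₁ hd he
    have hy : y ∈ P₁.support := P₁.fst_mem_support_of_mem_edges he
    refine ⟨t₁, ht₁, t₂, ht₂, P₁.dropUntil y hy, .cons h P₂, fun e h1 h2 => ?_⟩
    rw [SimpleGraph.Walk.edges_cons, List.mem_cons] at h2
    rcases h2 with rfl | h2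
    · have h3 : y' ∈ (P₁.dropUntil y hy).support := SimpleGraph.Walk.snd_mem_support_of_mem_edges _ h1
      have h4 := congrArg SimpleGraph.Walk.support (P₁.take_spec hy)
      rw [SimpleGraph.Walk.support_append] at h4
      have h5 : ((P₁.takeUntil y hy).support ++ (P₁.dropUntil y hy).support.tail).Nodup := by
        rw [h4]
        exact hP₁.support_nodup
      have h6 : y' ∈ (P₁.dropUntil y hy).support.tail := by
        rw [SimpleGraph.Walk.mem_support_iff] at h3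
        exact h3.resolve_left h.ne'
      exact List.disjoint_of_nodup_append h5 (SimpleGraph.Walk.start_mem_support _) h6
    · exact hd e (P₁.edges_dropUntil_subset_edges hy h1) h2
  -- the walk touches one of the paths
  have key2 : ∀ {t₁ t₂ : V} (_ : t₁ ∈ T) (_ : t₂ ∈ T) (P₁ : H.Walk y' t₁) (P₂ : H.Walk y' t₂)
      (_ : ∀ e ∈ P₁.edges, e ∉ P₂.edges) (_ : s(y, y') ∉ P₁.edges) {x : V} (R : H.Walk y x)
      (_ : s(y, y') ∉ R.edges) (_ : ∀ e ∈ R.edges, e ∉ P₂.edges), x ∈ P₁.support →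
      ∃ t₁ ∈ T, ∃ t₂ ∈ T, ∃ (Q₁ : H.Walk y t₁) (Q₂ : H.Walk y t₂), ∀ e ∈ Q₁.edges, e ∉ Q₂.edges := by
    intro t₁ t₂ ht₁ ht₂ P₁ P₂ hd he x R hR1 hR2 hx
    refine ⟨t₁, ht₁, t₂, ht₂, R.append (P₁.dropUntil x hx), .cons h P₂, fun e h1 h2 => ?_⟩
    rw [SimpleGraph.Walk.edges_cons, List.mem_cons] at h2
    rw [SimpleGraph.Walk.edges_append, List.mem_append] at h1
    rcases h2 with rfl | h2
    · rcases h1 with h1 | h1
      · exact hR1 h1
      · exact he (P₁.edges_dropUntil_subset_edges hx h1)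
    · rcases h1 with h1 | h1
      · exact hR2 e h1 h2
      · exact hd e (P₁.edges_dropUntil_subset_edges hx h1) h2
  by_cases he₁ : s(y, y') ∈ P₁.edges
  · exact key ht₁ ht₂ P₁ P₂ hP₁ hd he₁
  by_cases he₂ : s(y, y') ∈ P₂.edges
  · exact key ht₂ ht₁ P₂ P₁ hP₂ (fun e h1 h2 => hd e h2 h1) he₂
  obtain ⟨t, ht, q, hq⟩ := hyp s(y, y')
  obtain ⟨x, hx, R, hR1, hR2⟩ := first ({z | z ∈ P₁.support} ∪ {z | z ∈ P₂.support} ∪ T) q
    (Or.inr ht)
  have hRe : s(y, y') ∉ R.edges := fun h => hq (hR1 _ h)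
  have hRP₁ : ∀ e ∈ R.edges, e ∉ P₁.edges := fun e h1 h2 => by
    obtain ⟨z, hz, hz2⟩ := hR2 e h1
    exact hz2 (Or.inl (Or.inl (mem_supp P₁ h2 hz)))
  have hRP₂ : ∀ e ∈ R.edges, e ∉ P₂.edges := fun e h1 h2 => by
    obtain ⟨z, hz, hz2⟩ := hR2 e h1
    exact hz2 (Or.inl (Or.inr (mem_supp P₂ h2 hz)))
  rcases hx with (hx | hx) | hx
  · exact key2 ht₁ ht₂ P₁ P₂ hd he₁ R hRe hRP₂ hx
  · exact key2 ht₂ ht₁ P₂ P₁ (fun e h1 h2 => hd e h2 h1) he₂ R hRe hRP₁ hx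
  · refine ⟨x, hx, t₁, ht₁, R, .cons h P₁, fun e h1 h2 => ?_⟩
    rw [SimpleGraph.Walk.edges_cons, List.mem_cons] at h2
    rcases h2 with rfl | h2
    · exact hRe h1
    · exact hRP₁ e h1 h2

theorem main {H : SimpleGraph V} (T : Set V) {y t : V} (p : H.Walk y t) (hp : p.IsPath)
    (ht : t ∈ T) (hyp : ∀ e, ∃ t ∈ T, ∃ q : H.Walk y t, e ∉ q.edges) :
    ∃ t₁ ∈ T, ∃ t₂ ∈ T, ∃ (Q₁ : H.Walk y t₁) (Q₂ : H.Walk y t₂), ∀ e ∈ Q₁.edges, e ∉ Q₂.edges := by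
  classical
  induction p with
  | nil => exact ⟨_, ht, _, ht, .nil, .nil, by simp⟩
  | @cons u v w h p ih =>
    rw [SimpleGraph.Walk.cons_isPath_iff] at hp
    obtain ⟨t₁, ht₁, t₂, ht₂, P₁, P₂, hd⟩ := ih hp.1 ht (by
      intro f
      by_cases hf : f = s(u, v)
      · subst hf
        exact ⟨w, ht, p, fun h1 => hp.2 (p.fst_mem_support_of_mem_edges h1)⟩
      · obtain ⟨t, ht, q, hq⟩ := hyp f
        refine ⟨t, ht, .cons h.symm q, ?_⟩
        rw [SimpleGraph.Walk.edges_cons, List.mem_cons, not_or]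
        exact ⟨fun h1 => hf (by rw [h1, Sym2.eq_swap]), hq⟩)
    exact step T h hyp ht₁ ht₂ P₁.bypass P₂.bypass P₁.bypass_isPath P₂.bypass_isPath
      fun e h1 h2 => hd e (P₁.edges_bypass_subset_edges h1) (P₂.edges_bypass_subset_edges h2)

end Men362

open Men362 in
theorem t_men : S_men := by
  classical
  intro V G C T y K h1 h2
  obtain ⟨hyC, t, ht, ⟨p⟩⟩ := h1
  have hle : ∀ e, Gr G (K \ {e}) C ≤ Gr G K C := fun e a b hab => ⟨hab.1, hab.2.1.1, hab.2.2⟩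
  obtain ⟨t₁, ht₁, t₂, ht₂, Q₁, Q₂, hd⟩ := main T p.bypass p.bypass_isPath ht (by
    intro e
    obtain ⟨_, t, ht, ⟨q⟩⟩ := h2 e
    refine ⟨t, ht, q.mapLe (hle e), fun h => ?_⟩
    rw [SimpleGraph.Walk.edges_mapLe_eq_edges] at h
    have h3 := q.edges_subset_edgeSet h
    induction e using Sym2.ind with
    | _ a b => exact h3.2.1.2 rfl)
  have key : ∀ {t : V} (_ : t ∈ T) (Q : (Gr G K C).Walk y t), RT G C T y {e | e ∈ Q.edges} := by
    intro t ht Q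
    refine ⟨hyC, t, ht, ⟨Q.transfer _ fun e he => ?_⟩⟩
    have h3 := Q.edges_subset_edgeSet he
    induction e using Sym2.ind with
    | _ a b => exact ⟨h3.1, he, h3.2.2⟩
  have key2 : ∀ {t : V} (Q : (Gr G K C).Walk y t), {e | e ∈ Q.edges} ⊆ K := by
    intro t Q e he
    have h3 := Q.edges_subset_edgeSet he
    induction e using Sym2.ind with
    | _ a b => exact h3.2.1
  exact ⟨{e | e ∈ Q₁.edges}, {e | e ∈ Q₂.edges}, key2 Q₁, key2 Q₂,
    Set.disjoint_left.2 fun e h1 h2 => hd e h1 h2, key ht₁ Q₁, key ht₂ Q₂⟩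

end Pool.Agent.H659
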