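import Pool.Agent.H659.Stmts

set_option autoImplicit false

open MeasureTheory Set Filter Topology

namespace Pool.Agent.H659

open Pool.Agent.W783.PC (pm DepOn Inc)

namespace H13pc

theorem gr_mono {V : Type} (G : SimpleGraph V) {K K' : Set (Sym2 V)} (C : Set V) (h : K ⊆ K') :
    Gr G K C ≤ Gr G K' C := by
  intro a b hab
  exact ⟨hab.1, h hab.2.1, hab.2.2.1, hab.2.2.2⟩

theorem reach_fin {V : Type} (G : SimpleGraph V) (K S : Set (Sym2 V)) {a w : V}
    (h : (Gr G (K ∩ S) ∅).Reachable a w) :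
    ∃ K' : Set (Sym2 V), K' ⊆ K ∧ K'.Finite ∧ (Gr G (K' ∩ S) ∅).Reachable a w := by
  obtain ⟨q⟩ := h
  induction q with
  | nil => exact ⟨∅, empty_subset _, finite_empty, SimpleGraph.Reachable.refl _⟩
  | @cons u v w' hadj q ih =>
    obtain ⟨K', h1, h2, h3⟩ := ih
    refine ⟨insert s(u, v) K', ?_, h2.insert _, ?_⟩
    · intro e he
      rcases he with he | he
      · rw [he]; exact hadj.2.1.1
      · exact h1 he
    · have h4 : (Gr G (insert s(u, v) K' ∩ S) ∅).Adj u v :=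
        ⟨hadj.1, ⟨mem_insert _ _, hadj.2.1.2⟩, hadj.2.2.1, hadj.2.2.2⟩
      refine h4.reachable.trans (h3.mono (gr_mono G ∅ ?_))
      exact inter_subset_inter_left _ (subset_insert _ _)

theorem fm_jn (d m : ℕ) (s : ℤ × ℤ) (A B : Finset (Fin d → ℤ)) : Fm (Jn d m s A B) := by
  constructor
  · intro K K' hK h w hw
    obtain ⟨a, ha, h1⟩ := h w hw
    exact ⟨a, ha, h1.mono (gr_mono _ _ (inter_subset_inter_left _ hK))⟩
  · intro K h
    have h1 : ∀ w ∈ B, ∃ a ∈ A, ∃ K' : Set (Sym2 (Fin d → ℤ)), K' ⊆ K ∧ K'.Finite ∧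
        (Gr (Zd d) (K' ∩ Es d m s) ∅).Reachable a w := by
      intro w hw
      obtain ⟨a, ha, h2⟩ := h w hw
      obtain ⟨K', h3, h4, h5⟩ := reach_fin _ _ _ h2
      exact ⟨a, ha, K', h3, h4, h5⟩
    choose! fa hfa fK hK1 hK2 hK3 using h1
    refine ⟨⋃ w ∈ B, fK w, iUnion₂_subset hK1, B.finite_toSet.biUnion hK2, ?_⟩
    intro w hw
    refine ⟨fa w, hfa w hw, (hK3 w hw).mono (gr_mono _ _ (inter_subset_inter_left _ ?_))⟩
    exact subset_biUnion_of_mem (u := fK) hw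

theorem es_disj (d m : ℕ) (u v : ℤ × ℤ) (huv : u ≠ v) : Disjoint (Es d m u) (Es d m v) := by
  rw [Set.disjoint_left]
  rintro e ⟨x, i, hx, he⟩ ⟨y, j, hy, he'⟩
  rw [he, Sym2.eq_iff] at he'
  rcases he' with ⟨h1, -⟩ | ⟨h1, h2⟩
  · rw [h1, hy] at hx
    exact huv hx.symm
  · rw [h1] at h2
    have h3 := congrFun h2 i
    simp only [Pi.add_apply, Pi.single_eq_same] at h3
    have h4 : 0 ≤ (Pi.single j 1 : Fin d → ℤ) i := by
      by_cases hij : i = j
      · subst hij; simp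
      · rw [Pi.single_eq_of_ne hij]
    omega

theorem dep_jn (d m : ℕ) (s : ℤ × ℤ) (A B : Finset (Fin d → ℤ)) :
    DepOn (Ev (Jn d m s A B)) (Es d m s) := by
  intro ω ω' h
  have h1 : opn ω ∩ Es d m s = opn ω' ∩ Es d m s := by
    ext e
    constructor
    · rintro ⟨h2, h3⟩
      refine ⟨?_, h3⟩
      show ω' e = true
      rw [← h e h3]; exact h2
    · rintro ⟨h2, h3⟩
      refine ⟨?_, h3⟩
      show ω e = true
      rw [h e h3]; exact h2
  show Jn d m s A B (opn ω) ↔ Jn d m s A B (opn ω')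
  unfold Jn
  rw [h1]

theorem rch_reach (d m M : ℕ) (A₀ : Finset (Fin d → ℤ)) (ω : Sym2 (Fin d → ℤ) → Bool)
    (v : ℤ × ℤ) (A : Finset (Fin d → ℤ))
    (h : Rch (fun v A B => Ev (Jn d m v A B)) (fun v A B => Ev (Jn d m v A B))
      (fun v A => Sd d m M v A) A₀ ω v A) :
    ∀ w ∈ A, ∃ a ∈ A₀, (Gr (Zd d) (opn ω) ∅).Reachable a w := by
  induction h with
  | zero => exact fun w hw => ⟨w, hw, SimpleGraph.Reachable.refl _⟩
  | @right v A B h1 h2 h3 ih =>
    intro w hw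
    obtain ⟨a', ha', h4⟩ := h2 w hw
    obtain ⟨a, ha, h5⟩ := ih a' ha'
    exact ⟨a, ha, h5.trans (h4.mono (gr_mono _ _ inter_subset_left))⟩
  | @up v A B h1 h2 h3 ih =>
    intro w hw
    obtain ⟨a', ha', h4⟩ := h2 w hw
    obtain ⟨a, ha, h5⟩ := ih a' ha'
    exact ⟨a, ha, h5.trans (h4.mono (gr_mono _ _ inter_subset_left))⟩

end H13pc

open H13pc

theorem t_pc (h1 : S_meas) (h2 : S_measNf) (h3 : S_shift) (h4 : S_cell) (h5 : S_abs) : S_pc := by
  intro δ hδ
  have hδ' : 0 < min δ (1 / 2) := lt_min hδ (by norm_num)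
  obtain ⟨M, d₀, hM, hcell⟩ := h4 (min δ (1 / 2)) (1 / 10 ^ 12) hδ'
    (lt_of_le_of_lt (min_le_right _ _) (by norm_num)) (by norm_num)
  refine ⟨d₀, fun d hd p hp => ?_⟩
  obtain ⟨m, hm, hgd⟩ := hcell d hd
  have hd0 : 0 < d := by omega
  have hp' : (1 + min δ (1 / 2)) / (2 * d) ≤ (p : ℝ) := by
    refine le_trans ?_ hp
    have : (0 : ℝ) < 2 * d := by positivity
    gcongr
    exact min_le_left _ _
  have hgd' := hgd p hp'
  set i₀ : Fin d := ⟨d - 1, by omega⟩ with hi₀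
  set A₀ : Finset (Fin d → ℤ) := (Finset.range M).image (fun k : ℕ => Pi.single i₀ (k : ℤ)) with hA₀
  have hcard : A₀.card = M := by
    rw [hA₀, Finset.card_image_of_injective, Finset.card_range]
    intro a b hab
    have := congrFun hab i₀
    simpa using this
  have hok : Sd d m M (0, 0) A₀ := by
    refine ⟨hcard, ?_⟩
    intro a ha
    rw [hA₀, Finset.mem_image] at ha
    obtain ⟨k, -, rfl⟩ := ha
    unfold hh
    congr 1
    · apply Finset.sum_eq_zero
      intro i _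
      split_ifs with h
      · rw [Pi.single_eq_of_ne]
        intro hi
        rw [hi, hi₀] at h
        simp only at h
        omega
      · rfl
    · apply Finset.sum_eq_zero
      intro i _
      split_ifs with h
      · rw [Pi.single_eq_of_ne]
        intro hi
        rw [hi, hi₀] at h
        simp only at h
        omega
      · rfl
  have hmain := h5 (Sym2 (Fin d → ℤ)) (fun _ => p) (Finset (Fin d → ℤ)) (fun v => Es d m v)
    (fun v A => Sd d m M v A) (fun v A B => Ev (Jn d m v A B)) (fun v A B => Ev (Jn d m v A B)) A₀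
    (fun u v huv => es_disj d m u v huv)
    (fun v A B => ⟨dep_jn d m v A B, h1 _ _ (fm_jn d m v A B)⟩)
    (fun v A B => ⟨dep_jn d m v A B, h1 _ _ (fm_jn d m v A B)⟩) hok
    (fun v A hA => hgd' v A hA)
  have hsub : {ω : Sym2 (Fin d → ℤ) → Bool | ∀ n : ℕ, ∃ v A, (n : ℤ) ≤ v.1 + v.2 ∧ Sd d m M v A ∧
      Rch (fun v A B => Ev (Jn d m v A B)) (fun v A B => Ev (Jn d m v A B))
      (fun v A => Sd d m M v A) A₀ ω v A} ⊆ ⋃ a ∈ A₀, Ev (Nf (Zd d) ∅ a) := by
    intro ω hω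
    by_contra hcon
    have hfin : ∀ a ∈ A₀, {v | (Gr (Zd d) (opn ω) ∅).Reachable a v}.Finite := by
      intro a ha
      by_contra hinf
      apply hcon
      rw [mem_iUnion₂]
      exact ⟨a, ha, notMem_empty _, hinf⟩
    have hU : (⋃ a ∈ A₀, {v | (Gr (Zd d) (opn ω) ∅).Reachable a v}).Finite :=
      A₀.finite_toSet.biUnion hfin
    have hI : ((fun x => (hh d m x).1 + (hh d m x).2) ''
        (⋃ a ∈ A₀, {v | (Gr (Zd d) (opn ω) ∅).Reachable a v})).Finite := hU.image _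
    obtain ⟨b, hb⟩ := hI.bddAbove
    obtain ⟨v, A, hn, hA, hR⟩ := hω (b.toNat + 1)
    have hne : A.Nonempty := by
      rw [← Finset.card_pos, hA.1]; exact hM
    obtain ⟨w, hw⟩ := hne
    obtain ⟨a, ha, hreach⟩ := rch_reach d m M A₀ ω v A hR w hw
    have h6 : (hh d m w).1 + (hh d m w).2 ≤ b := by
      apply hb
      refine ⟨w, ?_, rfl⟩
      rw [mem_iUnion₂]
      exact ⟨a, ha, hreach⟩
    rw [hA.2 w hw] at h6
    have h7 := Int.self_le_toNat b
    push_cast at hn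
    omega
  have hle : (pm (fun _ : Sym2 (Fin d → ℤ) => p)).real (⋃ a ∈ A₀, Ev (Nf (Zd d) ∅ a)) ≤
      ∑ a ∈ A₀, Pb p (Nf (Zd d) ∅ a) := measureReal_biUnion_finset_le _ _
  have hsum : ∑ a ∈ A₀, Pb p (Nf (Zd d) ∅ a) = M * Pb p (Nf (Zd d) ∅ 0) := by
    rw [Finset.sum_congr rfl (fun a _ => h3 d p a), Finset.sum_const, hcard, nsmul_eq_mul]
  have hmono := measureReal_mono (μ := pm (fun _ : Sym2 (Fin d → ℤ) => p)) hsub (measure_ne_top _ _)
  have h8 : (1 : ℝ) / 2 ≤ M * Pb p (Nf (Zd d) ∅ 0) := by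
    calc (1 : ℝ) / 2 ≤ _ := hmain
      _ ≤ _ := hmono
      _ ≤ _ := hle
      _ = _ := hsum
  have hMpos : (0 : ℝ) < M := by exact_mod_cast hM
  by_contra h9
  push Not at h9
  nlinarith

end Pool.Agent.H659
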