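import Pool.Agent.H659.Stmts

set_option autoImplicit false

open MeasureTheory Set Filter Topology

namespace Pool.Agent.H659

open Pool.Agent.W783.PC (pm DepOn Inc)

namespace QbAux

theorem bonf (x : ℝ) (h0 : 0 ≤ x) (h1 : x ≤ 1) (D : ℕ) :
    1 - D * x + D * (D - 1) / 2 * x ^ 2 - D * (D - 1) * (D - 2) / 6 * x ^ 3 ≤ (1 - x) ^ D := by
  induction D with
  | zero => simp
  | succ D ih =>
    have hD : 0 ≤ (D : ℝ) * (D - 1) * (D - 2) := by
      rcases D with _ | _ | n
      · simp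
      · simp
      · push_cast
        have : (0 : ℝ) ≤ n := Nat.cast_nonneg n
        have e1 : ((n : ℝ) + 1 + 1) * (n + 1 + 1 - 1) * (n + 1 + 1 - 2)
            = (n + 2) * (n + 1) * n := by ring
        rw [e1]
        positivity
    have h2 := mul_le_mul_of_nonneg_right ih (sub_nonneg.2 h1)
    have h3 : 0 ≤ (D : ℝ) * (D - 1) * (D - 2) * x ^ 4 := mul_nonneg hD (by positivity)
    have e : (1 - x) ^ (D + 1) = (1 - x) ^ D * (1 - x) := pow_succ _ _
    rw [e]
    push_cast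
    refine le_trans ?_ h2
    nlinarith

theorem stp {ε p m : ℝ} {D : ℕ} (hε : 0 < ε) (hε1 : ε ≤ 1) (hD : 16 ≤ D) (hp : 0 ≤ p)
    (hp1 : p ≤ 1) (hDp : D * p ≤ 1 + ε / 8) (hm : ε ≤ m) (hm1 : m ≤ 1) :
    1 - (1 - p * m) ^ D ≤ m * (1 - ε / 8) := by
  have hm0 : 0 ≤ m := by linarith
  have hD' : (16 : ℝ) ≤ D := by exact_mod_cast hD
  set x : ℝ := p * m with hx
  have hx0 : 0 ≤ x := mul_nonneg hp hm0
  have hx1 : x ≤ 1 := mul_le_one₀ hp1 hm0 hm1
  have hb := bonf x hx0 hx1 D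
  set t : ℝ := D * x with ht
  have ht0 : 0 ≤ t := by positivity
  have hxt : 16 * x ≤ t := mul_le_mul_of_nonneg_right hD' hx0
  set T : ℝ := (1 + ε / 8) * m with hT
  have htT : t ≤ T := by
    have e : t = D * p * m := by rw [ht, hx]; ring
    rw [e]
    exact mul_le_mul_of_nonneg_right hDp hm0
  have hT0 : 0 ≤ T := ht0.trans htT
  have hT98 : T ≤ 9 / 8 := by
    have h1 : (1 + ε / 8) ≤ 9 / 8 := by linarith
    have h2 : T ≤ 9 / 8 * 1 := mul_le_mul h1 hm1 hm0 (by norm_num)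
    linarith
  have e1 : 1 - D * x + D * (D - 1) / 2 * x ^ 2 - D * (D - 1) * (D - 2) / 6 * x ^ 3
      = 1 - t + (t ^ 2 - t * x) / 2 - t * (t - x) * (t - 2 * x) / 6 := by
    rw [ht]; ring
  rw [e1] at hb
  have h1 : t * x ≤ t ^ 2 / 16 := by nlinarith
  have h2 : t * (t - x) * (t - 2 * x) ≤ t ^ 3 := by
    have : 0 ≤ t * (x * (3 * t - 2 * x)) := by
      apply mul_nonneg ht0
      apply mul_nonneg hx0
      linarith
    nlinarith
  have h3 : t ^ 3 ≤ 9 / 8 * t ^ 2 := by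
    have : t ≤ 9 / 8 := htT.trans hT98
    have h4 : t ^ 2 * t ≤ t ^ 2 * (9 / 8) := mul_le_mul_of_nonneg_left this (by positivity)
    nlinarith
  have h4 : 1 - (1 - x) ^ D ≤ t - t ^ 2 / 4 := by
    have : 0 ≤ t ^ 2 := by positivity
    linarith
  have h5 : t - t ^ 2 / 4 ≤ T - T ^ 2 / 4 := by
    have : 0 ≤ (T - t) * (1 - (T + t) / 4) := mul_nonneg (by linarith) (by linarith)
    nlinarith
  have h6 : m ≤ T := by
    have : 0 ≤ ε / 8 * m := by positivity
    rw [hT]; linarith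
  have h7 : T - T ^ 2 / 4 ≤ T * (1 - ε / 4) := by
    have : T * ε ≤ T * T := mul_le_mul_of_nonneg_left (hm.trans h6) hT0
    nlinarith
  have h8 : T * (1 - ε / 4) ≤ m * (1 - ε / 8) := by
    have : 0 ≤ m * ε ^ 2 := by positivity
    rw [hT]
    nlinarith
  linarith

end QbAux

theorem t_qb : S_qb := by
  intro ε0 hε0
  set ε : ℝ := min ε0 1 with hεd
  have hε : 0 < ε := lt_min hε0 one_pos
  have hε1 : ε ≤ 1 := min_le_right _ _
  obtain ⟨L, hL⟩ := exists_pow_lt_of_lt_one hε (show 1 - ε / 8 < 1 by linarith)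
  refine ⟨ε / 8, by positivity, 16, L, fun D p hD hp hp1 hDp => ?_⟩
  have key : ∀ n, 0 ≤ qb p D n ∧ qb p D n ≤ max ε ((1 - ε / 8) ^ n) := by
    intro n
    induction n with
    | zero =>
      simp [qb]
    | succ n ih =>
      obtain ⟨h0, h1⟩ := ih
      set m : ℝ := max ε ((1 - ε / 8) ^ n) with hm
      have hm1 : m ≤ 1 := max_le hε1 (pow_le_one₀ (by linarith) (by linarith))
      have hme : ε ≤ m := le_max_left _ _
      have hm0 : 0 ≤ m := hε.le.trans hme
      have hpm : p * m ≤ 1 := mul_le_one₀ hp1 hm0 hm1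
      have hpq : p * qb p D n ≤ p * m := mul_le_mul_of_nonneg_left h1 hp
      have hpq0 : 0 ≤ p * qb p D n := mul_nonneg hp h0
      have h2 : (1 - p * m) ^ D ≤ (1 - p * qb p D n) ^ D :=
        pow_le_pow_left₀ (by linarith) (by linarith) D
      have h3 : (1 - p * qb p D n) ^ D ≤ 1 := pow_le_one₀ (by linarith) (by linarith)
      have h4 := QbAux.stp hε hε1 hD hp hp1 hDp hme hm1
      rw [qb]
      refine ⟨by linarith, ?_⟩
      have h5 : m * (1 - ε / 8) ≤ max ε ((1 - ε / 8) ^ (n + 1)) := by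
        rw [hm, max_mul_of_nonneg _ _ (by linarith), ← pow_succ]
        refine max_le_max ?_ le_rfl
        nlinarith
      linarith
  have h := (key L).2
  refine h.trans (max_le (min_le_left _ _) (hL.le.trans (min_le_left _ _)))

end Pool.Agent.H659
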