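import Pool.Agent.H659.Stmts

set_option autoImplicit false

open MeasureTheory Set Filter Topology

namespace Pool.Agent.H659

open Pool.Agent.W783.PC (pm DepOn Inc)

namespace TwoAux

variable {V : Type}

lemma pb_nonneg (p : unitInterval) (A : Set (Sym2 V) → Prop) : 0 ≤ Pb p A := measureReal_nonneg

lemma pb_mono (p : unitInterval) (A B : Set (Sym2 V) → Prop) (h : ∀ K, A K → B K) :
    Pb p A ≤ Pb p B := by
  unfold Pb
  exact measureReal_mono (fun ω hω => h _ hω)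

lemma fm_br (h2 : S_fmrt) (G : SimpleGraph V) (C T : Set V) (y v : V) : Fm (Br G C T y v) := by
  obtain ⟨hm, hf⟩ := h2 V G (insert y C) T v
  refine ⟨fun K K' hKK h => ⟨hKK h.1, hm K K' hKK h.2⟩, ?_⟩
  rintro K ⟨h1, h3⟩
  obtain ⟨K', hK', hfin, hR⟩ := hf K h3
  refine ⟨insert s(y, v) K', Set.insert_subset h1 hK', hfin.insert _, Set.mem_insert _ _, ?_⟩
  exact hm K' _ (Set.subset_insert _ _) hR

lemma rt_mono (G : SimpleGraph V) (C T : Set V) (u : V) (K : Set (Sym2 V)) (h : RT G C T u K) :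
    RT G ∅ T u K := by
  obtain ⟨_, t, ht, hr⟩ := h
  refine ⟨Set.notMem_empty _, t, ht, hr.mono ?_⟩
  intro a b hab
  exact ⟨hab.1, hab.2.1, Set.notMem_empty _, Set.notMem_empty _⟩

lemma dj_symm (A B : Set (Sym2 V) → Prop) (K : Set (Sym2 V)) (h : Dj A B K) : Dj B A K := by
  obtain ⟨K1, K2, h1, h2, h3, h4, h5⟩ := h
  exact ⟨K2, K1, h2, h1, h3.symm, h5, h4⟩

end TwoAux

open TwoAux in
theorem t_two (h1 : S_bk) (h2 : S_fmrt) (h3 : S_rtiff) (h4 : S_br) : S_two := by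
  classical
  intro V _ G N D p hN C T y t hyC hyT ht0 ht
  obtain ⟨f, hf⟩ := exists_injective_nat V
  have hp0 : (0 : ℝ) ≤ p := p.2.1
  -- the union bound
  have hcov : Ev (Dj (RT G C T y) (RT G C T y)) ⊆
      ⋃ q ∈ (N y).offDiag.filter (fun q => f q.1 < f q.2),
        Ev (Dj (Br G C T y q.1) (Br G C T y q.2)) := by
    intro ω hω
    obtain ⟨K1, K2, hK1, hK2, hd, hR1, hR2⟩ := hω
    rw [h3 V G C T y K1 hyC hyT] at hR1
    rw [h3 V G C T y K2 hyC hyT] at hR2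
    obtain ⟨v, hv, hBv⟩ := hR1
    obtain ⟨w, hw, hBw⟩ := hR2
    have hvw : v ≠ w := by
      rintro rfl
      exact Set.disjoint_left.1 hd hBv.1 hBw.1
    have hD : Dj (Br G C T y v) (Br G C T y w) (opn ω) := ⟨K1, K2, hK1, hK2, hd, hBv, hBw⟩
    simp only [Set.mem_iUnion, Finset.mem_filter, Finset.mem_offDiag]
    rcases lt_or_gt_of_ne (fun h => hvw (hf h) : f v ≠ f w) with hlt | hlt
    · exact ⟨(v, w), ⟨⟨(hN.1 _ _).2 hv, (hN.1 _ _).2 hw, hvw⟩, hlt⟩, hD⟩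
    · exact ⟨(w, v), ⟨⟨(hN.1 _ _).2 hw, (hN.1 _ _).2 hv, hvw.symm⟩, hlt⟩, dj_symm _ _ _ hD⟩
  have hb1 : Pb p (Dj (RT G C T y) (RT G C T y)) ≤
      ∑ q ∈ (N y).offDiag.filter (fun q => f q.1 < f q.2),
        Pb p (Dj (Br G C T y q.1) (Br G C T y q.2)) := by
    unfold Pb
    exact (measureReal_mono hcov (measure_ne_top _ _)).trans (measureReal_biUnion_finset_le _ _)
  have hb2 : ∑ q ∈ (N y).offDiag.filter (fun q => f q.1 < f q.2),
        Pb p (Dj (Br G C T y q.1) (Br G C T y q.2)) ≤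
      ∑ q ∈ (N y).offDiag.filter (fun q => f q.1 < f q.2),
        Pb p (Br G C T y q.1) * Pb p (Br G C T y q.2) :=
    Finset.sum_le_sum fun q _ => h1 V p _ _ (fm_br h2 G C T y q.1) (fm_br h2 G C T y q.2)
  -- symmetrisation
  have hsym : ∑ q ∈ (N y).offDiag.filter (fun q => ¬ f q.1 < f q.2),
        Pb p (Br G C T y q.1) * Pb p (Br G C T y q.2) =
      ∑ q ∈ (N y).offDiag.filter (fun q => f q.1 < f q.2),
        Pb p (Br G C T y q.1) * Pb p (Br G C T y q.2) := by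
    refine Finset.sum_bij' (fun q _ => q.swap) (fun q _ => q.swap) ?_ ?_ ?_ ?_ ?_
    · rintro ⟨v, w⟩ hq
      simp only [Finset.mem_filter, Finset.mem_offDiag, Prod.fst_swap, Prod.snd_swap] at hq ⊢
      refine ⟨⟨hq.1.2.1, hq.1.1, hq.1.2.2.symm⟩, ?_⟩
      exact lt_of_le_of_ne (not_lt.1 hq.2) (fun h => hq.1.2.2 (hf h).symm)
    · rintro ⟨v, w⟩ hq
      simp only [Finset.mem_filter, Finset.mem_offDiag, Prod.fst_swap, Prod.snd_swap] at hq ⊢
      exact ⟨⟨hq.1.2.1, hq.1.1, hq.1.2.2.symm⟩, not_lt.2 hq.2.le⟩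
    · rintro q _
      exact Prod.swap_swap q
    · rintro q _
      exact Prod.swap_swap q
    · rintro ⟨v, w⟩ _
      exact mul_comm _ _
  have htot : ∑ q ∈ (N y).offDiag.filter (fun q => f q.1 < f q.2),
        Pb p (Br G C T y q.1) * Pb p (Br G C T y q.2) =
      1 / 2 * ∑ q ∈ (N y).offDiag, Pb p (Br G C T y q.1) * Pb p (Br G C T y q.2) := by
    rw [← Finset.sum_filter_add_sum_filter_not (N y).offDiag (fun q => f q.1 < f q.2), hsym]
    ring
  have hprod : ∑ q ∈ (N y).offDiag, Pb p (Br G C T y q.1) * Pb p (Br G C T y q.2) ≤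
      ∑ v ∈ N y, ∑ w ∈ N y, Pb p (Br G C T y v) * Pb p (Br G C T y w) := by
    rw [← Finset.sum_product']
    refine Finset.sum_le_sum_of_subset_of_nonneg (fun q hq => ?_)
      fun q _ _ => mul_nonneg (pb_nonneg _ _) (pb_nonneg _ _)
    rw [Finset.mem_offDiag] at hq
    exact Finset.mem_product.2 ⟨hq.1, hq.2.1⟩
  have hbr : ∀ w ∈ N y, Pb p (Br G C T y w) ≤ p * t := by
    intro w hw
    have hyw : G.Adj y w := (hN.1 _ _).1 hw
    rw [(h4 V G p C T y w w hyw).1]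
    refine mul_le_mul_of_nonneg_left ?_ hp0
    exact (pb_mono p _ _ fun K hK => rt_mono G _ T w K hK).trans (ht w hw)
  have hfin : ∑ v ∈ N y, ∑ w ∈ N y, Pb p (Br G C T y v) * Pb p (Br G C T y w) ≤
      (D * p * t) * E1 G N p C T y := by
    unfold E1
    rw [Finset.mul_sum]
    refine Finset.sum_le_sum fun v _ => ?_
    rw [← Finset.mul_sum, mul_comm]
    refine mul_le_mul_of_nonneg_right ?_ (pb_nonneg _ _)
    calc ∑ w ∈ N y, Pb p (Br G C T y w) ≤ ∑ w ∈ N y, (p : ℝ) * t := Finset.sum_le_sum hbr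
      _ = (N y).card * ((p : ℝ) * t) := by rw [Finset.sum_const, nsmul_eq_mul]
      _ ≤ D * ((p : ℝ) * t) := by
          refine mul_le_mul_of_nonneg_right ?_ (mul_nonneg hp0 ht0)
          exact_mod_cast hN.2 y
      _ = D * p * t := by ring
  calc Pb p (Dj (RT G C T y) (RT G C T y)) ≤ _ := hb1.trans hb2
    _ = _ := htot
    _ ≤ 1 / 2 * ((D * p * t) * E1 G N p C T y) := by
        refine mul_le_mul_of_nonneg_left (hprod.trans hfin) (by norm_num)
    _ = 1 / 2 * (D * p * t) * E1 G N p C T y := by ring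

end Pool.Agent.H659
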