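import Pool.Agent.H659.Stmts

set_option autoImplicit false

open MeasureTheory Set Filter Topology

namespace Pool.Agent.H659

open Pool.Agent.W783.PC (pm DepOn Inc)

namespace TXX

variable {V : Type}

theorem fm_edge (e : Sym2 V) : Fm (fun K : Set (Sym2 V) => e ∈ K) := by
  refine ⟨fun K K' h he => h he, fun K he => ⟨{e}, by simpa using he, Set.finite_singleton e, rfl⟩⟩

theorem fm_and {A B : Set (Sym2 V) → Prop} (hA : Fm A) (hB : Fm B) :
    Fm (fun K => A K ∧ B K) := by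
  refine ⟨fun K K' h hK => ⟨hA.1 K K' h hK.1, hB.1 K K' h hK.2⟩, fun K hK => ?_⟩
  obtain ⟨K₁, h1, h2, h3⟩ := hA.2 K hK.1
  obtain ⟨K₂, g1, g2, g3⟩ := hB.2 K hK.2
  exact ⟨K₁ ∪ K₂, Set.union_subset h1 g1, h2.union g2, hA.1 _ _ Set.subset_union_left h3,
    hB.1 _ _ Set.subset_union_right g3⟩

theorem fm_ex {ι : Type} {P : ι → Prop} {A : ι → Set (Sym2 V) → Prop}
    (hA : ∀ i, P i → Fm (A i)) : Fm (fun K => ∃ i, P i ∧ A i K) := by
  refine ⟨fun K K' h ⟨i, hi, hK⟩ => ⟨i, hi, (hA i hi).1 K K' h hK⟩, fun K ⟨i, hi, hK⟩ => ?_⟩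
  obtain ⟨K₁, h1, h2, h3⟩ := (hA i hi).2 K hK
  exact ⟨K₁, h1, h2, i, hi, h3⟩

theorem fm_dd (h4 : S_fmrt) (G : SimpleGraph V) (y v z : V) (hyv : v ≠ y) :
    Fm (DD G y v z) := by
  have h : DD G y v z = fun K => s(y, v) ∈ K ∧ RT G {y} {z} v K := by
    funext K
    simp [DD, RT, hyv]
  rw [h]
  exact fm_and (fm_edge _) (h4 V G {y} {z} v)

theorem pb_nonneg (p : unitInterval) (A : Set (Sym2 V) → Prop) : 0 ≤ Pb p A :=
  measureReal_nonneg

theorem pb_union (p : unitInterval) {ι : Type} (F : Finset ι) (A : ι → Set (Sym2 V) → Prop)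
    (B : Set (Sym2 V) → Prop) (h : ∀ K, B K → ∃ i ∈ F, A i K) :
    Pb p B ≤ ∑ i ∈ F, Pb p (A i) := by
  unfold Pb
  calc (pm (fun _ : Sym2 V => p)).real (Ev B)
      ≤ (pm (fun _ : Sym2 V => p)).real (⋃ i ∈ F, Ev (A i)) := by
        refine measureReal_mono ?_ (measure_ne_top _ _)
        intro ω hω
        obtain ⟨i, hi, hA⟩ := h _ hω
        exact Set.mem_biUnion hi hA
    _ ≤ _ := measureReal_biUnion_finset_le _ _

open scoped Classical in
theorem pb_step (h1 : S_bk) (h3 : S_edge) [Countable V] (G : SimpleGraph V) (N : V → Finset V)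
    (D : ℕ) (p : unitInterval) (hN : Nb G N D) (T : Set V) (Z : V → Set (Sym2 V) → Prop) (n : ℕ)
    (C : Set V) (u : V) (hF : ∀ w ∈ N u, w ∉ C → Fm (XX G T Z n (insert u C) w)) :
    Pb p (XX G T Z (n + 1) C u) ≤
      ∑ w ∈ N u, if w ∈ C then 0 else (p : ℝ) * Pb p (XX G T Z n (insert u C) w) := by
  have hs : ∑ w ∈ N u, (if w ∈ C then 0 else (p : ℝ) * Pb p (XX G T Z n (insert u C) w)) =
      ∑ w ∈ (N u).filter (fun w => w ∉ C), (p : ℝ) * Pb p (XX G T Z n (insert u C) w) := by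
    rw [Finset.sum_filter]
    refine Finset.sum_congr rfl fun w _ => ?_
    by_cases hw : w ∈ C <;> simp [hw]
  rw [hs]
  refine (pb_union p ((N u).filter (fun w => w ∉ C))
    (fun w => Dj (fun K' => s(u, w) ∈ K') (XX G T Z n (insert u C) w)) _ ?_).trans ?_
  · rintro K ⟨w, hw1, hw2, hw3⟩
    exact ⟨w, Finset.mem_filter.mpr ⟨(hN.1 u w).mpr hw1, hw2⟩, hw3⟩
  · refine Finset.sum_le_sum fun w hw => ?_
    rw [Finset.mem_filter] at hw
    have := h1 V p (fun K' => s(u, w) ∈ K') (XX G T Z n (insert u C) w) (fm_edge _)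
      (hF w hw.1 hw.2)
    rwa [h3 V p s(u, w)] at this

end TXX

theorem t_xx (h1 : S_bk) (h2 : S_fmdj) (h3 : S_edge) (h4 : S_fmrt) (h5 : S_meas) : S_xx := by
  classical
  intro V _ G N D p hN T y δ hδ hδ' n
  induction n with
  | zero =>
    intro C u hyC huC
    have huy : u ≠ y := fun h => huC (h ▸ hyC)
    have hfm : ∀ v ∈ N y, Fm (DD G y v u) := fun v hv =>
      TXX.fm_dd h4 G y v u ((hN.1 y v).mp hv).ne'
    refine ⟨fun v hv => h2 V _ _ (hfm v hv) (h4 V G C T u), ?_⟩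
    calc ∑ v ∈ N y, Pb p (XX G T (DD G y v) 0 C u)
        ≤ ∑ v ∈ N y, Pb p (DD G y v u) * Pb p (RT G C T u) :=
          Finset.sum_le_sum fun v hv => h1 V p _ _ (hfm v hv) (h4 V G C T u)
      _ = (∑ v ∈ N y, Pb p (DD G y v u)) * Pb p (RT G C T u) := by rw [Finset.sum_mul]
      _ ≤ δ * Pb p (RT G C T u) :=
          mul_le_mul_of_nonneg_right (hδ' u huy) (TXX.pb_nonneg _ _)
      _ = δ * Phi G N p T 0 C u := rfl
  | succ n ih =>
    intro C u hyC huC
    have hin : ∀ w ∈ N u, w ∉ C → w ∉ insert u C := by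
      intro w hw hwC
      rw [Set.mem_insert_iff, not_or]
      exact ⟨((hN.1 u w).mp hw).ne', hwC⟩
    have hyC' : y ∈ insert u C := Set.mem_insert_of_mem _ hyC
    refine ⟨fun v hv => ?_, ?_⟩
    · have e : XX G T (DD G y v) (n + 1) C u = fun K => ∃ w, (G.Adj u w ∧ w ∉ C) ∧
          Dj (fun K' => s(u, w) ∈ K') (XX G T (DD G y v) n (insert u C) w) K := by
        funext K
        simp only [XX, and_assoc]
      rw [e]
      refine TXX.fm_ex fun w hw => h2 V _ _ (TXX.fm_edge _) ?_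
      exact (ih (insert u C) w hyC' (hin w ((hN.1 u w).mpr hw.1) hw.2)).1 v hv
    · calc ∑ v ∈ N y, Pb p (XX G T (DD G y v) (n + 1) C u)
          ≤ ∑ v ∈ N y, ∑ w ∈ N u, (if w ∈ C then 0 else
              (p : ℝ) * Pb p (XX G T (DD G y v) n (insert u C) w)) :=
            Finset.sum_le_sum fun v hv => TXX.pb_step h1 h3 G N D p hN T _ n C u
              fun w hw hwC => (ih (insert u C) w hyC' (hin w hw hwC)).1 v hv
        _ = ∑ w ∈ N u, ∑ v ∈ N y, (if w ∈ C then 0 else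
              (p : ℝ) * Pb p (XX G T (DD G y v) n (insert u C) w)) := Finset.sum_comm
        _ ≤ ∑ w ∈ N u, δ * (if w ∈ C then 0 else (p : ℝ) * Phi G N p T n (insert u C) w) := by
            refine Finset.sum_le_sum fun w hw => ?_
            by_cases hwC : w ∈ C
            · simp [hwC]
            · simp only [hwC, if_false]
              rw [← Finset.mul_sum]
              have := (ih (insert u C) w hyC' (hin w hw hwC)).2
              calc (p : ℝ) * ∑ v ∈ N y, Pb p (XX G T (DD G y v) n (insert u C) w)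
                  ≤ p * (δ * Phi G N p T n (insert u C) w) :=
                    mul_le_mul_of_nonneg_left this p.2.1
                _ = _ := by ring
        _ = δ * Phi G N p T (n + 1) C u := by
            rw [← Finset.mul_sum]
            rfl

end Pool.Agent.H659
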