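import Pool.Agent.H659.Stmts

set_option autoImplicit false

open MeasureTheory Set Filter Topology

/-!
The critical window: statements of the parts.
-/

namespace Pool.Agent.H659

open Pool.Agent.W783.PC (pm DepOn Inc)

noncomputable section

/-- The cluster of `o`. -/
def Cs {V : Type} (G : SimpleGraph V) (o : V) (K : Set (Sym2 V)) : Set V :=
  {x | (Gr G K ∅).Reachable o x}

/-- The probability that the cluster of `o` has `n` vertices (used for `n ≥ 1`). -/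
def an {V : Type} (G : SimpleGraph V) (o : V) (p : unitInterval) (n : ℕ) : ℝ :=
  Pb p (fun K => (Cs G o K).ncard = n)

/-- `M(p, h)` -/
def Mg {V : Type} (G : SimpleGraph V) (o : V) (p : unitInterval) (h : ℝ) : ℝ :=
  1 - ∑' n : ℕ, an G o p (n + 1) * Real.exp (-h * (n + 1))

/-- `∂M / ∂h` -/
def Xg {V : Type} (G : SimpleGraph V) (o : V) (p : unitInterval) (h : ℝ) : ℝ :=
  ∑' n : ℕ, (n + 1) * an G o p (n + 1) * Real.exp (-h * (n + 1))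

/-- Nonnegative combinations of the functions `z ^ i * (1 - z) ^ j`, `i + j ≤ m`. -/
def PS (m : ℕ) (c : ℕ → ℕ → ℕ) (z : ℂ) : ℂ :=
  ∑ i ∈ Finset.range (m + 1), ∑ j ∈ Finset.range (m + 1 - i), (c i j : ℂ) * z ^ i * (1 - z) ^ j

/-- The probabilities as polynomials: exploration of the cluster. -/
def S_poly : Prop := ∀ (V : Type) [Countable V] (G : SimpleGraph V) (N : V → Finset V) (D : ℕ)
  (o : V), Nb G N D → ∀ n : ℕ, 1 ≤ n → ∃ c c' : ℕ → ℕ → ℕ, ∀ p : unitInterval,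
  ((an G o p n : ℝ) : ℂ) = PS (D * n) c ((p : ℝ) : ℂ) ∧
  ((1 - ∑ k ∈ Finset.Ico 1 n, an G o p k : ℝ) : ℂ) = PS (D * n) c' ((p : ℝ) : ℂ)

/-- Growth in the complex direction. -/
def S_psbd : Prop := ∀ (m : ℕ) (c : ℕ → ℕ → ℕ) (a p y : ℝ), 0 < a → a ≤ p → a ≤ 1 - p →
  0 ≤ (PS m c (p : ℂ)).re ∧ (PS m c (p : ℂ)).im = 0 ∧
  ‖PS m c ((p : ℂ) + (y : ℂ) * Complex.I)‖ ≤ (PS m c (p : ℂ)).re * Real.exp (m * y ^ 2 / (2 * a ^ 2))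

/-- Sprinkling. -/
def S_spr : Prop := ∀ (V : Type) [Countable V] (G : SimpleGraph V) (N : V → Finset V) (D : ℕ)
  (o : V) (p p' : unitInterval) (h m : ℝ), Nb G N D → 0 < h → (p : ℝ) ≤ p' → (p : ℝ) < 1 →
  (∀ x, Mg G x p' h ≤ m) →
  Mg G o p' h - Mg G o p h ≤ D * ((p' - p) / (1 - p)) * Xg G o p h * m

/-- Comparison along characteristics. -/
def S_char : Prop := ∀ (A : ℝ → ℕ → ℝ) (p₀ p₁ K C h₀ : ℝ), p₀ < p₁ → 0 < K → 0 < C → 0 < h₀ →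
  (∀ p ∈ Icc p₀ p₁, ∀ n, 0 ≤ A p n) → (∀ p ∈ Icc p₀ p₁, ∀ n, ∑ k ∈ Finset.range n, A p k ≤ 1) →
  (∀ n, ContinuousOn (fun p => A p n) (Icc p₀ p₁)) →
  (∀ p ∈ Icc p₀ p₁, ∀ p' ∈ Icc p₀ p₁, p ≤ p' → ∀ h : ℝ, 0 < h →
    (∑' n, A p n * Real.exp (-h * (n + 1))) - ∑' n, A p' n * Real.exp (-h * (n + 1)) ≤
      K * (p' - p) * (∑' n, (n + 1) * A p n * Real.exp (-h * (n + 1))) *
        (1 - ∑' n, A p' n * Real.exp (-h * (n + 1)))) →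
  (∀ h : ℝ, 0 < h → h ≤ h₀ → 1 - ∑' n, A p₀ n * Real.exp (-h * (n + 1)) ≤ C * √h) →
  ∀ p ∈ Icc p₀ p₁, ∀ h : ℝ, 0 < h → h + K * (p - p₀) ≤ h₀ →
    1 - ∑' n, A p n * Real.exp (-h * (n + 1)) ≤ C * √h + C ^ 2 * K * (p - p₀)

/-- The analytic extension. -/
def S_ana : Prop := ∀ (D : ℕ) (A : ℝ → ℕ → ℝ) (c c' : ℕ → ℕ → ℕ → ℕ) (a : ℝ), 0 < a → 0 < D →
  (∀ p ∈ Icc a (1 - a), ∀ n, 0 ≤ A p n) →
  (∀ p ∈ Icc a (1 - a), ∀ n, ∑ k ∈ Finset.range n, A p k ≤ 1) →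
  (∀ p ∈ Icc a (1 - a), ∀ n, ((A p n : ℝ) : ℂ) = PS (D * (n + 1)) (c n) (p : ℂ)) →
  (∀ p ∈ Icc a (1 - a), ∀ n, ((1 - ∑ k ∈ Finset.range n, A p k : ℝ) : ℂ) =
    PS (D * (n + 1)) (c' n) (p : ℂ)) →
  ∃ κ B : ℝ, 0 < κ ∧ 0 < B ∧ ∀ h : ℝ, 0 < h → h ≤ 1 → ∃ f : ℂ → ℂ,
    DifferentiableOn ℂ f {z : ℂ | a < z.re ∧ z.re < 1 - a ∧ |z.im| < κ * √h} ∧
    ∀ p y : ℝ, a < p → p < 1 - a → |y| < κ * √h →
      f (p : ℂ) = ((1 - ∑' n, A p n * Real.exp (-h * (n + 1)) : ℝ) : ℂ) ∧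
      ‖f ((p : ℂ) + (y : ℂ) * Complex.I)‖ ≤ B * (1 - ∑' n, A p n * Real.exp (-h * (n + 1)))

/-- Vitali. -/
def S_vit : Prop := ∀ (S κ B α β : ℝ) (f : ℝ → ℂ → ℂ) (g : ℂ → ℂ), 0 < κ → -S < α → α < β → β < S →
  (∀ᶠ h in 𝓝[>] (0 : ℝ), DifferentiableOn ℂ (f h) {z : ℂ | -S < z.re ∧ z.re < S ∧ |z.im| < κ} ∧
    ∀ z : ℂ, -S < z.re → z.re < S → |z.im| < κ → ‖f h z‖ ≤ B) →
  DifferentiableOn ℂ g {z : ℂ | -S < z.re ∧ z.re < S ∧ |z.im| < κ} →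
  (∀ s : ℝ, α < s → s < β → Tendsto (fun h => f h (s : ℂ)) (𝓝[>] 0) (𝓝 (g s))) →
  ∀ s : ℝ, -S < s → s < S → Tendsto (fun h => f h (s : ℂ)) (𝓝[>] 0) (𝓝 (g s))

/-- The subcritical side of the window. -/
def S_sub : Prop := ∀ (A : ℝ → ℕ → ℝ) (pc a b δ : ℝ), 0 < a → 0 < b → 0 < δ →
  (∀ p ∈ Ioo (pc - δ) pc, ∀ n, 0 ≤ A p n) →
  (∀ p ∈ Ioo (pc - δ) pc, HasSum (A p) 1) →
  Tendsto (fun p => (pc - p) * ∑' n : ℕ, (n + 1) * A p n) (𝓝[<] pc) (𝓝 (1 / a)) →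
  Tendsto (fun q : ℝ × ℝ => (∑' n : ℕ, (n + 1) ^ 2 * A q.1 n * Real.exp (-q.2 * (n + 1))) /
    (∑' n : ℕ, (n + 1) * A q.1 n * Real.exp (-q.2 * (n + 1))) ^ 3)
    (𝓝[Iio pc ×ˢ Ioi 0] (pc, 0)) (𝓝 b) →
  (∃ C h₀ : ℝ, 0 < C ∧ 0 < h₀ ∧ ∀ p ∈ Ioo (pc - h₀) pc, ∀ h : ℝ, 0 < h → h ≤ h₀ →
    1 - ∑' n, A p n * Real.exp (-h * (n + 1)) ≤ C * √h) ∧
  ∀ s : ℝ, s < 0 → Tendsto (fun h : ℝ =>
    (1 - ∑' n, A (pc + s * √h) n * Real.exp (-h * (n + 1))) / √h) (𝓝[>] 0)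
    (𝓝 ((√(a ^ 2 * s ^ 2 + 2 * b) + a * s) / b))

/-- The uniform coupling for the size of the cluster. -/
def S_trfn : Prop := ∀ (d : ℕ) (p : unitInterval) (n : ℕ),
  ((Measure.infinitePi (fun _ : (Fin d → ℤ) × Fin d => (volume : Measure unitInterval)))
    {ω : (Fin d → ℤ) × Fin d → unitInterval | Set.ncard {x : Fin d → ℤ |
      (SimpleGraph.fromRel (fun a b : Fin d → ℤ =>
        ∃ i : Fin d, b = a + (Pi.single i (1 : ℤ) : Fin d → ℤ) ∧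
          ((ω (a, i) : ℝ) ≤ p))).Reachable 0 x} = n}).toReal = an (Zd d) 0 p n

/-- translation invariance -/
def S_shn : Prop := ∀ (d : ℕ) (p : unitInterval) (u : Fin d → ℤ) (n : ℕ),
  an (Zd d) u p n = an (Zd d) 0 p n

/-- basic facts -/
def S_anb : Prop := ∀ (V : Type) [Countable V] (G : SimpleGraph V) (o : V) (p : unitInterval),
  (∀ n, MeasurableSet (Ev (fun K : Set (Sym2 V) => (Cs G o K).ncard = n))) ∧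
  (∀ n, 0 ≤ an G o p n) ∧ HasSum (fun n => an G o p (n + 1)) (1 - Pb p (Nf G ∅ o))

end

end Pool.Agent.H659
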